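import Pool.Agent.Lib.MP_07b2d0_nt.Kh.Bas

/-!
Values of functions at places.
-/

set_option autoImplicit false

namespace Pool.Agent.Lib.MP_07b2d0_nt.Kh

open Polynomial WithZero Fh
open scoped IntermediateField

variable {L E : Type} [Field L] [Field E] [Algebra L E] {ℓ m r g : ℕ} {e : Fin m → Fin r → ℕ}
  {D : Dat L m r}
  {v : Plc L E} {z z' : E} {c c' : L}

theorem plc_eq_one (v : Plc L E) (hc : c ≠ 0) : v.1 (algebraMap L E c) = 1 := by
  refine le_antisymm (v.2.2 c) ?_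
  have h1 : v.1 (algebraMap L E c) * v.1 (algebraMap L E c⁻¹) = 1 := by
    rw [← map_mul, ← map_mul, mul_inv_cancel₀ hc, map_one, map_one]
  calc (1 : ℤᵐ⁰) = v.1 (algebraMap L E c) * v.1 (algebraMap L E c⁻¹) := h1.symm
    _ ≤ v.1 (algebraMap L E c) * 1 := mul_le_mul_right (v.2.2 _) _
    _ = _ := mul_one _

theorem vl_zero : Vl v z 0 ↔ v.1 z < 1 := by
  rw [Vl, map_zero, sub_zero]

theorem vl_const (v : Plc L E) (c : L) : Vl v (algebraMap L E c) c := by
  rw [Vl, sub_self, map_zero]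
  exact zero_lt_one

theorem Vl.le_one (h : Vl v z c) : v.1 z ≤ 1 := by
  rw [← sub_add_cancel z (algebraMap L E c)]
  exact v.1.map_add_le (le_of_lt h) (v.2.2 c)

theorem Vl.eq_one (h : Vl v z c) (hc : c ≠ 0) : v.1 z = 1 := by
  rw [← sub_add_cancel z (algebraMap L E c)]
  exact (v.1.map_add_eq_of_lt_right (by rw [plc_eq_one v hc]; exact h)).trans (plc_eq_one v hc)

theorem Vl.unique (h : Vl v z c) (h' : Vl v z c') : c = c' := by
  by_contra hne
  have h1 := v.1.map_sub_lt h' h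
  rw [sub_sub_sub_cancel_left, ← map_sub, plc_eq_one v (sub_ne_zero.2 hne)] at h1
  exact lt_irrefl _ h1

theorem Vl.add (h : Vl v z c) (h' : Vl v z' c') : Vl v (z + z') (c + c') := by
  rw [Vl, map_add, add_sub_add_comm]
  exact v.1.map_add_lt h h'

theorem Vl.sub (h : Vl v z c) (h' : Vl v z' c') : Vl v (z - z') (c - c') := by
  rw [Vl, map_sub (algebraMap L E), sub_sub_sub_comm]
  exact v.1.map_sub_lt h h'

theorem Vl.mul (h : Vl v z c) (h' : Vl v z' c') : Vl v (z * z') (c * c') := by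
  have e1 : z * z' - algebraMap L E (c * c') =
      (z - algebraMap L E c) * z' + algebraMap L E c * (z' - algebraMap L E c') := by
    rw [map_mul]
    ring
  rw [Vl, e1]
  refine v.1.map_add_lt ?_ ?_
  · rw [map_mul]
    exact mul_lt_one_of_lt_of_le h h'.le_one
  · rw [map_mul, mul_comm]
    exact mul_lt_one_of_lt_of_le h' (v.2.2 c)

theorem Vl.pow (h : Vl v z c) (n : ℕ) : Vl v (z ^ n) (c ^ n) := by
  induction n with
  | zero => simpa using vl_const v 1
  | succ n ih =>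
    rw [pow_succ, pow_succ]
    exact ih.mul h

theorem Vl.inv (h : Vl v z c) (hc : c ≠ 0) : Vl v z⁻¹ c⁻¹ := by
  have h1 := h.eq_one hc
  have h0 : z ≠ 0 := fun h0 => by simp [h0] at h1
  have h2 : algebraMap L E c ≠ 0 := (_root_.map_ne_zero _).2 hc
  have e1 : z⁻¹ - algebraMap L E c⁻¹ = -(z - algebraMap L E c) * (z⁻¹ * (algebraMap L E c)⁻¹) := by
    rw [map_inv₀]
    field_simp
    ring
  rw [Vl, e1, map_mul, map_mul, map_inv₀, map_inv₀, h1, plc_eq_one v hc, Valuation.map_neg, inv_one,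
    mul_one, mul_one]
  exact h

theorem Vl.div (h : Vl v z c) (h' : Vl v z' c') (hc : c' ≠ 0) : Vl v (z / z') (c / c') := by
  rw [div_eq_mul_inv, div_eq_mul_inv]
  exact h.mul (h'.inv hc)

theorem Vl.sum {I : Type} (s : Finset I) {f : I → E} {a : I → L} (h : ∀ i ∈ s, Vl v (f i) (a i)) :
    Vl v (∑ i ∈ s, f i) (∑ i ∈ s, a i) := by
  classical
  induction s using Finset.induction_on with
  | empty => simpa using vl_const v 0
  | insert i s hi ih =>
    rw [Finset.sum_insert hi, Finset.sum_insert hi]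
    exact (h i (Finset.mem_insert_self _ _)).add
      (ih fun j hj => h j (Finset.mem_insert_of_mem hj))

theorem Vl.prod {I : Type} (s : Finset I) {f : I → E} {a : I → L}
    (h : ∀ i ∈ s, Vl v (f i) (a i)) : Vl v (∏ i ∈ s, f i) (∏ i ∈ s, a i) := by
  classical
  induction s using Finset.induction_on with
  | empty => simpa using vl_const v 1
  | insert i s hi ih =>
    rw [Finset.prod_insert hi, Finset.prod_insert hi]
    exact (h i (Finset.mem_insert_self _ _)).mul
      (ih fun j hj => h j (Finset.mem_insert_of_mem hj))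

theorem Vl.aeval (h : Vl v z c) (A : L[X]) : Vl v (aeval z A) (A.eval c) := by
  induction A using Polynomial.induction_on' with
  | add p q hp hq =>
    rw [map_add, eval_add]
    exact hp.add hq
  | monomial n a =>
    rw [aeval_monomial, eval_monomial]
    exact (vl_const v a).mul (h.pow n)

/-- `z ^ ℓ - c ^ ℓ = ∏ (z - ζ ^ i c)` (`IsPrimitiveRoot.pow_sub_pow_eq_prod_sub_mul` or
`X_pow_sub_C_eq_prod`); `v z ≤ 1`, so if all factors had valuation one the product would too. -/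
theorem Vl.root (hℓ : 0 < ℓ) {ζ : L} (hζ : IsPrimitiveRoot ζ ℓ) (h : Vl v (z ^ ℓ) (c ^ ℓ)) :
    ∃ c', c' ^ ℓ = c ^ ℓ ∧ Vl v z c' := by
  have e1 := congrArg (Polynomial.aeval z) (X_pow_sub_C_eq_prod hζ hℓ (rfl : c ^ ℓ = c ^ ℓ))
  simp only [map_sub, map_prod, aeval_X, aeval_C, aeval_X_pow] at e1
  rw [Vl, e1, map_prod] at h
  by_contra hne
  refine absurd h (not_lt.2 (Finset.one_le_prod' fun i _ => not_lt.1 fun hi => hne
    ⟨ζ ^ i * c, ?_, hi⟩))
  rw [mul_pow, ← pow_mul, mul_comm i, pow_mul, hζ.pow_eq_one, one_pow, one_mul]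

theorem plc_aeval_le (v : Plc L E) (hz : v.1 z ≤ 1) (A : L[X]) : v.1 (aeval z A) ≤ 1 := by
  induction A using Polynomial.induction_on' with
  | add p q hp hq =>
    rw [map_add]
    exact v.1.map_add_le hp hq
  | monomial n a =>
    rw [aeval_monomial, map_mul, map_pow]
    exact mul_le_one' (v.2.2 a) (pow_le_one' hz n)

/-- No algebraically closed field here: induction on the degree, or `z ^ n` dominates. -/
theorem plc_aeval_inf (v : Plc L E) (hz : 1 < v.1 z) {A : L[X]} (hA : A ≠ 0) :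
    v.1 (aeval z A) = v.1 z ^ A.natDegree := by
  have h1 : v.1 (algebraMap L E (A.coeff A.natDegree) * z ^ A.natDegree) = v.1 z ^ A.natDegree := by
    rw [map_mul, map_pow, coeff_natDegree, plc_eq_one v (leadingCoeff_ne_zero.2 hA), one_mul]
  rw [aeval_eq_sum_range, Finset.sum_range_succ, Algebra.smul_def, ← h1]
  refine v.1.map_add_eq_of_lt_right ?_
  rw [h1]
  refine v.1.map_sum_lt (pow_ne_zero _ (zero_lt_one.trans hz).ne') fun i hi => ?_
  rw [Algebra.smul_def, map_mul, map_pow]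
  exact (mul_le_of_le_one_left' (v.2.2 _)).trans_lt
    (pow_lt_pow_right₀ hz (Finset.mem_range.1 hi))

theorem plc_comap (v : Plc L E) (s : E ≃ₐ[L] E) : ∃ v' : Plc L E, ∀ z, v'.1 z = v.1 (s z) := by
  exact ⟨⟨v.1.comap (s : E →+* E), v.2.1.comp s.surjective,
    fun c => (congrArg v.1 (s.commutes c)).trans_le (v.2.2 c)⟩, fun z => rfl⟩

theorem Cn.zz {x : E} {w : Fin m → E} {τ : L} {η : Fin m → L} (h : Cn v x w τ η)
    (h0 : ∀ j, η j ≠ 0) (u : U ℓ m) : Vl v (zz e D x w u) (zz e D τ η u) := by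
  refine Vl.div ?_ (Vl.prod _ fun j _ => (h.2 j).pow _) (mon_ne h0 u)
  rw [coe_aeval_eq_eval]
  exact h.1.aeval _

theorem Dat.Ok.val_p (h : D.Ok ℓ e) (v : Plc L E) (i : Fin r) (x : E) :
    v.1 (aeval x (D.p i)) = v.1 (x - algebraMap L E (D.a i)) := by
  rw [h.aeval_p, map_mul, plc_eq_one v (h.β i), one_mul]

theorem Dat.Ok.val_G (h : D.Ok ℓ e) {x : E} {i : Fin r} (hv : Vl v x (D.a i)) :
    v.1 (aeval x D.G) = v.1 (x - algebraMap L E (D.a i)) := by
  classical
  rw [Dat.G, map_prod, map_prod, ← Finset.mul_prod_erase _ _ (Finset.mem_univ i), h.val_p,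
    Finset.prod_eq_one, mul_one]
  intro j hj
  exact (hv.aeval _).eq_one (h.eval_p_ne (h.a.ne (Finset.ne_of_mem_erase hj).symm))

theorem Dat.Ok.val_p_one (h : D.Ok ℓ e) {x : E} (hx : v.1 x ≤ 1) {i : Fin r}
    (hv : ¬ Vl v x (D.a i)) : v.1 (aeval x (D.p i)) = 1 := by
  exact le_antisymm (plc_aeval_le v hx _) (by rw [h.val_p]; exact not_lt.1 hv)

theorem cong_of_gen {K : Type} [Field K] [Algebra K E] (v : Valuation E ℤᵐ⁰)
    (hv : ∀ c : K, v (algebraMap K E c) ≤ 1) (s : E →ₐ[K] E) {G : Set E}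
    (hG : ∀ z ∈ G, v z ≤ 1 ∧ v (s z - z) < 1) {z : E} (hz : z ∈ Algebra.adjoin K G) :
    v z ≤ 1 ∧ v (s z - z) < 1 := by
  induction hz using Algebra.adjoin_induction with
  | mem z hz => exact hG z hz
  | algebraMap c => exact ⟨hv c, by rw [s.commutes, sub_self, map_zero]; exact zero_lt_one⟩
  | add y z _ _ hy hz =>
    refine ⟨v.map_add_le hy.1 hz.1, ?_⟩
    rw [map_add, add_sub_add_comm]
    exact v.map_add_lt hy.2 hz.2
  | mul y z _ _ hy hz =>
    refine ⟨by rw [map_mul]; exact mul_le_one' hy.1 hz.1, ?_⟩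
    have e1 : s (y * z) - y * z = (s y - y) * (s z - z) + ((s y - y) * z + (s z - z) * y) := by
      rw [map_mul]
      ring
    rw [e1]
    refine v.map_add_lt ?_ (v.map_add_lt ?_ ?_) <;> rw [map_mul]
    exacts [mul_lt_one_of_lt_of_le hy.2 hz.2.le, mul_lt_one_of_lt_of_le hy.2 hz.1,
      mul_lt_one_of_lt_of_le hz.2 hy.1]

end Pool.Agent.Lib.MP_07b2d0_nt.Kh
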