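import Pool.Agent.Lib.MP_07b2d0_nt.Kh.Defs

/-!
Combinatorics of the exponents.
-/

set_option autoImplicit false

namespace Pool.Agent.Lib.MP_07b2d0_nt.Kh

open Finset

variable {ℓ m r g : ℕ} {e : Fin m → Fin r → ℕ}

theorem wt_zero {u : U ℓ m} (hu : ∀ j, (u j : ℕ) = 0) (i : Fin r) : wt ℓ e u i = 0 := by
  simp [wt, hu]

theorem dd_zero {u : U ℓ m} (hu : ∀ j, (u j : ℕ) = 0) : dd ℓ e u = 0 := by
  simp [dd, wt_zero hu]

theorem Cmb.dd_mul (h : Cmb ℓ e) (u : U ℓ m) : ℓ * dd ℓ e u = ∑ i, wt ℓ e u i % ℓ := by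
  refine Nat.mul_div_cancel' (Nat.dvd_of_mod_eq_zero ?_)
  rw [← sum_nat_mod]
  refine Nat.mod_eq_zero_of_dvd ?_
  simp only [wt]
  rw [sum_comm]
  exact dvd_sum fun j _ => by
    rw [← mul_sum]
    exact (h.sum j).mul_left _

theorem dd_le (e : Fin m → Fin r → ℕ) (u : U ℓ m) : dd ℓ e u ≤ r := by
  rcases Nat.eq_zero_or_pos ℓ with rfl | h
  · simp [dd]
  · refine Nat.div_le_of_le_mul ((sum_le_card_nsmul _ _ ℓ fun i _ => (Nat.mod_lt _ h).le).trans ?_)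
    simp [mul_comm]

theorem Cmb.sep (h : Cmb ℓ e) {u u' : U ℓ m} (hu : u ≠ u') :
    ∃ i, wt ℓ e u i % ℓ ≠ wt ℓ e u' i % ℓ := by
  by_contra! H
  refine hu (funext fun j => Fin.ext ?_)
  obtain ⟨c, hc⟩ := h.row (fun j => u j + (ℓ - u' j)) (fun i => by
    have h1 : ∑ j, (u j + (ℓ - u' j)) * e j i + wt ℓ e u' i = wt ℓ e u i + ℓ * ∑ j, e j i := by
      simp only [wt, mul_sum, ← sum_add_distrib, ← add_mul]
      refine sum_congr rfl fun j _ => congrArg (· * e j i) ?_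
      have := (u' j).2
      omega
    have h2 : ∑ j, (u j + (ℓ - u' j)) * e j i + wt ℓ e u' i ≡ 0 + wt ℓ e u' i [MOD ℓ] := by
      rw [h1, zero_add, Nat.ModEq, Nat.add_mul_mod_self_left, H]
    exact Nat.modEq_zero_iff_dvd.1 (Nat.ModEq.add_right_cancel' _ h2)) j
  have h1 := (u j).2
  have h2 := (u' j).2
  obtain _ | _ | c := c
  · omega
  · omega
  · have : ℓ * (c + 1 + 1) = ℓ * c + ℓ + ℓ := by ring
    omega

theorem Cmb.dd_pos (h : Cmb ℓ e) {u : U ℓ m} (hu : ∃ j, (u j : ℕ) ≠ 0) : 0 < dd ℓ e u := by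
  obtain ⟨j, hj⟩ := hu
  obtain ⟨i, hi⟩ := h.sep (u := u) (u' := fun _ => ⟨0, h.prime.pos⟩)
    fun h0 => hj (by rw [h0])
  rw [wt_zero (u := fun _ => ⟨0, h.prime.pos⟩) fun _ => rfl, Nat.zero_mod] at hi
  have h1 := single_le_sum (f := fun i => wt ℓ e u i % ℓ) (fun _ _ => Nat.zero_le _) (mem_univ i)
  rw [← h.dd_mul] at h1
  exact Nat.pos_of_mul_pos_left ((Nat.pos_of_ne_zero hi).trans_le h1)

theorem Cmb.exists_one (h : Cmb ℓ e) (i : Fin r) : ∃ u : U ℓ m, wt ℓ e u i % ℓ = 1 := by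
  obtain ⟨j, hj⟩ := h.col i
  obtain ⟨t, ht, h1⟩ := Nat.exists_mul_mod_eq_one_of_coprime
    ((Nat.Prime.coprime_iff_not_dvd h.prime).2 hj).symm h.prime.one_lt
  refine ⟨fun k => if k = j then ⟨t, ht⟩ else ⟨0, h.prime.pos⟩, ?_⟩
  rw [wt, sum_eq_single j (fun k _ hk => by simp [hk]) (by simp), if_pos rfl, mul_comm, h1]

theorem Cmb.rank (h : Cmb ℓ e) (hm : 2 ≤ m) (i : Fin r) :
    ∃ i', ∀ t : ZMod ℓ, ∃ j, (e j i' : ZMod ℓ) ≠ t * e j i := by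
  by_contra! H
  obtain ⟨j, hj⟩ := h.col i
  have : Nontrivial (Fin m) := Fin.nontrivial_iff_two_le.2 hm
  obtain ⟨j', hj'⟩ := exists_ne j
  have h1 := h.row (fun k => (if k = j then e j' i else 0) + if k = j' then (ℓ - 1) * e j i else 0)
    (fun i' => by
      obtain ⟨t, ht⟩ := H i'
      rw [← ZMod.natCast_eq_zero_iff]
      simp only [add_mul, sum_add_distrib, ite_mul, zero_mul, sum_ite_eq', mem_univ, if_true]
      push_cast [Nat.cast_sub h.prime.one_le]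
      rw [ht j, ht j', ZMod.natCast_self]
      ring) j'
  simp only [if_neg hj', if_true, zero_add] at h1
  rcases (Nat.Prime.dvd_mul h.prime).1 h1 with h2 | h2
  · have := h.prime.two_le
    have := Nat.le_of_dvd (by omega) h2
    omega
  · exact hj h2

theorem nums (hℓ : ℓ.Prime) (hm : 2 ≤ m) (hg : 2 ≤ g)
    (h : 2 * g + 2 * ℓ ^ m = 2 + r * ℓ ^ (m - 1) * (ℓ - 1)) :
    ℓ ≤ 2 * g ∧ ℓ ^ m ≤ 4 * g ^ 2 ∧ 3 ≤ r ∧ r ≤ 6 * g := by
  obtain ⟨k, rfl⟩ := Nat.exists_eq_add_of_le' hm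
  obtain ⟨s, rfl⟩ := Nat.exists_eq_add_of_le' hℓ.two_le
  have h1 : s + 2 ≤ (s + 2) ^ (k + 1) := Nat.le_self_pow (by omega) _
  rw [show k + 2 - 1 = k + 1 from rfl, show s + 2 - 1 = s + 1 from rfl, pow_succ _ (k + 1)] at h
  rw [pow_succ _ (k + 1)]
  generalize (s + 2) ^ (k + 1) = P at h h1
  have h2 : 2 * (s + 2) < r * (s + 1) := by
    by_contra! h2
    nlinarith [Nat.mul_le_mul_left P h2]
  obtain ⟨d, hd⟩ := Nat.exists_eq_add_of_lt h2
  have h3 : 2 * g = 2 + P * (d + 1) := by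
    have : r * P * (s + 1) = P * (2 * (s + 2) + d + 1) := by rw [← hd]; ring
    nlinarith
  have h4 : P ≤ 2 * g := by nlinarith
  have h5 : d + 1 ≤ 2 * g := by nlinarith
  refine ⟨h1.trans h4, by nlinarith [Nat.mul_le_mul h4 (h1.trans h4)], ?_, ?_⟩
  · by_contra! h6
    nlinarith [Nat.mul_le_mul_right (s + 1) (Nat.lt_succ_iff.1 h6)]
  · by_contra! h6
    nlinarith [Nat.mul_le_mul_right (s + 1) h6.le, Nat.mul_le_mul_right s hg]

end Pool.Agent.Lib.MP_07b2d0_nt.Kh
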