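import Pool.Agent.Lib.MP_07b2d0_nt.Kh.GDer
import Pool.Agent.Lib.MP_07b2d0_nt.Fh.AMain

/-!
The original coordinates in terms of the normalised ones.
-/

set_option autoImplicit false

namespace Pool.Agent.Lib.MP_07b2d0_nt.Kh

open Polynomial NumberField Fh

variable {L E F : Type} [Field L] [NumberField L] [Field E] [Field F] [Algebra L E] {ℓ m r g : ℕ}
  {e : Fin m → Fin r → ℕ} {c₀ : Fin m → L} {a : Fin r → L} {b₀ b₁ ρ : L} {ε : Fin m → L}
  {c : Fin r → 𝓞 L} {s : Fin g → E} {w' : Fin g → Fin m → E}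

/-- `x = (b₀ - ρ b₁ s) / (1 - ρ s)`, `w j = ε j * w' j / (1 - ρ s) ^ ((∑ i, e j i) / ℓ)`,
`x - a i = (b₀ - a i) (1 - ℓ ^ 2 c i s) / (1 - ρ s)`, `1 - ρ s = - ρ (s - ρ⁻¹)`.  `E` is algebraic
over `L[x]` (`tb_alg` for `h.tb`, as `s k ∈ L(x k)`), so `indep_of_alg` applies. -/
theorem Mob'.orig (hm : Mob' ℓ e c₀ a b₀ b₁ ρ ε c)
    (h : KG ℓ e ((nd ℓ m c).map (algebraMap (𝓞 L) L)) s w') :
    ∃ (x : Fin g → E) (w : Fin g → Fin m → E), KG0 ℓ e (od c₀ a) x w ∧
      IsTranscendenceBasis L x ∧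
      (∀ T : Subalgebra L E, Gs s w' (algebraMap L E ρ⁻¹) ⊆ T →
        ∀ k, x k ∈ T ∧ ∀ j, (w k j)⁻¹ ∈ T) ∧
      (∀ (t : E →ₐ[L] E) k l, t (s k) = s l → (∀ j, t (w' k j) = w' l j) →
        t (x k) = x l ∧ ∀ j, t (w k j) = w l j) ∧
      ∀ k, s k = (x k - algebraMap L E b₀) / (algebraMap L E ρ * (x k - algebraMap L E b₁)) := by
  have hρ : algebraMap L E ρ ≠ 0 := (_root_.map_ne_zero _).2 hm.rho
  have hq : ∀ k, 1 - algebraMap L E ρ * s k = -algebraMap L E ρ * (s k - algebraMap L E ρ⁻¹) :=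
    fun k => by
      rw [map_inv₀]
      field_simp
      ring
  have hq0 : ∀ k, 1 - algebraMap L E ρ * s k ≠ 0 := fun k =>
    hq k ▸ mul_ne_zero (neg_ne_zero.2 hρ) (h.sub_ne k _)
  have hb : algebraMap L E b₀ - algebraMap L E b₁ ≠ 0 := by
    rw [← map_sub]
    exact (_root_.map_ne_zero _).2 (sub_ne_zero.2 hm.ne)
  obtain ⟨x, hx⟩ : ∃ x : Fin g → E, ∀ k, x k = (algebraMap L E b₀ -
    algebraMap L E ρ * algebraMap L E b₁ * s k) / (1 - algebraMap L E ρ * s k) := ⟨_, fun _ => rfl⟩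
  obtain ⟨w, hw⟩ : ∃ w : Fin g → Fin m → E, ∀ k j, w k j = algebraMap L E (ε j) * w' k j /
    (1 - algebraMap L E ρ * s k) ^ ((∑ i, e j i) / ℓ) := ⟨_, fun _ _ => rfl⟩
  have hx1 : ∀ k, x k - algebraMap L E b₁ =
      (algebraMap L E b₀ - algebraMap L E b₁) / (1 - algebraMap L E ρ * s k) := fun k => by
    have := hq0 k
    rw [hx]
    field_simp
    ring
  have h5 : ∀ k, s k =
      (x k - algebraMap L E b₀) / (algebraMap L E ρ * (x k - algebraMap L E b₁)) := fun k => by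
    have := hq0 k
    have h0 : x k - algebraMap L E b₀ = s k * (algebraMap L E ρ *
        ((algebraMap L E b₀ - algebraMap L E b₁) / (1 - algebraMap L E ρ * s k))) := by
      rw [hx, ← mul_div_assoc, ← mul_div_assoc, div_sub' this]
      congr 1
      ring
    rw [hx1, h0, mul_div_cancel_right₀ _ (mul_ne_zero hρ (div_ne_zero hb this))]
  have hxa : ∀ k i, x k - algebraMap L E (a i) = algebraMap L E (b₀ - a i) *
      (1 - algebraMap (𝓞 L) E ((ℓ : 𝓞 L) ^ 2 * c i) * s k) / (1 - algebraMap L E ρ * s k) :=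
    fun k i => by
      have := hq0 k
      have h1 := congrArg (algebraMap L E) (hm.int i)
      have h2 : algebraMap (𝓞 L) E ((ℓ : 𝓞 L) ^ 2 * c i) =
          algebraMap L E ((ℓ : L) ^ 2 * c i) := by
        rw [IsScalarTower.algebraMap_apply (𝓞 L) L E, map_mul, map_pow, map_natCast]
      rw [hx, h2]
      rw [map_mul] at h1
      generalize algebraMap L E ((ℓ : L) ^ 2 * c i) = γ at h1 ⊢
      simp only [map_mul, map_sub] at h1 ⊢
      field_simp
      linear_combination s k * h1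
  have alg : ∀ z : E, IsAlgebraic (Algebra.adjoin L (Set.range x)) z := by
    refine tb_alg h.tb (fun c => isAlgebraic_algebraMap
      (⟨_, algebraMap_mem _ c⟩ : Algebra.adjoin L (Set.range x))) fun k => ?_
    have hk : x k ∈ Algebra.adjoin L (Set.range x) := Algebra.subset_adjoin ⟨k, rfl⟩
    rw [h5, div_eq_mul_inv]
    exact (isAlgebraic_algebraMap (⟨_, sub_mem hk (algebraMap_mem _ _)⟩ :
      Algebra.adjoin L (Set.range x))).mul (isAlgebraic_algebraMap
        (⟨_, mul_mem (algebraMap_mem _ _) (sub_mem hk (algebraMap_mem _ _))⟩ :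
          Algebra.adjoin L (Set.range x))).inv
  have ind := indep_of_alg h.ind alg
  refine ⟨x, w, ⟨hm.ok, hm.zeta, ind, fun k j => ?_⟩,
    ind.isTranscendenceBasis_iff_isAlgebraic.2 ⟨alg⟩, fun T hT k => ?_, fun t k l t₁ t₂ => ?_, h5⟩
  · have h1 := h.eq k j
    rw [Dat.map_F, aeval_map_algebraMap, Dat.F, map_mul, map_prod] at h1
    simp only [map_pow, aeval_nd_p] at h1
    rw [hw, div_pow, mul_pow, h1, ← map_pow, hm.eps, ← pow_mul,
      Nat.div_mul_cancel (hm.ok.cmb.sum j), od_F, map_mul, map_mul, map_prod, map_prod]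
    simp only [map_pow, aeval_C, aeval_sub, aeval_X, hxa, div_pow, mul_pow,
      Finset.prod_div_distrib, Finset.prod_mul_distrib, Finset.prod_pow_eq_pow_sum, nd, map_one]
    ring
  · obtain ⟨t₁, t₂, t₃⟩ := Gs_sub.1 hT k
    have t₄ : 1 - algebraMap L E ρ * s k ∈ T := sub_mem (one_mem _) (mul_mem (algebraMap_mem _ _) t₁)
    refine ⟨?_, fun j => ?_⟩
    · rw [hx, hq, div_eq_mul_inv, mul_inv, ← map_neg, ← map_inv₀]
      exact mul_mem (sub_mem (algebraMap_mem _ _) (mul_mem (mul_mem (algebraMap_mem _ _)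
        (algebraMap_mem _ _)) t₁)) (mul_mem (algebraMap_mem _ _) t₂)
    · rw [hw, inv_div, div_eq_mul_inv, mul_inv, ← map_inv₀]
      exact mul_mem (pow_mem t₄ _) (mul_mem (algebraMap_mem _ _) (t₃ j))
  · refine ⟨?_, fun j => ?_⟩ <;>
      simp only [hx, hw, map_div₀, map_mul, map_sub, map_pow, map_one, AlgHom.commutes, t₁, t₂]

variable {k R : Type} [Field k] [CommRing R] [Algebra k R] {f : Fin m → k[X]} {X₀ : R}
  {Y : Fin m → R}

/-- Lift to `W` and use `ext`. -/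
theorem Pres.mem {T : Type} [CommRing T] (h : Pres ℓ f X₀ Y) (φ : R →+* T) (W : Subring T)
    (h0 : ∀ c, φ (algebraMap k R c) ∈ W) (h1 : φ X₀ ∈ W) (h2 : ∀ j, φ (Y j) ∈ W) (z : R) :
    φ z ∈ W := by
  let κ : k →+* W := (φ.comp (algebraMap k R)).codRestrict W h0
  obtain ⟨ψ, p₀, p₁, p₂⟩ := h.lift W κ ⟨_, h1⟩ (fun j => ⟨_, h2 j⟩) fun j => Subtype.ext (by
    have := congrArg φ (h.eq j)
    rw [map_mul, map_pow, map_one, aeval_def, hom_eval₂] at this
    change W.subtype (_ * _ ^ ℓ) = 1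
    rw [map_mul, map_pow, hom_eval₂]
    exact this)
  have := h.ext T φ (W.subtype.comp ψ) (by rw [RingHom.comp_assoc, p₀]; rfl)
    (by rw [RingHom.comp_apply, p₁]; rfl) fun j => by rw [RingHom.comp_apply, p₂]; rfl
  rw [this]
  exact (ψ z).2

/-- The points of the affine curve given by coordinates. -/
theorem Pres.exists_pt {L E I : Type} [Field L] [Field E] [Algebra L E] {D : Dat k m r}
    (hP : Pres ℓ (D.F e) X₀ Y) (i : k →+* L) {x : I → E} {w : I → Fin m → E}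
    (h : KG0 ℓ e (D.map i) x w) : ∃ φ : I → R →+* E,
      (∀ l, (φ l).comp (algebraMap k R) = (algebraMap L E).comp i) ∧ (∀ l, φ l X₀ = x l) ∧
      ∀ l j, φ l (Y j) = (w l j)⁻¹ := by
  choose φ h0 h1 h2 using fun l => hP.lift E ((algebraMap L E).comp i) (x l)
    (fun j => (w l j)⁻¹) fun j => by
      rw [← eval₂_map, ← aeval_def, ← Dat.map_F, ← h.eq, inv_pow,
        mul_inv_cancel₀ (pow_ne_zero _ (h.w_ne l j))]
  exact ⟨φ, h0, h1, h2⟩

/-- `Pres.mem`, `hP.ext`; for `rig` see the proof of `Fh.amain_mob` (the embeddings agree on `L`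
because they agree on `𝓞 L`). -/
theorem Setup0.coord {κ : 𝓞 L →+* F} {ι : F →+* E} {S : Set (Subring F)} (hP : Pres ℓ f X₀ Y)
    (i : k →+* L) {φ : Fin g → R →+* E}
    (h0 : ∀ l, (φ l).comp (algebraMap k R) = (algebraMap L E).comp i) {x : Fin g → E}
    {w : Fin g → Fin m → E} (h1 : ∀ l, φ l X₀ = x l) (h2 : ∀ l j, φ l (Y j) = (w l j)⁻¹)
    (h : Setup0 φ X₀ κ ι S) {D : Dat L m r} {τ : L} (hG : KG ℓ e D s w') (hr : Rts ℓ D τ)
    (h3 : ∀ T : Subalgebra L E, Gs s w' (algebraMap L E τ) ⊆ T →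
      ∀ k, x k ∈ T ∧ ∀ j, (w k j)⁻¹ ∈ T)
    (h4 : ∀ (t : E →ₐ[L] E) k l, t (s k) = s l → (∀ j, t (w' k j) = w' l j) →
      t (x k) = x l ∧ ∀ j, t (w k j) = w l j)
    (h5 : ∀ k, s k = (x k - algebraMap L E b₀) / (algebraMap L E ρ * (x k - algebraMap L E b₁))) :
    Setup' ℓ e D τ s w' κ ι S := by
  have h0' : ∀ l c, φ l (algebraMap k R c) = algebraMap L E (i c) := fun l c =>
    DFunLike.congr_fun (h0 l) c
  have mem : ∀ T : Subalgebra L E, Gs s w' (algebraMap L E τ) ⊆ T → ∀ l z, φ l z ∈ T :=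
    fun T hT l z => hP.mem (φ l) T.toSubring (fun c => h0' l c ▸ algebraMap_mem T _)
      (h1 l ▸ (h3 T hT l).1) (fun j => h2 l j ▸ (h3 T hT l).2 j) z
  refine ⟨hG, hr, h.cst, fun T hT => h.reg T (mem T hT), h.val,
    fun T hs hT => h.nmp T hs (mem _ hT), fun π t t₁ t₂ => h.sym π t fun l => ?_,
    fun Ω _ _ e₁ e₂ he l => ?_⟩
  · obtain ⟨t₃, t₄⟩ := h4 t l (π l) (t₁ l) (t₂ l)
    refine DFunLike.congr_fun (hP.ext E ((t : E →+* E).comp (φ l)) (φ (π l))
      (RingHom.ext fun c => ?_) ?_ fun j => ?_)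
    · simp only [RingHom.comp_apply, h0', RingHom.coe_coe, AlgHom.commutes]
    · simp only [RingHom.comp_apply, h1, RingHom.coe_coe, t₃]
    · simp only [RingHom.comp_apply, h2, RingHom.coe_coe, map_inv₀, t₄]
  · obtain ⟨l', hl⟩ := h.rig Ω e₁ e₂ he l
    have hc : ∀ b : L, e₂ (algebraMap L E b) = e₁ (algebraMap L E b) := fun b => by
      refine DFunLike.congr_fun (IsFractionRing.ringHom_ext (A := 𝓞 L)
        (f1 := e₂.comp (algebraMap L E)) (f2 := e₁.comp (algebraMap L E)) fun r => ?_) b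
      have := DFunLike.congr_fun he (κ r)
      have h1 : ι (κ r) = algebraMap L E (algebraMap (𝓞 L) L r) := DFunLike.congr_fun h.cst r
      rwa [RingHom.comp_apply, RingHom.comp_apply, h1] at this
    simp only [h1] at hl
    exact ⟨l', by simp only [h5, map_div₀, map_mul, map_sub, hl, hc]⟩

end Pool.Agent.Lib.MP_07b2d0_nt.Kh
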