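import Pool.Agent.Lib.MP_07b2d0_nt.Kh.GNf
import Pool.Agent.Lib.MP_07b2d0_nt.Kh.MOrig
import Pool.Agent.Lib.MP_07b2d0_nt.Kh.Cmb
import Pool.Agent.Lib.MP_07b2d0_nt.Fh.Tate
import Pool.Agent.Lib.MP_07b2d0_nt.KG6
import Pool.Agent.Lib.MP_07b2d0_nt.KT4

/-!
The heights of the cross ratios of the branch points.
-/

set_option autoImplicit false

namespace Pool.Agent.Lib.MP_07b2d0_nt.Kh

open CategoryTheory AlgebraicGeometry Polynomial WithZero NumberField Height Fh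
open scoped MonObj IntermediateField

theorem tate_core' {B k R Ω F : Type} [CommRing B] [Field k] [CommRing R] [Algebra k R] [Field Ω]
    [IsAlgClosed Ω] [CharZero Ω] [Algebra k Ω] [Field F] [Algebra Ω F] {b : B →+* k}
    {A : Over (Spec (.of B))} [GrpObj A] [IsCommMonObj A] {j : sp ((algebraMap k R).comp b) ⟶ A}
    {X₀ : R} [IsSeparated A.hom] (hJ : IsJ b X₀ A j) (ρ : R →+* F)
    (hρ : ∀ c, ρ (algebraMap k _ c) = algebraMap Ω F (algebraMap k Ω c))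
    (hx : Transcendental Ω (ρ X₀)) (ht : IntermediateField.adjoin Ω (Set.range ρ) = ⊤)
    (hf : FiniteDimensional Ω⟮ρ X₀⟯ F) (σ : Ω ≃+* Ω) (s : F ≃+* F)
    (h : ∀ c, s (algebraMap Ω F c) = algebraMap Ω F (σ c)) (hs : ∀ a, s (ρ a) = ρ a)
    (hσ : (σ : Ω →+* Ω).comp ((algebraMap k Ω).comp b) = (algebraMap k Ω).comp b) {n : ℕ}
    (hn : n ≠ 0) (hP : ∀ P : sp ((algebraMap k Ω).comp b) ⟶ A, P ^ n = 1 → pm A σ hσ P = P)
    {φ : F} (h0 : φ ≠ 0) (hd : Ks.DivBy Ω n φ) : ∃ ψ : F, s φ = φ * ψ ^ n := by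
  obtain ⟨val, hv, -, hp⟩ := hJ Ω F ρ hρ hx ht
  have hn' : (n : ℤ) ≠ 0 := Int.natCast_ne_zero.2 hn
  have he : ∀ v, val (Plc.act σ s h v) = pm A σ hσ (val v) := fun v => by
    refine pt_ext (IsVal.unique (φ := (algebraMap k Ω).comp b) ?_ (hv _) ?_)
    · rw [Category.assoc, pt_w, ← spec_comp]
      exact congrArg (fun χ => Spec.map (CommRingCat.ofHom χ)) (RingHom.ext fun c => hρ (b c))
    · have := (hv v).act σ s h
      rwa [← Category.assoc, ← spec_comp, show (s : F →+* F).comp ρ = ρ from RingHom.ext hs] at this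
  obtain ⟨D, h₁, h₂, h₃⟩ := (hp fun v => log (v.1 φ)).1 ⟨φ, h0, fun _ => rfl⟩
  obtain ⟨D', rfl⟩ : ∃ D' : Plc Ω F →₀ ℤ, D = (n : ℤ) • D' :=
    ⟨D.mapRange (· / n) (Int.zero_ediv _), Finsupp.ext fun v => by
      rw [Finsupp.smul_apply, Finsupp.mapRange_apply, smul_eq_mul, Int.mul_ediv_cancel'
        ((congrFun h₁ v).symm ▸ hd v.1 v.2.2)]⟩
  let dg : (Plc Ω F →₀ ℤ) →+ ℤ := Finsupp.liftAddHom fun _ => AddMonoidHom.id ℤ
  let sm : (Plc Ω F →₀ ℤ) →+ Additive (sp ((algebraMap k Ω).comp b) ⟶ A) :=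
    Finsupp.liftAddHom fun v => zmultiplesHom _ (Additive.ofMul (val v))
  have hdg : ∀ D : Plc Ω F →₀ ℤ, (D.sum fun _ i => i) = dg D := fun _ => rfl
  have hsm : ∀ D : Plc Ω F →₀ ℤ, (D.prod fun v i => val v ^ i) = (sm D).toMul := fun _ => rfl
  rw [hdg, map_zsmul, smul_eq_mul, mul_eq_zero, or_iff_right hn'] at h₂
  rw [hsm, map_zsmul, toMul_zsmul, zpow_natCast] at h₃
  have h₄ : dg (D'.equivMapDomain (Plc.act σ s h)) = dg D' := by
    rw [← hdg, ← hdg, Finsupp.sum_equivMapDomain]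
  have h₅ : (sm (D'.equivMapDomain (Plc.act σ s h))).toMul = (sm D').toMul := by
    rw [← hP _ h₃, ← hsm, ← hsm, Finsupp.prod_equivMapDomain, map_finsuppProd]
    simp only [he, map_zpow]
  obtain ⟨ψ, hψ, h₆⟩ := (hp _).2 ⟨D'.equivMapDomain (Plc.act σ s h) - D', rfl,
    by rw [hdg, map_sub, h₄, sub_self], by rw [hsm, map_sub, toMul_sub, h₅, div_self']⟩
  have h1 : s φ ≠ 0 := (map_ne_zero s).2 h0
  obtain ⟨c, hc⟩ := const_of_plc hx hf (z := s φ / (φ * ψ ^ n)) fun v => by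
    have a₁ := congrFun h₁ v
    have a₂ := congrFun h₁ ((Plc.act σ s h).symm v)
    have a₃ := h₆ v
    simp only [Finsupp.smul_apply, smul_eq_mul, Finsupp.sub_apply,
      Finsupp.equivMapDomain_apply] at a₁ a₂ a₃
    change _ = log (v.1 (s φ)) at a₂
    rw [map_div₀, map_mul, map_pow, ← exp_log ((map_ne_zero v.1).2 h1),
      ← exp_log ((map_ne_zero v.1).2 h0), ← exp_log ((map_ne_zero v.1).2 hψ), ← a₁, ← a₂, ← a₃,
      ← exp_nsmul, ← exp_add, ← exp_sub, ← exp_zero, exp_le_exp, nsmul_eq_mul]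
    exact le_of_eq (by ring)
  obtain ⟨c', rfl⟩ := IsAlgClosed.exists_pow_nat_eq c (Nat.pos_of_ne_zero hn)
  exact ⟨ψ * algebraMap Ω F c', by
    rw [mul_pow, ← map_pow, hc, ← mul_assoc, mul_div_cancel₀ _ (mul_ne_zero h0 (pow_ne_zero _ hψ))]⟩

open Ks in
theorem kum_bound : ∃ c : ℕ × ℕ → ℕ, Primrec c ∧
    ∀ (ℓ N m r : ℕ) (K F : Type) [Field K] [NumberField K] [Field F]
      [Algebra (AlgebraicClosure K) F]
      [MulSemiringAction (AlgebraicClosure K ≃ₐ[K] AlgebraicClosure K) F] (x : F) (y : Fin m → F)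
      (a : Fin r → K) (e : Fin m → Fin r → ℕ),
      ℓ.Prime → ℓ ∣ N → 0 < N → (∀ p : ℕ, p.Prime → (p : ℤ) ∣ discr K → p ∣ N) →
      Ks.Curve K (AlgebraicClosure K) x →
      (∀ j, Ks.Kummer K (AlgebraicClosure K) ℓ x (y j) a (e j)) → Function.Injective a →
      (∀ j, ℓ ∣ ∑ i, e j i) → (∀ i, ∃ j, ¬ ℓ ∣ e j i) →
      (∃ i i', ∀ u : ZMod ℓ, ∃ j, (e j i' : ZMod ℓ) ≠ u * e j i) →
      (ℓ = 2 → ∀ p l, p ≠ l → ∃ i, i ≠ p ∧ i ≠ l ∧ ∃ j, Odd (e j i + e j p + e j l)) →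
      Ks.TateUnramified K (AlgebraicClosure K) F ℓ N →
      ∀ p q s t, [p, q, s, t].Nodup → logHeight₁ (cr a p q s t) ≤ c (N, Module.finrank ℚ K) := by
  obtain ⟨c, hc, H⟩ := global_col
  refine ⟨fun z => c (par z.1 z.2), hc.comp pr_par, ?_⟩
  intro ℓ N m r K F _ _ _ _ _ x y a e hℓ hN hN0 hd hC hK ha hs h1 h2 h3 hT
    p q s t hq
  choose hy c₀ h0 he using hK
  have := Fact.mk hℓ
  refine H K (Fin r) _ (2 * N) ℓ m a e (small_par hN0.ne' hd) (hN.mul_left 2) ha (fun i hi => ?_)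
    (fun u => ?_) ?_ ?_ (fun h p l hpl => ?_) p q s t hq
  · obtain ⟨j, hj⟩ := h1 i
    exact hj ((ZMod.natCast_eq_zero_iff _ _).mp (congrFun hi j))
  · have hG : Ks.Gen ℓ x (∏ j, y j ^ u j) (algebraMap K (AlgebraicClosure K) (∏ j, c₀ j ^ u j))
        (fun i => algebraMap K (AlgebraicClosure K) (a i)) (Ks.wt e u) := by
      refine ⟨hℓ, hC.2.2.1, hC.2.2.2, ?_, ?_, (algebraMap K _).injective.comp ha, ?_⟩
      · have e1 : ∀ j, (y j ^ u j) ^ ℓ = (y j ^ ℓ) ^ u j := fun j => by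
          rw [← pow_mul, mul_comm, pow_mul]
        rw [← Finset.prod_pow]
        simp only [e1, he, mul_pow, Finset.prod_mul_distrib, map_prod, map_pow, Ks.wt,
          ← Finset.prod_pow_eq_pow_sum, ← Finset.prod_pow]
        rw [Finset.prod_comm]
        simp only [← pow_mul, mul_comm]
      · simp [Finset.prod_eq_zero_iff, h0]
      · simp only [Ks.wt]
        rw [Finset.sum_comm]
        exact Finset.dvd_sum fun j _ => by
          rw [← Finset.mul_sum]; exact (hs j).mul_left _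
    exact (local_K' hG hC (fun σ => by simp [Finset.smul_prod', smul_pow', hy _ σ]) hN hT).mono
      (dvd_mul_left _ _)
  · funext j
    simp only [col, Finset.sum_apply, Pi.zero_apply, ← Nat.cast_sum]
    exact (ZMod.natCast_eq_zero_iff _ _).mpr (hs j)
  · obtain ⟨i, i', h⟩ := h2
    refine ⟨i, i', fun ⟨u, hu⟩ => ?_⟩
    obtain ⟨j, hj⟩ := h u
    exact hj (congrFun hu j)
  · obtain ⟨i, hi, hi', j, hj⟩ := h3 h p l hpl
    refine ⟨i, hi, hi', fun h' => ?_⟩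
    subst h
    have e1 : ((e j i : ℕ) : ZMod 2) = ((e j p + e j l : ℕ) : ZMod 2) := by
      simpa [col] using congrFun h' j
    rw [ZMod.natCast_eq_natCast_iff'] at e1
    rw [Nat.odd_iff] at hj
    omega

theorem IsJ.exists_tate {k R : Type} [Field k] [NumberField k] [CommRing R] [Algebra k R]
    {N N' ℓ m r : ℕ} {A : Over (Spec (.of (ON k N)))} [GrpObj A] [IsCommMonObj A] [IsProper A.hom]
    {j : sp ((algebraMap k R).comp (algebraMap (ON k N) k)) ⟶ A} {X₀ : R} {Y : Fin m → R}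
    (hJ : IsJ (algebraMap (ON k N) k) X₀ A j) {c₀ : Fin m → k} {a : Fin r → k}
    {e : Fin m → Fin r → ℕ} (hP : Pres ℓ ((od c₀ a).F e) X₀ Y) (hD : (od c₀ a).Ok ℓ e)
    (hN : N ∣ N') (hℓ : ℓ ∣ N') (h0 : N' ≠ 0) :
    ∃ (F : Type) (_ : Field F) (_ : Algebra (AlgebraicClosure k) F)
      (_ : MulSemiringAction (AlgebraicClosure k ≃ₐ[k] AlgebraicClosure k) F) (x : F)
      (y : Fin m → F), Ks.Curve k (AlgebraicClosure k) x ∧
      (∀ n, Ks.Kummer k (AlgebraicClosure k) ℓ x (y n) a (e n)) ∧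
      Ks.TateUnramified k (AlgebraicClosure k) F ℓ N' := by
  have : CharZero (AlgebraicClosure k) :=
    charZero_of_injective_algebraMap (algebraMap k _).injective
  have : NeZero ℓ := ⟨hD.pos.ne'⟩
  obtain ⟨F, _, _, x, w, h⟩ := exists_KG Unit (hD.map (algebraMap k (AlgebraicClosure k)))
    (HasEnoughRootsOfUnity.exists_primitiveRoot _ ℓ)
  choose s h₁ h₂ h₃ using fun σ : AlgebraicClosure k ≃ₐ[k] AlgebraicClosure k =>
    h.lift' (σ : AlgebraicClosure k →+* AlgebraicClosure k) (x' := x) (w' := w) (by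
      rw [Dat.map_map, show RingHom.comp _ _ = algebraMap k _ from RingHom.ext σ.commutes]
      exact h.toKG0)
  let act : (AlgebraicClosure k ≃ₐ[k] AlgebraicClosure k) →* (F →+* F) :=
    { toFun := s
      map_one' := h.ext (h₁ 1) (h₂ 1) (h₃ 1)
      map_mul' := fun σ τ => h.ext (fun c => (h₁ _ c).trans ((h₁ σ _).symm.trans
        (congrArg (s σ) (h₁ τ c).symm))) (fun l => (h₂ _ l).trans ((h₂ σ l).symm.trans
        (congrArg (s σ) (h₂ τ l).symm))) fun l n => (h₃ _ l n).trans ((h₃ σ l n).symm.trans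
        (congrArg (s σ) (h₃ τ l n).symm)) }
  let _ := MulSemiringAction.compHom F act
  have h1 : K1 ℓ e _ (x ()) (w ()) := h
  obtain ⟨ρ, r0, r1, r2⟩ := hP.exists_pt _ h.toKG0
  refine ⟨F, _, _, _, x (), w (), ⟨h₁, fun σ => h₂ σ (), (h.ind.transcendental ()), h1.fd⟩,
    fun n => ⟨fun σ => h₃ σ () n, c₀ n, hD.c n, ?_⟩, fun σ hi n φ hφ hd => ?_⟩
  · rw [h.eq, Dat.map_F, od_F]
    simp [Polynomial.map_prod]
  have hs : (MulSemiringAction.toRingHom _ F σ).comp (ρ ()) = ρ () := hP.ext _ _ _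
    (by rw [RingHom.comp_assoc, r0]
        exact RingHom.ext fun c => (h₁ σ _).trans (congrArg _ (σ.commutes c)))
    (by rw [RingHom.comp_apply, r1]; exact h₂ σ ())
    fun n => by rw [RingHom.comp_apply, r2, map_inv₀]; exact congrArg _ (h₃ σ () n)
  exact tate_core' hJ (ρ ()) (DFunLike.congr_fun (r0 ())) (r1 () ▸ (h.ind.transcendental ()))
    (h.eq_top (fun l => IntermediateField.subset_adjoin _ _ ⟨X₀, r1 l⟩) fun l n =>
      inv_inv (w l n) ▸ inv_mem (IntermediateField.subset_adjoin _ _ ⟨Y n, r2 l n⟩))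
    (r1 () ▸ h1.fd) σ.toRingEquiv (MulSemiringAction.toRingEquiv _ F σ) (h₁ σ)
    (DFunLike.congr_fun hs) (RingHom.ext fun c => σ.commutes _)
    (pow_ne_zero n hD.pos.ne') (nos_inertial hN h0 ⟨n, pow_dvd_pow_of_dvd hℓ n⟩ hi _) hφ hd

end Pool.Agent.Lib.MP_07b2d0_nt.Kh
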