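import Pool.Agent.Lib.MP_07b2d0_nt.Kh.GAut
import Pool.Agent.Lib.MP_07b2d0_nt.Fh.ASym

/-!
Constants, and the norm of the determinant.
-/

set_option autoImplicit false

namespace Pool.Agent.Lib.MP_07b2d0_nt.Kh

open Polynomial NumberField Fh

variable {L E ι : Type} [Field L] [Field E] [Algebra L E] {ℓ m r g : ℕ} {e : Fin m → Fin r → ℕ}
  {D : Dat L m r}

/-- `MvPolynomial ι L` is integrally closed (unique factorisation); `hx.aevalEquiv`,
`hx.aevalEquivField`, or `IntermediateField.algebraAdjoinAdjoin` instances. -/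
theorem poly_of_integral {x : ι → E} (hx : AlgebraicIndependent L x) {z : E}
    (h1 : z ∈ IntermediateField.adjoin L (Set.range x))
    (h2 : IsIntegral (Algebra.adjoin L (Set.range x)) z) :
    ∃ P : MvPolynomial ι L, MvPolynomial.aeval x P = z := by
  open IntermediateField.algebraAdjoinAdjoin in
  have := IsIntegrallyClosed.of_equiv hx.aevalEquiv.toRingEquiv
  obtain ⟨y, hy⟩ := (IsIntegrallyClosed.isIntegral_iff (R := Algebra.adjoin L (Set.range x))
    (K := IntermediateField.adjoin L (Set.range x)) (x := ⟨z, h1⟩)).1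
    ((isIntegral_algebraMap_iff (B := E) Subtype.val_injective).1 h2)
  obtain ⟨P, hP⟩ := (Algebra.adjoin_range_eq_range_aeval L x).le y.2
  exact ⟨P, hP.trans (congrArg Subtype.val hy)⟩

open scoped IntermediateField in
theorem gcon_step {K K' : IntermediateField L E} (hle : K ≤ K') {t z : E}
    (ht : Transcendental K' t) (hz : z ∈ K') (h : z ∈ K⟮t⟯) : z ∈ K := by
  obtain ⟨A, B, h⟩ := (IntermediateField.mem_adjoin_simple_iff K z).1 h
  by_cases hB : aeval t B = 0
  · rw [h, hB, div_zero]
    exact zero_mem _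
  let φ : K →+* K' := IntermediateField.inclusion hle
  have h1 : ∀ P : K[X], aeval t (P.map φ) = aeval t P := fun P => by
    rw [aeval_def, eval₂_map]
    rfl
  have h2 : A.map φ = C ⟨z, hz⟩ * B.map φ := transcendental_iff_injective.1 ht (by
    rw [map_mul, h1, h1, aeval_C]
    exact (div_eq_iff hB).1 h.symm)
  have h3 := congrArg (fun P => ((P.coeff B.natDegree : K') : E)) h2
  simp only [coeff_C_mul, coeff_map] at h3
  have h4 : ((B.coeff B.natDegree : K) : E) ≠ 0 := fun e =>
    hB (by rw [leadingCoeff_eq_zero.1 (Subtype.ext e), map_zero])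
  exact (show (A.coeff B.natDegree : E) / _ = z from (div_eq_iff h4).2 h3) ▸
    div_mem (A.coeff _).2 (B.coeff _).2

variable [CharZero L] {x : Fin g → E} {w : Fin g → Fin m → E}

/-- `KG.fix` gives `z ∈ L(x)` (an `s` as there fixes `kp L x w k` pointwise).  Then remove the
variables one at a time: if `z ∈ L(x l : l ∈ insert k T)`, write `z = A(x k) / B(x k)` over
`K = L(x l : l ∈ T) ≤ kp L x w k`; `A - C z * B` is a polynomial over `kp L x w k` that vanishes
at the transcendental `x k` (`KG0.one`), so it is zero and `z ∈ K`. -/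
theorem KG.const (h : KG ℓ e D x w) {z : E} (hz : ∀ k, z ∈ kp L x w k) :
    ∃ c : L, algebraMap L E c = z := by
  obtain ⟨ζ, hζ⟩ := h.zeta
  have h1 := h.fix hζ (z := z) fun k j s h1 h2 =>
    DFunLike.congr_fun (IntermediateField.adjoin_algHom_ext L
      (φ₁ := s.comp (kp L x w k).val) (φ₂ := (kp L x w k).val) (by
        rintro _ ⟨l, hl, rfl | ⟨i, rfl⟩⟩
        exacts [h1 l, (h2 l i).trans (by rw [if_neg fun e => hl e.1]; exact one_mul _)])) ⟨z, hz k⟩
  have key : ∀ T : Finset (Fin g), z ∈ IntermediateField.adjoin L (x '' T) →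
      ∃ c : L, algebraMap L E c = z := fun T => by
    induction T using Finset.induction_on with
    | empty => simp [IntermediateField.mem_bot]
    | insert k T hk ih =>
      intro h2
      rw [Finset.coe_insert, Set.image_insert_eq, ← Set.union_singleton,
        ← IntermediateField.adjoin_adjoin_left] at h2
      refine ih (gcon_step (IntermediateField.adjoin_le_iff.2 ?_) (h.toKG0.one k).trans (hz k) h2)
      rintro _ ⟨l, hl, rfl⟩
      exact x_mem_kp fun e => hk (e ▸ hl)
  exact key Finset.univ (by simpa using h1)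

end Pool.Agent.Lib.MP_07b2d0_nt.Kh
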