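import Pool.Agent.Lib.MP_07b2d0_nt.Kh.GInd

/-!
The determinant does not vanish.
-/

set_option autoImplicit false

namespace Pool.Agent.Lib.MP_07b2d0_nt.Kh

open Polynomial Fh

variable {L E ι : Type} [Field L] [Field E] [Algebra L E] {ℓ m r g : ℕ} {e : Fin m → Fin r → ℕ}
  {D : Dat L m r}

theorem gdel_mem {n : ℕ} {A : Matrix (Fin n) (Fin n) E} {K : IntermediateField L E}
    (h : ∀ i j, A i j ∈ K) : A.det ∈ K := by
  rw [Matrix.det_apply']
  exact sum_mem fun σ _ => mul_mem (intCast_mem K _) (prod_mem fun i _ => h _ _)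

/-- Prove by induction on `n` that `(M.submatrix a b).det ≠ 0` for injective
`a b : Fin n → Fin g`: expand along the column `0` (`Matrix.det_succ_column_zero`); the minors lie
in `K (b 0)` and are nonzero by induction. -/
theorem det_ne_of_indep (M : Matrix (Fin g) (Fin g) E) (K : Fin g → IntermediateField L E)
    (h1 : ∀ J k l, l ≠ k → M J l ∈ K k) (h2 : ∀ k, LinearIndependent (K k) fun J => M J k) :
    M.det ≠ 0 := by
  have key : ∀ (n : ℕ) (a b : Fin n → Fin g), a.Injective → b.Injective →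
      (M.submatrix a b).det ≠ 0 := fun n => by
    induction n with
    | zero => simp
    | succ n ih =>
      intro a b ha hb h0
      have := Fintype.linearIndependent_iff.1 ((h2 (b 0)).comp a ha) (fun i =>
        ⟨(-1) ^ (i : ℕ) * ((M.submatrix a b).submatrix i.succAbove Fin.succ).det,
          mul_mem (pow_mem (neg_mem (one_mem _)) _)
            (gdel_mem fun p q => h1 _ _ _ (hb.ne (Fin.succ_ne_zero q)))⟩) (by
        rw [← h0, Matrix.det_succ_column_zero]
        exact Finset.sum_congr rfl fun i _ => mul_right_comm _ _ _) 0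
      refine ih (a ∘ Fin.succAbove 0) (b ∘ Fin.succ) (ha.comp Fin.succAbove_right_injective)
        (hb.comp (Fin.succ_injective _)) ?_
      simpa using congrArg Subtype.val this
  exact key g id id Function.injective_id Function.injective_id

/-- Put `C J = Matrix.cramer M (Pi.single J 1) k = (M.updateCol k (Pi.single J 1)).det ∈ K`.
`Matrix.mulVec_cramer` gives `det M * c J = z * C J` for `z = ∑ J, c J * M J k`, and
`∑ J, M J k * C J = det M`, so some `C J ≠ 0`. -/
theorem div_det_mem (M : Matrix (Fin g) (Fin g) E) (K : IntermediateField L E) (k : Fin g)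
    (h1 : ∀ J l, l ≠ k → M J l ∈ K) (h0 : M.det ≠ 0) {c : Fin g → E} (hc : ∀ J, c J ∈ K)
    (h : ∀ l, l ≠ k → ∑ J, c J * M J l = 0) : (∑ J, c J * M J k) / M.det ∈ K := by
  have hC : ∀ J, M.adjugate k J ∈ K := fun J => by
    have := congrFun (M.cramer_eq_adjugate_mulVec (Pi.single J 1)) k
    rw [Matrix.mulVec_single_one, Matrix.cramer_apply] at this
    refine (show _ = M.adjugate k J from this) ▸ gdel_mem fun p q => ?_
    rw [Matrix.updateCol_apply, Pi.single_apply]
    split_ifs with h2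
    exacts [one_mem _, zero_mem _, h1 _ _ h2]
  obtain ⟨J, hJ⟩ : ∃ J, M.adjugate k J ≠ 0 := by
    by_contra! h2
    simpa [Matrix.mul_apply, h2, h0.symm] using congrFun₂ M.adjugate_mul k k
  have h3 : Matrix.vecMul c M = Pi.single k (∑ J, c J * M J k) := funext fun l => by
    rw [Pi.single_apply]
    split_ifs with h2
    exacts [h2 ▸ rfl, h l h2]
  have h4 := congrFun (congrArg (Matrix.vecMul · M.adjugate) h3) J
  simp only [Matrix.vecMul_vecMul, Matrix.mul_adjugate, Matrix.vecMul_smul, Matrix.vecMul_one,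
    Matrix.single_vecMul, Pi.smul_apply, smul_eq_mul] at h4
  rw [(div_eq_div_iff h0 hJ).2 (h4.symm.trans (mul_comm _ _))]
  exact div_mem (hc J) (hC J)

variable [CharZero L] {x : Fin g → E} {w : Fin g → Fin m → E}

/-- `det_ne_of_indep`, `K0.indep_ps` for `h.one k`, `zz_map`, `zz_mem_kp`. -/
theorem KG0.Del_ne (h : KG0 ℓ e D x w) (en : Fin g ≃ JJ ℓ e) :
    Del en x (fun k => zz e D (x k) (w k)) ≠ 0 := by
  refine det_ne_of_indep _ (kp L x w)
    (fun J k l hl => mul_mem (pow_mem (x_mem_kp hl) _) (zz_mem_kp hl _)) fun k => ?_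
  have := (K0.indep_ps (h.one k)).comp en en.injective
  rwa [zz_map] at this

/-- Each factor is `Del` for the points `w' k j = (κ (θ k j))⁻¹ * w k j` (`zz_tw`, `map_mon`). -/
theorem KG0.NN_ne (h : KG0 ℓ e D x w) {O : Type} [CommRing O] [IsDomain O] [NeZero ℓ]
    (κ : O →+* E) (en : Fin g ≃ JJ ℓ e) : NN κ en x (fun k => zz e D (x k) (w k)) ≠ 0 := by
  refine Finset.prod_ne_zero_iff.2 fun θ _ => ?_
  have := KG0.Del_ne (w := fun k j => (κ ((θ k j : Oˣ) : O))⁻¹ * w k j)
    ⟨h.ok, h.zeta, h.ind, fun k j => by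
      rw [mul_pow, inv_pow, ← map_pow, (mem_rootsOfUnity' _ _).1 (θ k j).2, map_one, inv_one,
        one_mul, h.eq]⟩ en
  refine fun e => this (Eq.trans (congrArg _ (funext₂ fun k u => ?_)) e)
  rw [zz_tw]
  simp [mon]

end Pool.Agent.Lib.MP_07b2d0_nt.Kh
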