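import Pool.Agent.Lib.MP_07b2d0_nt.Kh.GDer
import Pool.Agent.Lib.MP_07b2d0_nt.Fh.N2
import Pool.Agent.Lib.MP_07b2d0_nt.Fh.N3

/-!
The function field of the Néron model, and the bound for the height.
-/

set_option autoImplicit false
set_option backward.isDefEq.respectTransparency false

namespace Pool.Agent.Lib.MP_07b2d0_nt.Kh

open CategoryTheory Limits AlgebraicGeometry Polynomial NumberField MeasureTheory Fh
open scoped MonObj

section

variable {B k R R' R'' : Type} [CommRing B] [Field k] [CommRing R] [Algebra k R] [CommRing R']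
  [CommRing R''] {b : B →+* k} {A : Over (Spec (.of B))}

theorem jq_left (j : sp ((algebraMap k R).comp b) ⟶ A) (κ : k →+* R') (ρ : R →+* R') (h) :
    (jq j κ ρ h).left = sm ρ ≫ j.left := rfl

variable [GrpObj A] [IsCommMonObj A]

theorem sm_Ph (j : sp ((algebraMap k R).comp b) ⟶ A) (ψ : R' →+* R'') {κ : k →+* R'}
    {κ' : k →+* R''} (hκ : ψ.comp κ = κ') {g : ℕ} {ρ : Fin g → R →+* R'} {ρ' : Fin g → R →+* R''}
    (h h') (hρ : ∀ i, ψ.comp (ρ i) = ρ' i) : sm ψ ≫ (Ph j κ ρ h).left = (Ph j κ' ρ' h').left := by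
  have : pm A ψ (show ψ.comp (κ.comp b) = κ'.comp b from hκ ▸ rfl) (Ph j κ ρ h) =
      Ph j κ' ρ' h' := by
    rw [Ph, map_prod]
    exact Finset.prod_congr rfl fun i _ => pt_ext (by
      rw [pm_left, jq_left, jq_left, ← Category.assoc, sm_comp, hρ])
  exact congrArg CommaMorphism.left this

theorem Ph_perm (j : sp ((algebraMap k R).comp b) ⟶ A) (κ : k →+* R') {g : ℕ}
    (ρ : Fin g → R →+* R') (h) (π : Equiv.Perm (Fin g)) :
    Ph j κ (fun i => ρ (π i)) (fun i => h (π i)) = Ph j κ ρ h :=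
  Equiv.prod_comp π fun i => jq j κ (ρ i) (h i)

end

variable {g : ℕ} {L : Type} [Field L] [NumberField L] {M : Over (Spec (.of (𝓞 L)))}
  [IsIntegral M.left]

/-- The function field of the Néron model embeds in `E`. -/
theorem exists_setup0 {B k R : Type} [CommRing B] [Field k] [CommRing R] [Algebra k R]
    {b : B →+* k} {A : Over (Spec (.of B))} [GrpObj A] [IsCommMonObj A] [IsProper A.hom]
    {j : sp ((algebraMap k R).comp b) ⟶ A} (i : k →+* L) (hN : Neron g (i.comp b) A M)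
    {E : Type} [Field E] [Algebra L E] {ρ : Fin g → R →+* E}
    (h0 : ∀ l, (ρ l).comp (algebraMap k R) = (algebraMap L E).comp i) {x : R}
    (hx : IsTranscendenceBasis L fun l => ρ l x) (hU : RigJ j ρ x) :
    ∃ s : M.left.functionField →+* E, Setup0 ρ x (cst M) s (SM M.left) := by
  obtain ⟨e⟩ := hN.gen
  let P := Ph j ((algebraMap L E).comp i) ρ h0
  let p := trp e (algebraMap L E) P.left (pt_w P)
  let θ := (Scheme.stalkClosedPointTo p).hom
  have hθ : sm θ ≫ M.left.fromSpecStalk _ = p := Scheme.Spec_stalkClosedPointTo_fromSpecStalk p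
  have hp : p ≫ M.hom = sm (algebraMap (𝓞 L) E) := trp_w e _ _ _
  have rig : ∀ {O : Type} [CommRing O] (ϑ : O →+* E) (q : Spec (.of O) ⟶ M.left),
      sm ϑ ≫ q = p → Rig ϑ fun l => ρ l x := fun ϑ q hq Ω _ _ ε τ h => by
    obtain ⟨h1, h2⟩ := trp_inj e (ψ := τ) (ψ' := ε) (φ := algebraMap L E) (P := P.left)
      (h := pt_w P) (by
        change sm τ ≫ p = sm ε ≫ p
        rw [← hq, ← Category.assoc, ← Category.assoc, sm_comp, sm_comp, h])
    have h3 : ∀ (ϱ : E →+* Ω), ϱ.comp (algebraMap L E) = ε.comp (algebraMap L E) → ∀ l,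
        (ϱ.comp (ρ l)).comp (algebraMap k R) = ε.comp ((algebraMap L E).comp i) := fun ϱ h l => by
      rw [RingHom.comp_assoc, h0, ← RingHom.comp_assoc, h, RingHom.comp_assoc]
    exact hU Ω _ ε τ (h3 ε rfl) (h3 τ h1) (pt_ext ((sm_Ph j ε rfl h0 _ fun _ => rfl).symm.trans
      (h2.symm.trans (sm_Ph j τ (by rw [← RingHom.comp_assoc, h1]; rfl) h0 _ fun _ => rfl))))
  have hi : Function.Injective θ :=
    tb_dom (F := M.left.functionField) hx θ (rig θ _ hθ) (ner_dim M hN.smooth)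
  obtain ⟨s, hs⟩ := ner_lift hi
  replace hs := hs.trans hθ
  have sub : ∀ T : Subalgebra L E, (∀ l a, ρ l a ∈ T) → ∃ w : Spec (.of T) ⟶ M.left,
      w ≫ M.hom = sm ((algebraMap L T).comp (algebraMap (𝓞 L) L)) ∧
        sm (algebraMap T E) ≫ w = p := fun T hT => by
    have h : ∀ l, ((ρ l).codRestrict T (hT l)).comp (algebraMap k R) = (algebraMap L T).comp i :=
      fun l => RingHom.ext fun a => Subtype.ext (RingHom.congr_fun (h0 l) a)
    exact ⟨trp e (algebraMap L T) _ (pt_w (Ph j _ _ h)), trp_w e _ _ _,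
      trp_map e _ rfl (sm_Ph j _ rfl h h0 fun _ => rfl)⟩
  refine ⟨s, spec_inj ((sm_comp _ _).symm.trans ((congrArg (sm s ≫ ·)
    (stalk_hom M.hom _).symm).trans (by rw [reassoc_of% hs, hp]))), fun T hT q hq => ?_,
    fun O hO => ?_, fun T _ hT q hq => ?_, fun π τ hτ a => ?_, rig s _ hs⟩
  · obtain ⟨w, -, hw⟩ := sub T hT
    exact ner_loc Subtype.val_injective w (hw.trans hs.symm) q hq
  · obtain ⟨Q, hQ⟩ := vc_exists O (((algebraMap L E).codRestrict O hO).comp (i.comp b)) P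
    obtain ⟨T, hT, h⟩ := ner_key O.subtype (trp e _ _ (pt_w Q))
      ((trp_map e _ rfl (congrArg CommaMorphism.left hQ)).trans hs.symm)
    exact ⟨T, hT, fun a ha => (h a ha).elim fun o ho => ho ▸ o.2⟩
  · obtain ⟨w, h1, hw⟩ := sub _ hT
    obtain ⟨v, hv⟩ := ner_nmp (fun Y hY => (hN.nmp Y hY).2) T w h1
    exact ner_loc Subtype.val_injective v (hv.trans (hw.trans hs.symm)) q hq
  · have h1 : sm (τ : E →+* E) ≫ p = p := trp_map e _ τ.comp_algebraMap
      ((sm_Ph j (τ : E →+* E) (RingHom.ext fun a => τ.commutes (i a)) h0 (fun l => h0 (π l))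
        fun l => RingHom.ext (hτ l)).trans (congrArg CommaMorphism.left (Ph_perm j _ ρ h0 π)))
    rw [← hs, ← Category.assoc, cancel_mono, sm_comp] at h1
    exact RingHom.congr_fun (spec_inj h1) a

omit [NumberField L] in
theorem npt_nsq [LocallyOfFiniteType M.hom] {t : Fin g → M.left.functionField}
    {h : M.left.functionField} (σ : L →+* ℂ) {a : ENNReal}
    (ha : ∀ (R : Type) [CommRing R] (φ : R →+* M.left.functionField) (κ' : 𝓞 L →+* R)
      (t' : Fin g → R) (h' : R), κ'.FiniteType → φ.comp κ' = cst M → (∀ i, φ (t' i) = t i) →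
      φ h' = h → a ≤ ∫⁻ z : Fin g → ℂ,
        ∑' P : {P : R →+* ℂ // (∀ a, P (κ' a) = σ a) ∧ ∀ i, P (t' i) = z i}, ‖P.1 h'‖ₑ ^ 2) :
    a ≤ nsq M σ (h • dw t) := by
  obtain ⟨U, hU, _, s, hs⟩ := ner_chart M.left fun o : Option (Fin g) => o.elim h t
  obtain rfl : algebraMap _ _ (s none) = h := hs none
  obtain rfl : (fun i => algebraMap _ _ (s (some i))) = t := funext fun i => hs (some i)
  let φ := algebraMap Γ(M.left, U) M.left.functionField
  have hφ : Function.Injective φ := Scheme.germToFunctionField_injective _ U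
  let κ := ((Scheme.ΓSpecIso (.of (𝓞 L))).inv ≫ M.hom.appLE ⊤ U le_top).hom
  have hκ : ∀ a, φ (κ a) = cst M a := fun a => M.left.presheaf.germ_res_apply _ _ _ _
  refine (ha _ φ κ (fun i => s (some i)) (s none)
    ((M.hom.finiteType_appLE (isAffineOpen_top _) hU _).comp (.of_surjective _
      (ConcreteCategory.bijective_of_isIso (Scheme.ΓSpecIso _).inv).2)) (RingHom.ext hκ)
    (fun _ => rfl) rfl).trans (le_iSup₂_of_le U hU (le_iSup₂_of_le ‹_› (fun i => s (some i))
      (le_iSup₂_of_le (s none) rfl (lintegral_mono fun z => ?_))))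
  exact ENNReal.tsum_comp_le_tsum_of_injective (Subtype.impEmbedding _ _ fun P hP =>
    ⟨fun c a e => by rw [← hP.1, hφ (e.trans (hκ c).symm)], hP.2⟩).injective _

/-- The bound for the height. -/
theorem hF_le' (hM : SmoothOfRelativeDimension g M.hom) {H : ℕ}
    (h : Out' g (cst M) (SM M.left) H) : ∀ α ∈ Lam g M.left, α ≠ 0 → hF M α ≤ H := by
  intro α hα h0
  have := SmoothOfRelativeDimension.smooth g M.hom
  have : Nonempty (⊤ : M.left.Opens) := ⟨⟨genericPoint M.left, trivial⟩⟩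
  obtain ⟨lam, t, h1, h2, h5⟩ := h
  rw [ner_lam] at hα
  obtain ⟨h, e1, e2⟩ := h5 ⟨α, hα⟩
  have h6 : lam ⟨α, hα⟩ ≠ 0 := fun e => h0 (congrArg Subtype.val (h1 (e.trans lam.map_zero.symm)))
  rw [hF, ner_lam, ← EReal.coe_coe_eq_natCast H]
  refine ner_er (d := fun σ => ‖σ (lam ⟨α, hα⟩)‖) (C := Real.exp H ^ 2)
    (fun σ => by simpa using h6) (by positivity) ?_
    (fun σ => (npt_nsq σ fun R _ φ κ' t' h' a1 a2 a3 a4 =>
      e2 R φ κ' t' h' a1 a2 a3 a4 σ).trans_eq (congrArg _ e1.symm))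
    (by rw [Real.log_pow, Real.log_exp]; rfl) (Embeddings.card L ℂ) Module.finrank_pos
  refine (ENat.toENNReal_le.2 (ENat.card_le_card_of_injective
    (f := fun q => Ideal.Quotient.mk _ (lam q.out)) fun q q' e => ?_)).trans_eq (ner_norm h6)
  obtain ⟨a, ha⟩ := Ideal.mem_span_singleton'.1 (Ideal.Quotient.eq.1 e)
  rw [← q.out_eq, ← q'.out_eq]
  refine QuotientAddGroup.eq_iff_sub_mem.2 (AddSubgroup.subset_closure ⟨a, ?_⟩)
  refine congrArg Subtype.val (h1 (a₁ := q.out - q'.out) (a₂ := ⟨cst M a • α, ner_smul ?_ hα⟩) ?_)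
  · rintro _ ⟨m, rfl⟩
    exact ⟨_, M.left.algebraMap_germ_eq_germToFunctionField (U := ⊤) (x := m) trivial
      (((Scheme.ΓSpecIso (.of (𝓞 L))).inv ≫ M.hom.appTop) a)⟩
  · exact (lam.map_sub _ _).trans (ha.symm.trans (h2 a ⟨α, hα⟩ _ rfl).symm)

end Pool.Agent.Lib.MP_07b2d0_nt.Kh
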