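import Pool.Agent.Lib.MP_07b2d0_nt.Kh.UCore
import Pool.Agent.Lib.MP_07b2d0_nt.Kh.GDel
import Pool.Agent.Lib.MP_07b2d0_nt.Kh.NPt
import Pool.Agent.Lib.MP_07b2d0_nt.Kh.MOrig
import Pool.Agent.Lib.MP_07b2d0_nt.Fh.Uniq

/-!
The sum of the generic points determines their abscissae.
-/

set_option autoImplicit false

namespace Pool.Agent.Lib.MP_07b2d0_nt.Kh

open CategoryTheory AlgebraicGeometry Polynomial WithZero Fh
open scoped MonObj

variable {B k R : Type} [CommRing B] [Field k] [CommRing R] [Algebra k R] {b : B →+* k}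
  {A : Over (Spec (.of B))} {j : sp ((algebraMap k R).comp b) ⟶ A} {ℓ m r g : ℕ}
  {e : Fin m → Fin r → ℕ} {X₀ : R} {Y : Fin m → R}

/-- The value at a place with a given centre. -/
theorem val_eq' {Ω F : Type} [Field Ω] [Algebra k Ω] [Field F] [Algebra Ω F] [IsSeparated A.hom]
    {f : Fin m → k[X]} (hP : Pres ℓ f X₀ Y) {ρ : R →+* F}
    (h0 : ρ.comp (algebraMap k R) = (algebraMap Ω F).comp (algebraMap k Ω)) {v : Plc Ω F}
    {P : sp ((algebraMap k Ω).comp b) ⟶ A}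
    (hv : IsVal (Spec.map (CommRingCat.ofHom ρ) ≫ j.left) v.1 P.left) {ρ' : R →+* Ω}
    (h1 : ρ'.comp (algebraMap k R) = algebraMap k Ω) (h2 : Vl v (ρ X₀) (ρ' X₀))
    (h3 : ∀ n, Vl v (ρ (Y n)) (ρ' (Y n))) : P = jq j _ ρ' h1 := by
  refine pt_ext (IsVal.unique (φ := (algebraMap k Ω).comp b) ?_ hv ?_)
  · rw [Category.assoc, pt_w, ← spec_comp]
    exact congrArg (fun χ => Spec.map (CommRingCat.ofHom χ))
      (RingHom.ext fun c => RingHom.congr_fun h0 (b c))
  obtain ⟨-, q, hq, -⟩ := hv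
  have key : ∀ (z : v.1.valuationSubring) (c : Ω), Vl v z c → q z = c :=
    fun z c hz => by
      have : z - ⟨_, v.2.2 c⟩ ∈ RingHom.ker q := by
        rw [IsLocalRing.eq_maximalIdeal (RingHom.ker_isMaximal_of_surjective q fun c =>
          ⟨_, hq c (v.2.2 c)⟩), Valuation.mem_maximalIdeal_iff]
        exact hz
      rwa [RingHom.mem_ker, map_sub, hq, sub_eq_zero] at this
  have hc : ∀ c, ρ (algebraMap k R c) = algebraMap Ω F (algebraMap k Ω c) :=
    RingHom.congr_fun h0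
  have hm : ∀ z, ρ z ∈ v.1.valuationSubring := hP.mem ρ v.1.valuationSubring.toSubring
    (fun c => hc c ▸ v.2.2 _) h2.le_one fun n => (h3 n).le_one
  let ρ₁ : R →+* v.1.valuationSubring := ρ.codRestrict _ hm
  have e1 : q.comp ρ₁ = ρ' := hP.ext _ _ _
    (h1 ▸ RingHom.ext fun c => (congrArg q (Subtype.ext (hc c))).trans (hq _ (v.2.2 _)))
    (key _ _ h2) fun n => key _ _ (h3 n)
  refine ⟨Spec.map (CommRingCat.ofHom ρ₁) ≫ j.left, q, hq, ?_, ?_⟩
  · rw [← Category.assoc, ← spec_comp]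
    rfl
  · rw [← Category.assoc, ← spec_comp, e1, jq_left]

/-- The image of the generic points under an embedding. -/
theorem uj_emb {L E Ω : Type} [Field L] [CharZero L] [Field E] [Algebra L E] [Field Ω]
    {D : Dat L m r} {x : Fin g → E} {w : Fin g → Fin m → E} (h : KG0 ℓ e D x w)
    (en : Fin g ≃ JJ ℓ e) (u : E →+* Ω) {D' : Dat Ω m r}
    (hD : D.map (u.comp (algebraMap L E)) = D') :
    (∀ l n, u (w l n) ^ ℓ = (D'.F e n).eval (u (x l))) ∧ (∀ l n, u (w l n) ≠ 0) ∧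
      (Function.Injective fun l => u (x l)) ∧
      Del en (fun l => u (x l)) (fun l => zz e D' (u (x l)) fun n => u (w l n)) ≠ 0 := by
  subst hD
  refine ⟨fun l n => ?_, fun l n => (_root_.map_ne_zero u).2 (h.w_ne l n),
    u.injective.comp h.ind.injective, ?_⟩
  · rw [← map_pow, h.eq, Dat.map_F, Polynomial.eval_map, aeval_def, hom_eval₂]
  · have := (_root_.map_ne_zero u).2 (h.Del_ne en)
    rw [map_Del] at this
    simpa only [map_zz u (u.comp (algebraMap L E)) fun _ => rfl] using this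

/-- The sum of the generic points determines their abscissae. -/
theorem IsJ.rigJ [GrpObj A] [IsCommMonObj A] [IsSeparated A.hom] (hJ : IsJ b X₀ A j)
    {D : Dat k m r} (hP : Pres ℓ (D.F e) X₀ Y) {L E : Type} [Field L] [CharZero L] [Field E]
    [Algebra L E] (i : k →+* L) {x : Fin g → E} {w : Fin g → Fin m → E}
    (h : KG0 ℓ e (D.map i) x w) (en : Fin g ≃ JJ ℓ e) {ρ : Fin g → R →+* E}
    (h0 : ∀ l, (ρ l).comp (algebraMap k R) = (algebraMap L E).comp i) (h1 : ∀ l, ρ l X₀ = x l)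
    (h2 : ∀ l n, ρ l (Y n) = (w l n)⁻¹) : RigJ j ρ X₀ := by
  classical
  intro Ω _ _ κ s t hs ht hΦ i₀
  let := κ.toAlgebra
  have hu : ∀ u : E →+* Ω, (u.comp (ρ i₀)).comp (algebraMap k R) = κ →
      (D.map i).map (u.comp (algebraMap L E)) = D.map κ := fun u hu => by
    rw [Dat.map_map, RingHom.comp_assoc, ← h0 i₀, ← RingHom.comp_assoc, hu]
  have : CharZero Ω := charZero_of_injective_ringHom (t.comp (algebraMap L E)).injective
  obtain ⟨s1, s2, -, -⟩ := uj_emb h en s (hu s (hs i₀))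
  obtain ⟨t1, t2, t3, t4⟩ := uj_emb h en t (hu t (ht i₀))
  obtain ⟨ζ, hζ⟩ := h.zeta
  obtain ⟨F, _, _, x', w', hK⟩ := exists_KG Unit (hu t (ht i₀) ▸ h.ok.map _)
    ⟨_, hζ.map_of_injective (t.comp (algebraMap L E)).injective⟩
  have hK1 : K1 ℓ e (D.map κ) (x' ()) (w' ()) := hK
  obtain ⟨ρ₀, r0, r1, r2⟩ := hP.exists_pt κ hK.toKG0
  obtain ⟨val, hv, -, hp⟩ := hJ Ω F (ρ₀ ()) (RingHom.congr_fun (r0 ()))
    ((r1 ()).symm ▸ hK.ind.transcendental ()) (hK.eq_top
      (fun l => IntermediateField.subset_adjoin _ _ ⟨X₀, r1 l⟩) fun l n => by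
        rw [← inv_inv (w' l n), ← r2]
        exact inv_mem (IntermediateField.subset_adjoin _ _ ⟨Y n, rfl⟩))
  choose P hQ using fun l => hK1.exists_cen (s1 l)
  choose P' hQ' using fun l => hK1.exists_cen (t1 l)
  have hval : ∀ (u : E →+* Ω) (hu : ∀ l, (u.comp (ρ l)).comp (algebraMap k R) = κ)
      (Q : Fin g → Plc Ω F), (∀ l, Cn (Q l) (x' ()) (w' ()) (u (x l)) fun n => u (w l n)) →
      ∏ l, val (Q l) = Ph j κ (fun l => u.comp (ρ l)) hu := fun u hu Q hQ =>
    Finset.prod_congr rfl fun l _ => val_eq' hP (r0 ()) (hv _) (hu l)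
      (by rw [r1, RingHom.comp_apply, h1]; exact (hQ l).1) fun n => by
        rw [r2, RingHom.comp_apply, h2, map_inv₀]
        exact ((hQ l).2 n).inv ((_root_.map_ne_zero u).2 (h.w_ne l n))
  let dg : (Plc Ω F →₀ ℤ) →+ ℤ := Finsupp.liftAddHom fun _ => AddMonoidHom.id ℤ
  let sm : (Plc Ω F →₀ ℤ) →+ Additive (sp ((algebraMap k Ω).comp b) ⟶ A) :=
    Finsupp.liftAddHom fun v => zmultiplesHom _ (Additive.ofMul (val v))
  obtain ⟨φ, hφ0, hφ⟩ := (hp _).2 ⟨∑ l, Finsupp.single (P' l) 1 - ∑ l, Finsupp.single (P l) 1, rfl,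
    show dg _ = 0 by
      simp only [map_sub, map_sum, dg, Finsupp.liftAddHom_apply_single, sub_self,
        AddMonoidHom.id_apply], show (sm _).toMul = 1 by
      simp only [map_sub, map_sum, sm, Finsupp.liftAddHom_apply_single, zmultiplesHom_apply,
        one_zsmul, toMul_sub, toMul_sum, toMul_ofMul, div_eq_one]
      exact ((hval t ht P' hQ').trans hΦ.symm).trans (hval s hs P hQ).symm⟩
  simp only [Finsupp.sub_apply, Finsupp.finsetSum_apply] at hφ
  have n : ∀ (T : Finset (Fin g)) (P : Fin g → Plc Ω F) v,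
      (0 : ℤ) ≤ ∑ l ∈ T, Finsupp.single (P l) 1 v := fun T P v =>
    Finset.sum_nonneg fun l _ => by rw [Finsupp.single_apply]; split_ifs <;> simp
  obtain ⟨c, rfl⟩ := hK1.nonspecial en t1 t2 t3 t4 hQ' (φ := φ) fun v =>
    le_exp_of_log_le (by have := n Finset.univ P v; have := hφ v; omega)
  have h3 := hφ (P' i₀)
  rw [plc_eq_one (P' i₀) fun hc => hφ0 (by rw [hc, map_zero]), log_one,
    ← Finset.add_sum_erase _ _ (Finset.mem_univ i₀), Finsupp.single_eq_same] at h3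
  by_contra hn
  rw [Finset.sum_eq_zero (s := Finset.univ) fun l _ => Finsupp.single_eq_of_ne fun hl =>
    hn ⟨l, by rw [h1, h1]; exact (hQ' i₀).1.unique (hl ▸ (hQ l).1)⟩] at h3
  have := n (Finset.univ.erase i₀) P' (P' i₀)
  omega

end Pool.Agent.Lib.MP_07b2d0_nt.Kh
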