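import Pool.Agent.Lib.MP_07b2d0_nt.Kh.Bas
import Pool.Agent.Lib.MP_07b2d0_nt.Fh.ADer
import Pool.Agent.Lib.MP_07b2d0_nt.Fh.ADom
import Pool.Agent.Lib.MP_07b2d0_nt.Fh.ASpan

/-!
Transcendence bases and derivations.
-/

set_option autoImplicit false

namespace Pool.Agent.Lib.MP_07b2d0_nt.Kh

open Polynomial NumberField Fh
open scoped IntermediateField

variable {L E ι : Type} [Field L] [Field E] [Algebra L E] {ℓ m r g : ℕ} {e : Fin m → Fin r → ℕ}
  {D : Dat L m r}

/-- `E` is formally étale over the polynomial ring. -/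
theorem exists_der [CharZero L] {x : ι → E} (h : IsTranscendenceBasis L x) (u : ι → E) :
    ∃ Dr : Derivation L E E, ∀ k, Dr (x k) = u k := by
  let _ := (MvPolynomial.aeval (R := L) x).toAlgebra
  have : IsScalarTower L (MvPolynomial ι L) E :=
    .of_algebraMap_eq fun c => ((MvPolynomial.aeval x).commutes c).symm
  have : FaithfulSMul (MvPolynomial ι L) E := (faithfulSMul_iff_algebraMap_injective _ E).2 h.1
  have : Algebra.IsAlgebraic (MvPolynomial ι L) E := ⟨fun z =>
    (h.isAlgebraic.1 z).of_ringHom_of_comp_eq h.1.aevalEquiv (RingHom.id E)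
      h.1.aevalEquiv.surjective Function.injective_id
      (RingHom.ext fun p => h.1.algebraMap_aevalEquiv p)⟩
  let _ := FractionRing.liftAlgebra (MvPolynomial ι L) E
  have := FractionRing.isScalarTower_liftAlgebra (MvPolynomial ι L) E
  have : Algebra.IsAlgebraic (FractionRing (MvPolynomial ι L)) E :=
    .extendScalars (IsFractionRing.injective (MvPolynomial ι L) _)
  have := Algebra.FormallyEtale.of_isSeparable (FractionRing (MvPolynomial ι L)) E
  have := Algebra.FormallyEtale.comp (MvPolynomial ι L) (FractionRing (MvPolynomial ι L)) E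
  have hb := KaehlerDifferential.isBaseChange_of_formallyEtale L (MvPolynomial ι L) E
  refine ⟨(hb.lift (MvPolynomial.mkDerivation L u).liftKaehlerDifferential).compDer
    (KaehlerDifferential.D L E), fun k => ?_⟩
  have e : x k = algebraMap (MvPolynomial ι L) E (.X k) := (MvPolynomial.aeval_X x k).symm
  change hb.lift _ (KaehlerDifferential.D L E _) = _
  rw [e, ← KaehlerDifferential.map_D L L, hb.lift_eq, Derivation.liftKaehlerDifferential_comp_D,
    MvPolynomial.mkDerivation_X]

theorem tb_alg {x : ι → E} (h : IsTranscendenceBasis L x) {A : Type} [CommRing A] [IsDomain A]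
    [Algebra A E] (hL : ∀ c : L, IsAlgebraic A (algebraMap L E c))
    (hx : ∀ k, IsAlgebraic A (x k)) (z : E) : IsAlgebraic A z := by
  have hm : ∀ y ∈ Algebra.adjoin L (Set.range x), y ∈ Subalgebra.algebraicClosure A E := by
    intro y hy
    induction hy using Algebra.adjoin_induction with
    | mem z hz => obtain ⟨k, rfl⟩ := hz; exact hx k
    | algebraMap c => exact hL c
    | add a b _ _ ha hb => exact add_mem ha hb
    | mul a b _ _ ha hb => exact mul_mem ha hb
  have : Algebra.IsAlgebraic A (Subalgebra.algebraicClosure A E) :=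
    (Subalgebra.isAlgebraic_iff _).1 fun _ h => h
  let f : Algebra.adjoin L (Set.range x) →+* Subalgebra.algebraicClosure A E :=
    (algebraMap (Algebra.adjoin L (Set.range x)) E).codRestrict _ fun y => hm y y.2
  have hf : Function.Injective f := fun a b e => Subtype.ext (Subtype.ext_iff.1 e :)
  exact ((h.isAlgebraic.1 z).ringHom_of_comp_eq f (RingHom.id E) hf rfl).restrictScalars A

/-- As `Fh.dom'`. -/
theorem tb_dom [NumberField L] {F : Type} [Field F] {x : Fin g → E} (h : IsTranscendenceBasis L x)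
    {O : Type} [CommRing O] [IsDomain O] [Algebra O F] [IsFractionRing O F] (θ : O →+* E)
    (hr : Rig θ x) (hd : Dim g F) : Function.Injective θ := by
  have : CharZero E := charZero_of_injective_algebraMap (algebraMap L E).injective
  have alg : ∀ z : E, IsAlgebraic θ.range z :=
    tb_alg h (fun c => alg_const c) fun i => hr.isAlgebraic i
  have : Algebra.IsAlgebraic θ.range E := ⟨alg⟩
  have hx : AlgebraicIndependent ℤ x := h.1.restrictScalars (algebraMap ℤ L).injective_int
  obtain ⟨ι, b, hb⟩ := exists_isTranscendenceBasis' ℤ θ.range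
  have le : Cardinal.mk (Fin g) ≤ Cardinal.mk ι := by
    rw [hb.cardinalMk_eq_trdeg, ← add_zero (Algebra.trdeg ℤ θ.range),
      ← trdeg_eq_zero (R := θ.range) (A := E), trdeg_add_eq]
    exact hx.cardinalMk_le_trdeg
  obtain ⟨e⟩ := (Cardinal.le_def _ _).1 le
  choose t ht using fun i : Fin g => θ.rangeRestrict_surjective (b (e i))
  have h1 : AlgebraicIndependent ℤ (θ.rangeRestrict.toIntAlgHom ∘ t) := by
    rw [show θ.rangeRestrict.toIntAlgHom ∘ t = b ∘ e from funext ht]
    exact hb.1.comp _ e.injective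
  have h2 : AlgebraicIndependent ℤ t := .of_comp _ h1
  refine (injective_iff_map_eq_zero θ).2 fun a ha => by_contra fun h0 => ?_
  have h3 : IsAlgebraic (Algebra.adjoin ℤ (Set.range t)) a := by
    by_contra hn
    exact hd _ ((((h2.option_iff_transcendental a).2 hn).comp _ (finSuccEquiv g).injective).map'
      (f := (algebraMap O F).toIntAlgHom) (IsFractionRing.injective O F))
  obtain ⟨⟨r, hr⟩, r0, c, hc⟩ := h3.exists_nonzero_dvd (mem_nonZeroDivisors_of_ne_zero h0)
  rw [Algebra.adjoin_range_eq_range_aeval] at hr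
  obtain ⟨q, rfl⟩ := hr
  have h4 : MvPolynomial.aeval (θ.rangeRestrict.toIntAlgHom ∘ t) q = 0 := by
    have h5 : MvPolynomial.aeval t q = a * c := hc
    rw [Function.comp_def, ← MvPolynomial.comp_aeval_apply, h5, map_mul]
    exact mul_eq_zero_of_left (Subtype.ext ha) _
  obtain rfl := algebraicIndependent_iff.1 h1 q h4
  exact r0 (Subtype.ext (map_zero _))

theorem KG.tb {x : ι → E} {w : ι → Fin m → E} (h : KG ℓ e D x w) : IsTranscendenceBasis L x := by
  refine h.ind.isTranscendenceBasis_iff_isAlgebraic.2 ⟨fun z => ?_⟩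
  have hx : ∀ k, x k ∈ Algebra.adjoin L (Set.range x) := fun k => Algebra.subset_adjoin ⟨k, rfl⟩
  have ha : ∀ y ∈ Algebra.adjoin L (Set.range x), IsAlgebraic (Algebra.adjoin L (Set.range x)) y :=
    fun y hy => isAlgebraic_algebraMap (⟨y, hy⟩ : Algebra.adjoin L (Set.range x))
  have hz : z ∈ IntermediateField.adjoin L (Set.range x ∪ Set.range (Function.uncurry w)) :=
    h.top ▸ trivial
  induction hz using IntermediateField.adjoin_induction with
  | mem z hz =>
    rcases hz with ⟨k, rfl⟩ | ⟨⟨k, j⟩, rfl⟩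
    · exact ha _ (hx k)
    · exact .of_pow h.ok.pos (ha _ ((h.eq k j).symm ▸ Algebra.adjoin_mono
        (Set.singleton_subset_iff.2 (Set.mem_range_self k)) (aeval_mem_adjoin_singleton _ _)))
  | algebraMap c => exact ha _ (algebraMap_mem _ c)
  | add a b _ _ ha hb => exact ha.add hb
  | inv a _ ha => exact ha.inv
  | mul a b _ _ ha hb => exact ha.mul hb

theorem K1.fd {x : E} {w : Fin m → E} (h : K1 ℓ e D x w) : FiniteDimensional L⟮x⟯ E := by
  have h1 : IntermediateField.adjoin L⟮x⟯ (Set.range w) = ⊤ := by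
    rw [← IntermediateField.restrictScalars_eq_top_iff (K := L),
      IntermediateField.adjoin_adjoin_left]
    exact h.top'
  have := IntermediateField.finiteDimensional_adjoin (K := L⟮x⟯) (S := Set.range w) (by
    rintro _ ⟨j, rfl⟩
    exact .of_pow h.ok.pos ((h.eq () j).symm ▸ isIntegral_algebraMap (x := (⟨_,
      IntermediateField.algebra_adjoin_le_adjoin L _ (aeval_mem_adjoin_singleton L x)⟩ : L⟮x⟯))))
  rw [h1] at this
  exact IntermediateField.topEquiv.toLinearEquiv.finiteDimensional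

theorem KG0.D_w {x : ι → E} {w : ι → Fin m → E} (h : KG0 ℓ e D x w) (Dr : Derivation L E E)
    (k : ι) (j : Fin m) : (ℓ : E) * w k j ^ (ℓ - 1) * Dr (w k j) =
      aeval (x k) (derivative (D.F e j)) * Dr (x k) := by
  have e := congrArg Dr (h.eq k j)
  rw [Derivation.map_aeval, Derivation.leibniz_pow] at e
  simpa only [smul_eq_mul, nsmul_eq_mul, mul_assoc] using e

variable [CharZero L] {x : Fin g → E} {w : Fin g → Fin m → E} {Dr : Fin g → Derivation L E E}

theorem gder_w (h : KG0 ℓ e D x w) (Dr : Derivation L E E) (k : Fin g) (j : Fin m) :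
    Dr (w k j) = algebraMap L E (ℓ : L)⁻¹ * (w k j)⁻¹ ^ (ℓ - 1) *
      aeval (x k) (derivative (D.F e j)) * Dr (x k) := by
  have := charZero_of_injective_algebraMap (algebraMap L E).injective
  have h1 : (ℓ : E) ≠ 0 := Nat.cast_ne_zero.2 h.ok.pos.ne'
  have h2 := pow_ne_zero (ℓ - 1) (h.w_ne k j)
  rw [mul_assoc, ← h.D_w, map_inv₀, map_natCast, inv_pow]
  field_simp

theorem KG.exists_D (h : KG ℓ e D x w) : ∃ Dr : Fin g → Derivation L E E, IsG D x Dr := by
  choose Dr hD using fun l => exists_der h.tb fun k => if l = k then aeval (x l) D.G else 0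
  exact ⟨Dr, hD⟩

theorem KG.perm_D (h : KG ℓ e D x w) (hD : IsG D x Dr) {π : Equiv.Perm (Fin g)} {s : E →ₐ[L] E}
    (h1 : ∀ k, s (x k) = x (π k)) (h2 : ∀ k j, s (w k j) = w (π k) j) (l : Fin g) (z : E) :
    s (Dr l z) = Dr (π l) (s z) := by
  have hz : z ∈ IntermediateField.adjoin L (Set.range x ∪ Set.range (Function.uncurry w)) :=
    h.top ▸ trivial
  have hx : ∀ i, s (Dr l (x i)) = Dr (π l) (x (π i)) := fun i => by
    simp only [hD l i, hD (π l) (π i), π.apply_eq_iff_eq, apply_ite s, ← aeval_algHom_apply, h1,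
      map_zero]
  induction hz using IntermediateField.adjoin_induction with
  | mem z hz =>
    rcases hz with ⟨i, rfl⟩ | ⟨⟨i, j⟩, rfl⟩
    · rw [h1, hx]
    · rw [Function.uncurry_apply_pair, h2, gder_w h.toKG0, gder_w h.toKG0, map_mul, map_mul,
        map_mul, s.commutes, map_pow, map_inv₀ s, h2, ← aeval_algHom_apply, h1, hx]
  | algebraMap c => simp
  | add a b _ _ e1 e2 => simp only [map_add, e1, e2]
  | inv a _ e => simp only [map_inv₀, Derivation.leibniz_inv, smul_eq_mul, map_mul, map_neg,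
      map_pow, e]
  | mul a b _ _ e1 e2 => simp only [map_mul, Derivation.leibniz, smul_eq_mul, map_add, e1, e2]

omit [CharZero L] in
theorem gder_aeval (W : Subalgebra L E) {z : E} (hz : z ∈ W) (P : L[X]) : aeval z P ∈ W :=
  Algebra.adjoin_le (Set.singleton_subset_iff.2 hz) (aeval_mem_adjoin_singleton _ _)

omit [CharZero L] in
theorem gder_x (hD : IsG D x Dr) (W : Subalgebra L E) (l : Fin g) {k : Fin g} (hk : x k ∈ W) :
    Dr l (x k) ∈ W := by
  rw [hD]
  split_ifs with hl
  exacts [gder_aeval W (hl ▸ hk) _, zero_mem _]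

theorem gder_mem (h : KG0 ℓ e D x w) (hD : IsG D x Dr) (W : Subalgebra L E) (l : Fin g)
    {k : Fin g} {j : Fin m} (hk : x k ∈ W) (hj : (w k j)⁻¹ ∈ W) : Dr l (w k j) ∈ W :=
  gder_w h (Dr l) k j ▸ mul_mem (mul_mem (mul_mem (algebraMap_mem _ _) (pow_mem hj _))
    (gder_aeval W hk _)) (gder_x hD W l hk)

theorem KG0.D_kp (h : KG0 ℓ e D x w) (hD : IsG D x Dr) (k l : Fin g) {z : E}
    (hz : z ∈ kp L x w k) : Dr l z ∈ kp L x w k ∧ (l = k → Dr l z = 0) := by
  refine ⟨der_field _ _ ?_ hz, fun hl => der_zero _ ?_ hz⟩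
  · rintro _ ⟨i, hi, rfl | ⟨j, rfl⟩⟩
    · exact ⟨x_mem_kp hi, gder_x hD (kp L x w k).toSubalgebra l (x_mem_kp hi)⟩
    · exact ⟨w_mem_kp hi j, gder_mem h hD (kp L x w k).toSubalgebra l (x_mem_kp hi)
        ((kp L x w k).inv_mem (w_mem_kp hi j))⟩
  · have h0 : ∀ i, i ≠ k → Dr l (x i) = 0 := fun i hi => by rw [hD, if_neg (hl ▸ hi.symm)]
    rintro _ ⟨i, hi, rfl | ⟨j, rfl⟩⟩
    · exact h0 i hi
    · rw [gder_w h, h0 i hi, mul_zero]

theorem KG0.D_Gs (h : KG0 ℓ e D x w) (hD : IsG D x Dr) (τ : L) (l : Fin g) {z : E}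
    (hz : z ∈ Algebra.adjoin L (Gs x w (algebraMap L E τ))) :
    Dr l z ∈ Algebra.adjoin L (Gs x w (algebraMap L E τ)) := by
  set W := Algebra.adjoin L (Gs x w (algebraMap L E τ))
  have hW := Gs_sub.1 (Algebra.subset_adjoin : Gs x w (algebraMap L E τ) ⊆ W)
  refine (der_adjoin (Dr l) W.toSubring (fun c => ⟨W.algebraMap_mem c, ?_⟩) ?_ hz).2
  · exact (Dr l).map_algebraMap c ▸ zero_mem _
  rintro _ ⟨k, rfl | rfl | ⟨j, rfl⟩⟩
  · exact ⟨(hW k).1, gder_x hD W l (hW k).1⟩
  · refine ⟨(hW k).2.1, ?_⟩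
    rw [Derivation.leibniz_inv, map_sub, Derivation.map_algebraMap, sub_zero]
    exact mul_mem (neg_mem (pow_mem (hW k).2.1 2)) (gder_x hD W l (hW k).1)
  · refine ⟨(hW k).2.2 j, ?_⟩
    rw [Derivation.leibniz_inv]
    exact mul_mem (neg_mem (pow_mem ((hW k).2.2 j) 2)) (gder_mem h hD W l (hW k).1 ((hW k).2.2 j))

end Pool.Agent.Lib.MP_07b2d0_nt.Kh
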