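import Pool.Agent.Lib.MP_07b2d0_nt.Kh.GInd

/-!
Normal forms and the universal property of the coordinate ring.
-/

set_option autoImplicit false

namespace Pool.Agent.Lib.MP_07b2d0_nt.Kh

open Polynomial Fh

variable {L E ι : Type} [Field L] [Field E] [Algebra L E] {ℓ m r g : ℕ} {e : Fin m → Fin r → ℕ}
  {D : Dat L m r}
  {x : ι → E} {w : ι → Fin m → E}

theorem gnf_red {O B : Type} [CommRing O] [CommRing B] [Algebra O B] [Fintype ι]
    (hℓ : 0 < ℓ) {f : Fin m → O[X]} {x : ι → B} {w : ι → Fin m → B}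
    (hw : ∀ k j, w k j ^ ℓ = aeval (x k) (f j)) (n : ι → Fin m → ℕ) :
    ∃ (P : MvPolynomial ι O) (u : ι → U ℓ m), ∏ k, ∏ j, w k j ^ n k j =
      MvPolynomial.aeval x P * ∏ k, mon (w k) (u k) := by
  refine ⟨∏ k, ∏ j, aeval (MvPolynomial.X k : MvPolynomial ι O) (f j) ^ (n k j / ℓ),
    fun k j => ⟨n k j % ℓ, Nat.mod_lt _ hℓ⟩, ?_⟩
  simp only [map_prod, map_pow, ← aeval_algHom_apply, MvPolynomial.aeval_X, ← hw, mon,
    ← Finset.prod_mul_distrib, ← pow_mul, ← pow_add, Nat.div_add_mod]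

/-- Normal forms in the ring generated by the coordinates. -/
theorem nf' {O B : Type} [CommRing O] [CommRing B] [Algebra O B] [Fintype ι] [DecidableEq ι]
    (hℓ : 0 < ℓ) {f : Fin m → O[X]} {x : ι → B} {w : ι → Fin m → B}
    (hw : ∀ k j, w k j ^ ℓ = aeval (x k) (f j)) {z : B} (hz : z ∈ RW O x w) :
    ∃ P : (ι → U ℓ m) → MvPolynomial ι O,
      z = ∑ u, MvPolynomial.aeval x (P u) * ∏ k, mon (w k) (u k) := by
  let _ : Algebra (MvPolynomial ι O) B := (MvPolynomial.aeval x).toRingHom.toAlgebra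
  have hs : ∀ (P : MvPolynomial ι O) (b : B), P • b = MvPolynomial.aeval x P * b := fun _ _ => rfl
  let M : Submodule (MvPolynomial ι O) B :=
    Submodule.span _ (Set.range fun u : ι → U ℓ m => ∏ k, mon (w k) (u k))
  have hM : ∀ n : ι → Fin m → ℕ, ∏ k, ∏ j, w k j ^ n k j ∈ M := fun n => by
    obtain ⟨P, u, h⟩ := gnf_red hℓ hw n
    rw [h]
    exact M.smul_mem P (Submodule.subset_span ⟨u, rfl⟩)
  have key : ∀ y ∈ M, z * y ∈ M := by
    induction hz using Algebra.adjoin_induction with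
    | mem b hb =>
      rcases hb with ⟨i, rfl⟩ | ⟨⟨i, j⟩, rfl⟩ <;> intro y hy
      · simpa [hs] using M.smul_mem (MvPolynomial.X i) hy
      · induction hy using Submodule.span_induction with
        | mem y hy =>
          obtain ⟨u, rfl⟩ := hy
          have := hM fun k l => (if k = i then if l = j then 1 else 0 else 0) + u k l
          simp only [pow_add, Finset.prod_mul_distrib] at this
          simpa [mon] using this
        | zero => simp
        | add a b _ _ ha hb => rw [mul_add]; exact add_mem ha hb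
        | smul c a _ ha => rw [mul_smul_comm]; exact M.smul_mem c ha
    | algebraMap c =>
      intro y hy
      simpa [hs] using M.smul_mem (MvPolynomial.C c) hy
    | add a b _ _ ha hb =>
      intro y hy
      rw [add_mul]
      exact add_mem (ha y hy) (hb y hy)
    | mul a b _ _ ha hb =>
      intro y hy
      rw [mul_assoc]
      exact ha _ (hb y hy)
  have h1 := key 1 (by simpa using hM 0)
  rw [mul_one] at h1
  obtain ⟨P, hP⟩ := (Submodule.mem_span_range_iff_exists_fun _).mp h1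
  exact ⟨P, hP.symm⟩

theorem KG.isFrac (h : KG ℓ e D x w) : IsFractionRing (RW L x w) E := by
  refine IsFractionRing.of_field _ _ fun z => ?_
  obtain ⟨a, ha, b, hb, e⟩ := IntermediateField.mem_adjoin_iff_div.mp
    (h.top ▸ IntermediateField.mem_top (x := z))
  exact ⟨⟨a, ha⟩, ⟨b, hb⟩, e⟩

theorem KG.ext (h : KG ℓ e D x w) {E' : Type} [Field E'] {s t : E →+* E'}
    (hc : ∀ c, s (algebraMap L E c) = t (algebraMap L E c)) (hx : ∀ k, s (x k) = t (x k))
    (hw : ∀ k j, s (w k j) = t (w k j)) : s = t := by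
  have := h.eq_top (T := (RingHom.eqLocusField s t).toIntermediateField hc) hx hw
  exact RingHom.ext fun z => (this.ge (IntermediateField.mem_top (x := z)) :)

/-- Existence of the function field of a power of the curve. -/
theorem exists_KG (ι : Type) (hD : D.Ok ℓ e) (hζ : ∃ ζ : L, IsPrimitiveRoot ζ ℓ) :
    ∃ (E : Type) (_ : Field E) (_ : Algebra L E) (x : ι → E) (w : ι → Fin m → E),
      KG ℓ e D x w := by
  let Ω := AlgebraicClosure (FractionRing (MvPolynomial ι L))
  let x : ι → Ω := fun i => algebraMap (MvPolynomial ι L) Ω (MvPolynomial.X i)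
  have hx : AlgebraicIndependent L x :=
    (MvPolynomial.algebraicIndependent_X ι L).map' (f := IsScalarTower.toAlgHom L _ Ω)
      ((algebraMap (FractionRing (MvPolynomial ι L)) Ω).injective.comp
        (IsFractionRing.injective (MvPolynomial ι L) _))
  choose y hy using fun i j => IsAlgClosed.exists_pow_nat_eq (aeval (x i) (D.F e j)) hD.pos
  let E := IntermediateField.adjoin L (Set.range x ∪ Set.range (Function.uncurry y))
  refine ⟨E, inferInstance, inferInstance,
    fun i => ⟨x i, IntermediateField.subset_adjoin _ _ (Or.inl ⟨i, rfl⟩)⟩,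
    fun i j => ⟨y i j, IntermediateField.subset_adjoin _ _ (Or.inr ⟨(i, j), rfl⟩)⟩,
    ⟨hD, hζ, AlgebraicIndependent.of_comp E.val hx, fun i j => Subtype.ext ?_⟩, ?_⟩
  · exact (hy i j).trans (aeval_algHom_apply E.val ⟨x i, _⟩ (D.F e j))
  · apply IntermediateField.lift_injective
    rw [IntermediateField.lift_adjoin, IntermediateField.lift_top, Set.image_union,
      ← Set.range_comp, ← Set.range_comp]
    rfl

variable [CharZero L] [Fintype ι]

theorem gnf_zero [DecidableEq ι] (h : KG0 ℓ e D x w) {P : (ι → U ℓ m) → MvPolynomial ι L}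
    (h0 : ∑ u, MvPolynomial.aeval x (P u) * ∏ k, mon (w k) (u k) = 0) (u : ι → U ℓ m) :
    P u = 0 := by
  have hm : ∀ Q : MvPolynomial ι L,
      MvPolynomial.aeval x Q ∈ IntermediateField.adjoin L (Set.range x) := fun Q => by
    refine IntermediateField.algebra_adjoin_le_adjoin L _ ?_
    rw [Algebra.adjoin_range_eq_range_aeval]
    exact ⟨_, rfl⟩
  have := Fintype.linearIndependent_iff.1 h.indep (fun u => ⟨_, hm (P u)⟩) h0 u
  exact h.ind ((congrArg Subtype.val this).trans (map_zero _).symm)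

theorem gnf_lift [DecidableEq ι] (h : KG0 ℓ e D x w) {B : Type} [CommRing B] [Algebra L B]
    {s : ι → B} {t : ι → Fin m → B} (ht : ∀ k j, t k j ^ ℓ = aeval (s k) (D.F e j)) :
    ∃ φ : RW L x w →ₐ[L] B, (∀ k hk, φ ⟨x k, hk⟩ = s k) ∧ (∀ k j hk, φ ⟨w k j, hk⟩ = t k j) ∧
      ∀ z : RW L x w, ∃ P : (ι → U ℓ m) → MvPolynomial ι L,
        (z : E) = ∑ u, MvPolynomial.aeval x (P u) * ∏ k, mon (w k) (u k) ∧
        φ z = ∑ u, MvPolynomial.aeval s (P u) * ∏ k, mon (t k) (u k) := by
  let G : Subalgebra L (E × B) := RW L (fun i => (x i, s i)) fun i j => (w i j, t i j)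
  have h1 : ∀ z : G, ∃ P : (ι → U ℓ m) → MvPolynomial ι L,
      z.1.1 = ∑ u, MvPolynomial.aeval x (P u) * ∏ k, mon (w k) (u k) ∧
      z.1.2 = ∑ u, MvPolynomial.aeval s (P u) * ∏ k, mon (t k) (u k) := fun z => by
    obtain ⟨P, hP⟩ := nf' h.ok.pos (f := D.F e) (fun i j => Prod.ext
      ((h.eq i j).trans (aeval_algHom_apply (AlgHom.fst L E B) (x i, s i) (D.F e j)))
      ((ht i j).trans (aeval_algHom_apply (AlgHom.snd L E B) (x i, s i) (D.F e j)))) z.2
    refine ⟨P, ?_, ?_⟩
    · have := congrArg (AlgHom.fst L E B) hP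
      simp only [mon, map_sum, map_mul, map_prod, map_pow, MvPolynomial.comp_aeval_apply] at this
      exact this
    · have := congrArg (AlgHom.snd L E B) hP
      simp only [mon, map_sum, map_mul, map_prod, map_pow, MvPolynomial.comp_aeval_apply] at this
      exact this
  have h2 : G.map (AlgHom.fst L E B) = RW L x w := by
    rw [AlgHom.map_adjoin, Set.image_union, ← Set.range_comp, ← Set.range_comp]
    rfl
  let π : G →ₐ[L] RW L x w :=
    ((AlgHom.fst L E B).comp G.val).codRestrict _ fun z => h2 ▸ ⟨z.1, z.2, rfl⟩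
  have h3 : Function.Bijective π := by
    refine ⟨(injective_iff_map_eq_zero _).mpr fun z hz => ?_, fun z => ?_⟩
    · obtain ⟨P, e1, e2⟩ := h1 z
      have e0 : z.1.1 = 0 := congrArg Subtype.val hz
      refine Subtype.ext (Prod.ext e0 (e2.trans ?_))
      simp [gnf_zero h (e1.symm.trans e0)]
    · obtain ⟨y, hy, e⟩ := (h2.ge z.2 : z.1 ∈ G.map (AlgHom.fst L E B))
      exact ⟨⟨y, hy⟩, Subtype.ext e⟩
  let ε := AlgEquiv.ofBijective π h3
  have h4 : ∀ y : G, (((AlgHom.snd L E B).comp G.val).comp ε.symm.toAlgHom) (π y) = y.1.2 :=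
    fun y => congrArg (fun a : G => a.1.2) (ε.symm_apply_apply y)
  refine ⟨((AlgHom.snd L E B).comp G.val).comp ε.symm.toAlgHom,
    fun i hi => h4 ⟨(x i, s i), x_mem_RW _ _ i⟩,
    fun i j hi => h4 ⟨(w i j, t i j), w_mem_RW _ _ i j⟩, fun z => ?_⟩
  obtain ⟨y, rfl⟩ := h3.2 z
  rw [h4]
  exact h1 y

/-- The universal property of the coordinate ring. -/
theorem KG0.lift_ring (h : KG0 ℓ e D x w) {B : Type} [CommRing B] [Algebra L B] {s : ι → B}
    {t : ι → Fin m → B} (ht : ∀ k j, t k j ^ ℓ = aeval (s k) (D.F e j)) :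
    ∃ φ : RW L x w →ₐ[L] B, (∀ k hk, φ ⟨x k, hk⟩ = s k) ∧ ∀ k j hk, φ ⟨w k j, hk⟩ = t k j := by
  classical
  obtain ⟨φ, h1, h2, -⟩ := gnf_lift h ht
  exact ⟨φ, h1, h2⟩

/-- The universal property of the function field. -/
theorem KG.lift' (h : KG ℓ e D x w) {L' E' : Type} [Field L'] [Field E'] [Algebra L' E']
    (σ : L →+* L') {x' : ι → E'} {w' : ι → Fin m → E'} (h' : KG0 ℓ e (D.map σ) x' w') :
    ∃ s : E →+* E', (∀ c, s (algebraMap L E c) = algebraMap L' E' (σ c)) ∧
      (∀ k, s (x k) = x' k) ∧ ∀ k j, s (w k j) = w' k j := by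
  classical
  let _ : Algebra L L' := σ.toAlgebra
  let _ : Algebra L E' := ((algebraMap L' E').comp σ).toAlgebra
  have : IsScalarTower L L' E' := .of_algebraMap_eq fun _ => rfl
  have : CharZero L' := σ.charZero_iff σ.injective |>.1 inferInstance
  obtain ⟨φ, h1, h2, h3⟩ := gnf_lift h.toKG0 (s := x') (t := w') fun k j =>
    (h'.eq k j).trans (by rw [Dat.map_F]; exact aeval_map_algebraMap L' _ _)
  have hφ : Function.Injective φ.toRingHom := (injective_iff_map_eq_zero _).mpr fun z hz => by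
    obtain ⟨P, e1, e2⟩ := h3 z
    have e3 : ∀ u, P u = 0 := fun u => MvPolynomial.map_injective _ σ.injective
      ((gnf_zero h' (P := fun u => MvPolynomial.map (algebraMap L L') (P u)) (by
          simp only [MvPolynomial.aeval_map_algebraMap]
          exact e2.symm.trans hz) u).trans (map_zero _).symm)
    refine Subtype.ext (e1.trans ?_)
    simp [e3]
  have := h.isFrac
  have h4 : ∀ z : RW L x w, IsFractionRing.lift hφ (z : E) = φ z := fun z =>
    IsFractionRing.lift_algebraMap hφ z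
  exact ⟨IsFractionRing.lift hφ, fun c => (h4 (algebraMap L _ c)).trans (φ.commutes c),
    fun k => (h4 ⟨x k, x_mem_RW _ _ k⟩).trans (h1 k _),
    fun k j => (h4 ⟨w k j, w_mem_RW _ _ k j⟩).trans (h2 k j _)⟩

end Pool.Agent.Lib.MP_07b2d0_nt.Kh
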