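import Pool.Agent.Lib.MP_07b2d0_nt.Kh.IMdl
import Pool.Agent.Lib.MP_07b2d0_nt.Kh.GNf
import Pool.Agent.Lib.MP_07b2d0_nt.Kh.GDer

/-!
The étale model inside the function field.
-/

set_option autoImplicit false

namespace Pool.Agent.Lib.MP_07b2d0_nt.Kh

open Polynomial NumberField Fh

variable {L E : Type} [Field L] [NumberField L] [Field E] [Algebra L E] {ℓ m r g : ℕ}
  {e : Fin m → Fin r → ℕ} {c : Fin r → 𝓞 L} {x : Fin g → E} {w : Fin g → Fin m → E}

theorem iinj_top {O A : Type} [CommRing O] [CommRing A] [Algebra O A] {n : ℕ} {a b : O} {G : O[X]}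
    {P : Fin m → O[X]} {S : Fin g → A} {H : Fin g → Fin m → A} (hM : IsMdl n a b G P S H)
    (T : Subalgebra O A) (h1 : ∀ k, S k ∈ T) (h2 : ∀ k j, H k j ∈ T)
    (h3 : ∀ k j y, (1 + n * H k j) * y = 1 → y ∈ T)
    (h4 : ∀ k y, (algebraMap O A b - algebraMap O A a * S k) * y = 1 → y ∈ T) (z : A) : z ∈ T := by
  obtain ⟨χ, hχ1, hχ2⟩ := hM.lift T (fun k => ⟨S k, h1 k⟩) (fun k j => ⟨H k j, h2 k j⟩)
    (fun k j => Subtype.ext (by
      have e1 := aeval_algHom_apply T.val (⟨H k j, h2 k j⟩ : T) G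
      have e2 := aeval_algHom_apply T.val (⟨S k, h1 k⟩ : T) (P j)
      exact e1.symm.trans ((hM.rel k j).trans e2)))
    (fun k j => by
      obtain ⟨y, hy⟩ := (hM.unit.1 k j).exists_right_inv
      exact IsUnit.of_mul_eq_one (⟨y, h3 k j y hy⟩ : T) (Subtype.ext (by simpa using hy)))
    (fun k => by
      obtain ⟨y, hy⟩ := (hM.unit.2 k).exists_right_inv
      exact IsUnit.of_mul_eq_one (⟨y, h4 k y hy⟩ : T) (Subtype.ext (by simpa using hy)))
  have := hM.ext A (T.val.comp χ) (AlgHom.id O A) (fun k => by simp [hχ1]) fun k j => by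
    simp [hχ2]
  have h5 : ((χ z : T) : A) = z := DFunLike.congr_fun this z
  exact h5 ▸ (χ z).2

/-- The fractions with the same numerator and denominator under both maps. -/
def iinj_fr {O A R B B' : Type} [CommRing O] [CommRing A] [CommRing R] [CommRing B] [CommRing B']
    [Algebra O A] [Algebra O R] [Algebra O B] [Algebra O B'] (φ : A →ₐ[O] B) (i : A →ₐ[O] B')
    (v : R →ₐ[O] B) (ψ : R →ₐ[O] B') : Subalgebra O A where
  carrier := {z | ∃ r s : R, IsUnit (ψ s) ∧ φ z * v s = v r ∧ i z * ψ s = ψ r}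
  mul_mem' := by
    rintro y z ⟨r, s, h1, h2, h3⟩ ⟨r', s', h1', h2', h3'⟩
    refine ⟨r * r', s * s', by rw [map_mul]; exact h1.mul h1', ?_, ?_⟩
    · rw [map_mul, map_mul, map_mul, ← h2, ← h2']
      ring
    · rw [map_mul, map_mul, map_mul, ← h3, ← h3']
      ring
  add_mem' := by
    rintro y z ⟨r, s, h1, h2, h3⟩ ⟨r', s', h1', h2', h3'⟩
    refine ⟨r * s' + r' * s, s * s', by rw [map_mul]; exact h1.mul h1', ?_, ?_⟩
    · rw [map_add, map_add, map_mul, map_mul, map_mul, ← h2, ← h2']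
      ring
    · rw [map_add, map_add, map_mul, map_mul, map_mul, ← h3, ← h3']
      ring
  algebraMap_mem' := fun c => ⟨algebraMap O R c, 1, by simp, by simp, by simp⟩

open TensorProduct in
/-- `A` is flat, so it embeds in its generic fibre, to which the coordinate ring maps. -/
theorem IsMdl.inj (h : KG0 ℓ e ((nd ℓ m c).map (algebraMap (𝓞 L) L)) x w) {A : Type} [CommRing A]
    [Algebra (𝓞 L) A] {a b : 𝓞 L} {G : (𝓞 L)[X]} {P : Fin m → (𝓞 L)[X]} {S : Fin g → A}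
    {H : Fin g → Fin m → A} (hM : IsMdl ℓ a b G P S H) (hs : Algebra.Smooth (𝓞 L) A)
    (h1 : (1 + C (ℓ : 𝓞 L) * X) ^ ℓ = 1 + C ((ℓ : 𝓞 L) ^ 2) * G)
    (h2 : ∀ j, (nd ℓ m c).F e j = 1 + C ((ℓ : 𝓞 L) ^ 2) * P j) (φ : A →ₐ[𝓞 L] E)
    (h3 : ∀ k, φ (S k) = x k) (h4 : ∀ k j, 1 + ℓ * φ (H k j) = w k j) :
    Function.Injective φ := by
  have hfl : Module.Flat (𝓞 L) A := inferInstance
  let i : A →ₐ[𝓞 L] L ⊗[𝓞 L] A := Algebra.TensorProduct.includeRight
  have hi : Function.Injective i :=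
    Algebra.TensorProduct.includeRight_injective (IsFractionRing.injective (𝓞 L) L)
  have hp : ∀ k j, (1 + ℓ * H k j) ^ ℓ = aeval (S k) ((nd ℓ m c).F e j) := fun k j => by
    have := congrArg (aeval (H k j)) h1
    simp only [map_pow, map_add, map_one, map_mul, aeval_X, map_natCast] at this
    rw [this, h2, hM.rel]
    simp only [map_pow, map_add, map_one, map_mul, map_natCast]
  obtain ⟨ψ, hψ1, hψ2⟩ := h.lift_ring (B := L ⊗[𝓞 L] A) (s := fun k => i (S k))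
    (t := fun k j => i (1 + ℓ * H k j)) fun k j => by
      rw [Dat.map_F, aeval_map_algebraMap, aeval_algHom_apply, ← map_pow, hp]
  have hℓ : IsUnit ((ℓ : ℕ) : L ⊗[𝓞 L] A) := by
    have : IsUnit ((ℓ : ℕ) : L) := (Nat.cast_ne_zero.2 h.ok.pos.ne').isUnit
    simpa using this.map (algebraMap L (L ⊗[𝓞 L] A))
  let X' : Fin g → RW L x w := fun k => ⟨x k, x_mem_RW x w k⟩
  let W' : Fin g → Fin m → RW L x w := fun k j => ⟨w k j, w_mem_RW x w k j⟩
  let v : RW L x w →ₐ[𝓞 L] E := (RW L x w).val.restrictScalars (𝓞 L)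
  let ψ' : RW L x w →ₐ[𝓞 L] L ⊗[𝓞 L] A := ψ.restrictScalars (𝓞 L)
  have e1 : ∀ k, ψ' (X' k) = i (S k) := fun k => hψ1 k _
  have e2 : ∀ k j, ψ' (W' k j) = i (1 + ℓ * H k j) := fun k j => hψ2 k j _
  have e3 : ∀ k, v (X' k) = φ (S k) := fun k => (h3 k).symm
  have e4 : ∀ k j, v (W' k j) = φ (1 + ℓ * H k j) := fun k j => by
    rw [map_add, map_one, map_mul, map_natCast, h4]
    rfl
  have key := iinj_top hM (iinj_fr φ i v ψ')
    (fun k => ⟨X' k, 1, by simp, by rw [map_one, mul_one, e3], by rw [map_one, mul_one, e1]⟩)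
    (fun k j => ⟨W' k j - 1, ℓ, by rwa [map_natCast], by
      simp only [map_sub, e4, map_add, map_one, map_mul, map_natCast]
      ring, by
      simp only [map_sub, e2, map_add, map_one, map_mul, map_natCast]
      ring⟩)
    (fun k j y hy => ⟨1, W' k j, by rw [e2]; exact (hM.unit.1 k j).map i,
      by rw [e4, ← map_mul, mul_comm, hy, map_one, map_one],
      by rw [e2, ← map_mul, mul_comm, hy, map_one, map_one]⟩)
    (fun k y hy => by
      have e5 : ψ' (algebraMap _ _ b - algebraMap _ _ a * X' k) =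
          i (algebraMap _ _ b - algebraMap _ _ a * S k) := by
        simp only [map_sub, map_mul, AlgHom.commutes, e1]
      have e6 : v (algebraMap _ _ b - algebraMap _ _ a * X' k) =
          φ (algebraMap _ _ b - algebraMap _ _ a * S k) := by
        simp only [map_sub, map_mul, AlgHom.commutes, e3]
      exact ⟨1, algebraMap _ _ b - algebraMap _ _ a * X' k,
        by rw [e5]; exact (hM.unit.2 k).map i,
        by rw [e6, ← map_mul, mul_comm, hy, map_one, map_one],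
        by rw [e5, ← map_mul, mul_comm, hy, map_one, map_one]⟩)
  refine (injective_iff_map_eq_zero φ).2 fun z hz => ?_
  obtain ⟨r, s, k1, k2, k3⟩ := key z
  have hr : r = 0 := Subtype.ext (by
    rw [hz, zero_mul] at k2
    exact k2.symm)
  rw [hr, map_zero, k1.mul_left_eq_zero] at k3
  exact hi (k3.trans (map_zero i).symm)

theorem iinjb_aeval {O B : Type} [CommRing O] [CommRing B] [Algebra O B] (T : Subalgebra O B)
    {z : B} (hz : z ∈ T) (p : O[X]) : aeval z p ∈ T :=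
  Algebra.adjoin_le (Set.singleton_subset_iff.2 hz) (aeval_mem_adjoin_singleton _ _)

theorem iinjb_unit {O : Type} [CommRing O] [Algebra O E] {T : Subalgebra O E} {z : T}
    (h0 : (z : E) ≠ 0) (h : (z : E)⁻¹ ∈ T) : IsUnit z :=
  .of_mul_eq_one ⟨_, h⟩ (Subtype.ext (mul_inv_cancel₀ h0))

theorem iinjb_inv {O A : Type} [CommRing O] [CommRing A] [Algebra O A] [Algebra O E]
    (φ : A →ₐ[O] E) {z : A} (h : IsUnit z) : (φ z)⁻¹ ∈ φ.range :=
  let ⟨y, hy⟩ := h.exists_right_inv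
  ⟨y, eq_inv_of_mul_eq_one_right (by rw [← map_one φ, ← hy, map_mul]; rfl)⟩

/-- The image of the étale model in the function field. -/
theorem exists_model (h : KG0 ℓ e ((nd ℓ m c).map (algebraMap (𝓞 L) L)) x w)
    {Dr : Fin g → Derivation L E E} (hD : IsG ((nd ℓ m c).map (algebraMap (𝓞 L) L)) x Dr)
    {a b : 𝓞 L} {𝔭 : Ideal (𝓞 L)} (h𝔭 : 𝔭.IsPrime) (hab : a ∉ 𝔭 ∨ b ∉ 𝔭) :
    ∃ (T : Subalgebra (𝓞 L) E) (hx : ∀ k, x k ∈ T), Algebra.Smooth (𝓞 L) T ∧
      (∀ k j, (w k j)⁻¹ ∈ T) ∧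
      (∀ k, (algebraMap (𝓞 L) E b - algebraMap (𝓞 L) E a * x k)⁻¹ ∈ T) ∧
      (∀ l, ∀ z ∈ T, Dr l z ∈ T) ∧
      ∃ (Ω : Type) (_ : Field Ω) (χ : T →+* Ω), (∀ z ∈ 𝔭, χ (algebraMap _ T z) = 0) ∧
        ∀ Q : MvPolynomial (Fin g) (𝓞 L),
          χ (MvPolynomial.aeval (fun k => (⟨x k, hx k⟩ : T)) Q) = 0 → ∀ μ, Q.coeff μ ∈ 𝔭 := by
  have hℓ := h.ok.pos
  have : CharZero E := charZero_of_injective_algebraMap (algebraMap L E).injective
  have l0 : (ℓ : E) ≠ 0 := Nat.cast_ne_zero.2 hℓ.ne'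
  obtain ⟨G, P, h1, h2, h3⟩ := exists_polys (m := m) hℓ c e
  obtain ⟨A, _, _, S, H, hM⟩ := exists_mdl g ℓ a b G P
  have hs := hM.smooth h2
  obtain ⟨η, e1⟩ : ∃ η : Fin g → Fin m → E, ∀ k j, 1 + ℓ * η k j = w k j :=
    ⟨fun k j => (w k j - 1) / ℓ, fun k j => by rw [mul_div_cancel₀ _ l0, add_sub_cancel]⟩
  have e2 : ∀ k j, aeval (η k j) G = aeval (x k) (P j) := fun k j => by
    have e3 := congrArg (aeval (η k j)) h1
    have e4 := h.eq k j
    rw [Dat.map_F, aeval_map_algebraMap, (h3 j).1, ← e1] at e4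
    simp only [map_pow, map_add, map_mul, map_one, map_natCast, aeval_X] at e3 e4
    exact mul_left_cancel₀ (pow_ne_zero 2 l0) (add_left_cancel (e3.symm.trans e4))
  have e5 : ∀ k, algebraMap (𝓞 L) E b - algebraMap (𝓞 L) E a * x k ≠ 0 := fun k => by
    have e6 : (C b - C a * X : (𝓞 L)[X]) ≠ 0 := fun e => by
      have e7 := congrArg (coeff · 0) e
      have e8 := congrArg (coeff · 1) e
      simp [coeff_C] at e7 e8
      rcases hab with h | h
      exacts [h (e8 ▸ 𝔭.zero_mem), h (e7 ▸ 𝔭.zero_mem)]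
    have := h.aeval_ne k ((Polynomial.map_ne_zero_iff RingOfIntegers.coe_injective).2 e6)
    rwa [aeval_map_algebraMap, map_sub, map_mul, aeval_C, aeval_C, aeval_X] at this
  let T := Algebra.adjoin (𝓞 L) {z | ∃ k, z = x k ∨
    z = (algebraMap (𝓞 L) E b - algebraMap (𝓞 L) E a * x k)⁻¹ ∨ ∃ j, z = η k j ∨ z = (w k j)⁻¹}
  have m1 : ∀ k, x k ∈ T := fun k => Algebra.subset_adjoin ⟨k, .inl rfl⟩
  have m2 : ∀ k, (algebraMap (𝓞 L) E b - algebraMap (𝓞 L) E a * x k)⁻¹ ∈ T := fun k =>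
    Algebra.subset_adjoin ⟨k, .inr (.inl rfl)⟩
  have m3 : ∀ k j, η k j ∈ T := fun k j => Algebra.subset_adjoin ⟨k, .inr (.inr ⟨j, .inl rfl⟩)⟩
  have m4 : ∀ k j, (w k j)⁻¹ ∈ T := fun k j =>
    Algebra.subset_adjoin ⟨k, .inr (.inr ⟨j, .inr rfl⟩)⟩
  obtain ⟨φ, p1, p2⟩ := hM.lift T (fun k => ⟨x k, m1 k⟩) (fun k j => ⟨η k j, m3 k j⟩)
    (fun k j => Subtype.ext (((aeval_algHom_apply T.val _ G).symm.trans (e2 k j)).trans
      (aeval_algHom_apply T.val ⟨x k, m1 k⟩ (P j))))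
    (fun k j => iinjb_unit (by simpa [e1] using h.w_ne k j) (by simpa [e1] using m4 k j))
    fun k => iinjb_unit (e5 k) (m2 k)
  have q1 : ∀ k, T.val.comp φ (S k) = x k := fun k => congrArg Subtype.val (p1 k)
  have q2 : ∀ k j, T.val.comp φ (H k j) = η k j := fun k j => congrArg Subtype.val (p2 k j)
  have inj := hM.inj h hs h1 (fun j => (h3 j).1) (T.val.comp φ) q1 fun k j => by rw [q2, e1]
  have sur : T ≤ (T.val.comp φ).range := Algebra.adjoin_le (by
    rintro _ ⟨k, rfl | rfl | ⟨j, rfl | rfl⟩⟩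
    · exact ⟨_, q1 k⟩
    · have := iinjb_inv (T.val.comp φ) (hM.unit.2 k)
      rwa [map_sub, map_mul, AlgHom.commutes, AlgHom.commutes, q1] at this
    · exact ⟨_, q2 k j⟩
    · have := iinjb_inv (T.val.comp φ) (hM.unit.1 k j)
      rwa [map_add, map_mul, map_one, map_natCast, q2, e1] at this)
  let ψ := AlgEquiv.ofBijective φ ⟨fun u v e => inj (congrArg Subtype.val e), fun z =>
    (sur z.2).imp fun y hy => Subtype.ext hy⟩
  obtain ⟨Ω, _, χ, c1, c2⟩ := hM.exists_chi hℓ h𝔭 hab h1 h2 fun j => (h3 j).2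
  refine ⟨T, m1, .of_equiv ψ, m4, m2, fun l z hz => ?_, Ω, inferInstance,
    χ.comp ψ.symm.toRingHom, fun z hz => ?_, fun Q hQ => c2 Q ?_⟩
  · have d0 : ∀ c, Dr l (algebraMap (𝓞 L) E c) = 0 := fun c => by
      rw [IsScalarTower.algebraMap_apply _ L, Derivation.map_algebraMap]
    have d1 : ∀ k, Dr l (x k) ∈ T := fun k => by
      rw [hD]
      split_ifs
      · rw [Dat.map_G, aeval_map_algebraMap]
        exact iinjb_aeval T (m1 l) _
      · exact zero_mem _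
    have d2 : ∀ k j, Dr l (η k j) ∈ T := fun k j => by
      have e3 := ((Dr l).restrictScalars (𝓞 L)).map_aeval G (η k j)
      rw [e2, Derivation.map_aeval, h2] at e3
      simp only [map_pow, map_add, map_mul, map_one, map_natCast, aeval_X, e1, smul_eq_mul,
        Derivation.coe_restrictScalars] at e3
      rw [(eq_inv_mul_iff_mul_eq₀ (pow_ne_zero _ (h.w_ne k j))).2 e3.symm, ← inv_pow]
      exact mul_mem (pow_mem (m4 k j) _) (mul_mem (iinjb_aeval T (m1 k) _) (d1 k))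
    refine (der_adjoin (Dr l) T.toSubring (fun c => ⟨T.algebraMap_mem c, d0 c ▸ zero_mem _⟩)
      ?_ hz).2
    rintro _ ⟨k, rfl | rfl | ⟨j, rfl | rfl⟩⟩
    · exact ⟨m1 k, d1 k⟩
    · refine ⟨m2 k, ?_⟩
      rw [Derivation.leibniz_inv, map_sub, Derivation.leibniz, d0, d0, smul_zero, add_zero]
      exact mul_mem (neg_mem (pow_mem (m2 k) 2))
        (sub_mem (zero_mem _) (mul_mem (T.algebraMap_mem a) (d1 k)))
    · exact ⟨m3 k j, d2 k j⟩
    · refine ⟨m4 k j, ?_⟩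
      have e3 : Dr l (w k j) = ℓ * Dr l (η k j) := by simp [← e1]
      rw [Derivation.leibniz_inv, e3]
      exact mul_mem (neg_mem (pow_mem (m4 k j) 2)) (mul_mem (natCast_mem _ ℓ) (d2 k j))
  · exact (congrArg χ (ψ.symm.commutes z)).trans (c1 z hz)
  · refine (congrArg χ (ψ.eq_symm_apply.2 ?_)).trans hQ
    rw [← funext p1]
    exact MvPolynomial.comp_aeval_apply S φ Q

end Pool.Agent.Lib.MP_07b2d0_nt.Kh
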