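import Pool.Agent.Lib.MP_07b2d0_nt.Kh.AAn
import Pool.Agent.Lib.MP_07b2d0_nt.Fh.AArch

/-!
The archimedean lower bound.
-/

set_option autoImplicit false

namespace Pool.Agent.Lib.MP_07b2d0_nt.Kh

open NumberField MeasureTheory Fh

variable {L E : Type} [Field L] [NumberField L] [Field E] [Algebra L E] {g : ℕ}

/-- Extend points to the ring generated by the image of `R` and by `Z`. -/
theorem arch2 {R : Type} [CommRing R] (ψ : R →+* E) (κ : 𝓞 L →+* R) (hκ : κ.FiniteType)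
    (hψ : ψ.comp κ = algebraMap (𝓞 L) E) {t : Fin g → R} {h : R}
    (ht : AlgebraicIndependent ℤ fun i => ψ (t i))
    (ha : ∀ z : E, IsAlgebraic (Algebra.adjoin ℤ (Set.range fun i => ψ (t i))) z) {Z : Set E}
    (hZ : Z.Finite) {c : E} {Q : MvPolynomial (Fin g) (𝓞 L)}
    (he : ψ h * c = MvPolynomial.aeval (fun i => ψ (t i)) Q) (σ : L →+* ℂ) {M : ℝ} (hM : 0 < M)
    (hB : ∀ B : Subalgebra (𝓞 L) E, Z ⊆ B → ∃ hc : c ∈ B, ∀ P : B →+* ℂ,
      (∀ a : 𝓞 L, P (algebraMap _ B a) = σ a) → (∀ i hi, ‖P ⟨ψ (t i), hi⟩‖ ≤ 2) → ‖P ⟨c, hc⟩‖ ≤ M)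
    (μ : Fin g →₀ ℕ) :
    ENNReal.ofReal (‖σ (Q.coeff μ : 𝓞 L)‖ ^ 2 / M ^ 2) ≤ ∫⁻ z : Fin g → ℂ,
      ∑' P : {P : R →+* ℂ // (∀ a, P (κ a) = σ a) ∧ ∀ i, P (t i) = z i}, ‖P.1 h‖ₑ ^ 2 := by
  let := κ.toAlgebra
  obtain ⟨s, hs⟩ : (⊤ : Subalgebra (𝓞 L) R).FG := hκ.out
  let ψ' : R →ₐ[𝓞 L] E := ⟨ψ, RingHom.congr_fun hψ⟩
  set B := Algebra.adjoin (𝓞 L) (ψ' '' s ∪ Z)
  have hm : ∀ a, ψ a ∈ B := fun a => Algebra.adjoin_mono Set.subset_union_left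
    ((ψ'.map_adjoin s).le ⟨a, hs.ge trivial, rfl⟩)
  let φ : R →ₐ[𝓞 L] B := ψ'.codRestrict B hm
  let f := (algebraMap B E).toIntAlgHom
  have e1 : (Algebra.adjoin ℤ (Set.range fun i => φ (t i))).map f =
      Algebra.adjoin ℤ (Set.range fun i => ψ (t i)) := by
    rw [AlgHom.map_adjoin, ← Set.range_comp]
    rfl
  obtain ⟨Δ, hΔ, H⟩ := exists_points (algebraMap (𝓞 L) B) (RingHom.finiteType_algebraMap.2
    (.adjoin_of_finite ((s.finite_toSet.image _).union hZ)))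
    (t := fun i => φ (t i)) (AlgebraicIndependent.of_comp f ht) (fun z => (ha z).of_ringHom_of_comp_eq
      ((f.comp (Subalgebra.val _)).codRestrict _ fun a => e1.le ⟨a, a.2, rfl⟩).toRingHom
      (algebraMap B E) (fun y => (e1.ge y.2).elim fun a h => ⟨⟨a, h.1⟩, Subtype.ext h.2⟩)
      Subtype.val_injective rfl) σ
  obtain ⟨hc, hP⟩ := hB B fun z hz => Algebra.subset_adjoin (.inr hz)
  have e2 : φ h * ⟨c, hc⟩ = MvPolynomial.aeval (fun i => φ (t i)) Q :=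
    Subtype.ext (he.trans (MvPolynomial.comp_aeval_apply (fun i => φ (t i)) B.val Q).symm)
  refine le_trans (by rw [MvPolynomial.coeff_map]; rfl) (le_lintegral_annulus hΔ
    (Q.map (σ.comp (algebraMap (𝓞 L) L))) μ (pow_pos hM 2) fun z hz h0 => ?_)
  obtain ⟨P, h1, h2⟩ := H z h0
  refine le_trans ?_ (ENNReal.le_tsum ⟨P.comp φ, fun a =>
    (congrArg P (φ.commutes a)).trans (h1 a), h2⟩)
  have h3 : MvPolynomial.eval z (Q.map (σ.comp (algebraMap (𝓞 L) L))) = P (φ h) * P ⟨c, hc⟩ := by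
    rw [← map_mul, e2, MvPolynomial.map_aeval, MvPolynomial.eval_map, funext h2,
      show P.comp _ = σ.comp (algebraMap (𝓞 L) L) from RingHom.ext h1]
    rfl
  rw [← ofReal_norm, ← ENNReal.ofReal_pow (norm_nonneg _), h3, norm_mul, mul_pow]
  refine ENNReal.ofReal_le_ofReal (div_le_of_le_mul₀ (by positivity) (by positivity) ?_)
  exact mul_le_mul_of_nonneg_left (pow_le_pow_left₀ (norm_nonneg _)
    (hP P h1 fun i _ => (congrArg norm (h2 i)).le.trans (hz i)) 2) (by positivity)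

end Pool.Agent.Lib.MP_07b2d0_nt.Kh
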