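import Pool.Agent.Lib.MP_07b2d0_nt.Kh.Bas
import Pool.Agent.Lib.MP_07b2d0_nt.Kh.Cmb
import Pool.Agent.Lib.MP_07b2d0_nt.Fh.ASym

/-!
Archimedean bounds.
-/

set_option autoImplicit false

namespace Pool.Agent.Lib.MP_07b2d0_nt.Kh

open Fh

variable {ℓ m r g : ℕ} {e : Fin m → Fin r → ℕ}

theorem abd_six {a : ℂ} (h : ‖a‖ ≤ 6) : ‖a‖ ≤ Real.exp (2 : ℕ) := by
  rw [Nat.cast_ofNat, ← one_add_one_eq_two, Real.exp_add]
  nlinarith [Real.exp_one_gt_d9]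

theorem abd_mono {a : ℂ} {A B : ℕ} (h : ‖a‖ ≤ Real.exp A) (e : A ≤ B) : ‖a‖ ≤ Real.exp B :=
  h.trans (Real.exp_le_exp.2 (Nat.cast_le.2 e))

theorem abd_mul {a b : ℂ} {A B : ℕ} (ha : ‖a‖ ≤ Real.exp A) (hb : ‖b‖ ≤ Real.exp B) :
    ‖a * b‖ ≤ Real.exp (A + B : ℕ) := by
  rw [norm_mul, Nat.cast_add, Real.exp_add]
  exact mul_le_mul ha hb (norm_nonneg _) (Real.exp_nonneg _)

theorem abd_pow {a : ℂ} {A n N : ℕ} (h : ‖a‖ ≤ Real.exp A) (e : n ≤ N) :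
    ‖a ^ n‖ ≤ Real.exp (N * A : ℕ) := by
  refine abd_mono ?_ (Nat.mul_le_mul_right A e)
  rw [norm_pow, Nat.cast_mul, Real.exp_nat_mul]
  exact pow_le_pow_left₀ (norm_nonneg _) h n

theorem abd_prod {ι : Type} {s : Finset ι} {f : ι → ℂ} {A N : ℕ} (e : s.card ≤ N)
    (h : ∀ i, ‖f i‖ ≤ Real.exp A) : ‖∏ i ∈ s, f i‖ ≤ Real.exp (N * A : ℕ) := by
  refine abd_mono ?_ (Nat.mul_le_mul_right A e)
  rw [norm_prod, Nat.cast_mul, Real.exp_nat_mul, ← Finset.prod_const]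
  exact Finset.prod_le_prod (fun _ _ => norm_nonneg _) fun i _ => h i

theorem norm_le_three {x : Fin g → ℂ} (h : ∀ n : Fin g, ‖es x (n.1 + 1)‖ ≤ 2) (k : Fin g) :
    ‖x k‖ ≤ 3 := by
  by_contra hk
  have hk := not_le.1 hk
  have h0 : x k ≠ 0 := fun e => by simp [e] at hk; linarith
  have h1 := prod_one_sub x (x k)⁻¹
  rw [Finset.prod_eq_zero (Finset.mem_univ k) (by rw [inv_mul_cancel₀ h0, sub_self]),
    eq_comm, add_eq_zero_iff_neg_eq] at h1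
  have h2 : ∀ N, ∑ n ∈ Finset.range N, (1 / 3 : ℝ) ^ (n + 1) * 2 = 1 - (1 / 3) ^ N := fun N => by
    induction N with
    | zero => simp
    | succ N ih => rw [Finset.sum_range_succ, ih]; ring
  have h3 : ‖(-1 : ℂ)‖ ≤ ∑ n : Fin g, (1 / 3 : ℝ) ^ (n.1 + 1) * 2 := by
    rw [h1]
    refine norm_sum_le_of_le _ fun n _ => ?_
    rw [norm_mul, norm_pow, norm_neg, norm_inv, one_div]
    exact mul_le_mul (pow_le_pow_left₀ (by positivity) (inv_anti₀ three_pos hk.le) _) (h n)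
      (norm_nonneg _) (by positivity)
  rw [Fin.sum_univ_eq_sum_range (fun n => (1 / 3 : ℝ) ^ (n + 1) * 2), h2, norm_neg, norm_one] at h3
  linarith [pow_pos (show (0 : ℝ) < 1 / 3 by norm_num) g]

theorem norm_vdm_le {x : Fin g → ℂ} (h : ∀ k, ‖x k‖ ≤ 3) : ‖vdm x‖ ≤ Real.exp (2 * g ^ 2 : ℕ) := by
  rw [vdm, Matrix.det_vandermonde, show 2 * g ^ 2 = g * (g * 2) by ring]
  exact abd_prod (by simp) fun i => abd_prod (card_finset_fin_le _) fun j =>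
    abd_six ((norm_sub_le _ _).trans (by linarith [h i, h j]))

theorem norm_Del_le (en : Fin g ≃ JJ ℓ e) {ξ : Fin g → ℂ} {z : Fin g → U ℓ m → ℂ} {H : ℕ}
    (h1 : ∀ k, ‖ξ k‖ ≤ 3) (h2 : ∀ k u, ‖z k u‖ ≤ Real.exp (r * (H + 2) : ℕ)) :
    ‖Del en ξ z‖ ≤ Real.exp (g ^ 2 + r * g * (H + 4) : ℕ) := by
  rw [Del, Matrix.det_apply']
  refine (norm_sum_le_of_le (n := fun _ => Real.exp (g * (r * 2 + r * (H + 2)) : ℕ)) _
    fun σ _ => ?_).trans ?_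
  · rw [norm_mul, show ‖((Equiv.Perm.sign σ : ℤ) : ℂ)‖ = 1 by
      rcases Int.units_eq_one_or (Equiv.Perm.sign σ) with h | h <;> simp [h], one_mul]
    refine abd_prod (by simp) fun k => abd_mul (abd_pow (abd_six (by linarith [h1 k])) ?_) (h2 k _)
    have := (en (σ k)).2.2
    have := dd_le e (en (σ k)).1
    omega
  · rw [Finset.sum_const, Finset.card_univ, Fintype.card_perm, Fintype.card_fin, nsmul_eq_mul,
      show g * (r * 2 + r * (H + 2)) = r * g * (H + 4) by ring, Nat.cast_add (g ^ 2), Real.exp_add,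
      sq, Nat.cast_mul g, Real.exp_nat_mul]
    refine mul_le_mul_of_nonneg_right ((Nat.cast_le.2 g.factorial_le_pow).trans ?_)
      (Real.exp_nonneg _)
    rw [Nat.cast_pow]
    exact pow_le_pow_left₀ g.cast_nonneg (by linarith [Real.add_one_le_exp (g : ℝ)]) g

theorem norm_cof_le {O : Type} [CommRing O] [IsDomain O] [NeZero ℓ] (κ : O →+* ℂ)
    (en : Fin g ≃ JJ ℓ e) {ξ : Fin g → ℂ} {z : Fin g → U ℓ m → ℂ} {H : ℕ} (h1 : ∀ k, ‖ξ k‖ ≤ 3)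
    (h2 : ∀ k u, ‖z k u‖ ≤ Real.exp (r * (H + 2) : ℕ)) :
    ‖cof κ en ξ z‖ ≤ Real.exp (2 * ℓ ^ (m * g) * (g ^ 2 + r * g * (H + 4)) : ℕ) := by
  have h3 : ∀ θ, ‖tw κ en ξ z θ‖ ≤ Real.exp (g ^ 2 + r * g * (H + 4) : ℕ) := fun θ =>
    norm_Del_le en h1 fun k u => by
      have : ∀ j, ‖κ ((θ k j : Oˣ) : O)‖ = 1 := fun j =>
        Complex.norm_eq_one_of_pow_eq_one (n := ℓ) (by
          rw [← map_pow, (mem_rootsOfUnity' _ _).1 (θ k j).2, map_one]) (NeZero.ne ℓ)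
      simpa [mon, this] using h2 k u
  have h4 : ∀ s : Finset (Fin g → Fin m → rootsOfUnity ℓ O), s.card ≤ ℓ ^ (m * g) := fun s => by
    refine s.card_le_univ.trans ?_
    rw [← Nat.card_eq_fintype_card, Nat.card_fun, Nat.card_fun, ← pow_mul, Nat.card_fin,
      Nat.card_fin]
    exact Nat.pow_le_pow_left (card_rootsOfUnity O ℓ) _
  rw [mul_assoc, two_mul]
  exact abd_mul (abd_prod (h4 _) h3) (abd_prod (h4 _) h3)

theorem alg_bound {O : Type} [CommRing O] [IsDomain O] [NeZero ℓ] (κ : O →+* ℂ)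
    (en : Fin g ≃ JJ ℓ e) {γ : Fin r → ℂ} {s : Fin g → ℂ} {z : Fin g → U ℓ m → ℂ} {J : ℂ} {H : ℕ}
    (hγ : ∀ i, ‖γ i‖ ≤ Real.exp H) (hs : ∀ n : Fin g, ‖es s (n.1 + 1)‖ ≤ 2)
    (hz : ∀ k u, z k u ^ ℓ = ∏ i, (1 - γ i * s k) ^ (ℓ - wt ℓ e u i % ℓ))
    (hJ : J ^ 2 = (∏ k, ∏ i, (1 - γ i * s k)) ^ 2 * vdm s ^ 2) :
    ‖J * cof κ en s z‖ ≤ Real.exp (bd ℓ m r g H) := by
  have h1 := norm_le_three hs
  have h2 : ∀ k i, ‖1 - γ i * s k‖ ≤ Real.exp (2 + H : ℕ) := fun k i => by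
    have e1 := abd_six (a := 4) (by norm_num)
    have e2 := Real.one_le_exp H.cast_nonneg
    have e3 := mul_le_mul (hγ i) (h1 k) (norm_nonneg _) (Real.exp_nonneg _)
    refine (norm_sub_le _ _).trans ?_
    rw [Nat.cast_add, Real.exp_add, norm_one, norm_mul]
    rw [Complex.norm_ofNat] at e1
    nlinarith
  rw [add_comm] at h2
  have h3 : ∀ k u, ‖z k u‖ ≤ Real.exp (r * (H + 2) : ℕ) := fun k u => by
    refine (pow_le_pow_iff_left₀ (norm_nonneg _) (Real.exp_nonneg _) (NeZero.ne ℓ)).1 ?_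
    rw [← norm_pow, hz, ← Real.exp_nat_mul, ← Nat.cast_mul, mul_left_comm]
    exact abd_prod (by simp) fun i => abd_pow (h2 k i) (Nat.sub_le _ _)
  have h4 : ‖J‖ = ‖(∏ k, ∏ i, (1 - γ i * s k)) * vdm s‖ := by
    rw [← pow_left_inj₀ (norm_nonneg _) (norm_nonneg _) two_ne_zero, ← norm_pow, hJ, ← mul_pow,
      norm_pow]
  refine abd_mul ?_ (norm_cof_le κ en h1 h3)
  rw [h4, mul_comm r, mul_assoc]
  exact abd_mul (abd_prod (by simp) fun k => abd_prod (by simp) (h2 k)) (norm_vdm_le h1)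

end Pool.Agent.Lib.MP_07b2d0_nt.Kh
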