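import Pool.Agent.Lib.MP_07b2d0_nt.Kh.GCon

/-!
The norm of the determinant is a polynomial.
-/

set_option autoImplicit false

namespace Pool.Agent.Lib.MP_07b2d0_nt.Kh

open Polynomial NumberField Fh

variable {L E ι : Type} [Field L] [Field E] [Algebra L E] {ℓ m r g : ℕ} {e : Fin m → Fin r → ℕ}
  {D : Dat L m r}

section

variable {O B : Type} [CommRing O] [CommRing B] [IsDomain O] [NeZero ℓ] (κ : O →+* B)
  (en : Fin g ≃ JJ ℓ e) (ξ : Fin g → B) (z : Fin g → U ℓ m → B)

theorem gnn_shift (τ : Fin g → Fin m → rootsOfUnity ℓ O) :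
    NN κ en ξ (fun k u => κ (mon (fun j => ((τ k j : Oˣ) : O)) u) * z k u) = NN κ en ξ z := by
  rw [NN, NN, ← Equiv.prod_comp (Equiv.mulRight τ) (tw κ en ξ z)]
  refine Finset.prod_congr rfl fun θ _ => ?_
  simp only [tw, ← mul_assoc, ← map_mul, ← mon_mul]
  rfl

theorem gnn_perm (π : Equiv.Perm (Fin g)) :
    NN κ en (fun k => ξ (π k)) (fun k => z (π k)) ^ 2 = NN κ en ξ z ^ 2 := by
  rw [NN, NN, ← (Equiv.arrowCongr π.symm (Equiv.refl _)).prod_comp, ← Finset.prod_pow,
    ← Finset.prod_pow]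
  refine Finset.prod_congr rfl fun θ _ => ?_
  have := Del_perm en ξ (fun k u => κ (mon (fun j => ((θ k j : Oˣ) : O)) u) * z k u) π
  refine (congrArg (· ^ 2) this).trans ?_
  simp only [tw, mul_pow, ← Int.cast_pow, ← Units.val_pow_eq_pow_val, Int.units_sq, Units.val_one,
    Int.cast_one, one_mul]

theorem gnn_mem (W : Subring B) (h0 : ∀ a, κ a ∈ W) (h1 : ∀ k, ξ k ∈ W) (h2 : ∀ k u, z k u ∈ W) :
    NN κ en ξ z ∈ W := by
  have := map_NN W.subtype (κ.codRestrict W h0) en (fun k => ⟨ξ k, h1 k⟩) fun k u => ⟨_, h2 k u⟩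
  exact (show _ = NN κ en ξ z from this) ▸ Subtype.prop _

end

variable [NumberField L] [NeZero ℓ] {x : Fin g → E} {w : Fin g → Fin m → E}

omit [NumberField L] in
theorem gnn_map (s : E →ₐ[L] E) (en : Fin g ≃ JJ ℓ e) :
    s (NN (algebraMap (𝓞 L) E) en x fun k => zz e D (x k) (w k)) = NN (algebraMap (𝓞 L) E) en
      (fun k => s (x k)) fun k => zz e D (s (x k)) fun j => s (w k j) := by
  have := map_NN (s : E →+* E) (algebraMap (𝓞 L) E) en x fun k => zz e D (x k) (w k)
  simp only [map_zz (s : E →+* E) (RingHom.id L) s.commutes] at this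
  rwa [show (s : E →+* E).comp _ = _ from (s.restrictScalars (𝓞 L)).comp_algebraMap] at this

theorem KG.NN_poly1 (h : KG ℓ e D x w) (en : Fin g ≃ JJ ℓ e) : ∃ P : MvPolynomial (Fin g) L,
    MvPolynomial.aeval x P = NN (algebraMap (𝓞 L) E) en x fun k => zz e D (x k) (w k) := by
  obtain ⟨ζ, hζ⟩ := h.zeta
  have it : ∀ z ∈ Algebra.adjoin L (Set.range x), IsIntegral (Algebra.adjoin L (Set.range x)) z :=
    fun z hz => isIntegral_algebraMap (x := (⟨z, hz⟩ : Algebra.adjoin L (Set.range x)))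
  have hx : ∀ k, x k ∈ Algebra.adjoin L (Set.range x) := fun k => Algebra.subset_adjoin ⟨k, rfl⟩
  refine poly_of_integral h.ind (h.fix hζ fun k j s h1 h2 => ?_)
    (gnn_mem _ en x _ (integralClosure _ E).toSubring
      (fun a => it _ (Subalgebra.algebraMap_mem _ (a : L))) (fun k => it _ (hx k)) fun k u => ?_)
  · let ρ : rootsOfUnity ℓ (𝓞 L) :=
      rootsOfUnity.mkOfPowEq hζ.toInteger hζ.toInteger_isPrimitiveRoot.pow_eq_one
    simp only [gnn_map, h1, h2]
    refine Eq.trans ?_ (gnn_shift _ en x _ fun l i => (if l = k ∧ i = j then ρ else 1)⁻¹)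
    refine congrArg _ (funext₂ fun l u => (zz_tw _ _ _ _).trans (congrArg (· * _) ?_))
    simp only [mon, ← Finset.prod_inv_distrib, ← inv_pow, Subgroup.coe_inv,
      map_units_inv, map_prod, map_pow]
    refine Finset.prod_congr rfl fun i _ => ?_
    split_ifs
    · rfl
    · simp
  · refine IsIntegral.of_pow h.ok.pos (it _ ?_)
    rw [(eq_mul_inv_iff_mul_eq₀ ((_root_.map_ne_zero _).2 (mon_ne h.ok.c u))).2
      (zz_pow h.ok.pos (h.eq k) (h.w_ne k) u), ← map_inv₀]
    exact mul_mem (Algebra.adjoin_le (Set.singleton_subset_iff.2 (hx k))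
      (aeval_mem_adjoin_singleton _ _)) (Subalgebra.algebraMap_mem _ _)

theorem aeval_esymm {O B : Type} [CommRing O] [CommRing B] [Algebra O B] (x : Fin g → B) (n : ℕ) :
    MvPolynomial.aeval x (MvPolynomial.esymm (Fin g) O n) = es x n := by
  simp only [MvPolynomial.esymm, es, map_sum, map_prod, MvPolynomial.aeval_X]

theorem KG.NN_poly (h : KG ℓ e D x w) (en : Fin g ≃ JJ ℓ e) : ∃ Q : MvPolynomial (Fin g) L,
    MvPolynomial.aeval (fun n : Fin g => es x (n.1 + 1)) Q =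
      NN (algebraMap (𝓞 L) E) en x (fun k => zz e D (x k) (w k)) ^ 2 := by
  obtain ⟨P, hP⟩ := h.NN_poly1 en
  obtain ⟨Q, hQ⟩ := MvPolynomial.esymmAlgHom_fin_surjective L (le_refl g) ⟨P ^ 2, fun π => h.ind (by
    obtain ⟨s, h1, h2⟩ := h.exists_perm π
    rw [MvPolynomial.aeval_rename, Function.comp_def, ← funext h1,
      ← MvPolynomial.comp_aeval_apply, map_pow, map_pow, hP, gnn_map]
    simp only [h1, h2]
    exact gnn_perm _ en x (fun k => zz e D (x k) (w k)) π)⟩
  have := congrArg (MvPolynomial.aeval x ·.1) hQ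
  simp only [MvPolynomial.esymmAlgHom_apply, MvPolynomial.comp_aeval_apply, aeval_esymm, map_pow,
    hP] at this
  exact ⟨Q, this⟩

end Pool.Agent.Lib.MP_07b2d0_nt.Kh
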