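import Pool.Agent.Lib.MP_07b2d0_nt.Kh.IInj
import Pool.Agent.Lib.MP_07b2d0_nt.Kh.GNN
import Pool.Agent.Lib.MP_07b2d0_nt.Fh.ACon
import Pool.Agent.Lib.MP_07b2d0_nt.Fh.APair

/-!
Integrality of the coefficients.
-/

set_option autoImplicit false

namespace Pool.Agent.Lib.MP_07b2d0_nt.Kh

open Polynomial NumberField Fh

variable {L E F : Type} [Field L] [NumberField L] [Field E] [Field F] [Algebra L E] {ℓ m r g : ℕ}
  {e : Fin m → Fin r → ℕ} {D : Dat L m r} {τ : L} {x : Fin g → E} {w : Fin g → Fin m → E}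
  {κ : 𝓞 L →+* F} {ι : F →+* E} {S : Set (Subring F)} {Dr : Fin g → Derivation L E E}
  {p : ⋀[F]^g Ω[F⁄ℤ] →+ E} {α : ⋀[F]^g Ω[F⁄ℤ]}

theorem content' {I : Type} {t : I → E} {P : MvPolynomial I L}
    (h : ∀ 𝔭 : Ideal (𝓞 L), 𝔭.IsMaximal → ∃ (T : Subalgebra (𝓞 L) E) (ht : ∀ n, t n ∈ T)
      (Ω : Type) (_ : Field Ω) (χ : T →+* Ω), MvPolynomial.aeval t P ∈ T ∧
      (∀ z ∈ 𝔭, χ (algebraMap _ T z) = 0) ∧ ∀ Q : MvPolynomial I (𝓞 L),
        χ (MvPolynomial.aeval (fun n => (⟨t n, ht n⟩ : T)) Q) = 0 → ∀ μ, Q.coeff μ ∈ 𝔭) :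
    ∃ Q, MvPolynomial.map (algebraMap (𝓞 L) L) Q = P := by
  classical
  let J : Ideal (𝓞 L) :=
    { carrier := {a | ∃ Q, MvPolynomial.map (algebraMap (𝓞 L) L) Q =
        MvPolynomial.C (algebraMap (𝓞 L) L a) * P}
      add_mem' := by
        rintro a b ⟨Q, hQ⟩ ⟨Q', hQ'⟩
        exact ⟨Q + Q', by simp only [map_add, hQ, hQ', add_mul]⟩
      zero_mem' := ⟨0, by simp⟩
      smul_mem' := fun a b ⟨Q, hQ⟩ => ⟨MvPolynomial.C a * Q, by
        simp only [map_mul, hQ, MvPolynomial.map_C, smul_eq_mul, mul_assoc]⟩ }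
  have top : J = ⊤ := by
    by_contra hne
    obtain ⟨𝔭, h𝔭, hle⟩ := Ideal.exists_le_maximal J hne
    obtain ⟨T, ht, Ω, _, χ, hP, h0, h1⟩ := h 𝔭 h𝔭
    obtain ⟨a, ha, i, -, hi⟩ := Ideal.exist_integer_multiples_notMem (K := L) h𝔭.ne_top
      (Finset.insertNone P.support) (fun o => o.elim 1 fun μ => P.coeff μ) (j := none)
      (by simp) one_ne_zero
    obtain ⟨a, rfl⟩ : ∃ b : 𝓞 L, algebraMap (𝓞 L) L b = a :=
      (ha none (by simp)).imp fun _ h => h.trans (mul_one a)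
    obtain ⟨Q, hQ⟩ : MvPolynomial.C (algebraMap (𝓞 L) L a) * P ∈
        Set.range (MvPolynomial.map (algebraMap (𝓞 L) L)) := by
      refine MvPolynomial.mem_range_map_iff_coeffs_subset.2 fun c hc => ?_
      obtain ⟨μ, hμ, rfl⟩ := MvPolynomial.mem_coeffs_iff.1 hc
      rw [MvPolynomial.coeff_C_mul]
      refine ha (some μ) (Finset.some_mem_insertNone.2 (MvPolynomial.mem_support_iff.2 fun h => ?_))
      exact MvPolynomial.mem_support_iff.1 hμ (by rw [MvPolynomial.coeff_C_mul, h, mul_zero])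
    have ha' : a ∈ 𝔭 := hle ⟨Q, hQ⟩
    have e : MvPolynomial.aeval (fun n => (⟨t n, ht n⟩ : T)) Q = algebraMap _ T a * ⟨_, hP⟩ := by
      refine Subtype.ext ((MvPolynomial.comp_aeval_apply _ T.val Q).trans ?_)
      rw [← MvPolynomial.aeval_map_algebraMap L, hQ, map_mul, MvPolynomial.aeval_C]
      rfl
    have h2 := h1 Q (by rw [e, map_mul, h0 a ha', zero_mul])
    refine hi ((FractionalIdeal.mem_coeIdeal _).2 ?_)
    rcases i with _ | μ
    · exact ⟨a, ha', (mul_one _).symm⟩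
    · exact ⟨_, h2 μ, by rw [← MvPolynomial.coeff_map, hQ, MvPolynomial.coeff_C_mul]; rfl⟩
  obtain ⟨Q, hQ⟩ : (1 : 𝓞 L) ∈ J := top ▸ Submodule.mem_top
  exact ⟨Q, by simpa using hQ⟩

theorem esymm_coeff {O : Type} [CommRing O] (𝔭 : Ideal O) {Q : MvPolynomial (Fin g) O}
    (h : ∀ μ, (MvPolynomial.aeval (fun n : Fin g => MvPolynomial.esymm (Fin g) O (n.1 + 1))
      Q).coeff μ ∈ 𝔭) (μ : Fin g →₀ ℕ) : Q.coeff μ ∈ 𝔭 := by
  have h0 : MvPolynomial.map (Ideal.Quotient.mk 𝔭) Q = 0 := by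
    refine (injective_iff_map_eq_zero _).1
      (MvPolynomial.esymmAlgHom_fin_injective (O ⧸ 𝔭) (le_refl g)) _ (Subtype.ext ?_)
    have e : MvPolynomial.map (Ideal.Quotient.mk 𝔭) (MvPolynomial.aeval
        (fun n : Fin g => MvPolynomial.esymm (Fin g) O (n.1 + 1)) Q) = 0 :=
      MvPolynomial.ext _ _ fun ν => by
        rw [MvPolynomial.coeff_map, MvPolynomial.coeff_zero, Ideal.Quotient.eq_zero_iff_mem]
        exact h ν
    rw [MvPolynomial.aeval_eq_bind₁, MvPolynomial.map_bind₁] at e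
    simpa only [MvPolynomial.esymmAlgHom_apply, MvPolynomial.map_esymm,
      MvPolynomial.aeval_eq_bind₁, ZeroMemClass.coe_zero] using e
  rw [← Ideal.Quotient.eq_zero_iff_mem, ← MvPolynomial.coeff_map, h0, MvPolynomial.coeff_zero]

theorem Setup'.integral {c : Fin r → 𝓞 L} {ρ : L}
    (h : Setup' ℓ e ((nd ℓ m c).map (algebraMap (𝓞 L) L)) ρ⁻¹ x w κ ι S) (hρ : ρ ≠ 0)
    (hD : IsG ((nd ℓ m c).map (algebraMap (𝓞 L) L)) x Dr) (hp : IsPair ι Dr p)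
    (hα : α ∈ LamS g S) {z : E}
    (hz : ∀ T : Subalgebra (𝓞 L) E, (∀ k, x k ∈ T) → (∀ k j, (w k j)⁻¹ ∈ T) → z ∈ T)
    {P : MvPolynomial (Fin g) L}
    (hP : p α * z = MvPolynomial.aeval (fun n : Fin g => es x (n.1 + 1)) P) :
    ∃ Q, MvPolynomial.map (algebraMap (𝓞 L) L) Q = P := by
  refine content' (t := fun n : Fin g => es x (n.1 + 1)) fun 𝔭 h𝔭 => ?_
  obtain ⟨a, b, hab, hb, hne⟩ := exists_num_den hρ 𝔭 h𝔭
  obtain ⟨T, hx, hs, hw, hu, hT, Ω, _, χ, h0, h1⟩ := exists_model h.gen.toKG0 hD h𝔭.isPrime hne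
  have ht : ∀ n : Fin g, es x (n.1 + 1) ∈ T := fun n => sum_mem fun _ _ => prod_mem fun k _ => hx k
  refine ⟨T, ht, Ω, _, χ, hP ▸ mul_mem (hp.mem_of_loc T hT (h.nmp T hs (Gs_sub.2 fun k =>
    ⟨Algebra.subset_adjoin (hx k), ?_, fun j => Algebra.subset_adjoin (hw k j)⟩)) hα) (hz T hx hw),
    h0, fun Q hQ => esymm_coeff 𝔭 (h1 _ ?_)⟩
  · have e : algebraMap (𝓞 L) E b - algebraMap (𝓞 L) E a * x k =
        algebraMap L E (-(ρ * b)) * (x k - algebraMap L E ρ⁻¹) := by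
      rw [mul_sub, ← map_mul, neg_mul, mul_right_comm, mul_inv_cancel₀ hρ, one_mul, hab, map_neg,
        map_neg, sub_neg_eq_add, neg_mul, neg_add_eq_sub]
      rfl
    have e0 : algebraMap L E (-(ρ * b)) ≠ 0 :=
      (_root_.map_ne_zero _).2 (neg_ne_zero.2 (mul_ne_zero hρ (RingOfIntegers.coe_ne_zero_iff.2 hb)))
    rw [← mul_inv_cancel_left₀ e0 (x k - algebraMap L E ρ⁻¹)⁻¹, ← mul_inv, ← e]
    exact mul_mem (algebraMap_mem _ _) (Algebra.subset_adjoin (hu k))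
  · rw [MvPolynomial.comp_aeval_apply, ← hQ]
    refine congrArg (fun t => χ (MvPolynomial.aeval t Q)) (funext fun n => Subtype.ext ?_)
    rw [aeval_esymm]
    exact map_es (T.val : T →+* E) _ _

end Pool.Agent.Lib.MP_07b2d0_nt.Kh
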