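import Pool.Agent.Lib.MP_07b2d0_nt.Kh.HMain
import Pool.Agent.Lib.MP_07b2d0_nt.Kh.IInt
import Pool.Agent.Lib.MP_07b2d0_nt.Kh.ABd
import Pool.Agent.Lib.MP_07b2d0_nt.Kh.AArc
import Pool.Agent.Lib.MP_07b2d0_nt.Fh.AJac

/-!
Assembly of the algebraic part.
-/

set_option autoImplicit false

namespace Pool.Agent.Lib.MP_07b2d0_nt.Kh

open Polynomial NumberField Fh

variable {L E F : Type} [Field L] [NumberField L] [Field E] [Field F] [Algebra L E] {ℓ m r g : ℕ}
  {e : Fin m → Fin r → ℕ} {x : Fin g → E} {w : Fin g → Fin m → E}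
  {κ : 𝓞 L →+* F} {ι : F →+* E} {S : Set (Subring F)}

/-- The elementary symmetric functions are a transcendence basis of `F`. -/
theorem tb_t (h : IsTranscendenceBasis L x) (hr : Rig ι x) :
    ∃ t : Fin g → F, (∀ n, ι (t n) = es x (n.1 + 1)) ∧
      (AlgebraicIndependent ℤ fun n : Fin g => es x (n.1 + 1)) ∧
      (∀ z : E, IsAlgebraic (Algebra.adjoin ℤ (Set.range fun n : Fin g => es x (n.1 + 1))) z) ∧
      ∀ z : F, IsAlgebraic (Algebra.adjoin ℤ (Set.range t)) z := by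
  have : CharZero E := charZero_of_injective_algebraMap (algebraMap L E).injective
  have : CharZero F := ι.charZero
  have hmem : ∀ n : Fin g, es x (n.1 + 1) ∈ ι.range := fun n => by
    refine mem_range_of_fixed ι (tb_alg h (fun c => alg_const c) hr.isAlgebraic)
      fun Ω _ _ e τ he => ?_
    choose l hl using hr Ω e τ he
    have hinj : Function.Injective l := fun i j hij =>
      h.1.injective (τ.injective (by rw [hl, hl, hij]))
    rw [map_es, map_es, ← es_perm (fun i => e (x i))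
      (Equiv.ofBijective l (Finite.injective_iff_bijective.mp hinj))]
    simp only [hl, Equiv.ofBijective_apply]
  choose t ht using hmem
  have hT : ∀ z : E,
      IsAlgebraic (Algebra.adjoin ℤ (Set.range fun n : Fin g => es x (n.1 + 1))) z :=
    tb_alg h (fun c => alg_const c) (alg_es x)
  refine ⟨t, ht, indep_of_alg (h.1.restrictScalars (RingHom.injective_int _)) hT, hT, fun z => ?_⟩
  rw [show (fun n : Fin g => es x (n.1 + 1)) = ι.toIntAlgHom ∘ t from funext fun n => (ht n).symm,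
    Set.range_comp, ← AlgHom.map_adjoin] at hT
  exact (hT (ι z)).of_ringHom_of_comp_eq (ι.toIntAlgHom.subalgebraMap _).toRingHom ι
    (AlgHom.subalgebraMap_surjective _ _) ι.injective rfl

omit [NumberField L] in
theorem cof_hB [NeZero ℓ] (en : Fin g ≃ JJ ℓ e) {c : Fin r → 𝓞 L} {z : Fin g → U ℓ m → E} {J : E}
    (hz : ∀ k u, z k u ^ ℓ =
      ∏ i, (1 - algebraMap (𝓞 L) E ((ℓ : 𝓞 L) ^ 2 * c i) * x k) ^ (ℓ - wt ℓ e u i % ℓ))
    (hJ : J ^ 2 = (∏ k, ∏ i, (1 - algebraMap (𝓞 L) E ((ℓ : 𝓞 L) ^ 2 * c i) * x k)) ^ 2 * vdm x ^ 2)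
    (σ : L →+* ℂ) {H : ℕ} (hc : ∀ i, ‖σ ((ℓ : L) ^ 2 * c i)‖ ≤ Real.exp H)
    (B : Subalgebra (𝓞 L) E) (hB : insert J (Set.range x ∪ Set.range (Function.uncurry z)) ⊆ B) :
    ∃ hc : J * cof (algebraMap (𝓞 L) E) en x z ∈ B, ∀ P : B →+* ℂ,
      (∀ a : 𝓞 L, P (algebraMap _ B a) = σ a) → (∀ (n : Fin g) hn, ‖P ⟨es x (n.1 + 1), hn⟩‖ ≤ 2) →
      ‖P ⟨_, hc⟩‖ ≤ Real.exp (bd ℓ m r g H) := by
  let s : Fin g → B := fun k => ⟨x k, hB (.inr (.inl ⟨k, rfl⟩))⟩
  let z' : Fin g → U ℓ m → B := fun k u => ⟨z k u, hB (.inr (.inr ⟨(k, u), rfl⟩))⟩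
  let J' : B := ⟨J, hB (.inl rfl)⟩
  have e1 : ((J' * cof (algebraMap (𝓞 L) B) en s z' : B) : E) =
      J * cof (algebraMap (𝓞 L) E) en x z :=
    congrArg (J * ·) (map_cof (B.val : B →+* E) (algebraMap (𝓞 L) B) en s z')
  refine ⟨e1 ▸ Subtype.prop _, fun P h1 h2 => ?_⟩
  have e2 : ∀ i, P (algebraMap _ B ((ℓ : 𝓞 L) ^ 2 * c i)) = σ ((ℓ : L) ^ 2 * c i) := fun i => by
    rw [h1]
    push_cast
    rfl
  rw [show (⟨_, _⟩ : B) = J' * cof (algebraMap (𝓞 L) B) en s z' from Subtype.ext e1.symm, map_mul,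
    map_cof]
  refine alg_bound _ en hc (fun n => ?_) (fun k u => ?_) ?_
  · have e3 := map_es (B.val : B →+* E) s (n.1 + 1)
    rw [← map_es, show es s (n.1 + 1) = ⟨es x (n.1 + 1), e3 ▸ Subtype.prop _⟩ from Subtype.ext e3]
    exact h2 n _
  · have e3 : z' k u ^ ℓ = ∏ i, (1 - algebraMap (𝓞 L) B ((ℓ : 𝓞 L) ^ 2 * c i) * s k) ^
        (ℓ - wt ℓ e u i % ℓ) := Subtype.ext (by push_cast; simpa using hz k u)
    simpa only [map_pow, map_prod, map_sub, map_one, map_mul P, e2] using congrArg P e3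
  · have e3 : J' ^ 2 = (∏ k, ∏ i, (1 - algebraMap (𝓞 L) B ((ℓ : 𝓞 L) ^ 2 * c i) * s k)) ^ 2 *
        vdm s ^ 2 := Subtype.ext (by
      push_cast
      rw [show ((vdm s : B) : E) = vdm x from map_vdm (B.val : B →+* E) s]
      simpa using hJ)
    simpa only [map_pow, map_prod, map_sub, map_one, map_mul P, e2, map_vdm] using congrArg P e3

theorem alg_main2 {c : Fin r → 𝓞 L} {ρ : L}
    (h : Setup' ℓ e ((nd ℓ m c).map (algebraMap (𝓞 L) L)) ρ⁻¹ x w κ ι S) (hρ : ρ ≠ 0)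
    (en : Fin g ≃ JJ ℓ e) {H : ℕ}
    (hc : ∀ (σ : L →+* ℂ) i, ‖σ ((ℓ : L) ^ 2 * c i)‖ ≤ Real.exp H) :
    Out' g κ S (bd ℓ m r g H) := by
  classical
  have : NeZero ℓ := ⟨h.gen.ok.pos.ne'⟩
  have : CharZero E := charZero_of_injective_algebraMap (algebraMap L E).injective
  have : CharZero F := ι.charZero
  obtain ⟨Dr, hD⟩ := h.gen.exists_D
  obtain ⟨p, hp⟩ := exists_pair ι Dr
  obtain ⟨t, ht, hind, halg, halg'⟩ := tb_t h.gen.tb h.rig
  obtain ⟨Q, hQ⟩ := h.gen.NN_poly en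
  have hN := h.gen.NN_ne (algebraMap (𝓞 L) E) en
  have hΔ := h.gen.Del_ne en
  obtain ⟨μ, hμ⟩ := MvPolynomial.ne_zero_iff.1 (show Q ≠ 0 by
    rintro rfl
    exact pow_ne_zero 2 hN (hQ.symm.trans (map_zero _)))
  rw [NN_sq] at hQ
  choose lam hl using fun α : LamS g S => h.hol en hD hp α.2
  have hP := fun α : LamS g S => ((congrArg (· * _) (hl α)).trans (mul_assoc _ _ _)).trans
    ((congrArg₂ (· * ·) (MvPolynomial.aeval_C _ (lam α)) hQ).symm.trans (map_mul _ _ _).symm)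
  choose Q' hQ' using fun α : LamS g S => h.integral hρ hD hp α.2 (fun T h1 h2 =>
    cof_mem T.toSubring en T.algebraMap_mem h1 fun k => zz_mem _ T (h1 k) (h2 k)) (hP α)
  have hq : ∀ α, algebraMap (𝓞 L) L ((Q' α).coeff μ) = lam α * Q.coeff μ := fun α => by
    rw [← MvPolynomial.coeff_map, hQ', MvPolynomial.coeff_C_mul]
  have hκ : ∀ r, ι (κ r) = algebraMap L E (algebraMap (𝓞 L) L r) := DFunLike.congr_fun h.cst
  have inj : ∀ {a b : L}, algebraMap L E a * _ = algebraMap L E b * _ → a = b := fun e =>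
    (algebraMap L E).injective (mul_right_cancel₀ hΔ e)
  have hJ := jac_es h.gen.ind.injective hD
  have hJ0 : (Matrix.of fun (n : Fin g) l => Dr l (es x (n.1 + 1))).det ≠ 0 := fun h0 =>
    mul_ne_zero (pow_ne_zero 2 (Finset.prod_ne_zero_iff.2 fun l _ =>
      h.gen.aeval_ne l h.gen.ok.G_ne)) (pow_ne_zero 2 (vdm_ne_zero h.gen.ind.injective))
      (hJ.symm.trans (by rw [h0, zero_pow two_ne_zero]))
  have key : ∀ α : LamS g S, ∃ b : F, α.1 = b • dw t ∧
      p α = ι b * (Matrix.of fun (n : Fin g) l => Dr l (es x (n.1 + 1))).det := fun α => by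
    obtain ⟨b, hb⟩ := exists_smul_dw halg' α.1
    exact ⟨b, hb, by simp only [hb, hp.1, hp.2, ht]⟩
  refine ⟨AddMonoidHom.mk' (fun α => (Q' α).coeff μ) fun α β => RingOfIntegers.coe_injective ?_, t,
    (injective_iff_map_eq_zero _).mpr fun α hα => ?_,
    fun r α β hβ => RingOfIntegers.coe_injective ?_, fun α => ?_⟩
  · rw [map_add, hq, hq, hq, ← add_mul]
    refine congrArg (· * _) (inj ?_)
    rw [map_add, add_mul, ← hl, ← hl, ← hl, AddSubgroup.coe_add, map_add]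
  · obtain ⟨b, hb, hb'⟩ := key α
    have h1 := hq α
    rw [show (Q' α).coeff μ = 0 from hα, map_zero, eq_comm, mul_eq_zero, or_iff_left hμ] at h1
    rw [hl, h1, map_zero, zero_mul, eq_comm, mul_eq_zero, or_iff_left hJ0, map_eq_zero] at hb'
    exact Subtype.ext (by rw [hb, hb', zero_smul]; rfl)
  · change algebraMap _ L ((Q' β).coeff μ) = algebraMap _ L (r * (Q' α).coeff μ)
    rw [map_mul, hq, hq, ← mul_assoc]
    refine congrArg (· * _) (inj ?_)
    rw [← hl, hβ, hp.1, hκ, hl, map_mul, mul_assoc]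
  obtain ⟨b, hb, hb'⟩ := key α
  refine ⟨b, hb, fun R _ φ κ' t' h' h1 h2 h3 h4 σ => ?_⟩
  have h5 : (fun i => ι.comp φ (t' i)) = fun n : Fin g => es x (n.1 + 1) :=
    funext fun i => (congrArg ι (h3 i)).trans (ht i)
  have h6 : ∀ i (k : Fin g), aeval (x k) (((nd ℓ m c).map (algebraMap (𝓞 L) L)).p i) =
      1 - algebraMap (𝓞 L) E ((ℓ : 𝓞 L) ^ 2 * c i) * x k := fun i k => by
    rw [Dat.map_p, aeval_map_algebraMap, aeval_nd_p]
  refine arch2 (ι.comp φ) κ' h1 (by rw [RingHom.comp_assoc, h2, h.cst]) (h5 ▸ hind) (h5 ▸ halg)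
    (((Set.finite_range x).union (Set.finite_range _)).insert _) (Q := Q' α) ?_ σ
    (Real.exp_pos _) (fun B hB => (cof_hB en (z := fun k =>
      zz e ((nd ℓ m c).map (algebraMap (𝓞 L) L)) (x k) (w k)) (fun k u => ?_) (hJ.trans ?_) σ
      (hc σ) B hB).imp
      fun _ H P h7 h8 => H P h7 fun n hn => ?_) μ
  · rw [h5, RingHom.comp_apply, h4, ← mul_assoc, ← hb', hP, ← hQ',
      MvPolynomial.aeval_map_algebraMap]
  · have := zz_pow h.gen.ok.pos (h.gen.eq k) (h.gen.w_ne k) u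
    rw [show mon ((nd ℓ m c).map (algebraMap (𝓞 L) L)).c u = 1 by simp [mon, Dat.map, nd], map_one,
      mul_one] at this
    simpa only [map_prod, map_pow, h6] using this
  · simp only [Dat.G, map_prod, h6]
  · have h9 := congrFun h5 n
    have := h8 n (h9 ▸ hn)
    simpa only [h9] using this

end Pool.Agent.Lib.MP_07b2d0_nt.Kh
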