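import Pool.Agent.Lib.MP_07b2d0_nt.Fh.ADefs

/-!
Internal definitions for Kummer covers of the projective line.
-/

set_option autoImplicit false

namespace Pool.Agent.Lib.MP_07b2d0_nt.Kh

open CategoryTheory AlgebraicGeometry Polynomial NumberField WithZero MeasureTheory Fh

noncomputable section

/-- The exponent vectors. -/
abbrev U (ℓ m : ℕ) : Type := Fin m → Fin ℓ

section Comb

variable {m r : ℕ} (ℓ : ℕ) (e : Fin m → Fin r → ℕ)

/-- The exponent of the `i`-th linear factor. -/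
def wt (u : U ℓ m) (i : Fin r) : ℕ := ∑ j, (u j : ℕ) * e j i

/-- The order of the pole at infinity. -/
def dd (u : U ℓ m) : ℕ := (∑ i, wt ℓ e u i % ℓ) / ℓ

/-- The index set of the basis of the regular differentials. -/
abbrev JJ : Type := Σ u : U ℓ m, Fin (dd ℓ e u - 1)

/-- The conditions on the exponents. -/
structure Cmb : Prop where
  prime : ℓ.Prime
  sum : ∀ j, ℓ ∣ ∑ i, e j i
  col : ∀ i, ∃ j, ¬ ℓ ∣ e j i
  row : ∀ u : Fin m → ℕ, (∀ i, ℓ ∣ ∑ j, u j * e j i) → ∀ j, ℓ ∣ u j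

end Comb

/-- The coefficients of the equations. -/
structure Dat (O : Type) (m r : ℕ) where
  c : Fin m → O
  β : Fin r → O
  α : Fin r → O

section Ring

variable {O O' B : Type} [CommRing O] [CommRing O'] [CommRing B] {ℓ m r g : ℕ}

/-- The linear factors. -/
def Dat.p (D : Dat O m r) (i : Fin r) : O[X] := C (D.β i) * X + C (D.α i)

/-- The right hand sides of the equations. -/
def Dat.F (D : Dat O m r) (e : Fin m → Fin r → ℕ) (j : Fin m) : O[X] :=
  C (D.c j) * ∏ i, D.p i ^ e j i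

/-- The product of the linear factors. -/
def Dat.G (D : Dat O m r) : O[X] := ∏ i, D.p i

/-- Change of the ring of coefficients. -/
def Dat.map (D : Dat O m r) (φ : O →+* O') : Dat O' m r :=
  ⟨fun j => φ (D.c j), fun i => φ (D.β i), fun i => φ (D.α i)⟩

/-- The original equations. -/
def od (c : Fin m → O) (a : Fin r → O) : Dat O m r := ⟨c, fun _ => 1, fun i => -a i⟩

/-- The normalised equations. -/
def nd (ℓ m : ℕ) (c : Fin r → O) : Dat O m r := ⟨fun _ => 1, fun i => -((ℓ : O) ^ 2 * c i), fun _ => 1⟩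

/-- The monomials. -/
def mon (η : Fin m → B) (u : U ℓ m) : B := ∏ j, η j ^ (u j : ℕ)

variable {e : Fin m → Fin r → ℕ}

/-- The determinant of the values of the basis at `g` points. -/
def Del (en : Fin g ≃ JJ ℓ e) (ξ : Fin g → B) (z : Fin g → U ℓ m → B) : B :=
  (Matrix.of fun J k => ξ k ^ ((en J).2 : ℕ) * z k (en J).1).det

/-- The conjugates of the determinant. -/
def tw (κ : O →+* B) (en : Fin g ≃ JJ ℓ e) (ξ : Fin g → B) (z : Fin g → U ℓ m → B)
    (θ : Fin g → Fin m → rootsOfUnity ℓ O) : B :=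
  Del en ξ fun k u => κ (mon (fun j => ((θ k j : Oˣ) : O)) u) * z k u

variable [IsDomain O] [NeZero ℓ]

instance fintypeTw : Fintype (Fin g → Fin m → rootsOfUnity ℓ O) := Fintype.ofFinite _

/-- The norm of the determinant. -/
def NN (κ : O →+* B) (en : Fin g ≃ JJ ℓ e) (ξ : Fin g → B) (z : Fin g → U ℓ m → B) : B :=
  ∏ θ, tw κ en ξ z θ

open Classical in
/-- The cofactor of the determinant in the square of its norm. -/
def cof (κ : O →+* B) (en : Fin g ≃ JJ ℓ e) (ξ : Fin g → B) (z : Fin g → U ℓ m → B) : B :=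
  NN κ en ξ z * ∏ θ ∈ Finset.univ.erase 1, tw κ en ξ z θ

end Ring

section Fld

variable {L E F ι : Type} [Field L] [Field E] [Field F] [Algebra L E] {m r g : ℕ}

/-- The branch points. -/
def Dat.a (D : Dat L m r) (i : Fin r) : L := -D.α i / D.β i

/-- The equations define a cover of degree `ℓ ^ m` branched exactly at the points `D.a i`. -/
structure Dat.Ok (ℓ : ℕ) (e : Fin m → Fin r → ℕ) (D : Dat L m r) : Prop where
  cmb : Cmb ℓ e
  c : ∀ j, D.c j ≠ 0
  β : ∀ i, D.β i ≠ 0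
  a : Function.Injective D.a

/-- The points of the curve above the branch points, infinity and `τ` are rational. -/
structure Rts (ℓ : ℕ) (D : Dat L m r) (τ : L) : Prop where
  ne : ∀ i, τ ≠ D.a i
  c : ∀ j, ∃ y, y ^ ℓ = D.c j
  β : ∀ i, ∃ y, y ^ ℓ = D.β i
  a : ∀ i i', ∃ y, y ^ ℓ = (D.p i').eval (D.a i)
  τ : ∀ i, ∃ y, y ^ ℓ = (D.p i).eval τ

variable {ℓ : ℕ}

/-- The generator of the `u`-th eigenspace of the regular differentials, divided by `dx / G`. -/
def zz (e : Fin m → Fin r → ℕ) (D : Dat L m r) (ξ : E) (η : Fin m → E) (u : U ℓ m) : E :=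
  aeval ξ (∏ i, D.p i ^ (wt ℓ e u i / ℓ + 1)) / mon η u

/-- Independent generic points of the curve. -/
structure KG0 (ℓ : ℕ) (e : Fin m → Fin r → ℕ) (D : Dat L m r) (x : ι → E) (w : ι → Fin m → E) :
    Prop where
  ok : D.Ok ℓ e
  zeta : ∃ ζ : L, IsPrimitiveRoot ζ ℓ
  ind : AlgebraicIndependent L x
  eq : ∀ k j, w k j ^ ℓ = aeval (x k) (D.F e j)

/-- `E` is the function field of a power of the curve. -/
structure KG (ℓ : ℕ) (e : Fin m → Fin r → ℕ) (D : Dat L m r) (x : ι → E) (w : ι → Fin m → E) :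
    Prop extends KG0 ℓ e D x w where
  top : IntermediateField.adjoin L (Set.range x ∪ Set.range (Function.uncurry w)) = ⊤

/-- A generic point of the curve. -/
abbrev K0 (ℓ : ℕ) (e : Fin m → Fin r → ℕ) (D : Dat L m r) (x : E) (w : Fin m → E) : Prop :=
  KG0 ℓ e D (fun _ : Unit => x) fun _ => w

/-- `E` is the function field of the curve. -/
abbrev K1 (ℓ : ℕ) (e : Fin m → Fin r → ℕ) (D : Dat L m r) (x : E) (w : Fin m → E) : Prop :=
  KG ℓ e D (fun _ : Unit => x) fun _ => w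

/-- The ring generated by the coordinates. -/
abbrev RW (O : Type) [CommRing O] {B : Type} [CommRing B] [Algebra O B] (x : ι → B)
    (w : ι → Fin m → B) : Subalgebra O B :=
  Algebra.adjoin O (Set.range x ∪ Set.range (Function.uncurry w))

/-- The field generated by the points other than the `k`-th one. -/
def kp (L : Type) [Field L] [Algebra L E] (x : ι → E) (w : ι → Fin m → E) (k : ι) :
    IntermediateField L E :=
  IntermediateField.adjoin L {z | ∃ l, l ≠ k ∧ (z = x l ∨ ∃ j, z = w l j)}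

/-- The generators of the ring of the affine curve. -/
def Gs (x : ι → E) (w : ι → Fin m → E) (τ : E) : Set E :=
  {z | ∃ k, z = x k ∨ z = (x k - τ)⁻¹ ∨ ∃ j, z = (w k j)⁻¹}

/-- `Dr l` is the derivation `G(x l) ∂ / ∂ x l`. -/
def IsG (D : Dat L m r) (x : Fin g → E) (Dr : Fin g → Derivation L E E) : Prop :=
  ∀ l k, Dr l (x k) = if l = k then aeval (x l) D.G else 0

/-- `z` takes the value `c` at the place `v`. -/
def Vl (v : Plc L E) (z : E) (c : L) : Prop := v.1 (z - algebraMap L E c) < 1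

/-- The place is centred at the point `(τ, η)`. -/
def Cn (v : Plc L E) (x : E) (w : Fin m → E) (τ : L) (η : Fin m → L) : Prop :=
  Vl v x τ ∧ ∀ j, Vl v (w j) (η j)

/-- Local coordinates: `π` is a uniformiser at all places where `ξ` takes the value `τ`. -/
structure Chart (ℓ n : ℕ) (τ : L) (ξ π : E) : Prop where
  pos : 0 < n
  unif : ∃ A B : L[X], A.eval τ ≠ 0 ∧ B.eval τ ≠ 0 ∧
    π ^ n * aeval ξ A = (ξ - algebraMap L E τ) * aeval ξ B
  gen : ∃ s : Set E, s.Finite ∧ IntermediateField.adjoin L ({ξ, π} ∪ s) = ⊤ ∧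
    ∀ η ∈ s, ∃ (A B : L[X]) (θ : L), θ ≠ 0 ∧ A.eval τ ≠ 0 ∧ B.eval τ = θ ^ ℓ * A.eval τ ∧
      η ^ ℓ * aeval ξ A = aeval ξ B

/-- The field `F` of functions on the Néron model, its local rings `S`, and its embedding `ι` in
a field `E` with `g` points `ρ` of the affine curve `Spec R`. -/
structure Setup0 [NumberField L] {R : Type} [CommRing R] (ρ : Fin g → R →+* E) (x : R)
    (κ : 𝓞 L →+* F) (ι : F →+* E) (S : Set (Subring F)) : Prop where
  cst : ι.comp κ = algebraMap (𝓞 L) E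
  reg : ∀ T : Subalgebra L E, (∀ k a, ρ k a ∈ T) → ∀ q : Ideal T, q.IsPrime →
    Loc ι S (algebraMap T E) q
  val : ∀ O : ValuationSubring E, (∀ c : L, algebraMap L E c ∈ O) → ∃ T ∈ S, ∀ a ∈ T, ι a ∈ O
  nmp : ∀ T : Subalgebra (𝓞 L) E, Algebra.Smooth (𝓞 L) T →
    (∀ k a, ρ k a ∈ Algebra.adjoin L (T : Set E)) →
    ∀ q : Ideal T, q.IsPrime → Loc ι S (algebraMap T E) q
  sym : ∀ (π : Equiv.Perm (Fin g)) (s : E →ₐ[L] E), (∀ k a, s (ρ k a) = ρ (π k) a) →
    ∀ a, s (ι a) = ι a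
  rig : Rig ι fun k => ρ k x

/-- The same in terms of coordinates. -/
structure Setup' [NumberField L] (ℓ : ℕ) (e : Fin m → Fin r → ℕ) (D : Dat L m r) (τ : L)
    (x : Fin g → E) (w : Fin g → Fin m → E) (κ : 𝓞 L →+* F) (ι : F →+* E)
    (S : Set (Subring F)) : Prop where
  gen : KG ℓ e D x w
  rts : Rts ℓ D τ
  cst : ι.comp κ = algebraMap (𝓞 L) E
  reg : ∀ T : Subalgebra L E, Gs x w (algebraMap L E τ) ⊆ T → ∀ q : Ideal T, q.IsPrime →
    Loc ι S (algebraMap T E) q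
  val : ∀ O : ValuationSubring E, (∀ c : L, algebraMap L E c ∈ O) → ∃ T ∈ S, ∀ a ∈ T, ι a ∈ O
  nmp : ∀ T : Subalgebra (𝓞 L) E, Algebra.Smooth (𝓞 L) T →
    Gs x w (algebraMap L E τ) ⊆ Algebra.adjoin L (T : Set E) →
    ∀ q : Ideal T, q.IsPrime → Loc ι S (algebraMap T E) q
  sym : ∀ (π : Equiv.Perm (Fin g)) (s : E →ₐ[L] E), (∀ k, s (x k) = x (π k)) →
    (∀ k j, s (w k j) = w (π k) j) → ∀ a, s (ι a) = ι a
  rig : Rig ι x

/-- The output of the algebraic part. -/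
def Out' [NumberField L] (g : ℕ) (κ : 𝓞 L →+* F) (S : Set (Subring F)) (H : ℕ) : Prop :=
  ∃ (lam : LamS g S →+ 𝓞 L) (t : Fin g → F), Function.Injective lam ∧
    (∀ (a : 𝓞 L) (α β : LamS g S), β.1 = κ a • α.1 → lam β = a * lam α) ∧
    ∀ α : LamS g S, ∃ h : F, α.1 = h • dw t ∧
      ∀ (R : Type) [CommRing R] (φ : R →+* F) (κ' : 𝓞 L →+* R) (t' : Fin g → R) (h' : R),
        κ'.FiniteType → φ.comp κ' = κ → (∀ i, φ (t' i) = t i) → φ h' = h → ∀ σ : L →+* ℂ,
        ENNReal.ofReal (‖σ (lam α)‖ ^ 2 / Real.exp H ^ 2) ≤ ∫⁻ z : Fin g → ℂ,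
          ∑' P : {P : R →+* ℂ // (∀ a, P (κ' a) = σ a) ∧ ∀ i, P (t' i) = z i}, ‖P.1 h'‖ₑ ^ 2

/-- The data of the change of coordinates `s = (x - b₀) / (ρ (x - b₁))`. -/
structure Mob' [NumberField L] (ℓ : ℕ) (e : Fin m → Fin r → ℕ) (c₀ : Fin m → L) (a : Fin r → L)
    (b₀ b₁ ρ : L) (ε : Fin m → L) (c : Fin r → 𝓞 L) : Prop where
  ok : (od c₀ a).Ok ℓ e
  zeta : ∃ ζ : L, IsPrimitiveRoot ζ ℓ
  ne : b₀ ≠ b₁
  ne₀ : ∀ i, b₀ ≠ a i
  ne₁ : ∀ i, b₁ ≠ a i
  rho : ρ ≠ 0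
  int : ∀ i, (ℓ : L) ^ 2 * c i * (b₀ - a i) = ρ * (b₁ - a i)
  eps : ∀ j, ε j ^ ℓ = c₀ j * ∏ i, (b₀ - a i) ^ e j i
  rts : Rts ℓ ((nd ℓ m c).map (algebraMap (𝓞 L) L)) ρ⁻¹

end Fld

/-- The logarithm of the archimedean bound. -/
def bd (ℓ m r g H : ℕ) : ℕ :=
  r * g * (H + 2) + 2 * g ^ 2 + 2 * ℓ ^ (m * g) * (g ^ 2 + r * g * (H + 4))

/-- The ring `A` is the étale model with equations `G(H k j) = P j (S k)` over the open set where
the `1 + n H k j` and the `b - a S k` are invertible. -/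
structure IsMdl {O A : Type} [CommRing O] [CommRing A] [Algebra O A] {g m : ℕ} (n : ℕ) (a b : O)
    (G : O[X]) (P : Fin m → O[X]) (S : Fin g → A) (H : Fin g → Fin m → A) : Prop where
  rel : ∀ k j, aeval (H k j) G = aeval (S k) (P j)
  unit : (∀ k j, IsUnit (1 + n * H k j)) ∧ ∀ k, IsUnit (algebraMap O A b - algebraMap O A a * S k)
  fin : Algebra.FiniteType O A
  ext : ∀ (B : Type) [CommRing B] [Algebra O B] (φ ψ : A →ₐ[O] B), (∀ k, φ (S k) = ψ (S k)) →
    (∀ k j, φ (H k j) = ψ (H k j)) → φ = ψ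
  lift : ∀ (B : Type) [CommRing B] [Algebra O B] (s : Fin g → B) (h : Fin g → Fin m → B),
    (∀ k j, aeval (h k j) G = aeval (s k) (P j)) → (∀ k j, IsUnit (1 + n * h k j)) →
    (∀ k, IsUnit (algebraMap O B b - algebraMap O B a * s k)) →
    ∃ φ : A →ₐ[O] B, (∀ k, φ (S k) = s k) ∧ ∀ k j, φ (H k j) = h k j

section Points

open scoped MonObj

variable {B k R R' : Type} [CommRing B] [Field k] [CommRing R] [Algebra k R] [CommRing R']

/-- `R` is the ring of the affine curve `f j (x) * y j ^ ℓ = 1`. -/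
structure Pres {m : ℕ} (ℓ : ℕ) (f : Fin m → k[X]) (x : R) (y : Fin m → R) : Prop where
  eq : ∀ j, aeval x (f j) * y j ^ ℓ = 1
  ext : ∀ (T : Type) [CommRing T] (φ ψ : R →+* T),
    φ.comp (algebraMap k R) = ψ.comp (algebraMap k R) → φ x = ψ x → (∀ j, φ (y j) = ψ (y j)) →
    φ = ψ
  lift : ∀ (T : Type) [CommRing T] (κ : k →+* T) (u : T) (w : Fin m → T),
    (∀ j, (f j).eval₂ κ u * w j ^ ℓ = 1) →
    ∃ φ : R →+* T, φ.comp (algebraMap k R) = κ ∧ φ x = u ∧ ∀ j, φ (y j) = w j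

/-- The image in `A(R')` of the point `ρ` of the curve. -/
def jq {b : B →+* k} {A : Over (Spec (.of B))} (j : sp ((algebraMap k R).comp b) ⟶ A)
    (κ : k →+* R') (ρ : R →+* R') (h : ρ.comp (algebraMap k R) = κ) : sp (κ.comp b) ⟶ A :=
  spm ρ (by rw [← h]; rfl) ≫ j

variable {b : B →+* k} {A : Over (Spec (.of B))} [GrpObj A] [IsCommMonObj A]

/-- The sum in `A(R')` of the images of finitely many points. -/
def Ph (j : sp ((algebraMap k R).comp b) ⟶ A) (κ : k →+* R') {g : ℕ} (ρ : Fin g → R →+* R')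
    (h : ∀ i, (ρ i).comp (algebraMap k R) = κ) : sp (κ.comp b) ⟶ A :=
  ∏ i, jq j κ (ρ i) (h i)

/-- The morphism `j` identifies `A(Ω)` with the group of divisor classes of degree zero. -/
def IsJ (b : B →+* k) (x : R) (A : Over (Spec (.of B))) [GrpObj A] [IsCommMonObj A]
    (j : sp ((algebraMap k R).comp b) ⟶ A) : Prop :=
  ∀ (Ω F : Type) [Field Ω] [IsAlgClosed Ω] [Algebra k Ω] [Field F] [Algebra Ω F]
    (ρ : R →+* F), (∀ c, ρ (algebraMap k _ c) = algebraMap Ω F (algebraMap k Ω c)) →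
    Transcendental Ω (ρ x) → IntermediateField.adjoin Ω (Set.range ρ) = ⊤ →
    ∃ val : Plc Ω F → (sp ((algebraMap k Ω).comp b) ⟶ A),
      (∀ v, IsVal (Spec.map (CommRingCat.ofHom ρ) ≫ j.left) v.1 (val v).left) ∧
      (∀ P, ∃ D : Plc Ω F →₀ ℤ, (D.sum fun _ n => n) = 0 ∧ (D.prod fun v n => val v ^ n) = P) ∧
      ∀ d : Plc Ω F → ℤ, (∃ φ : F, φ ≠ 0 ∧ ∀ v, d v = log (v.1 φ)) ↔
        ∃ D : Plc Ω F →₀ ℤ, ⇑D = d ∧ (D.sum fun _ n => n) = 0 ∧
          (D.prod fun v n => val v ^ n) = 1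

/-- The sum of the points `ρ` determines their abscissae. -/
def RigJ (j : sp ((algebraMap k R).comp b) ⟶ A) {g : ℕ} (ρ : Fin g → R →+* R') (x : R) : Prop :=
  ∀ (Ω : Type) [Field Ω] [IsAlgClosed Ω] (κ : k →+* Ω) (s t : R' →+* Ω)
    (hs : ∀ i, (s.comp (ρ i)).comp (algebraMap k R) = κ)
    (ht : ∀ i, (t.comp (ρ i)).comp (algebraMap k R) = κ),
    Ph j κ (fun i => s.comp (ρ i)) hs = Ph j κ (fun i => t.comp (ρ i)) ht →
    ∀ i, ∃ l, t (ρ i x) = s (ρ l x)

end Points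

end

end Pool.Agent.Lib.MP_07b2d0_nt.Kh
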