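import Pool.Agent.Lib.MP_07b2d0_nt.Kh.Defs
import Pool.Agent.Lib.MP_07b2d0_nt.Fh.ANull

/-!
A coefficient is bounded by the mean square on an annulus.
-/

set_option autoImplicit false

namespace Pool.Agent.Lib.MP_07b2d0_nt.Kh

open MeasureTheory Fh

theorem aan_orth {n : ℕ} {ω : ℂ} (hω : IsPrimitiveRoot ω n) {a b : ℕ} (ha : a < n) (hb : b < n) :
    ∑ t : Fin n, (ω ^ a * ω⁻¹ ^ b) ^ (t : ℕ) = if a = b then (n : ℂ) else 0 := by
  have h0 : ω ≠ 0 := hω.ne_zero (by omega)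
  split_ifs with h
  · subst h
    simp [h0]
  · have h1 : ω ^ a * ω⁻¹ ^ b ≠ 1 := fun h1 => h (hω.pow_inj ha hb (by
      rwa [inv_pow, mul_inv_eq_one₀ (pow_ne_zero _ h0)] at h1))
    have h2 : (ω ^ a * ω⁻¹ ^ b) ^ n = 1 := by
      rw [mul_pow, ← pow_mul, ← pow_mul, mul_comm a, mul_comm b, pow_mul, pow_mul, inv_pow,
        hω.pow_eq_one]
      simp
    rw [Fin.sum_univ_eq_sum_range (fun t => (ω ^ a * ω⁻¹ ^ b) ^ t), geom_sum_eq h1, h2]
    simp

theorem aan_sum {g n : ℕ} {ω : ℂ} (hω : IsPrimitiveRoot ω n) (Q : MvPolynomial (Fin g) ℂ)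
    (μ : Fin g →₀ ℕ) (hμ : ∀ i, μ i < n) (hQ : ∀ ν ∈ Q.support, ∀ i, ν i < n) (z : Fin g → ℂ) :
    ∑ t : Fin g → Fin n, (∏ i, (ω⁻¹ ^ μ i) ^ (t i : ℕ)) *
      MvPolynomial.eval (fun i => ω ^ (t i : ℕ) * z i) Q =
      (n : ℂ) ^ g * (Q.coeff μ * ∏ i, z i ^ μ i) := by
  classical
  simp only [MvPolynomial.eval_eq', Finset.mul_sum]
  rw [Finset.sum_comm]
  have h1 : ∀ ν ∈ Q.support, ∑ t : Fin g → Fin n, (∏ i, (ω⁻¹ ^ μ i) ^ (t i : ℕ)) *
      (Q.coeff ν * ∏ i, (ω ^ (t i : ℕ) * z i) ^ ν i) =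
      if ν = μ then (n : ℂ) ^ g * (Q.coeff μ * ∏ i, z i ^ μ i) else 0 := fun ν hν => by
    have h2 : ∀ t : Fin g → Fin n, (∏ i, (ω⁻¹ ^ μ i) ^ (t i : ℕ)) *
        (Q.coeff ν * ∏ i, (ω ^ (t i : ℕ) * z i) ^ ν i) =
        (Q.coeff ν * ∏ i, z i ^ ν i) * ∏ i, (ω ^ ν i * ω⁻¹ ^ μ i) ^ (t i : ℕ) := fun t => by
      simp only [mul_pow, Finset.prod_mul_distrib, ← pow_mul, mul_comm (ν _)]
      ring
    simp only [h2]
    rw [← Finset.mul_sum, ← Fintype.piFinset_univ,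
      ← Finset.prod_univ_sum (fun _ => (Finset.univ : Finset (Fin n)))
        fun i (t : Fin n) => (ω ^ ν i * ω⁻¹ ^ μ i) ^ (t : ℕ)]
    simp only [aan_orth hω (hQ ν hν _) (hμ _)]
    split_ifs with h
    · subst h
      simp [mul_comm]
    · obtain ⟨i, hi⟩ := DFunLike.ne_iff.1 h
      exact mul_eq_zero_of_right _ (Finset.prod_eq_zero (Finset.mem_univ i) (if_neg hi))
  rw [Finset.sum_congr rfl h1, Finset.sum_ite_eq']
  split_ifs with h
  · rfl
  · simp [MvPolynomial.notMem_support_iff.1 h]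

theorem aan_pt {g n : ℕ} (hn : 0 < n) {ω : ℂ} (hω : IsPrimitiveRoot ω n)
    (Q : MvPolynomial (Fin g) ℂ) (μ : Fin g →₀ ℕ) (hμ : ∀ i, μ i < n)
    (hQ : ∀ ν ∈ Q.support, ∀ i, ν i < n) {z : Fin g → ℂ} (hz : ∀ i, 1 ≤ ‖z i‖) :
    (n : ENNReal) ^ g * ‖Q.coeff μ‖ₑ ^ 2 ≤
      ∑ t : Fin g → Fin n, ‖MvPolynomial.eval (fun i => ω ^ (t i : ℕ) * z i) Q‖ₑ ^ 2 := by
  have h0 : ‖ω‖ = 1 := hω.norm'_eq_one hn.ne'
  have h1 : (n : ℝ) ^ g * ‖Q.coeff μ‖ ≤
      ∑ t : Fin g → Fin n, ‖MvPolynomial.eval (fun i => ω ^ (t i : ℕ) * z i) Q‖ := by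
    have h2 := congrArg norm (aan_sum hω Q μ hμ hQ z)
    rw [norm_mul, norm_mul, norm_pow, Complex.norm_natCast, norm_prod] at h2
    refine le_trans ?_ (h2.symm.le.trans ((norm_sum_le _ _).trans_eq
      (Finset.sum_congr rfl fun t _ => ?_)))
    · refine mul_le_mul_of_nonneg_left (le_mul_of_one_le_right (norm_nonneg _) ?_) (by positivity)
      refine Finset.one_le_prod fun i _ => ?_
      rw [norm_pow]
      exact one_le_pow₀ (hz i)
    · simp [norm_prod, h0]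
  have h3 := (pow_le_pow_left₀ (by positivity) h1 2).trans sq_sum_le_card_mul_sum_sq
  have h4 : (n : ℝ) ^ g * ‖Q.coeff μ‖ ^ 2 ≤
      ∑ t : Fin g → Fin n, ‖MvPolynomial.eval (fun i => ω ^ (t i : ℕ) * z i) Q‖ ^ 2 := by
    refine le_of_mul_le_mul_left ?_ (show (0 : ℝ) < (n : ℝ) ^ g by positivity)
    simp only [Finset.card_univ, Fintype.card_pi, Fintype.card_fin, Finset.prod_const,
      Nat.cast_pow] at h3
    refine le_trans (le_of_eq ?_) h3
    ring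
  have h5 := ENNReal.ofReal_le_ofReal h4
  rw [ENNReal.ofReal_sum_of_nonneg fun _ _ => by positivity,
    ENNReal.ofReal_mul (by positivity), ENNReal.ofReal_pow (by positivity),
    ENNReal.ofReal_natCast] at h5
  simpa only [ENNReal.ofReal_pow (norm_nonneg _), ofReal_norm] using h5

theorem aan_rot {u : ℂ} (hu : ‖u‖ = 1) :
    MeasurePreserving (fun z : ℂ => u * z)
      (volume.restrict (Metric.closedBall (0 : ℂ) 2 \ Metric.ball 0 1))
      (volume.restrict (Metric.closedBall (0 : ℂ) 2 \ Metric.ball 0 1)) := by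
  have h1 : MeasurePreserving (fun z : ℂ => u * z) volume volume :=
    (rotation ⟨u, mem_sphere_zero_iff_norm.2 hu⟩).measurePreserving
  have h2 := h1.restrict_preimage (s := Metric.closedBall (0 : ℂ) 2 \ Metric.ball 0 1)
    (measurableSet_closedBall.diff measurableSet_ball)
  have h3 : (fun z : ℂ => u * z) ⁻¹' (Metric.closedBall (0 : ℂ) 2 \ Metric.ball 0 1) =
      Metric.closedBall (0 : ℂ) 2 \ Metric.ball 0 1 := by
    ext z
    simp [hu]
  rwa [h3] at h2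

theorem aan_vol : 1 ≤ volume (Metric.closedBall (0 : ℂ) 2 \ Metric.ball 0 1) := by
  refine le_trans ?_ le_measure_sdiff
  rw [Complex.volume_closedBall, Complex.volume_ball, ENNReal.ofReal_one, one_pow, one_mul,
    ENNReal.ofReal_ofNat]
  refine ENNReal.le_sub_of_add_le_left ENNReal.coe_ne_top ?_
  have h : NNReal.pi + 1 ≤ 2 ^ 2 * NNReal.pi := by
    rw [← NNReal.coe_le_coe]
    push_cast
    rw [NNReal.coe_real_pi]
    linarith [Real.pi_gt_three]
  exact_mod_cast h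

/-- Orthogonality of the characters of `(ℤ/n) ^ g`, Cauchy-Schwarz, and invariance of the volume
under rotations. -/
theorem coeff_le_annulus {g : ℕ} (Q : MvPolynomial (Fin g) ℂ) (μ : Fin g →₀ ℕ) :
    ‖Q.coeff μ‖ₑ ^ 2 ≤ ∫⁻ z in Set.univ.pi fun _ : Fin g =>
      Metric.closedBall (0 : ℂ) 2 \ Metric.ball 0 1, ‖MvPolynomial.eval z Q‖ₑ ^ 2 := by
  obtain ⟨n, hn, hμ, hQ⟩ : ∃ n : ℕ, 0 < n ∧ (∀ i, μ i < n) ∧ ∀ ν ∈ Q.support, ∀ i, ν i < n := by
    refine ⟨Q.totalDegree + ∑ i, μ i + 1, by omega, fun i => ?_, fun ν hν i => ?_⟩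
    · have := Finset.single_le_sum (f := μ) (fun _ _ => Nat.zero_le _) (Finset.mem_univ i)
      omega
    · have := (MvPolynomial.monomial_le_degreeOf i hν).trans (MvPolynomial.degreeOf_le_totalDegree Q i)
      omega
  have hω := Complex.isPrimitiveRoot_exp n hn.ne'
  set ω := Complex.exp (2 * Real.pi * Complex.I / n)
  have h0 : ‖ω‖ = 1 := hω.norm'_eq_one hn.ne'
  set A := Metric.closedBall (0 : ℂ) 2 \ Metric.ball 0 1 with hA
  have hm : Measurable fun z : Fin g → ℂ => ‖MvPolynomial.eval z Q‖ₑ ^ 2 :=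
    (MvPolynomial.continuous_eval Q).measurable.enorm.pow_const 2
  have hr : ∀ t : Fin g → Fin n, MeasurePreserving (fun (z : Fin g → ℂ) i => ω ^ (t i : ℕ) * z i)
      (volume.restrict (Set.univ.pi fun _ => A)) (volume.restrict (Set.univ.pi fun _ => A)) :=
    fun t => by
      rw [volume_pi, Measure.restrict_pi_pi]
      exact measurePreserving_pi _ _ fun i => aan_rot (by simp [h0])
  have hv : 1 ≤ volume (Set.univ.pi fun _ : Fin g => A) := by
    rw [volume_pi_pi]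
    exact Finset.one_le_prod' fun _ _ => aan_vol
  have hZ : MeasurableSet (Set.univ.pi fun _ : Fin g => A) :=
    MeasurableSet.univ_pi fun _ => measurableSet_closedBall.diff measurableSet_ball
  refine (ENNReal.mul_le_mul_iff_right (a := (n : ENNReal) ^ g)
    (pow_ne_zero _ (Nat.cast_ne_zero.2 hn.ne')) (ENNReal.pow_ne_top (ENNReal.natCast_ne_top n))).1 ?_
  refine (le_mul_of_one_le_right' hv).trans ?_
  rw [← setLIntegral_const]
  refine (setLIntegral_mono' hZ fun z hz => aan_pt hn hω Q μ hμ hQ (z := z) fun i => ?_).trans ?_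
  · simpa using (hz i trivial).2
  · refine le_of_eq ((lintegral_finsetSum _ fun t _ => hm.comp (hr t).measurable).trans
      ((Finset.sum_congr rfl fun t _ => (hr t).lintegral_comp hm).trans ?_))
    simp

/-- The bound off the zero set of a nonzero polynomial. -/
theorem le_lintegral_annulus {g : ℕ} {Δ : MvPolynomial (Fin g) ℂ} (hΔ : Δ ≠ 0)
    (Q : MvPolynomial (Fin g) ℂ) (μ : Fin g →₀ ℕ) {C : ℝ} (hC : 0 < C)
    {φ : (Fin g → ℂ) → ENNReal} (h : ∀ z : Fin g → ℂ, (∀ i, ‖z i‖ ≤ 2) →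
      MvPolynomial.eval z Δ ≠ 0 → ENNReal.ofReal (‖MvPolynomial.eval z Q‖ ^ 2 / C) ≤ φ z) :
    ENNReal.ofReal (‖Q.coeff μ‖ ^ 2 / C) ≤ ∫⁻ z, φ z := by
  have h1 : ∀ a : ℂ, ENNReal.ofReal (‖a‖ ^ 2 / C) = ‖a‖ₑ ^ 2 * ENNReal.ofReal C⁻¹ := fun a => by
    rw [div_eq_mul_inv, ENNReal.ofReal_mul' (inv_pos.2 hC).le, ENNReal.ofReal_pow (norm_nonneg _),
      ofReal_norm]
  simp only [h1] at h ⊢
  refine (mul_le_mul_left (coeff_le_annulus Q μ) _).trans ?_
  rw [← lintegral_mul_const' _ _ ENNReal.ofReal_ne_top, ← lintegral_indicator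
    (MeasurableSet.univ_pi fun _ => measurableSet_closedBall.diff measurableSet_ball)]
  refine lintegral_mono_ae ?_
  filter_upwards [ae_eval_ne_zero hΔ] with z hz
  exact Set.indicator_apply_le' (fun hp => h z (fun i => mem_closedBall_zero_iff.1
    (hp i trivial).1) hz) fun _ => zero_le

end Pool.Agent.Lib.MP_07b2d0_nt.Kh
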