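import Pool.Agent.Lib.MP_07b2d0_nt.Kh.Defs

/-!
Basic lemmas.
-/

set_option autoImplicit false

namespace Pool.Agent.Lib.MP_07b2d0_nt.Kh

open Polynomial Fh

section Ring

variable {O O' B B' : Type} [CommRing O] [CommRing O'] [CommRing B] [CommRing B'] {ℓ m r g : ℕ}
  {e : Fin m → Fin r → ℕ}

theorem Dat.map_p (D : Dat O m r) (φ : O →+* O') (i : Fin r) :
    (D.map φ).p i = (D.p i).map φ := by
  simp [Dat.p, Dat.map]

theorem Dat.map_F (D : Dat O m r) (φ : O →+* O') (e : Fin m → Fin r → ℕ) (j : Fin m) :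
    (D.map φ).F e j = (D.F e j).map φ := by
  simp only [Dat.F, Dat.map_p, Polynomial.map_mul, Polynomial.map_prod, Polynomial.map_pow, map_C]
  rfl

theorem Dat.map_G (D : Dat O m r) (φ : O →+* O') : (D.map φ).G = D.G.map φ := by
  simp only [Dat.G, Dat.map_p, Polynomial.map_prod]

theorem Dat.map_map {O'' : Type} [CommRing O''] (D : Dat O m r) (φ : O →+* O') (ψ : O' →+* O'') :
    (D.map φ).map ψ = D.map (ψ.comp φ) := rfl

theorem Dat.map_id (D : Dat O m r) : D.map (RingHom.id O) = D := rfl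

theorem od_F (c : Fin m → O) (a : Fin r → O) (e : Fin m → Fin r → ℕ) (j : Fin m) :
    (od c a).F e j = C (c j) * ∏ i, (X - C (a i)) ^ e j i := by
  simp [Dat.F, Dat.p, od, sub_eq_add_neg]

theorem od_map (c : Fin m → O) (a : Fin r → O) (φ : O →+* O') :
    (od c a).map φ = od (fun j => φ (c j)) fun i => φ (a i) := by
  simp [Dat.map, od]

theorem nd_map (c : Fin r → O) (φ : O →+* O') :
    (nd ℓ m c).map φ = nd ℓ m fun i => φ (c i) := by
  simp [Dat.map, nd]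

theorem aeval_nd_p [Algebra O B] (c : Fin r → O) (i : Fin r) (z : B) :
    aeval z ((nd ℓ m c).p i) = 1 - algebraMap O B ((ℓ : O) ^ 2 * c i) * z := by
  simp only [Dat.p, nd, map_add, map_mul, aeval_C, aeval_X, map_neg, map_one]
  ring

theorem map_mon (φ : B →+* B') (η : Fin m → B) (u : U ℓ m) :
    φ (mon η u) = mon (fun j => φ (η j)) u := by
  simp [mon]

theorem mon_mul (η η' : Fin m → B) (u : U ℓ m) :
    mon (fun j => η j * η' j) u = mon η u * mon η' u := by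
  simp [mon, mul_pow, Finset.prod_mul_distrib]

theorem mon_ne [IsDomain B] {η : Fin m → B} (h : ∀ j, η j ≠ 0) (u : U ℓ m) : mon η u ≠ 0 :=
  Finset.prod_ne_zero_iff.2 fun j _ => pow_ne_zero _ (h j)

theorem mon_mem {S : Type} [SetLike S B] [SubmonoidClass S B] {W : S} {η : Fin m → B}
    (h : ∀ j, η j ∈ W) (u : U ℓ m) : mon η u ∈ W :=
  prod_mem fun j _ => pow_mem (h j) _

theorem map_Del (φ : B →+* B') (en : Fin g ≃ JJ ℓ e) (ξ : Fin g → B) (z : Fin g → U ℓ m → B) :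
    φ (Del en ξ z) = Del en (fun k => φ (ξ k)) fun k u => φ (z k u) := by
  rw [Del, RingHom.map_det]
  exact congrArg Matrix.det (Matrix.ext fun J k => by simp)

theorem Del_perm (en : Fin g ≃ JJ ℓ e) (ξ : Fin g → B) (z : Fin g → U ℓ m → B)
    (π : Equiv.Perm (Fin g)) : Del en (fun k => ξ (π k)) (fun k => z (π k)) =
      ((Equiv.Perm.sign π : ℤ) : B) * Del en ξ z := by
  rw [Del, Del, ← Matrix.det_permute']
  rfl

theorem map_tw (φ : B →+* B') (κ : O →+* B) (en : Fin g ≃ JJ ℓ e) (ξ : Fin g → B)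
    (z : Fin g → U ℓ m → B) (θ : Fin g → Fin m → rootsOfUnity ℓ O) :
    φ (tw κ en ξ z θ) = tw (φ.comp κ) en (fun k => φ (ξ k)) (fun k u => φ (z k u)) θ := by
  simp only [tw, map_Del, map_mul, RingHom.comp_apply]

theorem tw_one (κ : O →+* B) (en : Fin g ≃ JJ ℓ e) (ξ : Fin g → B) (z : Fin g → U ℓ m → B) :
    tw κ en ξ z 1 = Del en ξ z := by
  simp [tw, mon]

variable [IsDomain O] [NeZero ℓ]

theorem map_NN (φ : B →+* B') (κ : O →+* B) (en : Fin g ≃ JJ ℓ e) (ξ : Fin g → B)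
    (z : Fin g → U ℓ m → B) :
    φ (NN κ en ξ z) = NN (φ.comp κ) en (fun k => φ (ξ k)) fun k u => φ (z k u) := by
  simp only [NN, map_prod, map_tw]

theorem map_cof (φ : B →+* B') (κ : O →+* B) (en : Fin g ≃ JJ ℓ e) (ξ : Fin g → B)
    (z : Fin g → U ℓ m → B) :
    φ (cof κ en ξ z) = cof (φ.comp κ) en (fun k => φ (ξ k)) fun k u => φ (z k u) := by
  simp only [cof, map_mul, map_NN, map_prod, map_tw]

theorem NN_sq (κ : O →+* B) (en : Fin g ≃ JJ ℓ e) (ξ : Fin g → B) (z : Fin g → U ℓ m → B) :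
    NN κ en ξ z ^ 2 = Del en ξ z * cof κ en ξ z := by
  classical
  rw [cof, mul_left_comm, ← tw_one κ, sq]
  congr 1
  convert (Finset.mul_prod_erase Finset.univ (tw κ en ξ z) (Finset.mem_univ 1)).symm
  rfl

theorem cof_mem (W : Subring B) {κ : O →+* B} (en : Fin g ≃ JJ ℓ e) {ξ : Fin g → B}
    {z : Fin g → U ℓ m → B} (h0 : ∀ a, κ a ∈ W) (h1 : ∀ k, ξ k ∈ W) (h2 : ∀ k u, z k u ∈ W) :
    cof κ en ξ z ∈ W := by
  have := map_cof W.subtype (κ.codRestrict W h0) en (fun k => ⟨ξ k, h1 k⟩) fun k u => ⟨_, h2 k u⟩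
  exact (show _ = cof κ en ξ z from this) ▸ Subtype.prop _

end Ring

variable {L L' E E' ι : Type} [Field L] [Field L'] [Field E] [Field E'] [Algebra L E]
  [Algebra L' E'] {ℓ m r : ℕ} {e : Fin m → Fin r → ℕ} {D : Dat L m r}

theorem Dat.map_a (D : Dat L m r) (σ : L →+* L') (i : Fin r) : (D.map σ).a i = σ (D.a i) := by
  simp [Dat.a, Dat.map]

theorem od_a (c : Fin m → L) (a : Fin r → L) : (od c a).a = a := by
  ext i
  simp [Dat.a, od]

theorem Dat.Ok.map (h : D.Ok ℓ e) (σ : L →+* L') : (D.map σ).Ok ℓ e :=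
  ⟨h.cmb, fun j => (_root_.map_ne_zero σ).2 (h.c j), fun i => (_root_.map_ne_zero σ).2 (h.β i),
    fun i j hij => h.a (σ.injective (by rwa [Dat.map_a, Dat.map_a] at hij))⟩

theorem Rts.map {τ : L} (h : Rts ℓ D τ) (σ : L →+* L') : Rts ℓ (D.map σ) (σ τ) := by
  have key : ∀ {c : L}, (∃ y, y ^ ℓ = c) → ∃ y, y ^ ℓ = σ c := fun ⟨y, hy⟩ =>
    ⟨σ y, by rw [← map_pow, hy]⟩
  refine ⟨fun i => ?_, fun j => key (h.c j), fun i => key (h.β i), fun i i' => ?_, fun i => ?_⟩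
  · rw [Dat.map_a]
    exact σ.injective.ne (h.ne i)
  · rw [Dat.map_a, Dat.map_p, eval_map_apply]
    exact key (h.a i i')
  · rw [Dat.map_p, eval_map_apply]
    exact key (h.τ i)

theorem Dat.Ok.pos (h : D.Ok ℓ e) : 0 < ℓ := h.cmb.prime.pos

theorem Dat.Ok.p_eq (h : D.Ok ℓ e) (i : Fin r) : D.p i = C (D.β i) * (X - C (D.a i)) := by
  rw [Dat.p, Dat.a, mul_sub, ← C_mul, mul_div_cancel₀ _ (h.β i), C_neg, sub_neg_eq_add]

theorem Dat.Ok.eval_p (h : D.Ok ℓ e) (i : Fin r) (τ : L) :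
    (D.p i).eval τ = D.β i * (τ - D.a i) := by
  simp [h.p_eq]

theorem Dat.Ok.aeval_p (h : D.Ok ℓ e) (i : Fin r) (z : E) :
    aeval z (D.p i) = algebraMap L E (D.β i) * (z - algebraMap L E (D.a i)) := by
  simp [h.p_eq]

theorem Dat.Ok.eval_p_ne (h : D.Ok ℓ e) {i : Fin r} {τ : L} (hτ : τ ≠ D.a i) :
    (D.p i).eval τ ≠ 0 := by
  rw [h.eval_p]
  exact mul_ne_zero (h.β i) (sub_ne_zero.2 hτ)

theorem Dat.Ok.p_ne (h : D.Ok ℓ e) (i : Fin r) : D.p i ≠ 0 := by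
  rw [h.p_eq]
  exact mul_ne_zero (C_ne_zero.2 (h.β i)) (X_sub_C_ne_zero _)

theorem Dat.Ok.prod_ne (h : D.Ok ℓ e) (n : Fin r → ℕ) : ∏ i, D.p i ^ n i ≠ 0 :=
  Finset.prod_ne_zero_iff.2 fun i _ => pow_ne_zero _ (h.p_ne i)

theorem Dat.Ok.natDegree_prod (h : D.Ok ℓ e) (n : Fin r → ℕ) :
    (∏ i, D.p i ^ n i).natDegree = ∑ i, n i := by
  rw [Polynomial.natDegree_prod _ _ fun i _ => pow_ne_zero _ (h.p_ne i)]
  refine Finset.sum_congr rfl fun i _ => ?_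
  rw [natDegree_pow, Dat.p, natDegree_linear (h.β i), mul_one]

theorem Dat.Ok.G_ne (h : D.Ok ℓ e) : D.G ≠ 0 := by
  simpa [Dat.G] using h.prod_ne fun _ => 1

theorem Dat.Ok.natDegree_G (h : D.Ok ℓ e) : D.G.natDegree = r := by
  simpa [Dat.G] using h.natDegree_prod fun _ => 1

theorem Dat.Ok.G_sep (h : D.Ok ℓ e) : D.G.Separable := by
  simp only [Dat.G, h.p_eq, Finset.prod_mul_distrib]
  rw [← map_prod, mul_comm]
  exact (separable_prod_X_sub_C_iff.2 h.a).mul_unit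
    (isUnit_C.2 (Finset.prod_ne_zero_iff.2 fun i _ => h.β i).isUnit)

theorem Dat.Ok.F_ne (h : D.Ok ℓ e) (j : Fin m) : D.F e j ≠ 0 :=
  mul_ne_zero (C_ne_zero.2 (h.c j)) (h.prod_ne _)

theorem mon_pow {B : Type} [CommRing B] [Algebra L B] {ξ : B} {η : Fin m → B}
    (h : ∀ j, η j ^ ℓ = aeval ξ (D.F e j)) (u : U ℓ m) :
    mon η u ^ ℓ = algebraMap L B (mon D.c u) * aeval ξ (∏ i, D.p i ^ wt ℓ e u i) := by
  have e1 : ∀ j, (η j ^ (u j : ℕ)) ^ ℓ = (η j ^ ℓ) ^ (u j : ℕ) := fun j => by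
    rw [← pow_mul, mul_comm, pow_mul]
  rw [mon, mon, ← Finset.prod_pow]
  simp only [e1, h, Dat.F, mul_pow, Finset.prod_mul_distrib, map_mul, map_prod, map_pow, wt, aeval_C,
    ← Finset.prod_pow_eq_pow_sum, ← Finset.prod_pow]
  rw [Finset.prod_comm]
  simp only [← pow_mul, mul_comm]

theorem zz_pow (hℓ : 0 < ℓ) {ξ : E} {η : Fin m → E} (h : ∀ j, η j ^ ℓ = aeval ξ (D.F e j))
    (h0 : ∀ j, η j ≠ 0) (u : U ℓ m) : zz e D ξ η u ^ ℓ * algebraMap L E (mon D.c u) =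
      aeval ξ (∏ i, D.p i ^ (ℓ - wt ℓ e u i % ℓ)) := by
  have h1 := pow_ne_zero ℓ (mon_ne h0 u)
  rw [zz, div_pow, div_mul_eq_mul_div, div_eq_iff h1, mon_pow h, mul_left_comm, ← map_mul,
    ← map_pow, ← Finset.prod_pow, ← Finset.prod_mul_distrib, mul_comm]
  refine congrArg (fun P => _ * aeval ξ P) (Finset.prod_congr rfl fun i _ => ?_)
  rw [← pow_mul, ← pow_add]
  congr 1
  have := Nat.mod_lt (wt ℓ e u i) hℓ
  have := Nat.div_add_mod' (wt ℓ e u i) ℓ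
  rw [add_mul]
  omega

theorem map_zz (φ : E →+* E') (σ : L →+* L')
    (hφ : ∀ c, φ (algebraMap L E c) = algebraMap L' E' (σ c)) (ξ : E) (η : Fin m → E)
    (u : U ℓ m) : φ (zz e D ξ η u) = zz e (D.map σ) (φ ξ) (fun j => φ (η j)) u := by
  rw [zz, zz, map_div₀, map_mon, map_aeval_eq_aeval_map (φ := σ) (ψ := φ)
    (RingHom.ext fun c => (hφ c).symm)]
  simp only [Dat.map_p, Polynomial.map_prod, Polynomial.map_pow]

theorem zz_map [Algebra L L'] [Algebra L' E] [IsScalarTower L L' E] (ξ : E) (η : Fin m → E) :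
    zz (ℓ := ℓ) e (D.map (algebraMap L L')) ξ η = zz e D ξ η :=
  funext fun u => (map_zz (RingHom.id E) (algebraMap L L')
    (fun c => IsScalarTower.algebraMap_apply L L' E c) ξ η u).symm

theorem zz_tw (θ : Fin m → E) (ξ : E) (η : Fin m → E) (u : U ℓ m) :
    zz e D ξ (fun j => θ j * η j) u = (mon θ u)⁻¹ * zz e D ξ η u := by
  rw [zz, zz, mon_mul, div_mul_eq_div_div_swap, div_eq_inv_mul]

theorem zz_mem {O : Type} [CommRing O] [Algebra O L] [Algebra O E] [IsScalarTower O L E]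
    (D₀ : Dat O m r) (T : Subalgebra O E) {ξ : E} {η : Fin m → E} (h1 : ξ ∈ T)
    (h2 : ∀ j, (η j)⁻¹ ∈ T) (u : U ℓ m) : zz e (D₀.map (algebraMap O L)) ξ η u ∈ T := by
  rw [zz, div_eq_mul_inv, mon, ← Finset.prod_inv_distrib]
  refine mul_mem ?_ (prod_mem fun j _ => inv_pow (η j) _ ▸ pow_mem (h2 j) _)
  simp only [Dat.map_p, map_prod, map_pow, aeval_map_algebraMap]
  exact prod_mem fun i _ => pow_mem
    (Algebra.adjoin_le (Set.singleton_subset_iff.2 h1) (aeval_mem_adjoin_singleton _ _)) _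

variable {x : ι → E} {w : ι → Fin m → E}

theorem KG0.aeval_ne (h : KG0 ℓ e D x w) (k : ι) {P : L[X]} (hP : P ≠ 0) : aeval (x k) P ≠ 0 :=
  fun h0 => h.ind.transcendental k ⟨P, hP, h0⟩

theorem KG0.sub_ne (h : KG0 ℓ e D x w) (k : ι) (c : L) : x k - algebraMap L E c ≠ 0 := by
  simpa using h.aeval_ne k (X_sub_C_ne_zero c)

theorem KG0.w_ne (h : KG0 ℓ e D x w) (k : ι) (j : Fin m) : w k j ≠ 0 := fun h0 =>
  h.aeval_ne k (h.ok.F_ne j) (by rw [← h.eq, h0, zero_pow h.ok.pos.ne'])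

theorem KG0.zz_ne (h : KG0 ℓ e D x w) (k : ι) (u : U ℓ m) : zz e D (x k) (w k) u ≠ 0 :=
  div_ne_zero (h.aeval_ne k (h.ok.prod_ne _)) (mon_ne (h.w_ne k) u)

theorem K0.trans {x : E} {w : Fin m → E} (h : K0 ℓ e D x w) : Transcendental L x :=
  h.ind.transcendental ()

theorem K0.mk' {x : E} {w : Fin m → E} (ok : D.Ok ℓ e) (hζ : ∃ ζ : L, IsPrimitiveRoot ζ ℓ)
    (ht : Transcendental L x) (he : ∀ j, w j ^ ℓ = aeval x (D.F e j)) : K0 ℓ e D x w :=
  ⟨ok, hζ, algebraicIndependent_unique_type_iff.2 ht, fun _ => he⟩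

omit [Field E] in
theorem range_one (x : E) (w : Fin m → E) : Set.range (fun _ : Unit => x) ∪
    Set.range (Function.uncurry fun _ : Unit => w) = insert x (Set.range w) := by
  ext z
  simp [eq_comm]

theorem K1.top' {x : E} {w : Fin m → E} (h : K1 ℓ e D x w) :
    IntermediateField.adjoin L (insert x (Set.range w)) = ⊤ := range_one x w ▸ h.top

theorem KG.eq_top (h : KG ℓ e D x w) {T : IntermediateField L E} (h1 : ∀ k, x k ∈ T)
    (h2 : ∀ k j, w k j ∈ T) : T = ⊤ :=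
  top_le_iff.1 (h.top.ge.trans (IntermediateField.adjoin_le_iff.2 (by
    rintro _ (⟨k, rfl⟩ | ⟨⟨k, j⟩, rfl⟩)
    exacts [h1 k, h2 k j])))

theorem x_mem_kp {k l : ι} (h : l ≠ k) : x l ∈ kp L x w k :=
  IntermediateField.subset_adjoin _ _ ⟨l, h, .inl rfl⟩

theorem w_mem_kp {k l : ι} (h : l ≠ k) (j : Fin m) : w l j ∈ kp L x w k :=
  IntermediateField.subset_adjoin _ _ ⟨l, h, .inr ⟨j, rfl⟩⟩

theorem zz_mem_kp {k l : ι} (h : l ≠ k) (u : U ℓ m) : zz e D (x l) (w l) u ∈ kp L x w k :=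
  zz_mem (O := L) (L := L) D (kp L x w k).toSubalgebra (x_mem_kp h)
    (fun j => (kp L x w k).inv_mem (w_mem_kp h j)) u

theorem x_mem_RW {O B : Type} [CommRing O] [CommRing B] [Algebra O B] (x : ι → B)
    (w : ι → Fin m → B) (k : ι) : x k ∈ RW O x w := Algebra.subset_adjoin (.inl ⟨k, rfl⟩)

theorem w_mem_RW {O B : Type} [CommRing O] [CommRing B] [Algebra O B] (x : ι → B)
    (w : ι → Fin m → B) (k : ι) (j : Fin m) : w k j ∈ RW O x w :=
  Algebra.subset_adjoin (.inr ⟨(k, j), rfl⟩)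

theorem Gs_sub {S : Set E} {τ : E} :
    Gs x w τ ⊆ S ↔ ∀ k, x k ∈ S ∧ (x k - τ)⁻¹ ∈ S ∧ ∀ j, (w k j)⁻¹ ∈ S := by
  refine ⟨fun h k => ⟨h ⟨k, .inl rfl⟩, h ⟨k, .inr (.inl rfl)⟩,
    fun j => h ⟨k, .inr (.inr ⟨j, rfl⟩)⟩⟩, ?_⟩
  rintro h _ ⟨k, rfl | rfl | ⟨j, rfl⟩⟩
  exacts [(h k).1, (h k).2.1, (h k).2.2 j]

end Pool.Agent.Lib.MP_07b2d0_nt.Kh
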