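import Pool.Agent.Lib.MP_07b2d0_nt.Kh.Cmb

/-!
The number of basis elements is the genus.
-/

set_option autoImplicit false

namespace Pool.Agent.Lib.MP_07b2d0_nt.Kh

open Finset

variable {ℓ m r g : ℕ} {e : Fin m → Fin r → ℕ}

theorem ccard_val (n : ℕ) : 2 * ∑ t : ZMod (n + 1), t.val = (n + 1) * n := by
  have h1 : ∑ t : ZMod (n + 1), t.val = ∑ t ∈ range (n + 1), t :=
    Fin.sum_univ_eq_sum_range (fun t => t) (n + 1)
  rw [h1, mul_comm, Finset.sum_range_id_mul_two]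
  rfl

theorem ccard_lin {n : ℕ} (c u₀ : Fin m → ZMod (n + 1)) (h₀ : ∑ j, u₀ j * c j = 1) :
    2 * ∑ u : Fin m → ZMod (n + 1), (∑ j, u j * c j).val = (n + 1) ^ m * n := by
  have h1 : ∀ t : ZMod (n + 1), ∑ u : Fin m → ZMod (n + 1), (∑ j, u j * c j).val =
      ∑ u : Fin m → ZMod (n + 1), (∑ j, u j * c j + t).val := by
    intro t
    rw [← Equiv.sum_comp (Equiv.addRight (t • u₀))]
    refine Finset.sum_congr rfl fun u _ => ?_
    congr 1
    simp only [Equiv.coe_addRight, Pi.add_apply, Pi.smul_apply, smul_eq_mul, add_mul,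
      Finset.sum_add_distrib, mul_assoc, ← Finset.mul_sum, h₀, mul_one]
  have h2 : (n + 1) * ∑ u : Fin m → ZMod (n + 1), (∑ j, u j * c j).val =
      ∑ u : Fin m → ZMod (n + 1), ∑ t : ZMod (n + 1), t.val := by
    calc (n + 1) * ∑ u : Fin m → ZMod (n + 1), (∑ j, u j * c j).val
        = ∑ _t : ZMod (n + 1), ∑ u : Fin m → ZMod (n + 1), (∑ j, u j * c j).val := by
          rw [Finset.sum_const, Finset.card_univ, ZMod.card, smul_eq_mul]
      _ = ∑ t : ZMod (n + 1), ∑ u : Fin m → ZMod (n + 1), (∑ j, u j * c j + t).val :=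
          Finset.sum_congr rfl fun t _ => h1 t
      _ = _ := by
          rw [Finset.sum_comm]
          exact Finset.sum_congr rfl fun u _ =>
            Equiv.sum_comp (Equiv.addLeft (∑ j, u j * c j)) fun t => t.val
  rw [Finset.sum_const, Finset.card_univ, Fintype.card_fun, ZMod.card, Fintype.card_fin,
    smul_eq_mul] at h2
  apply Nat.eq_of_mul_eq_mul_left (Nat.succ_pos n)
  have h3 := ccard_val n
  calc (n + 1) * (2 * ∑ u : Fin m → ZMod (n + 1), (∑ j, u j * c j).val)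
      = 2 * ((n + 1) * ∑ u : Fin m → ZMod (n + 1), (∑ j, u j * c j).val) := by ring
    _ = (n + 1) ^ m * (2 * ∑ t : ZMod (n + 1), t.val) := by rw [h2]; ring
    _ = (n + 1) * ((n + 1) ^ m * n) := by rw [h3]; ring

theorem ccard_wt {n : ℕ} (u : Fin m → ZMod (n + 1)) (i : Fin r) :
    wt (n + 1) e u i % (n + 1) = (∑ j, u j * (e j i : ZMod (n + 1))).val := by
  rw [← ZMod.val_natCast]
  congr 1
  rw [wt, Nat.cast_sum]
  refine Finset.sum_congr rfl fun j _ => ?_
  rw [Nat.cast_mul]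
  congr 1
  exact ZMod.natCast_zmod_val (u j)

/-- The residues of the weights are equidistributed. -/
theorem Cmb.sum_wt (h : Cmb ℓ e) (i : Fin r) :
    2 * ∑ u : U ℓ m, wt ℓ e u i % ℓ = ℓ ^ m * (ℓ - 1) := by
  obtain ⟨u₀, hu₀⟩ := h.exists_one i
  obtain ⟨n, rfl⟩ : ∃ n, ℓ = n + 1 := ⟨ℓ - 1, (Nat.succ_pred_eq_of_pos h.prime.pos).symm⟩
  have h0 : ∑ j, (show ZMod (n + 1) from u₀ j) * (e j i : ZMod (n + 1)) = 1 := by
    have := ccard_wt (e := e) u₀ i
    rw [hu₀] at this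
    have h2 := ZMod.natCast_zmod_val
      (∑ j, (show ZMod (n + 1) from u₀ j) * (e j i : ZMod (n + 1)))
    rw [← this, Nat.cast_one] at h2
    exact h2.symm
  have := ccard_lin (fun j => (e j i : ZMod (n + 1))) u₀ h0
  rw [Nat.add_sub_cancel, ← this]
  congr 1
  exact Finset.sum_congr rfl fun u _ => ccard_wt u i

/-- The number of basis elements is the genus. -/
theorem Cmb.card (h : Cmb ℓ e) (hm : 0 < m)
    (hg : 2 * g + 2 * ℓ ^ m = 2 + r * ℓ ^ (m - 1) * (ℓ - 1)) : Fintype.card (JJ ℓ e) = g := by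
  classical
  have hp := h.prime.pos
  let z : U ℓ m := fun _ => ⟨0, hp⟩
  have hc : Fintype.card (JJ ℓ e) = ∑ u : U ℓ m, (dd ℓ e u - 1) := by
    rw [Fintype.card_sigma]
    simp
  have h1 : ∀ u : U ℓ m, (dd ℓ e u - 1) + 1 = dd ℓ e u + if u = z then 1 else 0 := by
    intro u
    by_cases hu : u = z
    · rw [if_pos hu, dd_zero (u := u) fun j => by rw [hu]]
    · have : 0 < dd ℓ e u := h.dd_pos (by
        by_contra hn
        push Not at hn
        exact hu (funext fun j => Fin.ext (hn j)))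
      rw [if_neg hu]
      omega
  have h2 : Fintype.card (JJ ℓ e) + ℓ ^ m = ∑ u : U ℓ m, dd ℓ e u + 1 := by
    have h3 : ∑ u : U ℓ m, ((dd ℓ e u - 1) + 1) =
        ∑ u : U ℓ m, (dd ℓ e u + if u = z then 1 else 0) := Finset.sum_congr rfl fun u _ => h1 u
    rw [Finset.sum_add_distrib, Finset.sum_add_distrib, Finset.sum_ite_eq', if_pos (mem_univ _),
      Finset.sum_const, Finset.card_univ, Fintype.card_fun, Fintype.card_fin, Fintype.card_fin,
      smul_eq_mul, mul_one] at h3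
    rw [hc, h3]
  have h4 : ℓ * (2 * ∑ u : U ℓ m, dd ℓ e u) = ℓ * (r * ℓ ^ (m - 1) * (ℓ - 1)) := by
    calc ℓ * (2 * ∑ u : U ℓ m, dd ℓ e u) = 2 * ∑ u : U ℓ m, ℓ * dd ℓ e u := by
          rw [← Finset.mul_sum]; ring
      _ = 2 * ∑ u : U ℓ m, ∑ i, wt ℓ e u i % ℓ := by
          congr 1
          exact Finset.sum_congr rfl fun u _ => h.dd_mul u
      _ = ∑ i : Fin r, 2 * ∑ u : U ℓ m, wt ℓ e u i % ℓ := by
          rw [Finset.sum_comm, Finset.mul_sum]
      _ = ∑ _i : Fin r, ℓ ^ m * (ℓ - 1) := Finset.sum_congr rfl fun i _ => h.sum_wt i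
      _ = _ := by
          rw [Finset.sum_const, Finset.card_univ, Fintype.card_fin, smul_eq_mul]
          obtain ⟨k, rfl⟩ : ∃ k, m = k + 1 := ⟨m - 1, by omega⟩
          rw [Nat.add_sub_cancel, pow_succ]
          ring
  have h5 := Nat.eq_of_mul_eq_mul_left hp h4
  omega

end Pool.Agent.Lib.MP_07b2d0_nt.Kh
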