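import Pool.Agent.Lib.MP_07b2d0_nt.Kh.GNf

/-!
Automorphisms and eigenspaces.
-/

set_option autoImplicit false

namespace Pool.Agent.Lib.MP_07b2d0_nt.Kh

open Polynomial Fh
open scoped IntermediateField

variable {L E ι : Type} [Field L] [Field E] [Algebra L E] {ℓ m r g : ℕ} {e : Fin m → Fin r → ℕ}
  {D : Dat L m r}

/-- Induction on the number of nonzero terms: if `f j' ≠ 0` with `j' ≠ j`, replace `f i` by
`(χ s i - χ s j') • f i`. -/
theorem eig_mem {V J S : Type} [AddCommGroup V] [Module L V] [Fintype J] (W : Submodule L V)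
    (σ : S → V →ₗ[L] V) (hW : ∀ s, ∀ z ∈ W, σ s z ∈ W) (χ : S → J → L)
    (hχ : ∀ j j', j ≠ j' → ∃ s, χ s j ≠ χ s j') (f : J → V) (hf : ∀ s j, σ s (f j) = χ s j • f j)
    (h : ∑ j, f j ∈ W) (j : J) : f j ∈ W := by
  classical
  have key : ∀ (t : Finset J) (f : J → V), (∀ s j, σ s (f j) = χ s j • f j) →
      ∑ j ∈ t, f j ∈ W → ∀ j ∈ t, f j ∈ W := fun t => by
    induction t using Finset.induction_on with
    | empty => simp
    | insert a t ha ih =>
      intro f hf h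
      have h1 : ∀ j ∈ t, f j ∈ W := fun j hj => by
        obtain ⟨s, hs⟩ := hχ j a fun e => ha (e ▸ hj)
        refine (W.smul_mem_iff (sub_ne_zero.2 hs)).1 (ih (fun i => (χ s i - χ s a) • f i)
          (fun s' i => by rw [map_smul, hf, smul_comm]) ?_ j hj)
        have := W.sub_mem (hW s _ h) (W.smul_mem (χ s a) h)
        simp only [map_sum, hf, Finset.smul_sum, ← Finset.sum_sub_distrib, ← sub_smul] at this
        simpa [Finset.sum_insert ha] using this
      rw [Finset.sum_insert ha, W.add_mem_iff_left (W.sum_mem h1)] at h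
      exact Finset.forall_mem_insert _ _ _ |>.2 ⟨h, h1⟩
  exact key _ f hf h j (Finset.mem_univ j)

/-- The monomials span. -/
theorem span_mon [Fintype ι] [DecidableEq ι] (hℓ : 0 < ℓ) (K : IntermediateField L E)
    {w : ι → Fin m → E} (h1 : ∀ k j, w k j ^ ℓ ∈ K)
    (h2 : ∀ T : IntermediateField L E, K ≤ T → (∀ k j, w k j ∈ T) → T = ⊤) (z : E) :
    ∃ c : (ι → U ℓ m) → E, (∀ u, c u ∈ K) ∧ z = ∑ u, c u * ∏ k, mon (w k) (u k) := by
  have hz : z ∈ IntermediateField.adjoin K (Set.range (Function.uncurry w)) := by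
    have := h2 ((IntermediateField.adjoin K (Set.range (Function.uncurry w))).restrictScalars L)
      (fun y hy => IntermediateField.algebraMap_mem _ (⟨y, hy⟩ : K))
      fun k j => IntermediateField.subset_adjoin K _ ⟨(k, j), rfl⟩
    exact (IntermediateField.mem_restrictScalars L).1 (this ▸ IntermediateField.mem_top)
  rw [← IntermediateField.mem_toSubalgebra, IntermediateField.adjoin_toSubalgebra_of_isAlgebraic
    (by
      rintro _ ⟨⟨k, j⟩, rfl⟩
      exact IsAlgebraic.of_pow hℓ (isAlgebraic_algebraMap (⟨_, h1 k j⟩ : K))),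
    ← Subalgebra.mem_toSubmodule, Algebra.adjoin_eq_span] at hz
  have hs : z ∈ Submodule.span K (Set.range fun u : ι → U ℓ m => ∏ k, mon (w k) (u k)) := by
    refine Submodule.span_le.2 (fun y hy => ?_) hz
    obtain ⟨a, rfl⟩ := Submonoid.mem_closure_range_iff_of_fintype.1 hy
    have := Submodule.smul_mem _ (∏ p : ι × Fin m, (⟨_, h1 p.1 p.2⟩ : K) ^ (a p / ℓ))
      (Submodule.subset_span (R := K) (Set.mem_range_self
        (f := fun u : ι → U ℓ m => ∏ k, mon (w k) (u k))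
        fun k j => ⟨a (k, j) % ℓ, Nat.mod_lt _ hℓ⟩))
    refine (congrArg (· ∈ _) ?_).mp this
    simp only [mon, Algebra.smul_def, map_prod, map_pow, ← Fintype.prod_prod_type',
      ← Finset.prod_mul_distrib]
    refine Finset.prod_congr rfl fun p _ => ?_
    exact (congrArg (· * _) (pow_mul _ _ _).symm).trans
      ((pow_add _ _ _).symm.trans (congrArg _ (Nat.div_add_mod _ _)))
  obtain ⟨c, rfl⟩ := (Submodule.mem_span_range_iff_exists_fun K).1 hs
  exact ⟨fun u => c u, fun u => (c u).2, rfl⟩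

theorem gaut_aeval (x : E) (P : L[X]) : aeval x P ∈ L⟮x⟯ :=
  IntermediateField.algebra_adjoin_le_adjoin L _ (aeval_mem_adjoin_singleton L x)

theorem gaut_one {x : E} {w v : Fin m → E} (h : K1 ℓ e D x w)
    (hv : v = w ∨ v = fun j => (w j)⁻¹) (z : E) :
    ∃ c : U ℓ m → E, (∀ u, c u ∈ L⟮x⟯) ∧ z = ∑ u, c u * mon v u := by
  have h1 : ∀ j, w j ^ ℓ ∈ L⟮x⟯ := fun j => h.eq () j ▸ gaut_aeval x _
  obtain ⟨c, hc, rfl⟩ := span_mon (w := fun _ : Unit => v) h.ok.pos L⟮x⟯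
    (fun _ j => by
      obtain rfl | rfl := hv
      exacts [h1 j, inv_pow (w j) ℓ ▸ inv_mem (h1 j)])
    (fun T hT h2 => h.eq_top (fun _ => hT (IntermediateField.mem_adjoin_simple_self L x))
      fun _ j => by
        obtain rfl | rfl := hv
        exacts [h2 () j, inv_mem_iff.1 (h2 () j)]) z
  exact ⟨fun u => c fun _ => u, fun u => hc _,
    Fintype.sum_equiv (Equiv.funUnique Unit _) _ _ fun u => by simp⟩

/-- `span_mon` for the inverses of the `w j`. -/
theorem K1.span_zz {x : E} {w : Fin m → E} (h : K1 ℓ e D x w) (z : E) :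
    ∃ c : U ℓ m → E, (∀ u, c u ∈ L⟮x⟯) ∧ z = ∑ u, c u * zz e D x w u := by
  obtain ⟨c, hc, rfl⟩ := gaut_one h (.inr rfl) z
  refine ⟨fun u => c u / aeval x (∏ i, D.p i ^ (wt ℓ e u i / ℓ + 1)),
    fun u => div_mem (hc u) (gaut_aeval x _), Finset.sum_congr rfl fun u _ => ?_⟩
  rw [zz, div_mul_div_cancel₀ (h.aeval_ne () (h.ok.prod_ne _)), div_eq_mul_inv]
  simp [mon]

theorem K1.span_inv {x : E} {w : Fin m → E} (h : K1 ℓ e D x w) (z : E) :
    ∃ c : U ℓ m → E, (∀ u, c u ∈ L⟮x⟯) ∧ z = ∑ u, c u * (aeval x D.G / zz e D x w u) := by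
  obtain ⟨c, hc, rfl⟩ := gaut_one h (.inl rfl) z
  refine ⟨fun u => c u * aeval x (∏ i, D.p i ^ (wt ℓ e u i / ℓ + 1)) / aeval x D.G,
    fun u => div_mem (mul_mem (hc u) (gaut_aeval x _)) (gaut_aeval x _),
    Finset.sum_congr rfl fun u _ => ?_⟩
  have h1 : aeval x (∏ i, D.p i ^ (wt ℓ e u i / ℓ + 1)) ≠ 0 := h.aeval_ne () (h.ok.prod_ne _)
  have h2 : aeval x D.G ≠ 0 := h.aeval_ne () h.ok.G_ne
  have h3 : mon w u ≠ 0 := mon_ne (h.w_ne ()) u
  rw [zz]
  field_simp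

variable [CharZero L] [Fintype ι] {x : ι → E} {w : ι → Fin m → E}

/-- `KG.lift'` for `θ` and for `θ⁻¹`, `KG.ext`. -/
theorem KG.exists_aut (h : KG ℓ e D x w) (θ : ι → Fin m → L) (hθ : ∀ k j, θ k j ^ ℓ = 1) :
    ∃ s : E ≃ₐ[L] E, (∀ k, s (x k) = x k) ∧
      ∀ k j, s (w k j) = algebraMap L E (θ k j) * w k j := by
  obtain ⟨s, h0, h1, h2⟩ := h.lift' (RingHom.id L) (x' := x)
    (w' := fun k j => algebraMap L E (θ k j) * w k j)
    ⟨h.ok, h.zeta, h.ind, fun k j => by rw [mul_pow, ← map_pow, hθ, map_one, one_mul]; exact h.eq k j⟩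
  let t : E →ₐ[L] E := { s with commutes' := h0 }
  refine ⟨AlgEquiv.ofBijective t ⟨s.injective, AlgHom.fieldRange_eq_top.1
    (h.eq_top (fun k => ⟨x k, h1 k⟩) fun k j => ⟨algebraMap L E (θ k j)⁻¹ * w k j, ?_⟩)⟩, h1, h2⟩
  have : θ k j ≠ 0 := fun e => by simpa [e, h.ok.pos.ne'] using hθ k j
  change s _ = _
  rw [map_mul, h0, h2, ← mul_assoc, ← map_mul, RingHom.id_apply, inv_mul_cancel₀ this, map_one,
    one_mul]

theorem KG.exists_perm (h : KG ℓ e D x w) (π : Equiv.Perm ι) :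
    ∃ s : E →ₐ[L] E, (∀ k, s (x k) = x (π k)) ∧ ∀ k j, s (w k j) = w (π k) j := by
  obtain ⟨s, h0, h1, h2⟩ := h.lift' (RingHom.id L) (x' := fun k => x (π k))
    (w' := fun k => w (π k)) ⟨h.ok, h.zeta, h.ind.comp π π.injective, fun k => h.eq (π k)⟩
  exact ⟨{ s with commutes' := h0 }, h1, h2⟩

omit [CharZero L] in
theorem gaut_fix {S : Set E} (s : E →ₐ[L] E) (hs : ∀ y ∈ S, s y = y) {c : E}
    (hc : c ∈ IntermediateField.adjoin L S) : s c = c :=
  DFunLike.congr_fun (IntermediateField.adjoin_algHom_ext L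
    (φ₁ := s.comp (IntermediateField.val _)) (φ₂ := IntermediateField.val _) hs) ⟨c, hc⟩

open Classical in
theorem gaut_aut (h : KG ℓ e D x w) {ζ : L} (hζ : IsPrimitiveRoot ζ ℓ) (k : ι) (j : Fin m) :
    ∃ s : E ≃ₐ[L] E, (∀ l, s (x l) = x l) ∧
      (∀ l i, s (w l i) = (if l = k ∧ i = j then algebraMap L E ζ else 1) * w l i) ∧
      ∀ u : ι → U ℓ m, s (∏ l, mon (w l) (u l)) =
        algebraMap L E (ζ ^ (u k j : ℕ)) * ∏ l, mon (w l) (u l) := by
  obtain ⟨s, h1, h2⟩ := h.exists_aut (fun l i => if l = k ∧ i = j then ζ else 1)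
    fun l i => by split_ifs; exacts [hζ.pow_eq_one, one_pow _]
  refine ⟨s, h1, fun l i => by rw [h2, apply_ite (algebraMap L E), map_one], fun u => ?_⟩
  simp only [mon, map_prod, map_pow, h2, mul_pow, Finset.prod_mul_distrib]
  congr 1
  rw [Finset.prod_eq_single k (by simp +contextual) (by simp),
    Finset.prod_eq_single j (by simp +contextual) (by simp)]
  simp

/-- `eig_mem` for the automorphisms `s j` that multiply `w j` by `ζ`; they fix `L⟮x⟯`
pointwise, the characters are `ζ⁻¹ ^ u j` or `ζ ^ u j`. -/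
theorem K1.proj {x : E} {w : Fin m → E} (h : K1 ℓ e D x w) (W : Submodule L E)
    (hW : ∀ s : E ≃ₐ[L] E, s x = x → ∀ z ∈ W, s z ∈ W) {f : U ℓ m → E}
    (hf : (∀ u, f u * mon w u ∈ L⟮x⟯) ∨ ∀ u, f u / mon w u ∈ L⟮x⟯) (hs : ∑ u, f u ∈ W)
    (u : U ℓ m) : f u ∈ W := by
  obtain ⟨ζ, hζ⟩ := h.zeta
  choose s h1 h2 h3 using gaut_aut h hζ ()
  have h4 : ∀ j (u : U ℓ m), s j (mon w u) = algebraMap L E (ζ ^ (u j : ℕ)) * mon w u :=
    fun j u => by simpa using h3 j fun _ => u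
  have h5 : ∀ j, ∀ c ∈ L⟮x⟯, s j c = c := fun j c hc =>
    gaut_fix (s j : E →ₐ[L] E) (fun y hy => by obtain rfl := hy; exact h1 j ()) hc
  have h6 : ∀ u u' : U ℓ m, u ≠ u' → ∃ j, ζ ^ (u j : ℕ) ≠ ζ ^ (u' j : ℕ) := fun u u' hu =>
    (Function.ne_iff.1 hu).imp fun j hj e => hj (Fin.ext (hζ.pow_inj (u j).2 (u' j).2 e))
  have h7 : ∀ u : U ℓ m, mon w u ≠ 0 := mon_ne (h.w_ne ())
  have h8 : ∀ n : ℕ, algebraMap L E (ζ ^ n) ≠ 0 := fun n =>
    (_root_.map_ne_zero _).2 (pow_ne_zero _ (hζ.ne_zero h.ok.pos.ne'))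
  have h9 : ∀ j, ∀ z ∈ W, (s j).toLinearMap z ∈ W := fun j => hW (s j) (h1 j ())
  obtain hf | hf := hf
  · refine eig_mem W _ h9 (fun j u => (ζ ^ (u j : ℕ))⁻¹)
      (fun u u' hu => (h6 u u' hu).imp fun j hj => inv_injective.ne hj) f (fun j u => ?_) hs u
    have := h5 j _ (hf u)
    rw [map_mul, h4, ← mul_assoc, mul_left_inj' (h7 u), ← eq_div_iff (h8 _)] at this
    rw [Algebra.smul_def, map_inv₀, ← div_eq_inv_mul]
    exact this
  · refine eig_mem W _ h9 (fun j u => ζ ^ (u j : ℕ)) h6 f (fun j u => ?_) hs u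
    have := h5 j _ (hf u)
    rw [map_div₀, h4, ← div_div, div_left_inj' (h7 u), div_eq_iff (h8 _), mul_comm] at this
    rw [Algebra.smul_def]
    exact this

/-- Write `z = ∑ c u * mon` (`span_mon`); invariance and `KG0.indep` give
`c u * (ζ ^ u k j - 1) = 0`. -/
theorem KG.fix [DecidableEq ι] (h : KG ℓ e D x w) {ζ : L} (hζ : IsPrimitiveRoot ζ ℓ) {z : E}
    (hz : ∀ k j (s : E →ₐ[L] E), (∀ l, s (x l) = x l) →
      (∀ l i, s (w l i) = (if l = k ∧ i = j then algebraMap L E ζ else 1) * w l i) → s z = z) :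
    z ∈ IntermediateField.adjoin L (Set.range x) := by
  have hx : ∀ k, x k ∈ IntermediateField.adjoin L (Set.range x) := fun k =>
    IntermediateField.subset_adjoin _ _ ⟨k, rfl⟩
  obtain ⟨c, hc, rfl⟩ := span_mon (w := w) h.ok.pos (IntermediateField.adjoin L (Set.range x))
    (fun k j => h.eq k j ▸ IntermediateField.adjoin_simple_le_iff.2 (hx k) (gaut_aeval _ _))
    (fun T hT => h.eq_top fun k => hT (hx k)) z
  refine sum_mem fun u _ => ?_
  by_cases hu : ∀ k j, (u k j : ℕ) = 0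
  · simpa [mon, hu] using hc u
  push Not at hu
  obtain ⟨k, j, hu⟩ := hu
  obtain ⟨s, h1, h2, h3⟩ := gaut_aut h hζ k j
  have h4 := hz k j s h1 fun l i => (h2 l i).trans (by congr)
  have h5 : ∀ v, s (c v) = c v := fun v =>
    gaut_fix (s : E →ₐ[L] E) (by rintro _ ⟨l, rfl⟩; exact h1 l) (hc v)
  have h6 := Fintype.linearIndependent_iff.1 h.toKG0.indep
    (fun v => ⟨c v, hc v⟩ * algebraMap L _ (ζ ^ (v k j : ℕ) - 1)) (by
      rw [← sub_eq_zero.2 h4, map_sum, ← Finset.sum_sub_distrib]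
      refine Finset.sum_congr rfl fun v _ => ?_
      rw [map_mul, AlgEquiv.coe_toAlgHom, h5, h3, Algebra.smul_def, map_mul,
        ← IsScalarTower.algebraMap_apply, map_sub, map_one]
      change c v * _ * _ = _
      ring) u
  rw [mul_eq_zero, _root_.map_eq_zero, sub_eq_zero] at h6
  rw [show c u = 0 from congrArg Subtype.val
    (h6.resolve_right (hζ.pow_ne_one_of_pos_of_lt hu (u k j).2)), zero_mul]
  exact zero_mem _

end Pool.Agent.Lib.MP_07b2d0_nt.Kh
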