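import Pool.Agent.Lib.MP_07b2d0_nt.Kh.Bas
import Pool.Agent.Lib.MP_07b2d0_nt.Kh.Cmb

/-!
Independence of the monomials.
-/

set_option autoImplicit false

namespace Pool.Agent.Lib.MP_07b2d0_nt.Kh

open Polynomial Fh
open scoped IntermediateField

variable {L E ι : Type} [Field L] [Field E] [Algebra L E] {ℓ m r g : ℕ} {e : Fin m → Fin r → ℕ}
  {D : Dat L m r}

theorem gind_trace {K : Type} [Field K] [Algebra K E] [FiniteDimensional K E] (hℓ : ℓ.Prime)
    {ζ a : K} (hζ : IsPrimitiveRoot ζ ℓ) {θ : E} (h1 : θ ^ ℓ = algebraMap K E a)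
    (h2 : ∀ c : K, θ ≠ algebraMap K E c) : Algebra.trace K E θ = 0 := by
  have : NeZero ℓ := ⟨hℓ.ne_zero⟩
  have hi : Irreducible (X ^ ℓ - C a) := X_pow_sub_C_irreducible_of_prime hℓ fun b hb => by
    rw [← hb, map_pow] at h1
    by_cases h0 : algebraMap K E b = 0
    · exact h2 b (by rw [h0] at h1 ⊢; exact eq_zero_of_pow_eq_zero (h1.trans (zero_pow hℓ.ne_zero)))
    obtain ⟨i, -, hi⟩ := (hζ.map_of_injective (algebraMap K E).injective).eq_pow_of_pow_eq_one
      (ξ := θ / algebraMap K E b) (by rw [div_pow, h1, div_self (pow_ne_zero _ h0)])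
    exact h2 (ζ ^ i * b) (by rw [map_mul, map_pow, hi, div_mul_cancel₀ _ h0])
  have := hℓ.two_le
  rw [trace_eq_finrank_mul_minpoly_nextCoeff, ← minpoly.eq_of_irreducible_of_monic hi
    (by simp [h1]) (monic_X_pow_sub_C a hℓ.ne_zero), nextCoeff, natDegree_X_pow_sub_C,
    if_neg hℓ.ne_zero, coeff_sub, coeff_X_pow, if_neg (by omega), coeff_C, if_neg (by omega)]
  simp

/-- Divide a relation by one of the `z j` and take the trace. -/
theorem indep_of_pow {K J : Type} [Field K] [CharZero K] [Algebra K E] (hℓ : ℓ.Prime) {ζ : K}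
    (hζ : IsPrimitiveRoot ζ ℓ) {z : J → E} (h0 : ∀ j, z j ≠ 0)
    (h1 : ∀ j, ∃ c : K, z j ^ ℓ = algebraMap K E c)
    (h2 : ∀ j j', j ≠ j' → ∀ c : K, z j ≠ algebraMap K E c * z j') : LinearIndependent K z := by
  refine linearIndependent_iff'.2 fun s c hs i hi => ?_
  choose a ha using h1
  set M := IntermediateField.adjoin K (z '' s)
  have : FiniteDimensional K M := IntermediateField.finiteDimensional_adjoin (by
    rintro _ ⟨j, -, rfl⟩
    exact .of_pow hℓ.pos (ha j ▸ isIntegral_algebraMap))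
  have hm : ∀ j ∈ s, z j ∈ M := fun j hj => IntermediateField.subset_adjoin _ _ ⟨j, hj, rfl⟩
  let θ : s → M := fun j => ⟨z j / z i, div_mem (hm _ j.2) (hm _ hi)⟩
  have h3 : ∑ j : s, c j • θ j = 0 := by
    apply (algebraMap M E).injective
    have := Finset.sum_coe_sort s fun j => c j • (z j / z i)
    simp only [← smul_div_assoc, ← Finset.sum_div, hs] at this
    simpa [θ, ← smul_div_assoc, ← Finset.sum_div] using this
  have h4 := congrArg (Algebra.trace K M) h3
  rw [map_sum, map_zero, Finset.sum_eq_single ⟨i, hi⟩ (fun j _ hj => by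
    rw [map_smul, gind_trace hℓ hζ (a := a j / a i) (Subtype.ext (by simp [θ, div_pow, ha]))
      fun c hc => h2 j i (fun e => hj (Subtype.ext e)) c
        ((div_eq_iff (h0 i)).1 (congrArg Subtype.val hc)), smul_zero]) (by simp),
    show θ ⟨i, hi⟩ = algebraMap K M 1 from Subtype.ext (by simp [θ, h0]), map_smul,
    Algebra.trace_algebraMap] at h4
  simpa [Module.finrank_pos.ne'] using h4

theorem gind_count [DecidableEq L] (h : D.Ok ℓ e) (n : Fin r → ℕ) (i : Fin r) :
    (∏ i, D.p i ^ n i).roots.count (D.a i) = n i := by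
  rw [roots_prod _ _ (h.prod_ne n), Multiset.count_bind]
  simp [h.p_eq, roots_pow, roots_C_mul _ (h.β _), Multiset.count_singleton, h.a.eq_iff,
    List.sum_ofFn]

/-- Compare the multiplicities of the roots modulo `ℓ`. -/
theorem K0.ratio {x : E} {w : Fin m → E} (h : K0 ℓ e D x w) {u u' : U ℓ m} (hu : u ≠ u') {c : E}
    (hc : c ∈ L⟮x⟯) : mon w u ≠ c * mon w u' := by
  classical
  intro h0
  obtain ⟨A, B, rfl⟩ := (IntermediateField.mem_adjoin_simple_iff _ _).1 hc
  have hB : aeval x B ≠ 0 := fun e => mon_ne (h.w_ne ()) u (by simp [h0, e])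
  have h1 : B ^ ℓ * (C (mon D.c u) * ∏ i, D.p i ^ wt ℓ e u i) =
      A ^ ℓ * (C (mon D.c u') * ∏ i, D.p i ^ wt ℓ e u' i) := by
    apply transcendental_iff_injective.1 h.trans
    simp only [map_mul, map_pow _ A, map_pow _ B, aeval_C, ← mon_pow (h.eq ())]
    rw [← mul_pow, ← mul_pow, h0, ← mul_assoc, mul_div_cancel₀ _ hB]
  have h2 : B ^ ℓ * (C (mon D.c u) * ∏ i, D.p i ^ wt ℓ e u i) ≠ 0 :=
    mul_ne_zero (pow_ne_zero _ fun e => hB (by simp [e]))
      (mul_ne_zero (C_ne_zero.2 (mon_ne h.ok.c u)) (h.ok.prod_ne _))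
  obtain ⟨i, hi⟩ := h.ok.cmb.sep hu
  have h3 := congrArg (fun P => (P.roots.count (D.a i)) % ℓ) h1
  simp only [roots_mul h2, roots_mul (h1 ▸ h2), roots_pow, roots_C_mul _ (mon_ne h.ok.c _),
    Multiset.count_add, Multiset.count_nsmul, gind_count h.ok, Nat.mul_add_mod] at h3
  exact hi h3

variable {x : ι → E} {w : ι → Fin m → E}

theorem KG0.one (h : KG0 ℓ e D x w) (k : ι) :
    K0 ℓ e (D.map (algebraMap L (kp L x w k))) (x k) (w k) := by
  obtain ⟨ζ, hζ⟩ := h.zeta
  refine K0.mk' (h.ok.map _) ⟨_, hζ.map_of_injective (algebraMap L (kp L x w k)).injective⟩ ?_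
    fun j => by rw [Dat.map_F, aeval_map_algebraMap, h.eq]
  set K := IntermediateField.adjoin L (x '' {k}ᶜ)
  have h1 : Transcendental K (x k) :=
    IntermediateField.transcendental_adjoin_iff.2 (h.ind.transcendental_adjoin (by simp))
  have h3 : kp L x w k ≤ (algebraicClosure K E).restrictScalars L := by
    refine IntermediateField.adjoin_le_iff.2 ?_
    rintro z ⟨l, hl, hz⟩
    have hx : x l ∈ K.toSubalgebra := IntermediateField.subset_adjoin _ _ ⟨l, hl, rfl⟩
    obtain rfl | ⟨j, rfl⟩ := hz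
    · exact (algebraicClosure K E).algebraMap_mem (⟨x l, hx⟩ : K)
    · refine mem_algebraicClosure_iff.2 (IsAlgebraic.of_pow h.ok.pos ?_)
      rw [h.eq]
      exact isAlgebraic_algebraMap (⟨_, Algebra.adjoin_le (Set.singleton_subset_iff.2 hx)
        (aeval_mem_adjoin_singleton L _)⟩ : K)
  exact Transcendental.of_tower_top_of_subalgebra_le (A := (kp L x w k).toSubalgebra)
    (B := ((algebraicClosure K E).restrictScalars L).toSubalgebra) h3 h1.algebraicClosure

theorem KG.one (h : KG ℓ e D x w) (k : ι) :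
    K1 ℓ e (D.map (algebraMap L (kp L x w k))) (x k) (w k) := by
  refine ⟨h.toKG0.one k, ?_⟩
  rw [range_one]
  set T := IntermediateField.adjoin (kp L x w k) (insert (x k) (Set.range (w k)))
  have := h.eq_top (T := T.restrictScalars L) (fun l => ?_) fun l j => ?_
  · exact top_le_iff.1 fun z _ => this.ge trivial
  all_goals by_cases hl : l = k
  · exact IntermediateField.subset_adjoin (kp L x w k) _ (by simp [hl])
  · exact T.algebraMap_mem ⟨_, x_mem_kp hl⟩
  · exact IntermediateField.subset_adjoin (kp L x w k) _ (by simp [hl])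
  · exact T.algebraMap_mem ⟨_, w_mem_kp hl j⟩

variable [CharZero L]

omit [CharZero L] in
theorem gind_aeval_mem (T : IntermediateField L E) {ξ : E} (h : ξ ∈ T) (P : L[X]) :
    aeval ξ P ∈ T :=
  (Algebra.adjoin_le (S := T.toSubalgebra) (Set.singleton_subset_iff.2 h))
    (aeval_mem_adjoin_singleton _ _)

theorem gind_indep {J : Type} (T : IntermediateField L E) (hℓ : ℓ.Prime)
    (hζ : ∃ ζ : L, IsPrimitiveRoot ζ ℓ) {z : J → E} (h0 : ∀ j, z j ≠ 0) (h1 : ∀ j, z j ^ ℓ ∈ T)
    (h2 : ∀ j j', j ≠ j' → ∀ c ∈ T, z j ≠ c * z j') : LinearIndependent T z := by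
  obtain ⟨ζ, hζ⟩ := hζ
  have : CharZero T := charZero_of_injective_algebraMap (algebraMap L T).injective
  exact indep_of_pow hℓ (hζ.map_of_injective (algebraMap L T).injective) h0
    (fun j => ⟨⟨_, h1 j⟩, rfl⟩) fun j j' hj c => h2 j j' hj c c.2

theorem KG0.indep [Fintype ι] (h : KG0 ℓ e D x w) :
    LinearIndependent (IntermediateField.adjoin L (Set.range x))
      fun u : ι → U ℓ m => ∏ k, mon (w k) (u k) := by
  classical
  refine gind_indep _ h.ok.cmb.prime h.zeta
    (fun u => Finset.prod_ne_zero_iff.2 fun k _ => mon_ne (h.w_ne k) _) (fun u => ?_)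
    fun u u' hu c hc he => ?_
  · rw [← Finset.prod_pow]
    refine prod_mem fun k _ => ?_
    rw [mon_pow (h.eq k)]
    exact mul_mem (IntermediateField.algebraMap_mem _ _)
      (gind_aeval_mem _ (IntermediateField.subset_adjoin _ _ (Set.mem_range_self k)) _)
  · obtain ⟨k, hk⟩ := Function.ne_iff.1 hu
    have hm : ∀ y ∈ kp L x w k, y ∈ (kp L x w k)⟮x k⟯ := fun y hy =>
      IntermediateField.algebraMap_mem (kp L x w k)⟮x k⟯ ⟨y, hy⟩
    have hp : ∀ v : ι → U ℓ m, ∏ l ∈ Finset.univ.erase k, mon (w l) (v l) ∈ (kp L x w k)⟮x k⟯ :=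
      fun v => prod_mem fun l hl =>
        hm _ (mon_mem (fun j => w_mem_kp (Finset.ne_of_mem_erase hl) j) _)
    have hc' : c ∈ (kp L x w k)⟮x k⟯ := by
      refine (IntermediateField.adjoin_le_iff
        (T := ((kp L x w k)⟮x k⟯).restrictScalars L)).2 ?_ hc
      rintro _ ⟨l, rfl⟩
      by_cases hl : l = k
      · subst hl
        exact IntermediateField.mem_adjoin_simple_self (kp L x w l) (x l)
      · exact hm _ (x_mem_kp hl)
    have hn : ∏ l ∈ Finset.univ.erase k, mon (w l) (u l) ≠ 0 :=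
      Finset.prod_ne_zero_iff.2 fun l _ => mon_ne (h.w_ne l) _
    refine (h.one k).ratio hk (div_mem (mul_mem hc' (hp u')) (hp u)) ?_
    rw [← Finset.mul_prod_erase _ _ (Finset.mem_univ k),
      ← Finset.mul_prod_erase _ (fun l => mon (w l) (u' l)) (Finset.mem_univ k)] at he
    rw [div_mul_eq_mul_div, eq_div_iff hn, he]
    ring

theorem K0.indep_zz {x : E} {w : Fin m → E} (h : K0 ℓ e D x w) :
    LinearIndependent L⟮x⟯ (zz (ℓ := ℓ) e D x w) := by
  have hx := IntermediateField.mem_adjoin_simple_self L x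
  refine gind_indep _ h.ok.cmb.prime h.zeta (fun u => h.zz_ne () u) (fun u => ?_)
    fun u u' hu c hc he => ?_
  · have h1 := zz_pow (D := D) h.ok.pos (h.eq ()) (h.w_ne ()) u
    have h2 : algebraMap L E (mon D.c u) ≠ 0 := (_root_.map_ne_zero _).2 (mon_ne h.ok.c u)
    rw [← eq_div_iff h2] at h1
    rw [h1]
    exact div_mem (gind_aeval_mem _ hx _) (IntermediateField.algebraMap_mem _ _)
  · have h1 := h.aeval_ne () (h.ok.prod_ne fun i => wt ℓ e u i / ℓ + 1)
    refine h.ratio hu.symm (div_mem (mul_mem hc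
      (gind_aeval_mem _ hx (∏ i, D.p i ^ (wt ℓ e u' i / ℓ + 1))))
      (gind_aeval_mem _ hx (∏ i, D.p i ^ (wt ℓ e u i / ℓ + 1)))) ?_
    rw [zz, zz, ← mul_div_assoc,
      div_eq_div_iff (mon_ne (h.w_ne ()) u) (mon_ne (h.w_ne ()) u')] at he
    rw [div_mul_eq_mul_div, eq_div_iff h1, mul_comm, he]

theorem K0.indep_ps {x : E} {w : Fin m → E} (h : K0 ℓ e D x w) :
    LinearIndependent L fun J : JJ ℓ e => x ^ (J.2 : ℕ) * zz e D x w J.1 := by
  have h1 : LinearIndependent L fun n : ℕ => IntermediateField.AdjoinSimple.gen L x ^ n := by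
    refine LinearIndependent.of_comp (L⟮x⟯).val.toLinearMap ?_
    have h2 : LinearIndependent L fun n : ℕ => (aeval x : L[X] →ₐ[L] E).toLinearMap
        (basisMonomials L n) := (basisMonomials L).linearIndependent.map' _
      (LinearMap.ker_eq_bot.2 (transcendental_iff_injective.1 h.trans))
    simpa [Function.comp_def] using h2
  have h3 := (linearIndependent_smul h1 h.indep_zz).comp
    (fun J : JJ ℓ e => ((J.2 : ℕ), J.1)) (by
      rintro ⟨u, n⟩ ⟨u', n'⟩ hJ
      obtain ⟨h4, rfl⟩ := Prod.mk.inj hJ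
      exact congrArg _ (Fin.ext h4))
  simpa [Function.comp_def, IntermediateField.smul_def] using h3

end Pool.Agent.Lib.MP_07b2d0_nt.Kh
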