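import Pool.Agent.Lib.MP_07b2d0_nt.Kh.Bas
import Pool.Agent.Lib.MP_07b2d0_nt.Kh.Cmb

/-!
Local coordinates on the curve.
-/

set_option autoImplicit false

namespace Pool.Agent.Lib.MP_07b2d0_nt.Kh

open Polynomial Fh

variable {L E : Type} [Field L] [Field E] [Algebra L E] {ℓ m r g : ℕ} {e : Fin m → Fin r → ℕ}
  {D : Dat L m r}
  {x : E} {w : Fin m → E} {τ : L}

theorem vch_ne (hℓ : 0 < ℓ) {c : L} (hc : c ≠ 0) (h : ∃ y, y ^ ℓ = c) : ∃ y ≠ 0, y ^ ℓ = c := by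
  obtain ⟨y, rfl⟩ := h
  exact ⟨y, fun h0 => hc (by rw [h0, zero_pow hℓ.ne']), rfl⟩

theorem vch_prod {I : Type} (s : Finset I) {f : I → L} (n : I → ℕ)
    (h : ∀ i ∈ s, ∃ y ≠ 0, y ^ ℓ = f i) : ∃ y ≠ 0, y ^ ℓ = ∏ i ∈ s, f i ^ n i := by
  choose! y h1 h2 using h
  refine ⟨∏ i ∈ s, y i ^ n i, Finset.prod_ne_zero_iff.2 fun i hi => pow_ne_zero _ (h1 i hi), ?_⟩
  rw [← Finset.prod_pow]
  exact Finset.prod_congr rfl fun i hi => by rw [pow_right_comm, h2 i hi]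

theorem vch_mul {a b : L} (ha : ∃ y ≠ 0, y ^ ℓ = a) (hb : ∃ y ≠ 0, y ^ ℓ = b) :
    ∃ y ≠ 0, y ^ ℓ = a * b := by
  obtain ⟨y, h1, rfl⟩ := ha
  obtain ⟨z, h2, rfl⟩ := hb
  exact ⟨y * z, mul_ne_zero h1 h2, mul_pow _ _ _⟩

/-- The chart at a branch point. -/
theorem K1.chart_br (h : K1 ℓ e D x w) (hr : Rts ℓ D τ) (i : Fin r) :
    ∃ π, Chart ℓ ℓ (D.a i) x π := by
  classical
  obtain ⟨u, hu⟩ := h.ok.cmb.exists_one i
  have hc := fun j => vch_ne h.ok.pos (h.ok.c j) (hr.c j)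
  have hp : ∀ n : Fin r → ℕ, ∃ y ≠ 0, y ^ ℓ =
      (∏ i' ∈ Finset.univ.erase i, D.p i' ^ n i').eval (D.a i) := fun n => by
    simp only [eval_prod, eval_pow]
    exact vch_prod _ n fun i' hi' => vch_ne h.ok.pos
      (h.ok.eval_p_ne (h.ok.a.ne (Finset.ne_of_mem_erase hi').symm)) (hr.a i i')
  obtain ⟨ε, hε⟩ : ∃ ε, ε = C (mon D.c u) * ∏ i' ∈ Finset.univ.erase i, D.p i' ^ wt ℓ e u i' :=
    ⟨_, rfl⟩
  obtain ⟨y, y0, hy⟩ : ∃ y ≠ 0, y ^ ℓ = ε.eval (D.a i) := by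
    rw [hε, eval_mul, eval_C]
    exact vch_mul (vch_prod _ _ fun j _ => hc j) (hp _)
  have e0 : ε.eval (D.a i) ≠ 0 := hy ▸ pow_ne_zero _ y0
  have p0 : aeval x (D.p i) ≠ 0 := h.aeval_ne () (h.ok.p_ne i)
  obtain ⟨π, hπ⟩ : ∃ π, π = mon w u / aeval x (D.p i) ^ (wt ℓ e u i / ℓ) := ⟨_, rfl⟩
  have π0 : π ≠ 0 := hπ ▸ div_ne_zero (mon_ne (h.w_ne ()) u) (pow_ne_zero _ p0)
  have h1 : π ^ ℓ = aeval x (D.p i) * aeval x ε := by
    have h2 := Nat.div_add_mod' (wt ℓ e u i) ℓ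
    rw [hπ, div_pow, div_eq_iff (pow_ne_zero _ (pow_ne_zero _ p0)), mon_pow (h.eq ()),
      ← Finset.mul_prod_erase _ _ (Finset.mem_univ i), hε, map_mul, map_mul, aeval_C, map_pow,
      ← pow_mul]
    rw [hu] at h2
    conv_lhs => rw [← h2]
    ring
  refine ⟨π, h.ok.pos, ⟨1, C (D.β i) * ε, by simp, by simp [e0, h.ok.β i], ?_⟩,
    Set.range fun j => w j / π ^ e j i, Set.finite_range _, ?_, ?_⟩
  · rw [h1, h.ok.aeval_p, map_one, map_mul, aeval_C]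
    ring
  · refine h.eq_top (fun _ => IntermediateField.subset_adjoin _ _ (by simp)) fun _ j => ?_
    rw [← div_mul_cancel₀ (w j) (pow_ne_zero (e j i) π0)]
    exact mul_mem (IntermediateField.subset_adjoin _ _ (.inr ⟨j, rfl⟩))
      (pow_mem (IntermediateField.subset_adjoin _ _ (by simp)) _)
  · rintro _ ⟨j, rfl⟩
    obtain ⟨z, z0, hz⟩ := vch_mul (hc j) (hp (e j))
    refine ⟨ε ^ e j i, C (D.c j) * ∏ i' ∈ Finset.univ.erase i, D.p i' ^ e j i', z / y ^ e j i,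
      div_ne_zero z0 (pow_ne_zero _ y0), by simp [e0], ?_, ?_⟩
    · rw [eval_mul, eval_C, ← hz, eval_pow, ← hy, div_pow, pow_right_comm,
        div_mul_cancel₀ _ (pow_ne_zero _ (pow_ne_zero _ y0))]
    · have h2 : (π ^ e j i) ^ ℓ ≠ 0 := pow_ne_zero _ (pow_ne_zero _ π0)
      rw [div_pow, div_mul_eq_mul_div, div_eq_iff h2, pow_right_comm, h1, h.eq (), Dat.F,
        ← Finset.mul_prod_erase _ _ (Finset.mem_univ i)]
      simp only [map_mul, map_pow, mul_pow]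
      ring

theorem K1.chart_fin (h : K1 ℓ e D x w) (hr : Rts ℓ D τ) :
    Chart ℓ 1 τ x (x - algebraMap L E τ) := by
  refine ⟨one_pos, ⟨1, 1, by simp, by simp, by simp⟩, Set.range w, Set.finite_range _,
    h.eq_top (fun _ => IntermediateField.subset_adjoin _ _ (by simp))
      fun _ j => IntermediateField.subset_adjoin _ _ (.inr ⟨j, rfl⟩), ?_⟩
  rintro _ ⟨j, rfl⟩
  obtain ⟨z, z0, hz⟩ := vch_mul (vch_ne h.ok.pos (h.ok.c j) (hr.c j)) (vch_prod Finset.univ (e j)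
    fun i _ => vch_ne h.ok.pos (h.ok.eval_p_ne (hr.ne i)) (hr.τ i))
  refine ⟨1, D.F e j, z, z0, by simp, ?_, by rw [map_one, mul_one, h.eq ()]⟩
  simp [hz, Dat.F, eval_prod]

/-- The chart at infinity. -/
theorem K1.chart_inf (h : K1 ℓ e D x w) (hr : Rts ℓ D τ) : Chart ℓ 1 (0 : L) x⁻¹ x⁻¹ := by
  have x0 : x ≠ 0 := by simpa using h.sub_ne () 0
  refine ⟨one_pos, ⟨1, 1, by simp, by simp, by simp⟩,
    Set.range fun j => w j * x⁻¹ ^ ((∑ i, e j i) / ℓ), Set.finite_range _, ?_, ?_⟩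
  · have h1 : ∀ s : Set E, x ∈ IntermediateField.adjoin L ({x⁻¹, x⁻¹} ∪ s) := fun s => by
      simpa using inv_mem (IntermediateField.subset_adjoin L ({x⁻¹, x⁻¹} ∪ s) (.inl (.inl rfl)))
    refine h.eq_top (fun _ => h1 _) fun _ j => ?_
    have h2 : w j = w j * x⁻¹ ^ ((∑ i, e j i) / ℓ) * x ^ ((∑ i, e j i) / ℓ) := by
      rw [mul_assoc, ← mul_pow, inv_mul_cancel₀ x0, one_pow, mul_one]
    rw [h2]
    exact mul_mem (IntermediateField.subset_adjoin _ _ (.inr ⟨j, rfl⟩)) (pow_mem (h1 _) _)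
  · rintro _ ⟨j, rfl⟩
    obtain ⟨z, z0, hz⟩ := vch_mul (vch_ne h.ok.pos (h.ok.c j) (hr.c j))
      (vch_prod Finset.univ (e j) fun i _ => vch_ne h.ok.pos (h.ok.β i) (hr.β i))
    refine ⟨1, C (D.c j) * ∏ i, (C (D.β i) + C (D.α i) * X) ^ e j i, z, z0, by simp,
      by simp [hz, eval_prod], ?_⟩
    rw [map_one, mul_one, mul_pow, ← pow_mul, Nat.div_mul_cancel (h.ok.cmb.sum j), h.eq (), Dat.F,
      ← Finset.prod_pow_eq_pow_sum]
    simp only [map_mul, map_prod, map_pow, mul_assoc, ← Finset.prod_mul_distrib, ← mul_pow, aeval_C]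
    refine congrArg _ (Finset.prod_congr rfl fun i _ => congrArg (fun a : E => a ^ e j i) ?_)
    simp only [Dat.p, map_add, map_mul, aeval_C, aeval_X]
    field_simp

end Pool.Agent.Lib.MP_07b2d0_nt.Kh
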