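import Pool.Agent.Lib.MP_07b2d0_nt.Kh.VLoc
import Pool.Agent.Lib.MP_07b2d0_nt.Kh.VCh
import Pool.Agent.Lib.MP_07b2d0_nt.Kh.GInd
import Pool.Agent.Lib.MP_07b2d0_nt.Kh.GDer
import Pool.Agent.Lib.MP_07b2d0_nt.Fh.APair

/-!
Local bounds for regular forms.
-/

set_option autoImplicit false

namespace Pool.Agent.Lib.MP_07b2d0_nt.Kh

open Polynomial NumberField WithZero Fh

variable {L E F : Type} [Field L] [NumberField L] [Field E] [Field F] [Algebra L E] {ℓ m r g : ℕ}
  {e : Fin m → Fin r → ℕ} {D : Dat L m r} {τ : L} {x : Fin g → E} {w : Fin g → Fin m → E}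
  {κ : 𝓞 L →+* F} {ι : F →+* E} {S : Set (Subring F)} {Dr : Fin g → Derivation L E E}
  {p : ⋀[F]^g Ω[F⁄ℤ] →+ E} {α : ⋀[F]^g Ω[F⁄ℤ]}

theorem Setup'.mem (h : Setup' ℓ e D τ x w κ ι S) (hD : IsG D x Dr) (hp : IsPair ι Dr p)
    (hα : α ∈ LamS g S) : p α ∈ Algebra.adjoin L (Gs x w (algebraMap L E τ)) :=
  hp.mem_of_loc _ (fun l _ hz => h.gen.toKG0.D_Gs hD τ l hz) (h.reg _ Algebra.subset_adjoin) hα

theorem Setup'.loc (h : Setup' ℓ e D τ x w κ ι S) (hD : IsG D x Dr) (hp : IsPair ι Dr p)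
    (hα : α ∈ LamS g S) (k : Fin g) (v : Plc (kp L x w k) E) {n : ℕ} {c : L} {ξ π : E}
    (hc : Chart ℓ n (algebraMap L (kp L x w k) c) ξ π)
    (hv : Vl v ξ (algebraMap L (kp L x w k) c)) {μ : E}
    (h1 : v.1 (μ * Dr k ξ) ≤ v.1 π ^ (n - 1)) (h2 : ∀ l, l ≠ k → Dr l ξ = 0) :
    v.1 (μ * p α) ≤ 1 := by
  have : CharZero (kp L x w k) := charZero_of_injective_algebraMap (algebraMap L _).injective
  obtain ⟨ζ, hζ⟩ := h.gen.zeta
  obtain ⟨T, hT, hTW⟩ := h.val v.1.valuationSubring fun c => v.2.2 (algebraMap L _ c)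
  have key := (hp.scale fun l => if l = k then μ else 1).mem v.1.valuationSubring.toSubring
    (fun l z hz => hc.stable h.gen.ok.pos (hζ.map_of_injective (algebraMap L _).injective) hv _
      ?_ (fun a => ?_) ?_ hz) hT hTW hα
  · have h3 : (∏ l, if l = k then μ else 1) * p α ∈ v.1.valuationSubring := key
    rwa [Finset.prod_ite_eq', if_pos (Finset.mem_univ k)] at h3
  · rw [← IsScalarTower.algebraMap_apply, Derivation.map_algebraMap]
  · have h3 := h.gen.toKG0.D_kp hD k l a.2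
    rw [Derivation.smul_apply]
    by_cases hl : l = k
    · rw [show Dr l (algebraMap _ E a) = 0 from h3.2 hl, smul_zero, map_zero]
      exact zero_le_one
    · rw [if_neg hl, one_smul]
      exact v.2.2 ⟨_, h3.1⟩
  · rw [Derivation.smul_apply]
    by_cases hl : l = k
    · rw [if_pos hl, hl]
      exact h1
    · rw [h2 l hl, smul_zero, map_zero]
      exact zero_le

theorem Setup'.fin (h : Setup' ℓ e D τ x w κ ι S) (hD : IsG D x Dr) (hp : IsPair ι Dr p)
    (hα : α ∈ LamS g S) (k : Fin g) (v : Plc (kp L x w k) E) (hv : v.1 (x k) ≤ 1) :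
    v.1 (p α) ^ ℓ ≤ v.1 (aeval (x k) D.G) := by
  have h1 := h.gen.one k
  have hr := h.rts.map (algebraMap L (kp L x w k))
  have hG : aeval (x k) (D.map (algebraMap L (kp L x w k))).G = aeval (x k) D.G := by
    rw [Dat.map_G, aeval_map_algebraMap]
  have hk : Dr k (x k) = aeval (x k) D.G := by rw [hD, if_pos rfl]
  have hl : ∀ l, l ≠ k → Dr l (x k) = 0 := fun l hl => by rw [hD, if_neg hl]
  by_cases hi : ∃ i, Vl v (x k) ((D.map (algebraMap L (kp L x w k))).a i)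
  · obtain ⟨i, hi⟩ := hi
    obtain ⟨π, hπ⟩ := h1.chart_br hr i
    have h2 : v.1 (aeval (x k) D.G) = v.1 π ^ ℓ := by
      rw [← hG, h1.ok.val_G hi, hπ.val hi]
    have h3 : v.1 π ≠ 0 := fun h0 => by
      rw [h0, zero_pow h.gen.ok.pos.ne'] at h2
      exact h.gen.toKG0.aeval_ne k h.gen.ok.G_ne ((map_eq_zero _).1 h2)
    rw [Dat.map_a] at hπ hi
    have h4 := h.loc hD hp hα k v hπ hi (μ := π⁻¹) (by
      rw [hk, map_mul, map_inv₀, h2, inv_mul_eq_div, ← pow_sub_one_mul h.gen.ok.pos.ne',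
        mul_div_cancel_right₀ _ h3]) hl
    rw [map_mul, map_inv₀, inv_mul_le_one₀ (zero_lt_iff.2 h3)] at h4
    rw [h2]
    exact pow_le_pow_left' h4 _
  · have h2 : ∀ i, v.1 (aeval (x k) (D.p i)) = 1 := fun i => by
      have := h1.ok.val_p_one hv fun h0 => hi ⟨i, h0⟩
      rwa [Dat.map_p, aeval_map_algebraMap] at this
    have h3 : v.1 (aeval (x k) D.G) = 1 := by
      simp only [Dat.G, map_prod, h2, Finset.prod_const_one]
    rw [h3]
    refine pow_le_one' ?_ _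
    have hc : ∀ c : L, v.1 (algebraMap L E c) ≤ 1 := fun c => v.2.2 (algebraMap L _ c)
    by_cases ht : Vl v (x k) (algebraMap L (kp L x w k) τ)
    · have h4 := h.loc hD hp hα k v (h1.chart_fin hr) ht (μ := 1) (by
        rw [one_mul, hk, h3, Nat.sub_self, pow_zero]) hl
      rwa [one_mul] at h4
    · refine (cong_of_gen v.1 hc (AlgHom.id L E) (fun z hz => ⟨?_, by simp⟩) (h.mem hD hp hα)).1
      have hm : ∀ y ∈ kp L x w k, v.1 y ≤ 1 := fun y hy => v.2.2 ⟨y, hy⟩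
      refine (Gs_sub (S := {y | v.1 y ≤ 1})).2 (fun l => ?_) hz
      by_cases hlk : l = k
      · subst hlk
        refine ⟨hv, ?_, fun j => ?_⟩
        · have h4 : v.1 (x l - algebraMap L E τ) = 1 :=
            le_antisymm (v.1.map_sub_le hv (hc τ)) (not_lt.1 ht)
          rw [Set.mem_ofPred_eq, map_inv₀, h4, inv_one]
        · have h4 : v.1 (algebraMap L E (D.c j)) = 1 :=
            plc_eq_one v (c := algebraMap L _ (D.c j)) ((_root_.map_ne_zero _).2 (h.gen.ok.c j))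
          have h5 : v.1 (w l j) ^ ℓ = 1 := by
            rw [← map_pow, h.gen.eq, Dat.F]
            simp only [map_mul, map_prod, map_pow, aeval_C, h2, h4, one_pow, Finset.prod_const_one,
              mul_one]
          rw [pow_eq_one_iff_left h.gen.ok.pos.ne'] at h5
          rw [Set.mem_ofPred_eq, map_inv₀, h5, inv_one]
      · exact ⟨hm _ (x_mem_kp hlk), hm _ (inv_mem (sub_mem (x_mem_kp hlk)
          (IntermediateField.algebraMap_mem _ _))), fun j => hm _ (inv_mem (w_mem_kp hlk j))⟩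

theorem Setup'.inf (h : Setup' ℓ e D τ x w κ ι S) (hD : IsG D x Dr) (hp : IsPair ι Dr p)
    (hα : α ∈ LamS g S) (k : Fin g) (v : Plc (kp L x w k) E) (hv : 1 < v.1 (x k)) :
    v.1 (p α) * v.1 (x k) ^ 2 ≤ v.1 (x k) ^ r := by
  have h1 := h.gen.one k
  have hc := h1.chart_inf (h.rts.map (algebraMap L (kp L x w k)))
  have h0 : 0 < v.1 (x k) := zero_lt_one.trans hv
  have hx : x k ≠ 0 := fun h2 => by simp [h2] at h0
  have hG : v.1 (aeval (x k) D.G) = v.1 (x k) ^ r := by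
    have := plc_aeval_inf v hv h1.ok.G_ne
    rwa [h1.ok.natDegree_G, Dat.map_G, aeval_map_algebraMap] at this
  have h2 : Vl v (x k)⁻¹ 0 := vl_zero.2 (by rw [map_inv₀]; exact inv_lt_one_of_one_lt₀ hv)
  rw [← map_zero (algebraMap L (kp L x w k))] at hc h2
  have h3 := h.loc hD hp hα k v hc h2 (μ := x k ^ 2 * (x k)⁻¹ ^ r) (by
    rw [Derivation.leibniz_inv, hD, if_pos rfl, smul_eq_mul,
      show x k ^ 2 * (x k)⁻¹ ^ r * (-(x k)⁻¹ ^ 2 * aeval (x k) D.G) =
        -(aeval (x k) D.G / x k ^ r) by rw [inv_pow, inv_pow]; field_simp, Valuation.map_neg, map_div₀, map_pow, hG,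
      div_self (pow_ne_zero _ h0.ne'), Nat.sub_self, pow_zero]) fun l hl => by
    rw [Derivation.leibniz_inv, hD, if_neg hl, smul_zero]
  rw [show x k ^ 2 * (x k)⁻¹ ^ r * p α = p α * x k ^ 2 / x k ^ r by rw [inv_pow]; ring,
    map_div₀, map_mul, map_pow, map_pow, div_le_one₀ (pow_pos h0 _)] at h3
  exact h3

end Pool.Agent.Lib.MP_07b2d0_nt.Kh
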