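import Pool.Agent.Lib.MP_07b2d0_nt.Kh.VPlc
import Pool.Agent.Lib.MP_07b2d0_nt.Kh.GAut

/-!
Functions with bounded poles on the curve.
-/

set_option autoImplicit false

namespace Pool.Agent.Lib.MP_07b2d0_nt.Kh

open Polynomial WithZero Fh
open scoped IntermediateField

variable {L E : Type} [Field L] [Field E] [Algebra L E] {ℓ m r g : ℕ} {e : Fin m → Fin r → ℕ}
  {D : Dat L m r}
  {x : E} {w : Fin m → E}

theorem hone_pow (h : K0 ℓ e D x w) (v : Plc L E) (u : U ℓ m) :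
    v.1 (zz e D x w u) ^ ℓ = v.1 (aeval x (∏ i, D.p i ^ (ℓ - wt ℓ e u i % ℓ))) := by
  rw [← zz_pow h.ok.pos (h.eq ()) (h.w_ne ()) u, map_mul, map_pow,
    plc_eq_one v (mon_ne h.ok.c u), mul_one]

theorem K0.val_zz (h : K0 ℓ e D x w) (v : Plc L E) (u : U ℓ m) :
    v.1 (zz e D x w u) ^ ℓ = ∏ i, v.1 (aeval x (D.p i)) ^ (ℓ - wt ℓ e u i % ℓ) := by
  simp only [hone_pow h, map_prod, map_pow]

theorem K0.val_zz_inf (h : K0 ℓ e D x w) {v : Plc L E} (hv : 1 < v.1 x) (u : U ℓ m) :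
    v.1 (zz e D x w u) * v.1 x ^ dd ℓ e u = v.1 x ^ r := by
  rw [← pow_left_inj₀ zero_le zero_le h.ok.pos.ne', mul_pow, hone_pow h,
    plc_aeval_inf v hv (h.ok.prod_ne _), h.ok.natDegree_prod, ← pow_mul, ← pow_mul, ← pow_add,
    mul_comm _ ℓ, h.ok.cmb.dd_mul, ← Finset.sum_add_distrib,
    Finset.sum_congr rfl fun i _ => Nat.sub_add_cancel (Nat.mod_lt _ h.ok.pos).le]
  simp

theorem hone_fin (h : K0 ℓ e D x w) {v : Plc L E} (hv : v.1 x ≤ 1) (u : U ℓ m) :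
    v.1 (aeval x D.G) ^ ℓ ≤ v.1 (zz e D x w u) ^ ℓ ∧
      v.1 (zz e D x w u) ^ ℓ ≤ v.1 (aeval x D.G) := by
  simp only [h.val_zz, Dat.G, map_prod, ← Finset.prod_pow]
  exact ⟨Finset.prod_le_prod' fun i _ => pow_le_pow_right_of_le_one' (plc_aeval_le v hv _)
    (Nat.sub_le _ _), Finset.prod_le_prod' fun i _ => pow_le_of_le_one zero_le
      (plc_aeval_le v hv _) (Nat.sub_ne_zero_of_lt (Nat.mod_lt _ h.ok.pos))⟩

theorem hone_mem (x : E) (P : L[X]) : aeval x P ∈ L⟮x⟯ :=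
  IntermediateField.algebra_adjoin_le_adjoin L _ (aeval_mem_adjoin_singleton L x)

variable [CharZero L]

theorem hone_proj (h : K1 ℓ e D x w) (Q : ℤᵐ⁰ → ℤᵐ⁰ → ℤᵐ⁰ → Prop)
    (hQ : ∀ a b t t', t ≤ t' → Q a b t' → Q a b t) {f : U ℓ m → E}
    (hf : (∀ u, f u * mon w u ∈ L⟮x⟯) ∨ ∀ u, f u / mon w u ∈ L⟮x⟯)
    (hs : ∀ v : Plc L E, Q (v.1 x) (v.1 (aeval x D.G)) (v.1 (∑ u, f u))) (u : U ℓ m) :
    ∀ v : Plc L E, Q (v.1 x) (v.1 (aeval x D.G)) (v.1 (f u)) := by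
  refine h.proj
    { carrier := {z | ∀ v : Plc L E, Q (v.1 x) (v.1 (aeval x D.G)) (v.1 z)}
      add_mem' := fun {a b} ha hb v => (le_max_iff.1 (v.1.map_add a b)).elim
        (fun k => hQ _ _ _ _ k (ha v)) fun k => hQ _ _ _ _ k (hb v)
      zero_mem' := fun v => hQ _ _ _ _ (v.1.map_zero.trans_le zero_le) (hs v)
      smul_mem' := fun c a ha v => hQ _ _ _ _ (by
        rw [Algebra.smul_def, map_mul]
        exact mul_le_of_le_one_left' (v.2.2 c)) (ha v) } (fun s h1 z hz v => ?_) hf hs u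
  obtain ⟨v', h2⟩ := plc_comap v s
  have := hz v'
  rwa [h2, h2, h2, ← aeval_algHom_apply, h1] at this

theorem hone_poly (h : K1 ℓ e D x w) {c : E} (hc : c ∈ L⟮x⟯) (hv : ∀ v : Plc L E, v.1 x ≤ 1 →
    v.1 c ^ ℓ * v.1 (aeval x D.G) ^ ℓ ≤ v.1 (aeval x D.G)) : ∃ N : L[X], aeval x N = c := by
  obtain ⟨n, rfl⟩ := Nat.exists_eq_add_one.2 h.ok.pos
  refine poly_of_val (n := n) (K0.trans h.toKG0) h.fd h.ok.G_sep hc fun v k => ?_
  have := hv v k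
  rwa [pow_succ _ n, pow_succ _ n, ← mul_assoc, mul_le_iff_le_one_left (zero_lt_iff.2
    (v.1.ne_zero_iff.2 (h.aeval_ne () h.ok.G_ne))), ← pow_succ] at this

theorem K1.hol (h : K1 ℓ e D x w) {z : E}
    (h1 : ∀ v : Plc L E, v.1 x ≤ 1 → v.1 z ^ ℓ ≤ v.1 (aeval x D.G))
    (h2 : ∀ v : Plc L E, 1 < v.1 x → v.1 z * v.1 x ^ 2 ≤ v.1 x ^ r) :
    ∃ c : JJ ℓ e → L, z = ∑ J, algebraMap L E (c J) * (x ^ (J.2 : ℕ) * zz e D x w J.1) := by
  obtain ⟨c, hc, rfl⟩ := h.span_zz z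
  have k := hone_proj h (fun a b t => (a ≤ 1 → t ^ ℓ ≤ b) ∧ (1 < a → t * a ^ 2 ≤ a ^ r))
    (fun a b t t' e k => ⟨fun i => (pow_le_pow_left' e ℓ).trans (k.1 i),
      fun i => (mul_le_mul_left e _).trans (k.2 i)⟩)
    (.inl fun u => by
      rw [zz, mul_assoc, div_mul_cancel₀ _ (mon_ne (h.w_ne ()) u)]
      exact mul_mem (hc u) (hone_mem x _)) fun v => ⟨h1 v, h2 v⟩
  choose N hN using fun u => hone_poly h (hc u) fun v hv => by
    have := (k u v).1 hv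
    rw [map_mul, mul_pow] at this
    exact (mul_le_mul_right (hone_fin h.toKG0 hv u).1 _).trans this
  obtain ⟨v, hv⟩ := h.exists_inf
  refine ⟨fun J => (N J.1).coeff J.2, ?_⟩
  rw [Fintype.sum_sigma]
  refine Finset.sum_congr rfl fun u _ => ?_
  by_cases h0 : N u = 0
  · simp [← hN, h0]
  have := (k u v).2 hv
  rw [← K0.val_zz_inf h.toKG0 hv u, map_mul, ← hN, plc_aeval_inf v hv h0, mul_right_comm,
    ← pow_add, mul_comm, mul_le_mul_iff_right₀ (zero_lt_iff.2 (v.1.ne_zero_iff.2 (h.zz_ne () u))),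
    pow_le_pow_iff_right₀ hv] at this
  rw [← hN, aeval_eq_sum_range' (n := dd ℓ e u - 1) (by omega), Finset.sum_range, Finset.sum_mul]
  simp only [Algebra.smul_def, mul_assoc]

theorem K1.rr (h : K1 ℓ e D x w) {z : E} (hz : ∀ v : Plc L E, v.1 z ≤ max 1 (v.1 x) ^ g) :
    ∃ N : U ℓ m → L[X], z = ∑ u, aeval x (N u) * (aeval x D.G / zz e D x w u) ∧
      ∀ u, N u ≠ 0 → (N u).natDegree + dd ℓ e u ≤ g := by
  obtain ⟨c, hc, rfl⟩ := h.span_inv z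
  have z0 : ∀ (v : Plc L E) u, 0 < v.1 (zz e D x w u) := fun v u =>
    zero_lt_iff.2 (v.1.ne_zero_iff.2 (h.zz_ne () u))
  have k := hone_proj h (fun a _ t => t ≤ max 1 a ^ g) (fun _ _ _ _ => le_trans)
    (.inr fun u => by
      rw [zz, div_div_eq_mul_div, mul_div_assoc, div_right_comm,
        mul_div_cancel_right₀ _ (mon_ne (h.w_ne ()) u)]
      exact mul_mem (hc u) (div_mem (hone_mem x _) (hone_mem x _))) hz
  choose N hN using fun u => hone_poly h (hc u) fun v hv => by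
    have := k u v
    rw [max_eq_left hv, one_pow, map_mul, map_div₀, ← mul_div_assoc, div_le_one₀ (z0 v u)] at this
    exact mul_pow (v.1 (c u)) _ ℓ ▸ (pow_le_pow_left' this ℓ).trans (hone_fin h.toKG0 hv u).2
  obtain ⟨v, hv⟩ := h.exists_inf
  refine ⟨N, by simp only [hN], fun u h0 => ?_⟩
  have := k u v
  rwa [max_eq_right hv.le, map_mul, map_div₀, ← hN, plc_aeval_inf v hv h0,
    plc_aeval_inf v hv h.ok.G_ne, h.ok.natDegree_G, ← K0.val_zz_inf h.toKG0 hv u,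
    mul_div_cancel_left₀ _ (z0 v u).ne', ← pow_add, pow_le_pow_iff_right₀ hv] at this

end Pool.Agent.Lib.MP_07b2d0_nt.Kh
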