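import Pool.Agent.Lib.MP_07b2d0_nt.Kh.HLoc
import Pool.Agent.Lib.MP_07b2d0_nt.Kh.HOne
import Pool.Agent.Lib.MP_07b2d0_nt.Kh.GDel
import Pool.Agent.Lib.MP_07b2d0_nt.Kh.GCon

/-!
Regular forms are multiples of the determinant.
-/

set_option autoImplicit false

namespace Pool.Agent.Lib.MP_07b2d0_nt.Kh

open Polynomial NumberField WithZero Fh

variable {L E F : Type} [Field L] [NumberField L] [Field E] [Field F] [Algebra L E] {ℓ m r g : ℕ}
  {e : Fin m → Fin r → ℕ} {D : Dat L m r} {τ : L} {x : Fin g → E} {w : Fin g → Fin m → E}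
  {κ : 𝓞 L →+* F} {ι : F →+* E} {S : Set (Subring F)} {Dr : Fin g → Derivation L E E}
  {p : ⋀[F]^g Ω[F⁄ℤ] →+ E} {α : ⋀[F]^g Ω[F⁄ℤ]}

/-- The expansion in the `k`-th point vanishes at the other points. -/
theorem Setup'.alt (h : Setup' ℓ e D τ x w κ ι S) (hD : IsG D x Dr) (hp : IsPair ι Dr p)
    (hα : α ∈ LamS g S) {k l : Fin g} (hl : l ≠ k) {c : JJ ℓ e → kp L x w k}
    (he : p α = ∑ J, (c J : E) * (x k ^ (J.2 : ℕ) * zz e D (x k) (w k) J.1)) :
    ∑ J, (c J : E) * (x l ^ (J.2 : ℕ) * zz e D (x l) (w l) J.1) = 0 := by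
  classical
  let ξ : ∀ i, i ≠ k → kp L x w k := fun i hi => ⟨x i, x_mem_kp hi⟩
  let η : ∀ i, i ≠ k → Fin m → kp L x w k := fun i hi j => ⟨w i j, w_mem_kp hi j⟩
  have hη : ∀ i hi j, η i hi j ≠ 0 := fun i hi j h0 => h.gen.w_ne i j (congrArg Subtype.val h0)
  obtain ⟨v, hv⟩ := (h.gen.one k).exists_cen (τ := ξ l hl) (η := η l hl) fun j =>
    (algebraMap (kp L x w k) E).injective (by
      rw [Dat.map_F, eval_map_algebraMap, ← aeval_algebraMap_apply, map_pow]
      exact h.gen.eq l j)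
  have hc : ∀ i hi, Cn v (x i) (w i) (ξ i hi) (η i hi) := fun i hi =>
    ⟨vl_const v (ξ i hi), fun j => vl_const v (η i hi j)⟩
  obtain ⟨s, s1, s2⟩ := h.gen.exists_perm (Equiv.swap k l)
  obtain ⟨T, hT, -⟩ := h.val ⊤ fun _ => trivial
  have h1 := hp.perm s.toRingHom _ (h.sym _ s s1 s2) (h.gen.perm_D hD s1 s2) hT hα
  have key : ∀ i, ∃ i' hi', Cn v (x i) (w i) (ξ i' hi') (η i' hi') ∧
      Cn v (x (Equiv.swap k l i)) (w (Equiv.swap k l i)) (ξ i' hi') (η i' hi') := fun i => by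
    by_cases hk : i = k
    · subst hk
      exact ⟨l, hl, hv, by rw [Equiv.swap_apply_left]; exact hc l hl⟩
    · by_cases hi : i = l
      · subst hi
        exact ⟨i, hl, hc i hl, by rw [Equiv.swap_apply_right]; exact hv⟩
      · exact ⟨i, hk, hc i hk, by rw [Equiv.swap_apply_of_ne_of_ne hk hi]; exact hc i hk⟩
  have two : ∀ {z z' : E} {a : kp L x w k}, Vl v z a → Vl v z' a →
      v.1 z ≤ 1 ∧ v.1 (z' - z) < 1 := fun {z z' a} hz hz' =>
    ⟨hz.le_one, vl_zero.1 (sub_self a ▸ hz'.sub hz)⟩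
  have h2 := (cong_of_gen (K := L) v.1 (fun a => v.2.2 (algebraMap L (kp L x w k) a)) s
    (G := Gs x w (algebraMap L E τ)) (by
      rintro _ ⟨i, rfl | rfl | ⟨j, rfl⟩⟩ <;> obtain ⟨i', hi', a1, a2⟩ := key i
      · rw [s1]
        exact two a1.1 a2.1
      · have h0 : ξ i' hi' - algebraMap L (kp L x w k) τ ≠ 0 := fun h0 =>
          h.gen.sub_ne i' τ (congrArg Subtype.val h0)
        rw [map_inv₀ s, map_sub s, s1, s.commutes]
        exact two ((a1.1.sub (vl_const v _)).inv h0) ((a2.1.sub (vl_const v _)).inv h0)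
      · rw [map_inv₀ s, s2]
        exact two ((a1.2 j).inv (hη i' hi' j)) ((a2.2 j).inv (hη i' hi' j))) (h.mem hD hp hα)).2
  have h3 : Vl v (p α) 0 := by
    have e1 : s (p α) - p α = algebraMap (kp L x w k) E (-2) * p α := by
      have h4 : s (p α) = _ := h1
      rw [h4, Equiv.Perm.sign_swap hl.symm, map_neg, map_ofNat]
      push_cast
      ring
    rwa [e1, map_mul, plc_eq_one v (neg_ne_zero.2 two_ne_zero), one_mul, ← vl_zero] at h2
  have h5 := h3.unique (he ▸ Vl.sum Finset.univ fun J _ => (vl_const v (c J)).mul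
    ((hv.1.pow J.2).mul (zz_map (L' := kp L x w k) (D := D) (e := e) (x k) (w k) ▸
      hv.zz (D := D.map (algebraMap L (kp L x w k))) (e := e) (hη l hl) J.1)))
  have h6 := congrArg (algebraMap (kp L x w k) E) h5
  simp only [map_zero, map_sum, map_mul, map_pow, zz_map,
    map_zz (D := D) (algebraMap (kp L x w k) E) (RingHom.id L) fun _ => rfl, Dat.map_id] at h6
  exact h6.symm

/-- A regular form is a constant multiple of the determinant. -/
theorem Setup'.hol (h : Setup' ℓ e D τ x w κ ι S) (en : Fin g ≃ JJ ℓ e) (hD : IsG D x Dr)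
    (hp : IsPair ι Dr p) (hα : α ∈ LamS g S) :
    ∃ lam : L, p α = algebraMap L E lam * Del en x fun k => zz e D (x k) (w k) := by
  have h0 := h.gen.toKG0.Del_ne en
  obtain ⟨lam, hlam⟩ := h.gen.const (z := p α / Del en x fun k => zz e D (x k) (w k)) fun k => by
    obtain ⟨c, hc⟩ := (h.gen.one k).hol (z := p α) (fun v hv => by
      rw [Dat.map_G, aeval_map_algebraMap]
      exact h.fin hD hp hα k v hv) fun v hv => h.inf hD hp hα k v hv
    rw [zz_map] at hc
    have e1 : ∀ l, ∑ J, (c (en J) : E) * (x l ^ ((en J).2 : ℕ) * zz e D (x l) (w l) (en J).1) =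
        ∑ J, (c J : E) * (x l ^ (J.2 : ℕ) * zz e D (x l) (w l) J.1) := fun l =>
      en.sum_comp fun J => (c J : E) * (x l ^ (J.2 : ℕ) * zz e D (x l) (w l) J.1)
    rw [hc.trans (e1 k).symm]
    exact div_det_mem (Matrix.of fun J l => x l ^ ((en J).2 : ℕ) * zz e D (x l) (w l) (en J).1)
      (kp L x w k) k (fun J l hl => mul_mem (pow_mem (x_mem_kp hl) _) (zz_mem_kp hl _)) h0
      (fun J => (c (en J)).2) fun l hl => (e1 l).trans (h.alt hD hp hα hl hc)
  exact ⟨lam, by rw [hlam, div_mul_cancel₀ _ h0]⟩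

end Pool.Agent.Lib.MP_07b2d0_nt.Kh
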