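import Pool.Agent.Lib.MP_07b2d0_nt.Kh.Bas

/-!
The étale model.
-/

set_option autoImplicit false

namespace Pool.Agent.Lib.MP_07b2d0_nt.Kh

open Polynomial Fh

variable {O A : Type} [CommRing O] [CommRing A] [Algebra O A] {ℓ n m r g : ℕ} {a b : O} {G : O[X]}
  {P : Fin m → O[X]} {S : Fin g → A} {H : Fin g → Fin m → A}

/-- The polynomials of the model. -/
theorem exists_polys [IsDomain O] [CharZero O] (hℓ : 0 < ℓ) (c : Fin r → O)
    (e : Fin m → Fin r → ℕ) : ∃ (G : O[X]) (P : Fin m → O[X]),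
      (1 + C (ℓ : O) * X) ^ ℓ = 1 + C ((ℓ : O) ^ 2) * G ∧
      derivative G = (1 + C (ℓ : O) * X) ^ (ℓ - 1) ∧
      ∀ j, (nd ℓ m c).F e j = 1 + C ((ℓ : O) ^ 2) * P j ∧ (P j).eval 0 = 0 := by
  obtain ⟨q, hq⟩ := sq_dvd_add_pow_sub_sub (C (ℓ : O) * X) (1 : O[X]) ℓ
  have hG : (1 + C (ℓ : O) * X) ^ ℓ = 1 + C ((ℓ : O) ^ 2) * (X + X ^ 2 * q) := by
    rw [one_pow, one_pow, ← map_natCast (C : O →+* O[X])] at hq
    rw [map_pow]
    linear_combination hq
  have hP : ∀ j, ∃ Q : O[X], (nd ℓ m c).F e j = 1 + C ((ℓ : O) ^ 2) * Q ∧ Q.eval 0 = 0 := by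
    intro j
    have : C ((ℓ : O) ^ 2) * X ∣ ∏ i, (nd ℓ m c).p i ^ e j i - 1 := by
      refine Finset.prod_induction _ (fun p : O[X] => C ((ℓ : O) ^ 2) * X ∣ p - 1)
        (fun u v hu hv => ?_) (by simp) fun i _ => ?_
      · have e1 : u * v - 1 = u * (v - 1) + (u - 1) := by ring
        rw [e1]
        exact dvd_add (hv.mul_left u) hu
      · have e1 : C ((ℓ : O) ^ 2) * X ∣ (nd ℓ m c).p i - 1 := ⟨-C (c i), by
          simp only [Dat.p, nd, map_neg, map_mul, map_one]
          ring⟩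
        have e2 := sub_dvd_pow_sub_pow ((nd ℓ m c).p i) 1 (e j i)
        rw [one_pow] at e2
        exact e1.trans e2
    obtain ⟨Q, hQ⟩ := this
    refine ⟨X * Q, ?_, by simp⟩
    have e3 : (nd ℓ m c).F e j = ∏ i, (nd ℓ m c).p i ^ e j i := by
      rw [Dat.F]
      simp only [nd, map_one, one_mul]
    rw [e3]
    linear_combination hQ
  choose P hP using hP
  refine ⟨X + X ^ 2 * q, P, hG, ?_, hP⟩
  have h0 : (C ((ℓ : O) ^ 2) : O[X]) ≠ 0 :=
    C_ne_zero.2 (pow_ne_zero _ (Nat.cast_ne_zero.2 hℓ.ne'))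
  have h1 := congrArg derivative hG
  rw [derivative_pow, derivative_add, derivative_add, derivative_one, derivative_C_mul,
    derivative_C_mul, derivative_X] at h1
  refine mul_left_cancel₀ h0 ?_
  rw [map_pow] at h1 ⊢
  linear_combination -h1

/-- The variables of the model. -/
abbrev imdl_var (g m : ℕ) : Type := (Fin g ⊕ Fin g × Fin m) ⊕ (Fin g ⊕ Fin g × Fin m)

/-- The relations of the model. -/
noncomputable def imdl_rel {B : Type} [CommRing B] [Algebra O B] (n : ℕ) (a b : O) (G : O[X])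
    (P : Fin m → O[X]) (z : imdl_var g m → B) : imdl_var g m → B
  | .inl (.inl _) => 0
  | .inl (.inr kj) => aeval (z (.inl (.inr kj))) G - aeval (z (.inl (.inl kj.1))) (P kj.2)
  | .inr (.inl k) =>
      (algebraMap O B b - algebraMap O B a * z (.inl (.inl k))) * z (.inr (.inl k)) - 1
  | .inr (.inr kj) => (1 + n * z (.inl (.inr kj))) * z (.inr (.inr kj)) - 1

theorem imdl_rel_map {B B' : Type} [CommRing B] [Algebra O B] [CommRing B'] [Algebra O B']
    (φ : B →ₐ[O] B') (z : imdl_var g m → B) (t : imdl_var g m) :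
    φ (imdl_rel n a b G P z t) = imdl_rel n a b G P (fun s => φ (z s)) t := by
  rcases t with (k | kj) | (k | kj) <;>
    simp only [imdl_rel, map_zero, map_sub, map_mul, map_add, map_one, map_natCast,
      AlgHom.commutes, aeval_algHom_apply]

/-- The model is a quotient of a polynomial ring with variables for the inverses. -/
theorem exists_mdl (g n : ℕ) (a b : O) (G : O[X]) (P : Fin m → O[X]) :
    ∃ (A : Type) (_ : CommRing A) (_ : Algebra O A) (S : Fin g → A) (H : Fin g → Fin m → A),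
      IsMdl n a b G P S H := by
  let I : Ideal (MvPolynomial (imdl_var g m) O) :=
    Ideal.span (Set.range (imdl_rel n a b G P MvPolynomial.X))
  let π := Ideal.Quotient.mkₐ O I
  let z : imdl_var g m → MvPolynomial (imdl_var g m) O ⧸ I := fun s => π (MvPolynomial.X s)
  have hz : ∀ t, imdl_rel n a b G P z t = 0 := fun t => by
    rw [← imdl_rel_map π]
    exact Ideal.Quotient.eq_zero_iff_mem.2 (Ideal.subset_span ⟨t, rfl⟩)
  have h1 : ∀ k, (algebraMap O _ b - algebraMap O _ a * z (.inl (.inl k))) * z (.inr (.inl k)) = 1 :=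
    fun k => sub_eq_zero.1 (hz (.inr (.inl k)))
  have h2 : ∀ kj, (1 + n * z (.inl (.inr kj))) * z (.inr (.inr kj)) = 1 :=
    fun kj => sub_eq_zero.1 (hz (.inr (.inr kj)))
  refine ⟨MvPolynomial (imdl_var g m) O ⧸ I, inferInstance, inferInstance,
    fun k => z (.inl (.inl k)), fun k j => z (.inl (.inr (k, j))),
    fun k j => sub_eq_zero.1 (hz (.inl (.inr (k, j)))),
    ⟨fun k j => IsUnit.of_mul_eq_one _ (h2 (k, j)), fun k => IsUnit.of_mul_eq_one _ (h1 k)⟩,
    inferInstance, fun B _ _ φ ψ e1 e2 => ?_, fun B _ _ s h e1 e2 e3 => ?_⟩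
  · have key : ∀ u v, u * v = 1 → φ u = ψ u → φ v = ψ v := fun u v huv hu => by
      have k1 : φ u * φ v = 1 := by rw [← map_mul, huv, map_one]
      have k2 : φ u * ψ v = 1 := by rw [hu, ← map_mul, huv, map_one]
      linear_combination ψ v * k1 - φ v * k2
    refine Ideal.Quotient.algHom_ext O (MvPolynomial.algHom_ext fun t => ?_)
    change φ (z t) = ψ (z t)
    rcases t with (k | kj) | (k | kj)
    · exact e1 k
    · exact e2 kj.1 kj.2
    · refine key _ _ (h1 k) ?_
      simp only [map_sub, map_mul, AlgHom.commutes, e1]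
    · refine key _ _ (h2 kj) ?_
      simp only [map_add, map_mul, map_one, map_natCast, e2 kj.1 kj.2]
  · choose u hu using fun k => (e3 k).exists_right_inv
    choose v hv using fun k j => (e2 k j).exists_right_inv
    let y : imdl_var g m → B := Sum.elim (Sum.elim s fun kj => h kj.1 kj.2)
      (Sum.elim u fun kj => v kj.1 kj.2)
    have hy : ∀ t, imdl_rel n a b G P y t = 0 := by
      rintro ((k | kj) | (k | kj))
      · rfl
      · exact sub_eq_zero.2 (e1 kj.1 kj.2)
      · exact sub_eq_zero.2 (hu k)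
      · exact sub_eq_zero.2 (hv kj.1 kj.2)
    have hI : ∀ p ∈ I, MvPolynomial.aeval y p = 0 := fun p hp => by
      refine (Ideal.span_le (I := RingHom.ker (MvPolynomial.aeval y))).2 ?_ hp
      rintro _ ⟨t, rfl⟩
      rw [SetLike.mem_coe, RingHom.mem_ker, imdl_rel_map]
      simp only [MvPolynomial.aeval_X]
      exact hy t
    exact ⟨Ideal.Quotient.liftₐ I (MvPolynomial.aeval y) hI,
      fun k => MvPolynomial.aeval_X y (.inl (.inl k)),
      fun k j => MvPolynomial.aeval_X y (.inl (.inr (k, j)))⟩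

/-- One Newton step. -/
theorem IsMdl.smooth [IsNoetherianRing O] (h : IsMdl n a b G P S H) {d : ℕ}
    (hG : derivative G = (1 + C (n : O) * X) ^ d) : Algebra.Smooth O A := by
  refine ⟨Algebra.FormallySmooth.of_comp_surjective fun B _ _ I hI φ => ?_,
    Algebra.FinitePresentation.of_finiteType.1 h.fin⟩
  have un : ∀ {z : B} {y : A}, IsUnit y → Ideal.Quotient.mkₐ O I z = φ y → IsUnit z :=
    fun hy e => (IsNilpotent.isUnit_quotient_mk_iff (I := I) ⟨2, hI⟩).1 (e ▸ hy.map φ :)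
  choose s hs using fun k => Ideal.Quotient.mkₐ_surjective O I (φ (S k))
  have u1 : ∀ k j z, Ideal.Quotient.mkₐ O I z = φ (H k j) → IsUnit (1 + n * z) := fun k j z e =>
    un (h.unit.1 k j) (by simp only [map_add, map_one, map_mul, map_natCast, e])
  have key : ∀ k j, ∃ w, Ideal.Quotient.mkₐ O I w = φ (H k j) ∧
      aeval w G = aeval (s k) (P j) := fun k j => by
    obtain ⟨t, ht⟩ := Ideal.Quotient.mkₐ_surjective O I (φ (H k j))
    have h1 : aeval (s k) (P j) - aeval t G ∈ I := by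
      rw [← Ideal.Quotient.eq, ← Ideal.Quotient.mkₐ_eq_mk O, ← aeval_algHom_apply,
        ← aeval_algHom_apply, hs, ht, aeval_algHom_apply, aeval_algHom_apply, h.rel]
    obtain ⟨c, hc⟩ : IsUnit (aeval t (derivative G)) := by simpa [hG] using (u1 k j t ht).pow d
    have h2 := I.mul_mem_left (↑c⁻¹ : B) h1
    refine ⟨t + ↑c⁻¹ * (aeval (s k) (P j) - aeval t G), ?_, ?_⟩
    · rw [map_add, ht, Ideal.Quotient.mkₐ_eq_mk, Ideal.Quotient.eq_zero_iff_mem.2 h2, add_zero]
    · rw [aeval_add_of_sq_eq_zero _ _ _ (Ideal.mem_bot.1 (hI ▸ Ideal.pow_mem_pow h2 2)), ← hc,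
        Units.mul_inv_cancel_left, add_sub_cancel]
  choose w hw hw' using key
  obtain ⟨ψ, h1, h2⟩ := h.lift B s w hw' (fun k j => u1 k j _ (hw k j)) fun k =>
    un (h.unit.2 k) (by simp only [map_sub, map_mul, AlgHom.commutes, hs])
  exact ⟨ψ, h.ext _ _ _ (fun k => (congrArg _ (h1 k)).trans (hs k))
    fun k j => (congrArg _ (h2 k j)).trans (hw k j)⟩

/-- A generic point of the special fibre. -/
theorem IsMdl.exists_chi (h : IsMdl n a b G P S H) (hn : 0 < n) {𝔭 : Ideal O} (h𝔭 : 𝔭.IsPrime)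
    (hab : a ∉ 𝔭 ∨ b ∉ 𝔭) (h1 : (1 + C (n : O) * X) ^ n = 1 + C ((n : O) ^ 2) * G)
    (h2 : derivative G = (1 + C (n : O) * X) ^ (n - 1)) (h3 : ∀ j, (P j).eval 0 = 0) :
    ∃ (Ω : Type) (_ : Field Ω) (χ : A →+* Ω), (∀ z ∈ 𝔭, χ (algebraMap O A z) = 0) ∧
      ∀ Q : MvPolynomial (Fin g) O, χ (MvPolynomial.aeval S Q) = 0 → ∀ μ, Q.coeff μ ∈ 𝔭 := by
  let R := MvPolynomial (Fin g) (O ⧸ 𝔭)
  let Ω := AlgebraicClosure (FractionRing R)
  let ι : R →ₐ[O] Ω := IsScalarTower.toAlgHom O R Ω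
  have hι : Function.Injective ι := (algebraMap (FractionRing R) Ω).injective.comp
    (IsFractionRing.injective R (FractionRing R))
  let ev : O ⧸ 𝔭 → R →ₐ[O] O ⧸ 𝔭 := fun c => (MvPolynomial.aeval fun _ => c).restrictScalars O
  have ne : ∀ z : R, (∃ c, ev c z ≠ 0) → IsUnit (ι z) := fun z ⟨c, hc⟩ =>
    Ne.isUnit ((map_ne_zero_iff _ hι).2 fun e => hc (by rw [e, map_zero]))
  have hX : ∀ c k, ev c (MvPolynomial.X k) = c := fun c k => MvPolynomial.aeval_X _ k
  have g1 : G.coeff 1 = 1 := by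
    simpa [← coeff_zero_eq_eval_zero, coeff_derivative] using (congrArg (eval 0) h2).trans (by simp)
  choose t ht using fun k j => IsAlgClosed.eval_surjective (p := G.map (algebraMap O Ω))
    (by simpa using (le_natDegree_of_ne_zero (n := 1) (by simp [g1])).trans_lt' one_pos |>.ne')
    (aeval (ι (MvPolynomial.X k)) (P j))
  simp only [eval_map_algebraMap] at ht
  obtain ⟨χ, c1, -⟩ := h.lift Ω _ t ht (fun k j => (isUnit_pow_iff hn.ne').1 (by
      have e := congrArg (aeval (t k j)) h1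
      have u := ne (1 + (n : R) ^ 2 * aeval (MvPolynomial.X k : R) (P j)) ⟨0, by
        rw [map_add, map_mul, ← aeval_algHom_apply, hX, ← coeff_zero_eq_aeval_zero',
          coeff_zero_eq_eval_zero, h3]
        simp⟩
      simp only [map_add, map_mul, map_pow, map_one, map_natCast, aeval_X, ht,
        ← aeval_algHom_apply] at e u
      exact e ▸ u)) fun k => by
    have u := ne (algebraMap O R b - algebraMap O R a * MvPolynomial.X k) (by
      by_contra! e
      have e0 := e 0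
      have e1 := e 1
      simp only [map_sub, map_mul, AlgHom.commutes, hX, mul_zero, sub_zero, mul_one] at e0 e1
      rw [e0, zero_sub, neg_eq_zero] at e1
      exact hab.elim (· (Ideal.Quotient.eq_zero_iff_mem.1 e1))
        (· (Ideal.Quotient.eq_zero_iff_mem.1 e0)))
    simpa only [map_sub, map_mul, AlgHom.commutes] using u
  refine ⟨Ω, inferInstance, χ, fun z hz => ?_, fun Q hQ μ => ?_⟩
  · rw [RingHom.coe_coe, χ.commutes, IsScalarTower.algebraMap_apply O (O ⧸ 𝔭) Ω,
      Ideal.Quotient.algebraMap_eq, Ideal.Quotient.eq_zero_iff_mem.2 hz, map_zero]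
  · rw [RingHom.coe_coe, MvPolynomial.comp_aeval_apply, funext c1,
      ← MvPolynomial.comp_aeval_apply, map_eq_zero_iff _ hι,
      ← MvPolynomial.aeval_map_algebraMap (O ⧸ 𝔭), MvPolynomial.aeval_X_left_apply] at hQ
    exact Ideal.Quotient.eq_zero_iff_mem.1
      ((MvPolynomial.coeff_map _ _ _).symm.trans (congrArg (MvPolynomial.coeff μ) hQ))

end Pool.Agent.Lib.MP_07b2d0_nt.Kh
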