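import Pool.Agent.Lib.MP_07b2d0_nt.Kh.Bas
import Pool.Agent.Lib.MP_07b2d0_nt.Fh.Num

/-!
The change of coordinates and the size of its coefficients.
-/

set_option autoImplicit false

namespace Pool.Agent.Lib.MP_07b2d0_nt.Kh

open Polynomial NumberField Height Fh

variable {ℓ m r : ℕ} {e : Fin m → Fin r → ℕ}

/-- As `Fh.exists_sqrt_ext`; a primitive root exists in the algebraic closure
(`HasEnoughRootsOfUnity.exists_primitiveRoot`). -/
theorem exists_root_ext {K : Type} [Field K] [NumberField K] {I : Type} [Finite I] (z : I → K)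
    (hℓ : 0 < ℓ) : ∃ (K' : Type) (_ : Field K') (_ : NumberField K') (i : K →+* K'),
      (∃ ζ : K', IsPrimitiveRoot ζ ℓ) ∧ ∀ n, ∃ y, y ^ ℓ = i (z n) := by
  obtain ⟨ζ, hζ⟩ : ∃ ζ : AlgebraicClosure K, IsPrimitiveRoot ζ ℓ :=
    haveI : NeZero ℓ := ⟨hℓ.ne'⟩
    HasEnoughRootsOfUnity.exists_primitiveRoot _ ℓ
  choose y hy using fun n =>
    IsAlgClosed.exists_pow_nat_eq (algebraMap K (AlgebraicClosure K) (z n)) hℓ
  have : Finite ↥(insert ζ (Set.range y)) := ((Set.finite_range y).insert ζ).to_subtype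
  let E : IntermediateField K (AlgebraicClosure K) :=
    IntermediateField.adjoin K (insert ζ (Set.range y))
  have : FiniteDimensional K E :=
    IntermediateField.finiteDimensional_adjoin fun x _ => Algebra.IsIntegral.isIntegral x
  have : NumberField E := NumberField.of_module_finite K E
  refine ⟨E, inferInstance, inferInstance, algebraMap K E,
    ⟨⟨ζ, IntermediateField.subset_adjoin _ _ (Set.mem_insert _ _)⟩, ?_⟩, fun n =>
    ⟨⟨y n, IntermediateField.subset_adjoin _ _ (Set.mem_insert_of_mem _ ⟨n, rfl⟩)⟩,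
      Subtype.ext (hy n)⟩⟩
  exact IsPrimitiveRoot.of_map_of_injective (f := algebraMap E (AlgebraicClosure K)) hζ
    Subtype.val_injective

/-- The bound for the coefficients. -/
def h1 (ℓ r D H : ℕ) : ℕ := 2 * ℓ + (r + 1) * (2 * H + 2 * D * (r + 2))

theorem mnum_nat {K : Type} [Field K] [NumberField K] {n N : ℕ} (hn : n ≤ N) :
    logHeight₁ (n : K) ≤ Module.finrank ℚ K * N := by
  have h := logHeight₁_sum_le (Finset.range n) fun _ => (1 : K)
  simp only [Finset.sum_const, Finset.card_range, nsmul_eq_mul, mul_one, logHeight₁_one,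
    mul_zero, add_zero, totalWeight_eq_finrank] at h
  refine h.trans (mul_le_mul_of_nonneg_left ?_ (Nat.cast_nonneg _))
  exact (Real.log_le_self (Nat.cast_nonneg n)).trans (Nat.cast_le.2 hn)

theorem mnum_sub {K : Type} [Field K] [NumberField K] {n N H : ℕ} (hn : n ≤ N) {x : K}
    (hx : logHeight₁ x ≤ H) : logHeight₁ ((n : K) - x) ≤ H + Module.finrank ℚ K * (N + 1) := by
  have h1 := logHeight₁_sub_le (n : K) x
  have h2 := mnum_nat (K := K) hn
  have h3 : Real.log 2 ≤ 1 := (Real.log_le_sub_one_of_pos two_pos).trans (by norm_num)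
  have h4 := mul_le_mul_of_nonneg_left h3 (Nat.cast_nonneg (α := ℝ) (Module.finrank ℚ K))
  rw [totalWeight_eq_finrank] at h1
  linarith

theorem mnum_two {K : Type} [Field K] [CharZero K] (lam : Fin r → K) :
    ∃ n₀ n₁ : ℕ, n₀ ≤ r + 1 ∧ n₁ ≤ r + 1 ∧ (n₀ : K) ≠ n₁ ∧ (∀ i, (n₀ : K) ≠ lam i) ∧
      ∀ i, (n₁ : K) ≠ lam i := by
  classical
  have h1 : ((Finset.range (r + 2)).image (Nat.cast : ℕ → K)).card = r + 2 := by
    rw [Finset.card_image_of_injective _ Nat.cast_injective, Finset.card_range]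
  have h2 : (Finset.univ.image lam).card ≤ r := Finset.card_image_le.trans (by simp)
  have h3 := Finset.le_card_sdiff (Finset.univ.image lam)
    ((Finset.range (r + 2)).image (Nat.cast : ℕ → K))
  obtain ⟨x, hx, y, hy, hxy⟩ := Finset.one_lt_card.1 (show 1 < (((Finset.range (r + 2)).image
    (Nat.cast : ℕ → K)) \ Finset.univ.image lam).card by omega)
  simp only [Finset.mem_sdiff, Finset.mem_image, Finset.mem_range, Finset.mem_univ, true_and,
    not_exists] at hx hy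
  obtain ⟨⟨n₀, h₀, rfl⟩, hx⟩ := hx
  obtain ⟨⟨n₁, h₁, rfl⟩, hy⟩ := hy
  exact ⟨n₀, n₁, by omega, by omega, hxy, fun i e => hx i e.symm, fun i e => hy i e.symm⟩

/-- Let `o, p, q` be three distinct indices, `M(x) = (x - a p)(a o - a q) / ((x - a o)(a p - a q))`,
`λ i = M(a i) = cr a i p o q` for `i ≠ o` (`0` for `i = p`, `1` for `i = q`), and
`λ∞ = (a o - a q) / (a p - a q)`.  Among `0, …, r + 1` two numbers `n₀ ≠ n₁` avoid these `r`
values; `b = M⁻¹(n) = (n a o (a p - a q) - a p (a o - a q)) / (n (a p - a q) - (a o - a q))`.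
Then `(b₁ - a i) / (b₀ - a i) = θ i * (b₁ - a o) / (b₀ - a o)` with `θ o = 1`,
`θ i = (n₁ - λ i) / (n₀ - λ i)`, of height at most `2 H + 2 D (r + 2)` (`logHeight₁_sub_le`,
`logHeight₁_sum_le` for `n = ∑ 1`, `totalWeight_eq_finrank`).  `exists_den θ` gives `d`, `c`;
`ρ = ℓ ^ 2 * d * (b₀ - a o) / (b₁ - a o)`; `ℓ ≤ exp ℓ`. -/
theorem exists_bb {K : Type} [Field K] [NumberField K] {a : Fin r → K}
    (ha : Function.Injective a) (hr : 3 ≤ r) (hℓ : 0 < ℓ) {H : ℕ}
    (h : ∀ p q s t, [p, q, s, t].Nodup → logHeight₁ (cr a p q s t) ≤ H) :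
    ∃ (b₀ b₁ ρ : K) (c : Fin r → 𝓞 K), b₀ ≠ b₁ ∧ (∀ i, b₀ ≠ a i) ∧ (∀ i, b₁ ≠ a i) ∧ ρ ≠ 0 ∧
      (∀ i, (ℓ : K) ^ 2 * c i * (b₀ - a i) = ρ * (b₁ - a i)) ∧
      ∀ (σ : K →+* ℂ) i,
        ‖σ ((ℓ : K) ^ 2 * c i)‖ ≤ Real.exp (h1 ℓ r (Module.finrank ℚ K) H) := by
  classical
  let o : Fin r := ⟨0, by omega⟩
  let p : Fin r := ⟨1, by omega⟩
  let q : Fin r := ⟨2, by omega⟩
  have hop : o ≠ p := by simp [o, p]
  have hoq : o ≠ q := by simp [o, q]
  have hpq : p ≠ q := by simp [p, q]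
  have hA : a o - a q ≠ 0 := sub_ne ha hoq
  have hB : a p - a q ≠ 0 := sub_ne ha hpq
  have hC : a o - a p ≠ 0 := sub_ne ha hop
  obtain ⟨n₀, n₁, l₀, l₁, hn, h₀, h₁⟩ := mnum_two fun i =>
    if i = o then (a o - a q) / (a p - a q) else cr a i p o q
  have hcr : ∀ i, i ≠ o → logHeight₁ (cr a i p o q) ≤ H := fun i hi => by
    rcases eq_or_ne i p with rfl | hp
    · rw [cr, sub_self, zero_mul, zero_div, logHeight₁_zero]
      positivity
    rcases eq_or_ne i q with rfl | hq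
    · have e : cr a q p o q = 1 := by
        rw [cr, div_eq_one_iff_eq (mul_ne_zero (sub_ne ha hi) hB)]
        ring
      rw [e, logHeight₁_one]
      positivity
    · exact h _ _ _ _ (nodup4.mpr ⟨hp, hi, hq, hop.symm, hpq, hoq⟩)
  obtain ⟨N, hN⟩ : ∃ N : K → Fin r → K, ∀ n i,
      N n i = n * (a p - a q) * (a o - a i) + (a o - a q) * (a i - a p) := ⟨_, fun _ _ => rfl⟩
  have hNo : ∀ n, N n o = (a o - a q) * (a o - a p) := fun n => by
    rw [hN]
    ring
  have hNi : ∀ n i, i ≠ o → N n i = (a p - a q) * (a o - a i) * (n - cr a i p o q) :=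
    fun n i hi => by
      have := sub_ne ha hi
      rw [hN, cr]
      field_simp
      ring
  have key : ∀ n : K, (∀ i, n ≠ if i = o then (a o - a q) / (a p - a q) else cr a i p o q) →
      n * (a p - a q) - (a o - a q) ≠ 0 ∧ ∀ i, N n i ≠ 0 := fun n hn => by
    refine ⟨fun e => hn o ?_, fun i => ?_⟩
    · rw [if_pos rfl, eq_div_iff hB]
      exact sub_eq_zero.1 e
    · rcases eq_or_ne i o with rfl | hi
      · rw [hNo]
        exact mul_ne_zero hA hC
      · have := hn i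
        rw [if_neg hi] at this
        rw [hNi n i hi]
        exact mul_ne_zero (mul_ne_zero hB (sub_ne ha hi.symm)) (sub_ne_zero.2 this)
  obtain ⟨d₀, N₀⟩ := key _ h₀
  obtain ⟨d₁, N₁⟩ := key _ h₁
  have hθ : ∀ i, logHeight₁ (N n₁ i / N n₀ i) ≤
      (2 * H + 2 * Module.finrank ℚ K * (r + 2) : ℕ) := fun i => by
    rcases eq_or_ne i o with rfl | hi
    · rw [hNo, hNo, div_self (mul_ne_zero hA hC), logHeight₁_one]
      positivity
    · rw [hNi _ i hi, hNi _ i hi,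
        mul_div_mul_left _ _ (mul_ne_zero hB (sub_ne ha hi.symm)), div_eq_mul_inv]
      have e1 := logHeight₁_mul_le ((n₁ : K) - cr a i p o q) ((n₀ : K) - cr a i p o q)⁻¹
      have e2 := mnum_sub l₀ (hcr i hi)
      have e3 := mnum_sub l₁ (hcr i hi)
      rw [logHeight₁_inv] at e1
      push_cast at e2 e3 ⊢
      linarith
  obtain ⟨d, c, hd, hc, hb⟩ := exists_den _ hθ
  have hb' : ∀ n : K, n * (a p - a q) - (a o - a q) ≠ 0 → ∀ i,
      (n * a o * (a p - a q) - a p * (a o - a q)) / (n * (a p - a q) - (a o - a q)) - a i =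
        N n i / (n * (a p - a q) - (a o - a q)) := fun n hn i => by
    rw [hN, sub_eq_iff_eq_add, div_add' _ _ _ hn]
    congr 1
    ring
  refine ⟨(n₀ * a o * (a p - a q) - a p * (a o - a q)) / (n₀ * (a p - a q) - (a o - a q)),
    (n₁ * a o * (a p - a q) - a p * (a o - a q)) / (n₁ * (a p - a q) - (a o - a q)),
    (ℓ : K) ^ 2 * d * (n₁ * (a p - a q) - (a o - a q)) / (n₀ * (a p - a q) - (a o - a q)), c,
    fun e => hn ?_, fun i => sub_ne_zero.1 ?_, fun i => sub_ne_zero.1 ?_, ?_, fun i => ?_,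
    fun σ i => ?_⟩
  · have e1 := hb' _ d₀ o
    rw [e, hb' _ d₁ o, hNo, hNo, div_eq_div_iff d₁ d₀] at e1
    have e2 := mul_left_cancel₀ (mul_ne_zero hA hC) e1
    exact mul_right_cancel₀ hB (sub_left_injective e2)
  · rw [hb' _ d₀]
    exact div_ne_zero (N₀ i) d₀
  · rw [hb' _ d₁]
    exact div_ne_zero (N₁ i) d₁
  · exact div_ne_zero (mul_ne_zero (mul_ne_zero (pow_ne_zero _ (Nat.cast_ne_zero.2 hℓ.ne'))
      (Nat.cast_ne_zero.2 hd)) d₁) d₀
  · have := N₀ i
    rw [hb' _ d₀, hb' _ d₁, hc]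
    generalize (n₀ : K) * (a p - a q) - (a o - a q) = u at d₀
    generalize (n₁ : K) * (a p - a q) - (a o - a q) = v at d₁
    field_simp
  · have e1 : (ℓ : ℝ) ≤ Real.exp ℓ := (le_add_of_nonneg_right zero_le_one).trans
      (Real.add_one_le_exp _)
    rw [map_mul, norm_mul, map_pow, norm_pow, map_natCast, Complex.norm_natCast, h1,
      Nat.cast_add, Real.exp_add, Nat.cast_mul 2, Real.exp_nat_mul]
    exact mul_le_mul (pow_le_pow_left₀ (Nat.cast_nonneg _) e1 2) (hb σ i) (norm_nonneg _)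
      (by positivity)

section

variable {L : Type} [Field L] [NumberField L] {c₀ : Fin m → L} {a : Fin r → L} {b₀ b₁ ρ : L}
  {ε : Fin m → L} {c : Fin r → 𝓞 L}

theorem mnum_nd {L' : Type} [Field L'] [NumberField L'] (i : L →+* L') :
    (nd ℓ m fun n => RingOfIntegers.mapRingHom i (c n)).map (algebraMap (𝓞 L') L') =
      ((nd ℓ m c).map (algebraMap (𝓞 L) L)).map i := by
  simp only [nd_map]
  rfl

theorem mnum_a (i : Fin r) :
    ((nd ℓ m c).map (algebraMap (𝓞 L) L)).a i = ((ℓ : L) ^ 2 * c i)⁻¹ := by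
  rw [nd_map]
  exact (neg_div_neg_eq _ _).trans (one_div _)

theorem mnum_ne {t z : L} (h : b₀ ≠ b₁) (hρ : ρ ≠ 0) (e : t * (b₀ - z) = ρ * (b₁ - z)) : t ≠ ρ :=
  fun r => h (mul_left_cancel₀ hρ (by linear_combination e - (b₀ - z) * r))

/-- Compare `Fh.Mob.map`; `od_map`, `nd_map`, `Rts.map`, `Dat.Ok.map`. -/
theorem Mob'.map {L' : Type} [Field L'] [NumberField L'] (h : Mob' ℓ e c₀ a b₀ b₁ ρ ε c)
    (i : L →+* L') : Mob' ℓ e (fun j => i (c₀ j)) (fun n => i (a n)) (i b₀) (i b₁) (i ρ)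
      (fun j => i (ε j)) fun n => RingOfIntegers.mapRingHom i (c n) := by
  refine ⟨od_map c₀ a i ▸ h.ok.map i, h.zeta.elim fun ζ hζ => ⟨i ζ, hζ.map_of_injective i.injective⟩,
    i.injective.ne h.ne, fun n => i.injective.ne (h.ne₀ n), fun n => i.injective.ne (h.ne₁ n),
    (_root_.map_ne_zero i).2 h.rho, fun n => ?_, fun j => ?_, ?_⟩
  · simpa using congrArg i (h.int n)
  · simpa using congrArg i (h.eps j)
  · rw [mnum_nd, ← map_inv₀]
    exact h.rts.map i

/-- The branch points are the inverses of the `ℓ ^ 2 * c i = ρ (b₁ - a i) / (b₀ - a i)`. -/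
theorem Mob'.ok' (h : Mob' ℓ e c₀ a b₀ b₁ ρ ε c) :
    ((nd ℓ m c).map (algebraMap (𝓞 L) L)).Ok ℓ e := by
  refine ⟨h.ok.cmb, fun j => by simp [Dat.map, nd], fun i => ?_, fun i j hij => ?_⟩
  · rw [nd_map]
    refine neg_ne_zero.2 fun r => mul_ne_zero h.rho (sub_ne_zero.2 (h.ne₁ i)) ?_
    rw [← h.int i]
    exact mul_eq_zero_of_left r _
  · rw [mnum_a, mnum_a, inv_inj] at hij
    refine (od_a c₀ a ▸ h.ok.a) (mul_left_cancel₀ (sub_ne_zero.2 (mnum_ne h.ne h.rho (h.int i))) ?_)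
    linear_combination h.int j - h.int i + (b₀ - a j) * hij

end

/-- `exists_bb`, then `exists_root_ext` for all the roots required in `eps` and `rts`. -/
theorem exists_mob' {K : Type} [Field K] [NumberField K] {c₀ : Fin m → K} {a : Fin r → K}
    (hD : (od c₀ a).Ok ℓ e) (hr : 3 ≤ r) {H : ℕ}
    (h : ∀ p q s t, [p, q, s, t].Nodup → logHeight₁ (cr a p q s t) ≤ H) :
    ∃ (K' : Type) (_ : Field K') (_ : NumberField K') (i : K →+* K') (b₀ b₁ ρ : K')
      (ε : Fin m → K') (c : Fin r → 𝓞 K'),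
      Mob' ℓ e (fun j => i (c₀ j)) (fun n => i (a n)) b₀ b₁ ρ ε c ∧ ∀ (σ : K' →+* ℂ) n,
        ‖σ ((ℓ : K') ^ 2 * c n)‖ ≤ Real.exp (h1 ℓ r (Module.finrank ℚ K) H) := by
  have hℓ := hD.cmb.prime.pos
  obtain ⟨b₀, b₁, ρ, c, h1, h2, h3, h4, h5, h6⟩ := exists_bb (od_a c₀ a ▸ hD.a) hr hℓ h
  let D := (nd ℓ m c).map (algebraMap (𝓞 K) K)
  obtain ⟨K', _, _, i, hζ, hy⟩ := exists_root_ext (I := (Fin m ⊕ Fin r) ⊕ (Fin r × Fin r) ⊕ Fin r)
    (Sum.elim (Sum.elim (fun j => c₀ j * ∏ n, (b₀ - a n) ^ e j n) D.β)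
      (Sum.elim (fun p => (D.p p.2).eval (D.a p.1)) fun n => (D.p n).eval ρ⁻¹)) hℓ
  choose ε hε using fun j => hy (.inl (.inl j))
  refine ⟨K', inferInstance, inferInstance, i, i b₀, i b₁, i ρ, ε,
    fun n => RingOfIntegers.mapRingHom i (c n), ⟨od_map c₀ a i ▸ hD.map i, hζ, i.injective.ne h1,
      fun n => i.injective.ne (h2 n), fun n => i.injective.ne (h3 n), (_root_.map_ne_zero i).2 h4,
      fun n => by simpa using congrArg i (h5 n), fun j => by simpa using hε j, ?_⟩,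
    fun σ n => by simpa using h6 (σ.comp i) n⟩
  rw [mnum_nd, ← map_inv₀]
  refine ⟨fun n => ?_, fun j => ⟨1, by simp [Dat.map, nd]⟩, fun n => hy (.inl (.inr n)),
    fun n n' => ?_, fun n => ?_⟩
  · rw [Dat.map_a, mnum_a]
    exact i.injective.ne (inv_injective.ne (mnum_ne h1 h4 (h5 n)).symm)
  · rw [Dat.map_a, Dat.map_p, eval_map_apply]
    exact hy (.inr (.inl (n, n')))
  · rw [Dat.map_p, eval_map_apply]
    exact hy (.inr (.inr n))

end Pool.Agent.Lib.MP_07b2d0_nt.Kh
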