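import Mathlib

/-!
Permutations of the branch points that preserve the exponents.
-/

set_option autoImplicit false

namespace Pool.Agent.Lib.MP_07b2d0_nt.Kh

open Finset

theorem comb_fix {ℓ m r : ℕ} {e : Fin m → Fin r → ℕ} (hℓ : ℓ.Prime)
    (hrk : ∀ i, ∃ i', ∀ t : ZMod ℓ, ∃ j, (e j i' : ZMod ℓ) ≠ t * e j i)
    {π : Fin r → Fin r} (hπ : Function.Injective π) (he : ∀ n i, e n (π i) = e n i)
    (rel : ∀ i j, ∃ u : Fin m → ℕ, ∀ l,
      (if l = π i then 1 else 0) + (if l = j then 1 else 0) ≡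
        (if l = i then 1 else 0) + (if l = π j then 1 else 0) + ∑ n, u n * e n l [MOD ℓ])
    (h2 : ℓ = 2 → (∀ (u : Fin m → ℕ) i, Odd (∑ n, u n * e n i) →
      #{l | Odd (∑ n, u n * e n l)} ≤ 2 → π i = i) ∧
      ∃ i, π i = i ∨ ∀ u : Fin m → ℕ, Odd (∑ n, u n * e n i) → 4 < #{l | Odd (∑ n, u n * e n l)})
    (i : Fin r) : π i = i := by
  have pick : ∀ i, ∃ j, j ≠ i ∧ j ≠ π i ∧ π j ≠ i := fun i => by
    obtain ⟨j, hj⟩ := hrk i
    obtain ⟨n, hn⟩ := hj 1
    rw [one_mul] at hn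
    exact ⟨j, fun h => hn (by rw [h]), fun h => hn (by rw [h, he]), fun h => hn (by rw [← h, he])⟩
  by_contra h0
  have l2 : ℓ = 2 := by
    obtain ⟨j, h1, h3, h4⟩ := pick i
    obtain ⟨u, hu⟩ := rel i j
    have a := hu i
    have b := hu (π i)
    rw [if_neg (Ne.symm h0), if_neg h1.symm, if_pos rfl, if_neg h4.symm] at a
    rw [if_pos rfl, if_neg h3.symm, if_neg h0, if_neg (hπ.ne h1.symm)] at b
    simp only [he, zero_add, add_zero] at a b
    exact (Nat.prime_dvd_prime_iff_eq hℓ Nat.prime_two).1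
      (Nat.modEq_zero_iff_dvd.1 ((b.add_left 1).trans a.symm))
  obtain ⟨c1, j, c2⟩ := h2 l2
  subst l2
  have hj : π j = j := by
    by_contra h1
    obtain ⟨l, h3, -, h4⟩ := pick j
    obtain ⟨u, hu⟩ := rel j l
    have a := hu j
    rw [if_neg (Ne.symm h1), if_neg h3.symm, if_pos rfl, if_neg h4.symm, Nat.ModEq] at a
    refine (c2.resolve_left h1 u (Nat.odd_iff.2 (by omega))).not_ge ((card_le_card
      (t := {π j, l, j, π l}) fun p hp => ?_).trans card_le_four)
    by_contra h5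
    simp only [mem_insert, mem_singleton, not_or] at h5
    have b := hu p
    rw [if_neg h5.1, if_neg h5.2.1, if_neg h5.2.2.1, if_neg h5.2.2.2, Nat.ModEq] at b
    have := Nat.odd_iff.1 (mem_filter.1 hp).2
    omega
  obtain ⟨u, hu⟩ := rel i j
  rw [hj] at hu
  have a := hu i
  rw [if_neg (Ne.symm h0), if_pos rfl, Nat.ModEq] at a
  refine h0 (c1 u i (Nat.odd_iff.2 (by omega)) ((card_le_card
    (t := {π i, i}) fun p hp => ?_).trans card_le_two))
  by_contra h5
  simp only [mem_insert, mem_singleton, not_or] at h5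
  have b := hu p
  rw [if_neg h5.1, if_neg h5.2, Nat.ModEq] at b
  have := Nat.odd_iff.1 (mem_filter.1 hp).2
  omega

end Pool.Agent.Lib.MP_07b2d0_nt.Kh
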