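import Pool.Agent.Lib.MP_07b2d0_nt.Tq.Ns
import Pool.Agent.Lib.MP_07b2d0_nt.Kh.NCmb

/-!
Kummer theory for the classes of the functions `(x - a i) / (x - a j)`.
-/

set_option autoImplicit false
set_option linter.unusedSectionVars false

namespace Pool.Agent.Lib.MP_07b2d0_nt.Kh

open Polynomial WithZero Fh
open scoped IntermediateField

variable {Ω F : Type} [Field Ω] [IsAlgClosed Ω] [CharZero Ω] [Field F] [Algebra Ω F] {ℓ m r : ℕ}
  {e : Fin m → Fin r → ℕ} {x : F} {w : Fin m → F} {c : Fin m → Ω} {a : Fin r → Ω}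

theorem K1.kummer {D : Dat Ω m r} (h : K1 ℓ e D x w) {ψ : F} (h0 : ψ ≠ 0) (hψ : ψ ^ ℓ ∈ Ω⟮x⟯) :
    ∃ (u : Fin m → ℕ) (A B : Polynomial Ω), B ≠ 0 ∧ ψ * aeval x B = aeval x A * ∏ j, w j ^ u j := by
  classical
  have : NeZero ℓ := ⟨h.ok.pos.ne'⟩
  obtain ⟨ζ, hζ⟩ := h.zeta
  have hζ' := hζ.map_of_injective (algebraMap Ω F).injective
  choose s h1 h2 h3 using gaut_aut h hζ ()
  have h4 : ∀ j, ∃ u : ℕ, s j ψ = algebraMap Ω F ζ ^ u * ψ := fun j => by
    have p1 : s j ψ ^ ℓ = ψ ^ ℓ := by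
      rw [← map_pow]
      exact gaut_fix (s j : F →ₐ[Ω] F) (fun y hy => by obtain rfl := hy; exact h1 j ()) hψ
    obtain ⟨u, -, hu⟩ := hζ'.eq_pow_of_pow_eq_one (ξ := s j ψ / ψ)
      (by rw [div_pow, p1, div_self (pow_ne_zero _ h0)])
    exact ⟨u, by rw [hu, div_mul_cancel₀ _ h0]⟩
  choose u hu using h4
  have hw : ∏ j, w j ^ u j ≠ 0 := Finset.prod_ne_zero_iff.2 fun j _ => pow_ne_zero _ (h.w_ne () j)
  have h5 := KG.fix h hζ (z := ψ / ∏ j, w j ^ u j) fun k j t t1 t2 => by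
    have t3 : ∀ i, t (w i) = (if i = j then algebraMap Ω F ζ else 1) * w i := fun i =>
      (t2 () i).trans (by simp)
    have e1 : (t : F →+* F) = (s j : F →+* F) :=
      h.ext (fun c => (t.commutes c).trans ((s j).commutes c).symm)
        (fun l => (t1 l).trans (h1 j l).symm) fun l i =>
          (t3 i).trans ((h2 j l i).trans (by simp)).symm
    have e2 : t ψ = s j ψ := DFunLike.congr_fun e1 ψ
    rw [map_div₀, e2, hu, map_prod]
    simp only [map_pow, t3, mul_pow, Finset.prod_mul_distrib]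
    rw [Finset.prod_eq_single j (fun i _ hi => by rw [if_neg hi, one_pow]) (by simp), if_pos rfl,
      mul_div_mul_left _ _ (pow_ne_zero _ (hζ'.ne_zero h.ok.pos.ne'))]
  rw [Set.range_const] at h5
  obtain ⟨A, B, h6⟩ := (IntermediateField.mem_adjoin_simple_iff Ω _).1 h5
  have hB : aeval x B ≠ 0 := fun h7 => div_ne_zero h0 hw (by rw [h6, h7, div_zero])
  exact ⟨u, A, B, fun h7 => hB (by rw [h7, map_zero]), (div_eq_div_iff hw hB).1 h6⟩

theorem od_mult (hD : (od c a).Ok ℓ e) (n : Fin m) (l : Fin r) :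
    ((od c a).F e n).rootMultiplicity (a l) = e n l := by
  rw [od_F]
  exact Ks.kf3_mult (hD.c n) (od_a c a ▸ hD.a) _ l

theorem exists_pi (hD : (od c a).Ok ℓ e) (σ : Ω →+* Ω)
    (hσ : ∀ n, ((od c a).F e n).map σ = (od c a).F e n) :
    ∃ π : Fin r → Fin r, Function.Injective π ∧ (∀ i, σ (a i) = a (π i)) ∧
      ∀ n i, e n (π i) = e n i := by
  have ha : Function.Injective a := od_a c a ▸ hD.a
  have hm : ∀ n i, ((od c a).F e n).rootMultiplicity (σ (a i)) = e n i := fun n i => by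
    rw [← od_mult hD n i, eq_rootMultiplicity_map σ.injective (a i), hσ]
  have h1 : ∀ i, ∃ i', σ (a i) = a i' := fun i => by
    obtain ⟨n, hn⟩ := hD.cmb.col i
    have h2 := (rootMultiplicity_pos (x := σ (a i)) (hD.F_ne n)).1
      (hm n i ▸ Nat.pos_of_ne_zero fun h => hn (h ▸ dvd_zero _))
    rw [od_F] at h2
    exact (Ks.kf3_root (hD.c n) a _ h2).imp fun _ h => h.1
  choose π hπ using h1
  exact ⟨π, fun i j h => ha (σ.injective (by rw [hπ, hπ, h])), hπ,
    fun n i => by rw [← od_mult hD, ← hπ, hm]⟩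

theorem K1.rel (h : K1 ℓ e (od c a) x w) (σ : Ω →+* Ω) (t : F →+* F)
    (ht : ∀ z, t (algebraMap Ω F z) = algebraMap Ω F (σ z)) (hx : t x = x)
    (H : ∀ φ : F, φ ≠ 0 → Ks.DivBy Ω ℓ φ → ∃ ψ : F, t φ = φ * ψ ^ ℓ)
    {π : Fin r → Fin r} (hπ : ∀ i, σ (a i) = a (π i)) (i j : Fin r) :
    ∃ u : Fin m → ℕ, ∀ l, (if l = π i then 1 else 0) + (if l = j then 1 else 0) ≡
      (if l = i then 1 else 0) + (if l = π j then 1 else 0) + ∑ n, u n * e n l [MOD ℓ] := by
  classical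
  have ha : Function.Injective a := od_a c a ▸ h.ok.a
  have n : ∀ z, x - algebraMap Ω F z ≠ 0 := h.sub_ne ()
  have hw : ∀ n, w n ^ ℓ = aeval x ((od c a).F e n) := h.eq ()
  obtain ⟨ψ, hψ⟩ := H _ (div_ne_zero (n (a i)) (n (a j))) fun v hv => by
    rw [map_div₀, log_div ((map_ne_zero v).2 (n _)) ((map_ne_zero v).2 (n _))]
    rcases lt_or_ge 1 (v x) with h1 | h1
    · rw [v.map_sub_eq_of_lt_left ((hv _).trans_lt h1),
        v.map_sub_eq_of_lt_left ((hv _).trans_lt h1), sub_self]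
      exact dvd_zero _
    · have key : ∀ l, (ℓ : ℤ) ∣ log (v (x - algebraMap Ω F (a l))) := fun l => by
        rcases (v.map_sub_le h1 (hv (a l))).lt_or_eq with h2 | h2
        · obtain ⟨ρ, hρ⟩ := h.ok.cmb.col l
          have h3 := Ks.Triv.aeval_eq_pow hv h2 (h.ok.F_ne ρ)
          rw [od_mult h.ok, ← hw, map_pow] at h3
          have h4 := congrArg log h3
          rw [log_pow, log_pow, nsmul_eq_mul, nsmul_eq_mul] at h4
          exact ((Nat.prime_iff_prime_int.1 h.ok.cmb.prime).dvd_or_dvd ⟨_, h4.symm⟩).resolve_left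
            fun h5 => hρ (Int.natCast_dvd_natCast.1 h5)
        · rw [h2, log_one]
          exact dvd_zero _
      exact dvd_sub (key i) (key j)
  rw [map_div₀, map_sub, map_sub, hx, ht, ht, hπ, hπ, div_mul_eq_mul_div,
    div_eq_div_iff (n _) (n _)] at hψ
  have p0 : ψ ≠ 0 := by
    rintro rfl
    rw [zero_pow h.ok.pos.ne', mul_zero, zero_mul] at hψ
    exact mul_ne_zero (n _) (n _) hψ
  have hm : ∀ z, x - algebraMap Ω F z ∈ Ω⟮x⟯ := fun z =>
    sub_mem (IntermediateField.mem_adjoin_simple_self Ω x) (IntermediateField.algebraMap_mem _ _)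
  obtain ⟨u, A, B, hB, e1⟩ := K1.kummer h p0 (by
    rw [eq_div_of_mul_eq (mul_ne_zero (n (a i)) (n (a (π j))))
      ((mul_left_comm _ _ _).trans ((mul_assoc _ _ _).symm.trans hψ.symm))]
    exact div_mem (mul_mem (hm _) (hm _)) (mul_mem (hm _) (hm _)))
  have hA : A ≠ 0 := by
    rintro rfl
    exact mul_ne_zero p0 (h.aeval_ne () hB) (by rw [e1, map_zero, zero_mul])
  have e2 : ψ ^ ℓ * aeval x B ^ ℓ = aeval x A ^ ℓ * ∏ n, aeval x ((od c a).F e n) ^ u n := by
    rw [← mul_pow, e1, mul_pow, ← Finset.prod_pow]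
    simp only [← hw, ← pow_mul, mul_comm]
  have h2 : (X - C (a (π i))) * (X - C (a j)) * B ^ ℓ =
      (X - C (a i)) * (X - C (a (π j))) * (A ^ ℓ * ∏ n, (od c a).F e n ^ u n) :=
    transcendental_iff_injective.1 (h.ind.transcendental ()) (by
      simp only [map_mul, map_sub, map_pow, map_prod, aeval_X, aeval_C, hψ, ← e2]
      ring)
  refine ⟨u, fun l => ?_⟩
  have m0 := fun c : Ω => X_sub_C_ne_zero c
  have m1 : ∏ n, (od c a).F e n ^ u n ≠ 0 :=
    Finset.prod_ne_zero_iff.2 fun n _ => pow_ne_zero _ (h.ok.F_ne n)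
  have cs : ∀ p, (X - C (a p)).roots.count (a l) = if l = p then 1 else 0 := fun p => by
    rw [roots_X_sub_C, Multiset.count_singleton]
    exact if_congr ha.eq_iff rfl rfl
  have h4 : (∏ n, (od c a).F e n ^ u n).roots.count (a l) = ∑ n, u n * e n l := by
    rw [roots_prod _ _ m1, Multiset.count_bind]
    simp only [roots_pow, Multiset.count_nsmul, count_roots, od_mult h.ok]
    rfl
  have h3 := congrArg (fun P : Polynomial Ω => P.roots.count (a l)) h2
  simp only [roots_mul (mul_ne_zero (mul_ne_zero (m0 _) (m0 _)) (pow_ne_zero _ hB)),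
    roots_mul (mul_ne_zero (mul_ne_zero (m0 _) (m0 _)) (mul_ne_zero (pow_ne_zero _ hA) m1)),
    roots_mul (mul_ne_zero (pow_ne_zero _ hA) m1), roots_mul (mul_ne_zero (m0 _) (m0 _)),
    Multiset.count_add, cs, h4, roots_pow B, roots_pow A, Multiset.count_nsmul] at h3
  rw [add_comm (ℓ * _), ← add_assoc] at h3
  have h5 := congrArg (· % ℓ) h3
  simpa only [Nat.add_mul_mod_self_left, Nat.ModEq] using h5

end Pool.Agent.Lib.MP_07b2d0_nt.Kh
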