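import Pool.Agent.Lib.MP_07b2d0_nt.Kh.NFix

/-!
The effective bound without rationality of the branch points.
-/

set_option autoImplicit false
set_option linter.unusedSectionVars false

namespace Pool.Agent.Lib.MP_07b2d0_nt.Kh

open CategoryTheory AlgebraicGeometry Polynomial WithZero NumberField Height Fh
open scoped Finset

open Ks in
theorem kum_bound2 : ∃ c : ℕ × ℕ → ℕ, Primrec c ∧
    ∀ (ℓ N D m r : ℕ) (K F : Type) [Field K] [NumberField K] [Field F]
      [Algebra (AlgebraicClosure K) F]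
      [MulSemiringAction (AlgebraicClosure K ≃ₐ[K] AlgebraicClosure K) F] (x : F) (y : Fin m → F)
      (a : Fin r → K) (e : Fin m → Fin r → ℕ),
      ℓ.Prime → ℓ ∣ N → 0 < N → (∀ p : ℕ, p.Prime → (p : ℤ) ∣ discr K → p ∣ N) →
      Module.finrank ℚ K ≤ D → Ks.Curve K (AlgebraicClosure K) x →
      (∀ j, Ks.Kummer K (AlgebraicClosure K) ℓ x (y j) a (e j)) → Function.Injective a →
      (∀ j, ℓ ∣ ∑ i, e j i) → (∀ i, ∃ j, ¬ ℓ ∣ e j i) →
      (∃ i i', ∀ u : ZMod ℓ, ∃ j, (e j i' : ZMod ℓ) ≠ u * e j i) →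
      (ℓ = 2 → ∀ p l, p ≠ l → ∃ i, i ≠ p ∧ i ≠ l ∧ ∃ j, Odd (e j i + e j p + e j l)) →
      Ks.TateUnramified K (AlgebraicClosure K) F ℓ N →
      ∀ p q s t, [p, q, s, t].Nodup → logHeight₁ (cr a p q s t) ≤ c (N, D) := by
  obtain ⟨c, hc, H⟩ := kum_bound
  refine ⟨fun z => Nat.rec (c (z.1, 0)) (fun d s => s + c (z.1, d + 1)) z.2, ?_, ?_⟩
  · exact Primrec.nat_rec' .snd (hc.comp (.pair .fst (.const 0)))
      (Primrec.to₂ (f := fun p : (ℕ × ℕ) × ℕ × ℕ => p.2.2 + c (p.1.1, p.2.1 + 1))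
        (pr_add (Primrec.snd.comp .snd) (hc.comp (.pair (Primrec.fst.comp .fst)
          (Primrec.succ.comp (Primrec.fst.comp .snd))))))
  intro ℓ N D m r K F _ _ _ _ _ x y a e hℓ hN hN0 hd hD hC hK ha hs h1 h2 h3 hT p q s t hq
  refine (H ℓ N m r K F x y a e hℓ hN hN0 hd hC hK ha hs h1 h2 h3 hT p q s t hq).trans
    (Nat.cast_le.2 ?_)
  generalize Module.finrank ℚ K = d at hD
  induction D, hD using Nat.le_induction with
  | base =>
    cases d
    exacts [le_rfl, Nat.le_add_left _ _]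
  | succ D _ ih => exact ih.trans (Nat.le_add_right _ _)

variable {k R : Type} [Field k] [NumberField k] [CommRing R] [Algebra k R] {N N' ℓ m r : ℕ}
  {A : Over (Spec (.of (ON k N)))} [GrpObj A] [IsCommMonObj A] [IsProper A.hom]
  {j : Fh.sp ((algebraMap k R).comp (algebraMap (ON k N) k)) ⟶ A} {X₀ : R} {Y : Fin m → R}
  {f : Fin m → k[X]} {e : Fin m → Fin r → ℕ}

theorem exists_tate2 (hJ : IsJ (algebraMap (ON k N) k) X₀ A j) (hP : Pres ℓ f X₀ Y)
    (K : Type) [Field K] [Algebra k K] {c : Fin m → AlgebraicClosure K}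
    {a : Fin r → AlgebraicClosure K} (hf : ∀ n, (f n).map (algebraMap k _) = (od c a).F e n)
    (hD : (od c a).Ok ℓ e) (hN : N ∣ N') (hℓN : ℓ ∣ N') (h0 : N' ≠ 0) :
    ∃ (F : Type) (_ : Field F) (_ : Algebra (AlgebraicClosure K) F)
      (_ : MulSemiringAction (AlgebraicClosure K ≃ₐ[K] AlgebraicClosure K) F) (x : F)
      (y : Fin m → F), Ks.Curve K (AlgebraicClosure K) x ∧
      (∀ (σ : AlgebraicClosure K ≃ₐ[K] AlgebraicClosure K) n, σ • y n = y n) ∧
      K1 ℓ e (od c a) x y ∧ Ks.TateUnramified K (AlgebraicClosure K) F ℓ N' := by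
  have : CharZero (AlgebraicClosure K) :=
    charZero_of_injective_algebraMap (algebraMap k _).injective
  have : NeZero ℓ := ⟨hD.pos.ne'⟩
  have hk : ∀ (σ : AlgebraicClosure K ≃ₐ[K] AlgebraicClosure K) (z : k),
      σ (algebraMap k _ z) = algebraMap k _ z := fun σ z => by
    rw [IsScalarTower.algebraMap_apply k K (AlgebraicClosure K)]
    exact σ.commutes _
  obtain ⟨F, _, _, x, w, h⟩ := exists_KG Unit hD
    (HasEnoughRootsOfUnity.exists_primitiveRoot _ ℓ)
  choose s h₁ h₂ h₃ using fun σ : AlgebraicClosure K ≃ₐ[K] AlgebraicClosure K =>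
    h.lift' (σ : AlgebraicClosure K →+* AlgebraicClosure K) (x' := x) (w' := w)
      ⟨hD.map _, h.zeta, h.ind, fun l n => by
        rw [h.eq, Dat.map_F, ← hf, Polynomial.map_map,
          show RingHom.comp _ _ = algebraMap k _ from RingHom.ext (hk σ)]⟩
  let act : (AlgebraicClosure K ≃ₐ[K] AlgebraicClosure K) →* (F →+* F) :=
    { toFun := s
      map_one' := h.ext (h₁ 1) (h₂ 1) (h₃ 1)
      map_mul' := fun σ τ => h.ext (fun c => (h₁ _ c).trans ((h₁ σ _).symm.trans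
        (congrArg (s σ) (h₁ τ c).symm))) (fun l => (h₂ _ l).trans ((h₂ σ l).symm.trans
        (congrArg (s σ) (h₂ τ l).symm))) fun l n => (h₃ _ l n).trans ((h₃ σ l n).symm.trans
        (congrArg (s σ) (h₃ τ l n).symm)) }
  let _ := MulSemiringAction.compHom F act
  have h1 : K1 ℓ e _ (x ()) (w ()) := h
  obtain ⟨ρ, r0, r1, r2⟩ := hP.lift F ((algebraMap (AlgebraicClosure K) F).comp (algebraMap k _))
    (x ()) (fun n => (w () n)⁻¹) fun n => by
      rw [← eval₂_map, ← aeval_def, hf, ← h.eq, inv_pow,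
        mul_inv_cancel₀ (pow_ne_zero _ (h.w_ne () n))]
  refine ⟨F, _, _, _, x (), w (), ⟨h₁, fun σ => h₂ σ (), h.ind.transcendental (), h1.fd⟩,
    fun σ n => h₃ σ () n, h1, fun σ hi n φ hφ hd => ?_⟩
  have hs : (MulSemiringAction.toRingHom _ F σ).comp ρ = ρ := hP.ext _ _ _
    (by rw [RingHom.comp_assoc, r0]
        exact RingHom.ext fun c => (h₁ σ _).trans (congrArg _ (hk σ c)))
    (by rw [RingHom.comp_apply, r1]; exact h₂ σ ())
    fun n => by rw [RingHom.comp_apply, r2, map_inv₀]; exact congrArg _ (h₃ σ () n)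
  exact tate_core' hJ ρ (DFunLike.congr_fun r0) (r1 ▸ (h.ind.transcendental ()))
    (h.eq_top (fun l => IntermediateField.subset_adjoin _ _ ⟨X₀, r1⟩) fun l n =>
      inv_inv (w l n) ▸ inv_mem (IntermediateField.subset_adjoin _ _ ⟨Y n, r2 n⟩))
    (r1 ▸ h1.fd) σ.toRingEquiv (MulSemiringAction.toRingEquiv _ F σ) (h₁ σ)
    (DFunLike.congr_fun hs) (RingHom.ext fun c => hk σ _)
    (pow_ne_zero n hD.pos.ne') (nos_inertial hN h0 ⟨n, pow_dvd_pow_of_dvd hℓN n⟩ hi _) hφ hd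

theorem exists_split2 (hJ : IsJ (algebraMap (ON k N) k) X₀ A j) (hP : Pres ℓ f X₀ Y)
    {c : Fin m → AlgebraicClosure k} {a : Fin r → AlgebraicClosure k}
    (hf : ∀ n, (f n).map (algebraMap k _) = (od c a).F e n) (hD : (od c a).Ok ℓ e) (hm : 2 ≤ m)
    (h2 : ℓ = 2 → (∀ (u : Fin m → ℕ) i, Odd (∑ n, u n * e n i) →
      #{l | Odd (∑ n, u n * e n l)} ≤ 2 → a i ∈ (algebraMap k _).range) ∧
      ∃ i, a i ∈ (algebraMap k _).range ∨
        ∀ u : Fin m → ℕ, Odd (∑ n, u n * e n i) → 4 < #{l | Odd (∑ n, u n * e n l)})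
    (hN : N ∣ N') (hℓN : ℓ ∣ N') (h0 : N' ≠ 0)
    (hk : ∀ p : ℕ, p.Prime → (p : ℤ) ∣ discr k → p ∣ N') :
    ∃ (K : Type) (_ : Field K) (_ : NumberField K) (_ : Algebra k K) (c' : Fin m → K)
      (a' : Fin r → K), Module.finrank ℚ K ≤ r ^ r * Module.finrank ℚ k ∧
      (∀ p : ℕ, p.Prime → (p : ℤ) ∣ discr K → p ∣ N') ∧
      (∀ n, (f n).map (algebraMap k K) = (od c' a').F e n) ∧ (od c' a').Ok ℓ e := by
  classical
  have : CharZero (AlgebraicClosure k) :=
    charZero_of_injective_algebraMap (algebraMap k _).injective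
  have ha : Function.Injective a := od_a c a ▸ hD.a
  obtain ⟨F, _, _, _, x, y, hC, -, hy, hT⟩ := exists_tate2 hJ hP k hf hD hN hℓN h0
  have hf0 : ∏ n, f n ≠ 0 := Finset.prod_ne_zero_iff.2 fun n _ h =>
    hD.F_ne n (by rw [← hf, h, Polynomial.map_zero])
  have hsep : (UniqueFactorizationMonoid.radical (∏ n, f n)).Separable :=
    PerfectField.separable_iff_squarefree.2 UniqueFactorizationMonoid.squarefree_radical
  have hra : ∀ z : AlgebraicClosure k,
      aeval z (UniqueFactorizationMonoid.radical (∏ n, f n)) = 0 → ∃ i, a i = z := fun z hz => by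
    have h1 := aeval_eq_zero_of_dvd_aeval_eq_zero UniqueFactorizationMonoid.radical_dvd_self hz
    rw [map_prod, Finset.prod_eq_zero_iff] at h1
    obtain ⟨n, -, h1⟩ := h1
    rw [← eval_map_algebraMap, hf, od_F] at h1
    exact (Ks.kf3_root (hD.c n) a _ h1).imp fun _ h => h.1.symm
  have hdeg : (UniqueFactorizationMonoid.radical (∏ n, f n)).natDegree ≤ r := by
    rw [← card_rootSet_eq_natDegree (K := AlgebraicClosure k) hsep (IsAlgClosed.splits _)]
    choose φ hφ using fun z : (UniqueFactorizationMonoid.radical (∏ n, f n)).rootSet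
      (AlgebraicClosure k) => hra z (mem_rootSet.1 z.2).2
    exact (Fintype.card_le_of_injective φ fun z z' h =>
      Subtype.ext (by rw [← hφ, ← hφ, h])).trans (Fintype.card_fin r).le
  obtain ⟨K, _, _, _, hd, hK, hsp⟩ := exists_field_of_fix (M := N') hk hsep fun σ hσ z hz => by
    obtain ⟨i, rfl⟩ := hra z hz
    obtain ⟨π, p1, p2, p3⟩ := exists_pi hD (σ : AlgebraicClosure k →+* AlgebraicClosure k)
      fun n => by
        rw [← hf, Polynomial.map_map, show RingHom.comp _ _ = algebraMap k _ from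
          RingHom.ext σ.commutes]
    have p4 : ∀ l, a l ∈ (algebraMap k _).range → π l = l := fun l ⟨z, hz⟩ =>
      ha (by rw [← p2, ← hz]; exact σ.commutes z)
    refine (p2 i).trans (congrArg a (comb_fix hD.cmb.prime (hD.cmb.rank hm) p1 p3
      (K1.rel hy (σ : AlgebraicClosure k →+* AlgebraicClosure k) (MulSemiringAction.toRingHom _ F σ)
        (hC.1 σ) (hC.2.1 σ) (fun φ h1 h2 => ?_) p2)
      (fun h => ⟨fun u l h1 h3 => p4 l ((h2 h).1 u l h1 h3),
        (h2 h).2.imp fun l => Or.imp_left (p4 l)⟩) i))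
    have h3 := hT σ hσ 1 φ h1 (by rwa [pow_one])
    rwa [pow_one] at h3
  let ψ : AlgebraicClosure k →ₐ[k] AlgebraicClosure K := IsAlgClosed.lift
  obtain ⟨n, hn⟩ := UniqueFactorizationMonoid.exists_dvd_radical_self_pow hf0
  choose a' ha' using fun i => hsp.mem_range_of_isRoot (hsep.map (f := algebraMap k K)).ne_zero
    (i := algebraMap K (AlgebraicClosure K)) (x := ψ (a i)) (by
      have h1 : aeval (a i) (∏ n, f n) = 0 := by
        obtain ⟨n, hn⟩ := hD.cmb.col i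
        rw [map_prod]
        refine Finset.prod_eq_zero (Finset.mem_univ n) ?_
        rw [← eval_map_algebraMap, hf]
        exact (rootMultiplicity_pos (hD.F_ne n)).1
          (od_mult hD n i ▸ Nat.pos_of_ne_zero fun h => hn (h ▸ dvd_zero _))
      have h2 := aeval_eq_zero_of_dvd_aeval_eq_zero hn h1
      rw [map_pow] at h2
      rw [Polynomial.map_map, ← IsScalarTower.algebraMap_eq, IsRoot, eval_map_algebraMap,
        aeval_algHom_apply, (pow_eq_zero_iff'.1 h2).1, map_zero])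
  have hc' : ∀ n, algebraMap K (AlgebraicClosure K) (algebraMap k K (f n).leadingCoeff) =
      ψ (c n) := fun n => by
    have h1 := congrArg leadingCoeff (hf n)
    rw [od_F, leadingCoeff_map, leadingCoeff_mul, leadingCoeff_C, (monic_prod_of_monic _ _
      fun i _ => (monic_X_sub_C _).pow _).leadingCoeff, mul_one] at h1
    rw [← h1, ψ.commutes, ← IsScalarTower.algebraMap_apply]
  have hi : Function.Injective a' := fun i l h =>
    ha (ψ.injective ((ha' i).symm.trans ((congrArg _ h).trans (ha' l))))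
  refine ⟨K, inferInstance, inferInstance, inferInstance,
    fun n => algebraMap k K (f n).leadingCoeff, a',
    hd.trans (Nat.mul_le_mul_right _ ((Nat.factorial_le hdeg).trans (Nat.factorial_le_pow r))), hK,
    fun n => Polynomial.map_injective _ (algebraMap K (AlgebraicClosure K)).injective ?_,
    hD.cmb, fun n h => ?_, fun _ => one_ne_zero, by rwa [od_a]⟩
  · have h1 := congrArg (Polynomial.map (ψ : AlgebraicClosure k →+* AlgebraicClosure K)) (hf n)
    rw [Polynomial.map_map, ψ.comp_algebraMap] at h1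
    rw [Polynomial.map_map, ← IsScalarTower.algebraMap_eq, h1, od_F, od_F]
    simp only [Polynomial.map_mul, Polynomial.map_prod, Polynomial.map_pow, Polynomial.map_sub,
      map_X, map_C, hc', ha', RingHom.coe_coe]
  · exact (_root_.map_ne_zero ψ).2 (hD.c n)
      ((hc' n).symm.trans ((congrArg _ h).trans (map_zero _)))

theorem kum_main2 : ∃ c : ℕ × ℕ × ℕ → ℕ, Computable c ∧
    ∀ (ℓ N g m r : ℕ) (k : Type) [Field k] [NumberField k] (A : Over (Spec (.of (ON k N))))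
      (f : Fin m → k[X]) (c₀ : Fin m → AlgebraicClosure k) (a : Fin r → AlgebraicClosure k)
      (e : Fin m → Fin r → ℕ), 0 < N → (∀ p : ℕ, p.Prime → (p : ℤ) ∣ discr k → p ∣ N) →
      (∀ n, (f n).map (algebraMap k _) = (od c₀ a).F e n) → (od c₀ a).Ok ℓ e → 2 ≤ m →
      (ℓ = 2 → ∀ p l, p ≠ l → ∃ i, i ≠ p ∧ i ≠ l ∧ ∃ j, Odd (e j i + e j p + e j l)) →
      (ℓ = 2 → (∀ (u : Fin m → ℕ) i, Odd (∑ n, u n * e n i) →
        #{l | Odd (∑ n, u n * e n l)} ≤ 2 → a i ∈ (algebraMap k _).range) ∧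
        ∃ i, a i ∈ (algebraMap k _).range ∨
          ∀ u : Fin m → ℕ, Odd (∑ n, u n * e n i) → 4 < #{l | Odd (∑ n, u n * e n l)}) →
      2 ≤ g → 2 * g + 2 * ℓ ^ m = 2 + r * ℓ ^ (m - 1) * (ℓ - 1) →
      St.KumJac g ℓ (algebraMap (ON k N) k) f A →
      HLe g (algebraMap (ON k N) k) A (c (N, g, Module.finrank ℚ k)) := by
  obtain ⟨c, hc, H⟩ := kum_bound2
  have p1 : Primrec fun z : ℕ × ℕ × ℕ => z.2.1 := Primrec.fst.comp .snd
  refine ⟨fun z => fin5 c (z.1, z.2.1, (6 * z.2.1) ^ (6 * z.2.1) * z.2.2),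
    ((pr_fin5 hc).comp (.pair .fst (.pair p1 (pr_mul (pr_pow (pr_mul (.const _) p1)
      (pr_mul (.const _) p1)) (Primrec.snd.comp .snd))))).to_comp, ?_⟩
  intro ℓ N g m r k _ _ A f c₀ a e hN hk hf hD hm h2 h2' hg hG hA
  obtain ⟨R, _, _, X₀, Y, _, _, _, j, hP, hJ⟩ := of_kumJac hA
  obtain ⟨n1, n2, n3, n4⟩ := nums hD.cmb.prime hm hg hG
  have hℓ : ℓ ∣ N * (2 * g).factorial := (Nat.dvd_factorial hD.pos n1).mul_left _
  have h0 : 0 < N * (2 * g).factorial := Nat.mul_pos hN (Nat.factorial_pos _)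
  obtain ⟨K, _, _, _, c', a', k1, k2, k3, hD'⟩ := exists_split2 hJ hP hf hD hm h2'
    (dvd_mul_right _ _) hℓ h0.ne' fun p hp h => (hk p hp h).mul_right _
  have k6 : Module.finrank ℚ K ≤ (6 * g) ^ (6 * g) * Module.finrank ℚ k :=
    k1.trans (by gcongr; omega)
  have hD2 := hD'.map (algebraMap K (AlgebraicClosure K))
  rw [od_map] at hD2
  obtain ⟨F, _, _, _, x, y, f1, f2, f4, f5⟩ := exists_tate2 hJ hP K (fun n => by
    rw [IsScalarTower.algebraMap_eq k K, ← Polynomial.map_map, k3, ← od_map, Dat.map_F]) hD2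
    (dvd_mul_right _ _) hℓ h0.ne'
  obtain ⟨R', _, _, X₁, Y₁, j', hP', hJ'⟩ := Tq.isJ_bc (K := K) hP hJ
  rw [funext k3] at hP'
  refine (Tq.hLe_bc (hJ'.hLe hP' hD' n3 (Fintype.equivFinOfCardEq (hD.cmb.card (by omega) hG)).symm
    (H ℓ _ _ m r K F x y a' e hD.cmb.prime hℓ h0 k2 k6 f1
      (fun n => ⟨fun σ => f2 σ n, c' n, hD'.c n, ?_⟩) (od_a c' a' ▸ hD'.a) hD.cmb.sum hD.cmb.col
      ⟨_, hD.cmb.rank hm ⟨0, by omega⟩⟩ h2 f5))).mono ?_
  · refine (f4.eq () n).trans ?_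
    rw [od_F]
    simp [map_prod]
  rw [bd, pow_mul ℓ]
  unfold fin5 h1
  dsimp only
  gcongr

end Pool.Agent.Lib.MP_07b2d0_nt.Kh
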