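import Pool.Agent.Lib.MP_07b2d0_nt.Fh.St

/-!
Jacobians of Kummer covers of the projective line.
-/

set_option autoImplicit false

namespace Pool.Agent.Lib.MP_07b2d0_nt.St

open CategoryTheory AlgebraicGeometry Polynomial

/-- `A` is an abelian scheme of relative dimension `g` over `B` whose fibre over `k` is the
Jacobian of the curve `f n (x) * y n ^ ℓ = 1` for all `n`. -/
structure KumJac (g ℓ : ℕ) {m : ℕ} {B k : Type} [CommRing B] [Field k] (b : B →+* k)
    (f : Fin m → k[X]) (A : Over (Spec (.of B))) : Prop where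
  proper : IsProper A.hom
  smooth : SmoothOfRelativeDimension g A.hom
  jac : ∃ (_ : GrpObj A) (_ : IsCommMonObj A) (j : _),
    IsJac b (Ideal.Quotient.mk (Ideal.span (Set.range fun n =>
      MvPolynomial.C (f n) * MvPolynomial.X n ^ ℓ - 1)) (MvPolynomial.C X)) A j

end Pool.Agent.Lib.MP_07b2d0_nt.St
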