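import Pool.Agent.Lib.MP_07b2d0_nt.Kh.Defs
import Pool.Agent.Lib.MP_07b2d0_nt.Kh.St
import Pool.Agent.Lib.MP_07b2d0_nt.Fh.StB

/-!
The presentation of the affine curve.
-/

set_option autoImplicit false

namespace Pool.Agent.Lib.MP_07b2d0_nt.Kh

open CategoryTheory AlgebraicGeometry Polynomial Fh

variable {k : Type} [Field k] {m : ℕ}

theorem pres_quot (ℓ : ℕ) (f : Fin m → k[X]) :
    Pres ℓ f (Ideal.Quotient.mk (Ideal.span (Set.range fun n =>
      MvPolynomial.C (f n) * MvPolynomial.X n ^ ℓ - 1)) (MvPolynomial.C X))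
      fun n => Ideal.Quotient.mk _ (MvPolynomial.X n) := by
  refine ⟨fun n => ?_, fun T _ φ ψ h0 h1 h2 => ?_, fun T _ κ u w h => ?_⟩
  · have e : ∀ P : k[X], aeval (Ideal.Quotient.mk (Ideal.span (Set.range fun n =>
        MvPolynomial.C (f n) * MvPolynomial.X n ^ ℓ - 1)) (MvPolynomial.C X)) P =
        Ideal.Quotient.mk _ (MvPolynomial.C P) := fun P =>
      (aeval_algHom_apply (IsScalarTower.toAlgHom k k[X] _) X P).trans (by simp; rfl)
    rw [e, ← map_pow, ← map_mul, ← map_one (Ideal.Quotient.mk _), Ideal.Quotient.eq]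
    exact Ideal.subset_span ⟨n, rfl⟩
  · exact Ideal.Quotient.ringHom_ext (MvPolynomial.ringHom_ext' (Polynomial.ringHom_ext
      (fun c => DFunLike.congr_fun h0 c) h1) h2)
  · refine ⟨Ideal.Quotient.lift _ (MvPolynomial.eval₂Hom (eval₂RingHom κ u) w) fun z hz => ?_,
      RingHom.ext fun c => ?_, by simp, fun n => by simp⟩
    · refine (Ideal.span_le.2 ?_ : _ ≤ RingHom.ker _) hz
      rintro _ ⟨n, rfl⟩
      simp [h]
    · exact (MvPolynomial.eval₂Hom_C _ _ (C c)).trans (eval₂_C _ _)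

theorem of_kumJac {g ℓ : ℕ} {B : Type} [CommRing B] {b : B →+* k} {f : Fin m → k[X]}
    {A : Over (Spec (.of B))} (h : St.KumJac g ℓ b f A) :
    ∃ (R : Type) (_ : CommRing R) (_ : Algebra k R) (X₀ : R) (Y : Fin m → R) (_ : GrpObj A)
      (_ : IsCommMonObj A) (_ : IsProper A.hom) (j : sp ((algebraMap k R).comp b) ⟶ A),
      Pres ℓ f X₀ Y ∧ IsJ b X₀ A j := by
  obtain ⟨h1, -, i1, i2, j, h⟩ := h
  refine ⟨_, _, _, _, _, i1, i2, h1, j, pres_quot ℓ f, fun Ω F _ _ _ _ _ ρ h2 h3 h4 => ?_⟩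
  obtain ⟨val, ⟨h5, h6⟩, h7⟩ := h Ω F ρ h2 h3 h4
  exact ⟨val, h7, h5, h6⟩

end Pool.Agent.Lib.MP_07b2d0_nt.Kh
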