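import Pool.Agent.Lib.MP_07b2d0_nt.Kh.AMain
import Pool.Agent.Lib.MP_07b2d0_nt.Kh.MNum
import Pool.Agent.Lib.MP_07b2d0_nt.Kh.UJ
import Pool.Agent.Lib.MP_07b2d0_nt.Kh.TPre
import Pool.Agent.Lib.MP_07b2d0_nt.Kh.TTate
import Pool.Agent.Lib.MP_07b2d0_nt.Kh.CCard
import Pool.Agent.Lib.MP_07b2d0_nt.Fh.Kl

/-!
The effective bound for the Faltings height.
-/

set_option autoImplicit false

namespace Pool.Agent.Lib.MP_07b2d0_nt.Kh

open CategoryTheory AlgebraicGeometry Polynomial NumberField Height Fh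

theorem IsJ.hLe {B k R : Type} [CommRing B] [Field k] [NumberField k] [CommRing R] [Algebra k R]
    {b : B →+* k} {A : Over (Spec (.of B))} [GrpObj A] [IsCommMonObj A] [IsProper A.hom]
    {j : Fh.sp ((algebraMap k R).comp b) ⟶ A} {ℓ m r g : ℕ} {X₀ : R} {Y : Fin m → R}
    (hJ : IsJ b X₀ A j) {c₀ : Fin m → k} {a : Fin r → k} {e : Fin m → Fin r → ℕ}
    (hP : Pres ℓ ((od c₀ a).F e) X₀ Y) (hD : (od c₀ a).Ok ℓ e) (hr : 3 ≤ r)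
    (en : Fin g ≃ JJ ℓ e) {H : ℕ}
    (h : ∀ p q s t, [p, q, s, t].Nodup → logHeight₁ (cr a p q s t) ≤ H) :
    HLe g b A (bd ℓ m r g (h1 ℓ r (Module.finrank ℚ k) H)) := by
  obtain ⟨K', _, _, i', b₀, b₁, ρ, ε, c, hm, hc⟩ := exists_mob' hD hr h
  refine ⟨K', _, inferInstance, i', fun L _ _ e' M _ hN => ?_⟩
  have hm' := hm.map e'
  obtain ⟨E, _, _, s, w', hG⟩ := exists_KG (Fin g) hm'.ok' hm'.zeta
  obtain ⟨x, w, h0, h1, h2, h3, h4⟩ := hm'.orig hG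
  have h0' : KG0 ℓ e ((od c₀ a).map (e'.comp i')) x w := by rwa [od_map]
  obtain ⟨φ, h5, h6, h7⟩ := hP.exists_pt _ h0'
  obtain ⟨ι, hS⟩ := exists_setup0 (e'.comp i') hN h5 (by rwa [funext h6])
    (hJ.rigJ hP _ h0' en h5 h6 h7)
  refine hF_le' hN.smooth (alg_main2 (hS.coord hP _ h5 h6 h7 hG hm'.rts h2 h3 h4) hm'.rho en
    fun σ n => ?_)
  simpa using hc (σ.comp e') n

/-- The final constant. -/
def fin5 (c : ℕ × ℕ → ℕ) (z : ℕ × ℕ × ℕ) : ℕ :=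
  6 * z.2.1 * z.2.1 * (h1 (2 * z.2.1) (6 * z.2.1) z.2.2 (c (z.1 * (2 * z.2.1).factorial, z.2.2)) + 2) +
    2 * z.2.1 ^ 2 + 2 * (4 * z.2.1 ^ 2) ^ z.2.1 * (z.2.1 ^ 2 + 6 * z.2.1 * z.2.1 *
      (h1 (2 * z.2.1) (6 * z.2.1) z.2.2 (c (z.1 * (2 * z.2.1).factorial, z.2.2)) + 4))

theorem pr_fin5 {c : ℕ × ℕ → ℕ} (hc : Primrec c) : Primrec (fin5 c) := by
  have h : Primrec fun z : ℕ × ℕ × ℕ => z.2.1 := Primrec.fst.comp .snd
  have h' : Primrec fun z : ℕ × ℕ × ℕ => z.2.2 := Primrec.snd.comp .snd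
  have h2 : Primrec fun z : ℕ × ℕ × ℕ =>
      h1 (2 * z.2.1) (6 * z.2.1) z.2.2 (c (z.1 * (2 * z.2.1).factorial, z.2.2)) :=
    pr_add (pr_mul (.const _) (pr_mul (.const _) h)) (pr_mul (pr_add (pr_mul (.const _) h)
      (.const _)) (pr_add (pr_mul (.const _) (hc.comp (.pair (pr_mul .fst (pr_fact
        (pr_mul (.const _) h))) h'))) (pr_mul (pr_mul (.const _) h')
          (pr_add (pr_mul (.const _) h) (.const _)))))
  have h3 := pr_mul (pr_mul (.const 6) h) h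
  have h4 := pr_pow h (.const 2)
  exact pr_add (pr_add (pr_mul h3 (pr_add h2 (.const _))) (pr_mul (.const _) h4))
    (pr_mul (pr_mul (.const _) (pr_pow (pr_mul (.const _) h4) h))
      (pr_add h4 (pr_mul h3 (pr_add h2 (.const _)))))

theorem kum_main : ∃ c : ℕ × ℕ × ℕ → ℕ, Computable c ∧
    ∀ (ℓ N g m r : ℕ) (k : Type) [Field k] [NumberField k] (A : Over (Spec (.of (ON k N))))
      (c₀ : Fin m → k) (a : Fin r → k) (e : Fin m → Fin r → ℕ),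
      0 < N → (∀ p : ℕ, p.Prime → (p : ℤ) ∣ discr k → p ∣ N) → (od c₀ a).Ok ℓ e → 2 ≤ m →
      (ℓ = 2 → ∀ p l, p ≠ l → ∃ i, i ≠ p ∧ i ≠ l ∧ ∃ j, Odd (e j i + e j p + e j l)) →
      2 ≤ g → 2 * g + 2 * ℓ ^ m = 2 + r * ℓ ^ (m - 1) * (ℓ - 1) →
      St.KumJac g ℓ (algebraMap (ON k N) k) ((od c₀ a).F e) A →
      HLe g (algebraMap (ON k N) k) A (c (N, g, Module.finrank ℚ k)) := by
  obtain ⟨c, hc, H⟩ := kum_bound
  refine ⟨fin5 c, (pr_fin5 hc).to_comp, ?_⟩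
  intro ℓ N g m r k _ _ A c₀ a e hN hk hD hm h2 hg hG hA
  obtain ⟨R, _, _, X₀, Y, _, _, _, j, hP, hJ⟩ := of_kumJac hA
  obtain ⟨n1, n2, n3, n4⟩ := nums hD.cmb.prime hm hg hG
  have hℓ : ℓ ∣ N * (2 * g).factorial := (Nat.dvd_factorial hD.pos n1).mul_left _
  have h0 : 0 < N * (2 * g).factorial := Nat.mul_pos hN (Nat.factorial_pos _)
  obtain ⟨F, _, _, _, x, y, h3, h4, h5⟩ := hJ.exists_tate hP hD (dvd_mul_right _ _) hℓ h0.ne'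
  refine (hJ.hLe hP hD n3 (Fintype.equivFinOfCardEq (hD.cmb.card (by omega) hG)).symm
    (H ℓ _ m r k F x y a e hD.cmb.prime hℓ h0 (fun p hp h => (hk p hp h).mul_right _) h3 h4
      (od_a c₀ a ▸ hD.a) hD.cmb.sum hD.cmb.col ⟨_, hD.cmb.rank hm ⟨0, by omega⟩⟩ h2 h5)).mono ?_
  rw [bd, pow_mul]
  unfold fin5 h1
  dsimp only
  gcongr

end Pool.Agent.Lib.MP_07b2d0_nt.Kh
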