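import Pool.Agent.Lib.MP_07b2d0_nt.Kh.HOne

/-!
Divisors in general position do not move.
-/

set_option autoImplicit false

namespace Pool.Agent.Lib.MP_07b2d0_nt.Kh

open Polynomial WithZero Fh

variable {L E : Type} [Field L] [Field E] [Algebra L E] {ℓ m r g : ℕ} {e : Fin m → Fin r → ℕ}
  {D : Dat L m r}
  [CharZero L]

/-- Restrict to `θ` in the finite group of tuples of `ℓ`-th roots of unity.  The function
`θ ↦ ∑ a u * mon θ u` is a multiple of `θ ↦ ∑ u, mon θ u = ∏ j, ∑ n < ℓ, θ j ^ n`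
(`Finset.prod_univ_sum`), which vanishes for `θ ≠ 1` and is `ℓ ^ m ≠ 0` at `1`; the characters
`θ ↦ mon θ u` are distinct, hence independent (`linearIndependent_monoidHom`). -/
theorem fourier (hℓ : 0 < ℓ) {ζ : L} (hζ : IsPrimitiveRoot ζ ℓ) (a : U ℓ m → L)
    (h : ∀ θ : Fin m → L, (∀ j, θ j ^ ℓ = 1) → θ ≠ 1 → ∑ u, a u * mon θ u = 0) (u u' : U ℓ m) :
    a u = a u' := by
  classical
  let M := MonoidHom.mker (powMonoidHom ℓ : L →* L)
  let χ : U ℓ m → ((Fin m → M) →* L) := fun u =>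
    ⟨⟨fun θ => mon (fun j => (θ j : L)) u, by simp [mon]⟩, fun θ θ' => mon_mul _ _ u⟩
  have hχ : Function.Injective χ := fun u u' hu => funext fun j => by
    have h1 : mon _ u = mon _ u' :=
      DFunLike.congr_fun hu (Pi.mulSingle j ⟨ζ, hζ.pow_eq_one⟩)
    have h2 : ∀ u : U ℓ m, mon (fun j' => ((Pi.mulSingle j (⟨ζ, hζ.pow_eq_one⟩ : M) :
        Fin m → M) j' : L)) u = ζ ^ (u j : ℕ) := fun u => by
      rw [mon, Finset.prod_eq_single j (fun j' _ hj => by simp [Pi.mulSingle_eq_of_ne hj])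
        (by simp), Pi.mulSingle_eq_same]
    rw [h2, h2] at h1
    exact Fin.ext (hζ.pow_inj (u j).2 (u' j).2 h1)
  have hl := Fintype.linearIndependent_iff.1
    ((linearIndependent_monoidHom (Fin m → M) L).comp χ hχ)
    (fun u => a u - (∑ u, a u) / (ℓ : L) ^ m) (funext fun θ => by
      rw [Finset.sum_apply]
      change ∑ u, (a u - _) * mon (fun j => (θ j : L)) u = 0
      simp only [sub_mul, Finset.sum_sub_distrib, ← Finset.mul_sum]
      by_cases h1 : (fun j => (θ j : L)) = 1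
      · have : (ℓ : L) ^ m ≠ 0 := pow_ne_zero _ (Nat.cast_ne_zero.2 hℓ.ne')
        rw [h1]
        simp [mon, this]
      · obtain ⟨j, hj⟩ := Function.ne_iff.1 h1
        have h2 : ∑ u : U ℓ m, mon (fun j => (θ j : L)) u =
            ∏ j, ∑ n : Fin ℓ, (θ j : L) ^ (n : ℕ) := by
          rw [Finset.prod_univ_sum, Fintype.piFinset_univ]
          rfl
        have h3 : ∑ n : Fin ℓ, (θ j : L) ^ (n : ℕ) = 0 := by
          have := geom_sum_mul (θ j : L) ℓ
          rw [show (θ j : L) ^ ℓ = 1 from (θ j).2, sub_self, ← Fin.sum_univ_eq_sum_range] at this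
          exact (mul_eq_zero.1 this).resolve_right (sub_ne_zero.2 hj)
        rw [h _ (fun j => (θ j).2) h1, h2, Finset.prod_eq_zero (Finset.mem_univ j) h3, mul_zero,
          sub_zero])
  exact (sub_eq_zero.1 (hl u)).trans (sub_eq_zero.1 (hl u')).symm

omit [CharZero L] in
/-- `Lagrange.coeff_eq_sum`, or `Lagrange.sum_nodalWeight_mul_inv_sub_ne_zero` and friends. -/
theorem lagr {ξ : Fin g → L} (hξ : Function.Injective ξ) {N : L[X]}
    (hN : N ≠ 0 → N.natDegree + 2 ≤ g) :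
    ∑ i, N.eval (ξ i) / ∏ l ∈ Finset.univ.erase i, (ξ i - ξ l) = 0 := by
  by_cases h0 : N = 0
  · simp [h0]
  have h1 := hN h0
  rw [← Lagrange.coeff_eq_sum hξ.injOn ((natDegree_lt_iff_degree_lt h0).1 (by
    rw [Finset.card_fin]
    omega)), coeff_eq_zero_of_natDegree_lt (by
    rw [Finset.card_fin]
    omega)]

omit [CharZero L] in
theorem ucore_p_ne (hD : D.Ok ℓ e) {τ : L} {η : Fin m → L}
    (h1 : ∀ j, η j ^ ℓ = (D.F e j).eval τ) (h2 : ∀ j, η j ≠ 0) (i : Fin r) :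
    (D.p i).eval τ ≠ 0 := fun h0 => by
  obtain ⟨j, hj⟩ := hD.cmb.col i
  have hj0 : e j i ≠ 0 := fun h => hj (h ▸ dvd_zero ℓ)
  refine pow_ne_zero ℓ (h2 j) ?_
  rw [h1, Dat.F, eval_mul, eval_prod, Finset.prod_eq_zero (Finset.mem_univ i), mul_zero]
  rw [eval_pow, h0, zero_pow hj0]

omit [CharZero L] in
theorem ucore_G_ne (hD : D.Ok ℓ e) {τ : L} {η : Fin m → L}
    (h1 : ∀ j, η j ^ ℓ = (D.F e j).eval τ) (h2 : ∀ j, η j ≠ 0) : D.G.eval τ ≠ 0 := by
  rw [Dat.G, eval_prod]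
  exact Finset.prod_ne_zero_iff.2 fun i _ => ucore_p_ne hD h1 h2 i

omit [CharZero L] in
theorem ucore_zz_ne (hD : D.Ok ℓ e) {τ : L} {η : Fin m → L}
    (h1 : ∀ j, η j ^ ℓ = (D.F e j).eval τ) (h2 : ∀ j, η j ≠ 0) (u : U ℓ m) :
    zz e D τ η u ≠ 0 := by
  refine div_ne_zero ?_ (mon_ne h2 u)
  rw [coe_aeval_eq_eval, eval_prod]
  exact Finset.prod_ne_zero_iff.2 fun i _ => by
    rw [eval_pow]
    exact pow_ne_zero _ (ucore_p_ne hD h1 h2 i)

omit [CharZero L] in
theorem ucore_zz_zero {u : U ℓ m} (hu : ∀ j, (u j : ℕ) = 0) (ξ : E) (η : Fin m → E) :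
    zz e D ξ η u = aeval ξ D.G := by
  simp [zz, wt, mon, hu, Dat.G]

theorem ucore_exp_sum {I : Type} (s : Finset I) (a : I → ℤ) :
    exp (∑ i ∈ s, a i) = ∏ i ∈ s, exp (a i) :=
  Finset.cons_induction rfl (fun i s hi ih => by
    rw [Finset.sum_cons, Finset.prod_cons, exp_add, ih]) s

/-- The algebra.  `G(ξ i) ≠ 0`; `ρ i = N u (ξ i) * G(ξ i) / zz u` gives, with `lagr` for
`N u * X ^ n`, that the vector `ρ i / (G(ξ i) ∏ (ξ i - ξ l))` is in the kernel of the matrix
(`Matrix.eq_zero_of_mulVec_eq_zero`); so all `N u` vanish at all `ξ i`; for `u ≠ 0` the degree is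
less than `g` (`Cmb.dd_pos`, `eq_zero_of_natDegree_lt_card_of_eval_eq_zero`), for `u = 0`
subtract `C (coeff g) * ∏ (X - C (ξ i))`. -/
theorem nonspecial_alg (hD : D.Ok ℓ e) (en : Fin g ≃ JJ ℓ e) {ξ : Fin g → L}
    {η : Fin g → Fin m → L} (h1 : ∀ i j, η i j ^ ℓ = (D.F e j).eval (ξ i)) (h2 : ∀ i j, η i j ≠ 0)
    (h3 : Function.Injective ξ) (h4 : Del en ξ (fun i => zz e D (ξ i) (η i)) ≠ 0)
    {N : U ℓ m → L[X]} (h5 : ∀ u, N u ≠ 0 → (N u).natDegree + dd ℓ e u ≤ g) {ρ : Fin g → L}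
    (h6 : ∀ i u, (N u).eval (ξ i) * (D.G.eval (ξ i) / zz e D (ξ i) (η i) u) = ρ i) :
    ∃ c : L, ∀ u, N u = if ∀ j, (u j : ℕ) = 0 then C c * ∏ i, (X - C (ξ i)) else 0 := by
  classical
  have hG := fun i => ucore_G_ne hD (h1 i) (h2 i)
  have hz := fun i => ucore_zz_ne hD (h1 i) (h2 i)
  have hp : ∀ i, ∏ l ∈ Finset.univ.erase i, (ξ i - ξ l) ≠ 0 := fun i =>
    Finset.prod_ne_zero_iff.2 fun l hl =>
      sub_ne_zero.2 (h3.ne (Finset.ne_of_mem_erase hl).symm)
  have hy := Matrix.eq_zero_of_mulVec_eq_zero h4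
    (v := fun i => ρ i / (D.G.eval (ξ i) * ∏ l ∈ Finset.univ.erase i, (ξ i - ξ l))) (by
      funext J
      have hl := lagr h3 (N := N (en J).1 * X ^ ((en J).2 : ℕ)) fun h0 => by
        have h7 := left_ne_zero_of_mul h0
        have h8 := h5 _ h7
        have h9 := (en J).2.2
        rw [natDegree_mul_X_pow _ h7]
        omega
      rw [Matrix.mulVec, dotProduct]
      refine Eq.trans (Finset.sum_congr rfl fun i _ => ?_) hl
      have := hG i
      have := hz i (en J).1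
      have := hp i
      rw [Matrix.of_apply, ← h6 i (en J).1, eval_mul, eval_pow, eval_X]
      field_simp)
  have hN : ∀ u i, (N u).eval (ξ i) = 0 := fun u i => by
    have h7 := (div_eq_zero_iff.1 (congrFun hy i)).resolve_right (mul_ne_zero (hG i) (hp i))
    exact (mul_eq_zero.1 ((h6 i u).trans h7)).resolve_right (div_ne_zero (hG i) (hz i u))
  let u₀ : U ℓ m := fun _ => ⟨0, hD.pos⟩
  refine ⟨(N u₀).coeff g, fun u => ?_⟩
  split_ifs with hu
  · obtain rfl : u = u₀ := funext fun j => Fin.ext (hu j)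
    have hm : (∏ i, (X - C (ξ i))).Monic := monic_prod_of_monic _ _ fun i _ => monic_X_sub_C _
    have hd : (∏ i, (X - C (ξ i))).natDegree = g := by
      rw [natDegree_prod_of_monic _ _ fun i _ => monic_X_sub_C _]
      simp
    refine sub_eq_zero.1 (eq_zero_of_degree_lt_of_eval_index_eq_zero Finset.univ h3.injOn ?_
      fun i _ => ?_)
    · rw [Finset.card_fin, degree_lt_iff_coeff_zero]
      intro n hn
      rw [coeff_sub, coeff_C_mul]
      rcases hn.eq_or_lt with hn | hn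
      · have := hm.coeff_natDegree
        rw [hd] at this
        rw [← hn, this, mul_one, sub_self]
      · have h7 : (N u₀).natDegree < n := by
          by_cases h0 : N u₀ = 0
          · rw [h0, natDegree_zero]
            omega
          · have := h5 _ h0
            omega
        rw [coeff_eq_zero_of_natDegree_lt h7, coeff_eq_zero_of_natDegree_lt (hd.trans_lt hn),
          mul_zero, sub_zero]
    · rw [eval_sub, hN, eval_mul, eval_prod, Finset.prod_eq_zero (Finset.mem_univ i) (by simp),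
        mul_zero, sub_zero]
  · by_contra h0
    have h7 := h5 u h0
    have h8 := hD.cmb.dd_pos (not_forall.1 hu)
    exact h0 (eq_zero_of_natDegree_lt_card_of_eval_eq_zero _ h3 (hN u) (by
      rw [Fintype.card_fin]
      omega))

/-- `ψ = φ * ∏ (x - ξ l)` satisfies the hypothesis of `K1.rr` (see `Fh.IsJac.uniqJ` in
Fh/Uniq.lean, `exp_sum` there).  For `θ ≠ 1` take `v` centred at `(ξ i, θ η i)` (`exists_cen`);
it differs from all `P l` (`Vl.unique`), so `v φ ≤ 1` and `ψ` has the value `0` there; its value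
is also `∑ N u (ξ i) * G(ξ i) / zz u * mon θ u` (`Cn.zz`, `zz_tw`).  Then `fourier`,
`nonspecial_alg`; `G / zz 0 = 1`. -/
theorem K1.nonspecial {x : E} {w : Fin m → E} (h : K1 ℓ e D x w) (en : Fin g ≃ JJ ℓ e)
    {ξ : Fin g → L} {η : Fin g → Fin m → L} (h1 : ∀ i j, η i j ^ ℓ = (D.F e j).eval (ξ i))
    (h2 : ∀ i j, η i j ≠ 0) (h3 : Function.Injective ξ)
    (h4 : Del en ξ (fun i => zz e D (ξ i) (η i)) ≠ 0) {P : Fin g → Plc L E}
    (hP : ∀ i, Cn (P i) x w (ξ i) (η i)) {φ : E}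
    (hφ : ∀ v : Plc L E, v.1 φ ≤ exp (∑ i, Finsupp.single (P i) (1 : ℤ) v)) :
    ∃ c, algebraMap L E c = φ := by
  classical
  obtain ⟨ζ, hζ⟩ := h.zeta
  have h0 : K0 ℓ e D x w := h.toKG0
  obtain ⟨N, hN, h5⟩ := h.rr (g := g) (z := φ * ∏ l, (x - algebraMap L E (ξ l))) fun v => by
    rw [map_mul, map_prod]
    refine (mul_le_mul_left (hφ v) _).trans ?_
    rw [ucore_exp_sum, ← Finset.prod_mul_distrib]
    refine (Finset.prod_le_pow_card _ _ _ fun l _ => ?_).trans_eq (by rw [Finset.card_fin])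
    rw [Finsupp.single_apply]
    split_ifs with hl
    · subst hl
      refine le_trans ?_ (le_max_left _ _)
      rw [← lt_mul_exp_iff_le one_ne_zero, mul_comm]
      exact mul_lt_mul_of_pos_right (hP l).1 exp_pos
    · rw [exp_zero, one_mul]
      exact v.1.map_sub_le (le_max_right _ _) ((vl_const v _).le_one.trans (le_max_left _ _))
  let u₀ : U ℓ m := fun _ => ⟨0, h.ok.pos⟩
  have key : ∀ i u, (N u).eval (ξ i) * (D.G.eval (ξ i) / zz e D (ξ i) (η i) u) =
      (N u₀).eval (ξ i) * (D.G.eval (ξ i) / zz e D (ξ i) (η i) u₀) := fun i u => by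
    refine fourier h.ok.pos hζ
      (fun u => (N u).eval (ξ i) * (D.G.eval (ξ i) / zz e D (ξ i) (η i) u)) (fun θ t₁ t₂ => ?_) u u₀
    have t₀ : ∀ j, θ j ≠ 0 := fun j t => by
      have := t₁ j
      rw [t, zero_pow h.ok.pos.ne'] at this
      exact zero_ne_one this
    have e₁ : ∀ j, (θ j * η i j) ^ ℓ = (D.F e j).eval (ξ i) := fun j => by
      rw [mul_pow, t₁, one_mul, h1]
    have e₂ : ∀ j, θ j * η i j ≠ 0 := fun j => mul_ne_zero (t₀ j) (h2 i j)
    obtain ⟨v, hv⟩ := h.exists_cen e₁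
    have a₁ : v.1 φ ≤ 1 := by
      have := hφ v
      rwa [Finset.sum_eq_zero, exp_zero] at this
      intro l _
      refine Finsupp.single_eq_of_ne fun hl => t₂ (funext fun j => ?_)
      subst hl
      obtain rfl := h3 (hv.1.unique (hP l).1)
      exact mul_right_cancel₀ (h2 _ j) (((hv.2 j).unique ((hP _).2 j)).trans (one_mul _).symm)
    have a₂ : Vl v (∏ l, (x - algebraMap L E (ξ l))) 0 := by
      have := Vl.prod Finset.univ fun l _ => hv.1.sub (vl_const v (ξ l))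
      rwa [Finset.prod_eq_zero (f := fun l => ξ i - ξ l) (Finset.mem_univ i) (sub_self _)] at this
    have a₃ : Vl v (φ * ∏ l, (x - algebraMap L E (ξ l))) 0 := by
      rw [vl_zero, map_mul]
      exact (mul_le_of_le_one_left' a₁).trans_lt (vl_zero.1 a₂)
    have a₄ := Vl.sum Finset.univ fun u _ => (hv.1.aeval (N u)).mul
      ((hv.1.aeval D.G).div (hv.zz (e := e) (D := D) e₂ u) (ucore_zz_ne h.ok e₁ e₂ u))
    rw [← hN] at a₄
    refine Eq.trans (Finset.sum_congr rfl fun u _ => ?_) (a₄.unique a₃)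
    have := mon_ne t₀ u
    have := ucore_zz_ne h.ok (h1 i) (h2 i) u
    rw [zz_tw]
    field_simp
  obtain ⟨c, hc⟩ := nonspecial_alg h.ok en h1 h2 h3 h4 h5 key
  refine ⟨c, mul_right_cancel₀ (b := ∏ l, (x - algebraMap L E (ξ l)))
    (Finset.prod_ne_zero_iff.2 fun l _ => h0.sub_ne () _) ?_⟩
  rw [hN, Finset.sum_eq_single u₀ (fun u _ hu => by
      rw [hc, if_neg fun t => hu (funext fun j => Fin.ext (t j)), map_zero, zero_mul])
    (fun t => (t (Finset.mem_univ _)).elim), hc, if_pos fun _ => rfl,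
    ucore_zz_zero fun _ => rfl, div_self (h0.aeval_ne () h.ok.G_ne), mul_one]
  simp [map_prod]

end Pool.Agent.Lib.MP_07b2d0_nt.Kh
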