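import Pool.Agent.Lib.MP_07b2d0_nt.Kh.VBas
import Pool.Agent.Lib.MP_07b2d0_nt.Fh.ADer

/-!
Valuation rings are stable under derivations.
-/

set_option autoImplicit false

namespace Pool.Agent.Lib.MP_07b2d0_nt.Kh

open Polynomial WithZero Fh

variable {L E : Type} [Field L] [Field E] [Algebra L E] {ℓ m r g : ℕ} {e : Fin m → Fin r → ℕ}
  {D : Dat L m r}

/-- The fractions with numerator in `R` and denominator in `R` of valuation one. -/
def vlocT (v : Plc L E) (R : Subalgebra L E) : Subalgebra L E where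
  carrier := {z | ∃ b ∈ R, ∃ b' ∈ R, v.1 b' = 1 ∧ z * b' = b}
  mul_mem' := by
    rintro _ _ ⟨b, hb, b', hb', h, rfl⟩ ⟨c, hc, c', hc', h', rfl⟩
    exact ⟨_, mul_mem hb hc, _, mul_mem hb' hc', by rw [map_mul, h, h', mul_one], by ring⟩
  add_mem' := by
    rintro _ _ ⟨b, hb, b', hb', h, rfl⟩ ⟨c, hc, c', hc', h', rfl⟩
    exact ⟨_, add_mem (mul_mem hb hc') (mul_mem hc hb'), _, mul_mem hb' hc',
      by rw [map_mul, h, h', mul_one], by ring⟩
  algebraMap_mem' c := ⟨_, R.algebraMap_mem c, 1, one_mem _, map_one _, mul_one _⟩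

theorem vloc_le (v : Plc L E) (R : Subalgebra L E) : R ≤ vlocT v R :=
  fun a ha => ⟨a, ha, 1, one_mem _, map_one _, mul_one _⟩

theorem vloc_inv {v : Plc L E} {R : Subalgebra L E} {u : E} (hu : u ∈ vlocT v R)
    (h : v.1 u = 1) : u⁻¹ ∈ vlocT v R := by
  obtain ⟨b, hb, b', hb', h', rfl⟩ := hu
  have h0 : u ≠ 0 := fun h0 => by simp [h0] at h
  exact ⟨b', hb', _, hb, by rw [map_mul, h, h', mul_one], inv_mul_cancel_left₀ h0 _⟩

/-- Every element of the ring of fractions of valuation less than one is divisible by `π`; the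
valuation is discrete, so common factors `π` can be removed from a fraction. -/
theorem frac_of_gen (v : Plc L E) {s : Set E} (hs : s.Finite)
    (ht : IntermediateField.adjoin L s = ⊤) (h1 : ∀ a ∈ s, v.1 a ≤ 1) {π : E}
    (hπ : π ∈ Algebra.adjoin L s) (hπ' : v.1 π < 1)
    (hg : ∀ a ∈ s, ∃ c : L, ∃ b ∈ Algebra.adjoin L s, ∃ b' ∈ Algebra.adjoin L s,
      v.1 b' = 1 ∧ (a - algebraMap L E c) * b' = π * b) {z : E} (hz : v.1 z ≤ 1) :
    ∃ b ∈ Algebra.adjoin L s, ∃ b' ∈ Algebra.adjoin L s, v.1 b' = 1 ∧ z * b' = b := by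
  set R := Algebra.adjoin L s
  have hT := vloc_le v R
  have hR : ∀ a ∈ R, v.1 a ≤ 1 := fun a ha => by
    induction ha using Algebra.adjoin_induction with
    | mem a ha => exact h1 a ha
    | algebraMap c => exact v.2.2 c
    | add a b _ _ ha hb => exact v.1.map_add_le ha hb
    | mul a b _ _ ha hb => exact (map_mul v.1 a b).trans_le (mul_le_one' ha hb)
  have hv : ∀ a ∈ vlocT v R, v.1 a ≤ 1 := by
    rintro a ⟨b, hb, b', -, h, rfl⟩
    simpa [h] using hR _ hb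
  have hc : ∀ a ∈ R, ∃ c : L, ∃ t ∈ vlocT v R, a = algebraMap L E c + π * t := fun a ha => by
    induction ha using Algebra.adjoin_induction with
    | mem a ha =>
      obtain ⟨c, b, hb, b', hb', h, h'⟩ := hg a ha
      have h0 : b' ≠ 0 := fun h0 => by simp [h0] at h
      refine ⟨c, b * b'⁻¹, mul_mem (hT hb) (vloc_inv (hT hb') h), ?_⟩
      rw [← mul_assoc, ← h', mul_inv_cancel_right₀ h0, add_sub_cancel]
    | algebraMap c => exact ⟨c, 0, zero_mem _, by simp⟩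
    | add a b _ _ ha hb =>
      obtain ⟨c, t, ht, rfl⟩ := ha
      obtain ⟨c', t', ht', rfl⟩ := hb
      exact ⟨c + c', t + t', add_mem ht ht', by rw [map_add]; ring⟩
    | mul a b _ _ ha hb =>
      obtain ⟨c, t, ht, rfl⟩ := ha
      obtain ⟨c', t', ht', rfl⟩ := hb
      exact ⟨c * c', _, add_mem (add_mem (mul_mem (algebraMap_mem _ c) ht')
        (mul_mem ht (algebraMap_mem _ c'))) (mul_mem (hT hπ) (mul_mem ht ht')),
        by rw [map_mul]; ring⟩
  have hd : ∀ a ∈ vlocT v R, v.1 a < 1 → ∃ t ∈ vlocT v R, a = π * t := by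
    rintro a ⟨b, hb, b', hb', h, e⟩ ha
    obtain ⟨c, t, ht, e'⟩ := hc b hb
    have h0 : b' ≠ 0 := fun h0 => by simp [h0] at h
    have h2 : v.1 (π * t) < 1 :=
      (map_mul v.1 π t).trans_lt ((mul_le_of_le_one_right' (hv t ht)).trans_lt hπ')
    have h3 : v.1 b < 1 := by rwa [← e, map_mul, h, mul_one]
    have h4 : c = 0 := by
      by_contra h4
      have := v.1.map_sub_lt h3 h2
      rw [e', add_sub_cancel_right, plc_eq_one v h4] at this
      exact this.false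
    refine ⟨t * b'⁻¹, mul_mem ht (vloc_inv (hT hb') h), ?_⟩
    rw [h4, map_zero, zero_add] at e'
    rw [← mul_assoc, ← e', ← e, mul_inv_cancel_right₀ h0]
  have key : ∀ k : ℕ, ∀ a ∈ vlocT v R, ∀ b ∈ vlocT v R, b ≠ 0 → -(k : ℤ) ≤ log (v.1 b) →
      v.1 a ≤ v.1 b → a / b ∈ vlocT v R := fun k => by
    induction k with
    | zero =>
      intro a ha b hb h0 hk _
      have h2 := v.1.ne_zero_iff.2 h0
      have h3 : v.1 b = 1 := le_antisymm (hv b hb)
        ((log_le_log one_ne_zero h2).1 (by simpa using hk))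
      exact div_eq_mul_inv a b ▸ mul_mem ha (vloc_inv hb h3)
    | succ k ih =>
      intro a ha b hb h0 hk hab
      rcases (hv b hb).eq_or_lt with h3 | h3
      · exact div_eq_mul_inv a b ▸ mul_mem ha (vloc_inv hb h3)
      obtain ⟨a', ha', rfl⟩ := hd a ha (hab.trans_lt h3)
      obtain ⟨b', hb', rfl⟩ := hd b hb h3
      have h4 := left_ne_zero_of_mul h0
      have h5 := right_ne_zero_of_mul h0
      have h6 := v.1.ne_zero_iff.2 h4
      have h7 : log (v.1 π) < 0 := by simpa using (log_lt_log h6 one_ne_zero).2 hπ'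
      rw [mul_div_mul_left _ _ h4]
      rw [map_mul, log_mul h6 (v.1.ne_zero_iff.2 h5)] at hk
      rw [map_mul, map_mul] at hab
      exact ih a' ha' b' hb' h5 (by push_cast at hk; omega)
        (le_of_mul_le_mul_left hab (zero_lt_iff.2 h6))
  obtain ⟨a, ha, b, hb, rfl⟩ := IntermediateField.mem_adjoin_iff_div.1
    (ht.ge (IntermediateField.mem_top (x := z)))
  rcases eq_or_ne b 0 with rfl | h0
  · rw [div_zero]
    exact (vlocT v R).zero_mem
  refine key (log (v.1 b)).natAbs a (hT ha) b (hT hb) h0 (by omega) ?_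
  rwa [map_div₀, div_le_one₀ (zero_lt_iff.2 (v.1.ne_zero_iff.2 h0))] at hz

variable {n : ℕ} {τ : L} {ξ π : E} {v : Plc L E}

theorem Chart.val (h : Chart ℓ n τ ξ π) (hv : Vl v ξ τ) :
    v.1 π ^ n = v.1 (ξ - algebraMap L E τ) := by
  obtain ⟨A, B, hA, hB, he⟩ := h.unif
  have e1 := congrArg v.1 he
  rwa [map_mul, map_mul, (hv.aeval A).eq_one hA, (hv.aeval B).eq_one hB, mul_one, mul_one,
    map_pow] at e1

theorem vloc_nat [CharZero L] (v : Plc L E) {k : ℕ} (hk : 0 < k) : v.1 (k : E) = 1 := by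
  rw [← map_natCast (algebraMap L E)]
  exact plc_eq_one v (Nat.cast_ne_zero.2 hk.ne')

theorem vloc_mul_le {a b : E} {x : ℤᵐ⁰} (ha : v.1 a ≤ x) (hb : v.1 b ≤ 1) : v.1 (a * b) ≤ x := by
  rw [map_mul]
  exact (mul_le_mul' ha hb).trans_eq (mul_one x)

/-- The generators of a chart have values. -/
theorem vloc_root (hℓ : 0 < ℓ) {ζ : L} (hζ : IsPrimitiveRoot ζ ℓ) (hv : Vl v ξ τ) {η : E}
    {A B : L[X]} {θ : L} (hθ : θ ≠ 0) (hA : A.eval τ ≠ 0) (hB : B.eval τ = θ ^ ℓ * A.eval τ)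
    (he : η ^ ℓ * aeval ξ A = aeval ξ B) : ∃ θ', θ' ≠ 0 ∧ θ' ^ ℓ = θ ^ ℓ ∧ Vl v η θ' := by
  have h0 : aeval ξ A ≠ 0 := fun h0 => by
    have := (hv.aeval A).eq_one hA
    rw [h0, map_zero] at this
    exact zero_ne_one this
  have h1 := (hv.aeval B).div (hv.aeval A) hA
  rw [← he, hB, mul_div_cancel_right₀ _ h0, mul_div_cancel_right₀ _ hA] at h1
  obtain ⟨θ', h2, h3⟩ := h1.root hℓ hζ
  refine ⟨θ', fun h4 => pow_ne_zero ℓ hθ ?_, h2, h3⟩
  rw [← h2, h4, zero_pow hℓ.ne']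

/-- The valuation ring is stable under the derivation. -/
theorem Chart.stable [CharZero L] (h : Chart ℓ n τ ξ π) (hℓ : 0 < ℓ) {ζ : L}
    (hζ : IsPrimitiveRoot ζ ℓ) (hv : Vl v ξ τ) {K : Type} [Field K] [Algebra K E]
    (Dr : Derivation K E E) (hτ : Dr (algebraMap L E τ) = 0)
    (h1 : ∀ c : L, v.1 (Dr (algebraMap L E c)) ≤ 1) (h2 : v.1 (Dr ξ) ≤ v.1 π ^ (n - 1)) {z : E}
    (hz : v.1 z ≤ 1) : v.1 (Dr z) ≤ 1 := by
  have hval := h.val hv
  obtain ⟨k, rfl⟩ : ∃ k, n = k + 1 := ⟨n - 1, by have := h.pos; omega⟩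
  rw [Nat.add_sub_cancel] at h2
  have hπ : v.1 π < 1 := by
    by_contra hc
    exact absurd (hval ▸ one_le_pow_of_one_le' (not_lt.1 hc) (k + 1)) (not_le.2 hv)
  have hπk : v.1 π ^ k ≤ 1 := pow_le_one' hπ.le k
  have hc : ∀ c : L, algebraMap L E c ∈ v.1.integer ∧ Dr (algebraMap L E c) ∈ v.1.integer :=
    fun c => ⟨v.2.2 c, h1 c⟩
  have hξ : ξ ∈ v.1.integer ∧ Dr ξ ∈ v.1.integer := ⟨hv.le_one, h2.trans hπk⟩
  have hP : ∀ P : L[X], v.1 (Dr (aeval ξ P)) ≤ 1 := fun P =>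
    (der_adjoin Dr v.1.integer hc (G := {ξ}) (fun a ha => ha ▸ hξ)
      (aeval_mem_adjoin_singleton L ξ)).2
  obtain ⟨A₀, B₀, hA₀, hB₀, he₀⟩ := h.unif
  obtain ⟨s, hs, ht, hgen⟩ := h.gen
  have hDπ : v.1 (Dr π) ≤ 1 := by
    by_cases h0 : π = 0
    · rw [h0, map_zero, map_zero]
      exact zero_le_one
    have e1 := congrArg Dr he₀
    rw [Dr.leibniz, Dr.leibniz, Dr.leibniz_pow, map_sub, hτ, sub_zero] at e1
    simp only [smul_eq_mul, nsmul_eq_mul, Nat.add_sub_cancel] at e1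
    have e2 : π ^ k * Dr π * (((k + 1 : ℕ) : E) * aeval ξ A₀) =
        (ξ - algebraMap L E τ) * Dr (aeval ξ B₀) + Dr ξ * aeval ξ B₀ -
          π ^ k * (π * Dr (aeval ξ A₀)) := by
      linear_combination e1
    have e3 : v.1 (π ^ k * Dr π * (((k + 1 : ℕ) : E) * aeval ξ A₀)) ≤ v.1 π ^ k := by
      rw [e2]
      refine v.1.map_sub_le (v.1.map_add_le (vloc_mul_le ?_ (hP _))
        (vloc_mul_le h2 (hv.aeval _).le_one))
        (vloc_mul_le (map_pow v.1 π k).le (vloc_mul_le hπ.le (hP _)))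
      rw [← hval, pow_succ]
      exact mul_le_of_le_one_right' hπ.le
    rw [map_mul, map_mul, map_mul, vloc_nat v k.succ_pos, (hv.aeval A₀).eq_one hA₀, mul_one,
      mul_one, map_pow] at e3
    have e4 : 0 < v.1 π ^ k := pow_pos (zero_lt_iff.2 ((map_ne_zero v.1).2 h0)) k
    exact (mul_le_iff_le_one_right e4).1 e3
  have hG : ∀ a ∈ ({ξ, π} ∪ s : Set E), a ∈ v.1.integer ∧ Dr a ∈ v.1.integer := by
    rintro a ((rfl | rfl) | ha)
    · exact hξ
    · exact ⟨hπ.le, hDπ⟩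
    obtain ⟨A, B, θ, hθ, hA, hB, he⟩ := hgen a ha
    obtain ⟨θ', h3, -, h5⟩ := vloc_root hℓ hζ hv hθ hA hB he
    refine ⟨h5.le_one, ?_⟩
    have e1 := congrArg Dr he
    rw [Dr.leibniz, Dr.leibniz_pow] at e1
    simp only [smul_eq_mul, nsmul_eq_mul] at e1
    have e2 : Dr a * (a ^ (ℓ - 1) * ((ℓ : E) * aeval ξ A)) =
        Dr (aeval ξ B) - a ^ ℓ * Dr (aeval ξ A) := by
      linear_combination e1
    have e3 : v.1 (Dr a * (a ^ (ℓ - 1) * ((ℓ : E) * aeval ξ A))) ≤ 1 := by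
      rw [e2]
      exact v.1.map_sub_le (hP _) (vloc_mul_le (h5.pow ℓ).le_one (hP _))
    rwa [map_mul, map_mul, map_mul, vloc_nat v hℓ, (hv.aeval A).eq_one hA, map_pow, h5.eq_one h3,
      one_pow, mul_one, mul_one, mul_one] at e3
  have mξ : ξ ∈ Algebra.adjoin L ({ξ, π} ∪ s : Set E) := Algebra.subset_adjoin (.inl (.inl rfl))
  have mπ : π ∈ Algebra.adjoin L ({ξ, π} ∪ s : Set E) := Algebra.subset_adjoin (.inl (.inr rfl))
  have mP : ∀ P : L[X], aeval ξ P ∈ Algebra.adjoin L ({ξ, π} ∪ s : Set E) := fun P =>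
    Algebra.adjoin_le (Set.singleton_subset_iff.2 mξ) (aeval_mem_adjoin_singleton L ξ)
  obtain ⟨b, hb, b', hb', e1, e2⟩ := frac_of_gen v (((Set.finite_singleton π).insert ξ).union hs)
    ht (fun a ha => (hG a ha).1) mπ hπ (by
      rintro a ((rfl | rfl) | ha)
      · exact ⟨τ, π ^ k * aeval a A₀, mul_mem (pow_mem mπ k) (mP _), aeval a B₀, mP _,
          (hv.aeval B₀).eq_one hB₀, by linear_combination -he₀⟩
      · exact ⟨0, 1, one_mem _, 1, one_mem _, map_one _, by rw [map_zero, sub_zero]⟩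
      obtain ⟨A, B, θ, hθ, hA, hB, he⟩ := hgen a ha
      obtain ⟨θ', h3, h4, h5⟩ := vloc_root hℓ hζ hv hθ hA hB he
      obtain ⟨Q, hQ⟩ : X - C τ ∣ B - C (θ ^ ℓ) * A := dvd_iff_isRoot.2 (by simp [hB])
      have e1 := congrArg (aeval ξ) hQ
      rw [map_sub, map_mul, map_mul, map_sub, aeval_C, aeval_C, aeval_X, ← h4, map_pow] at e1
      have e2 := (Commute.all a (algebraMap L E θ')).geom_sum₂_mul ℓ
      have e3 : Vl v (∑ i ∈ Finset.range ℓ, a ^ i * algebraMap L E θ' ^ (ℓ - 1 - i))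
          (∑ i ∈ Finset.range ℓ, θ' ^ i * θ' ^ (ℓ - 1 - i)) :=
        Vl.sum _ fun i _ => (h5.pow i).mul ((vl_const v θ').pow _)
      rw [geom_sum₂_self] at e3
      refine ⟨θ', π ^ k * aeval ξ A₀ * aeval ξ Q, mul_mem (mul_mem (pow_mem mπ k) (mP _)) (mP _),
        (∑ i ∈ Finset.range ℓ, a ^ i * algebraMap L E θ' ^ (ℓ - 1 - i)) * aeval ξ A * aeval ξ B₀,
        mul_mem (mul_mem (sum_mem fun i _ => mul_mem
          (pow_mem (Algebra.subset_adjoin (.inr ha)) i) (pow_mem (algebraMap_mem _ θ') _)) (mP _))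
          (mP _), ?_, ?_⟩
      · rw [map_mul, map_mul, (hv.aeval A).eq_one hA, (hv.aeval B₀).eq_one hB₀, mul_one, mul_one]
        exact e3.eq_one (mul_ne_zero (Nat.cast_ne_zero.2 hℓ.ne') (pow_ne_zero _ h3))
      · linear_combination (aeval ξ A * aeval ξ B₀) * e2 + aeval ξ B₀ * he + aeval ξ B₀ * e1 -
          aeval ξ Q * he₀) hz
  have e3 := congrArg Dr e2
  rw [Dr.leibniz, smul_eq_mul, smul_eq_mul] at e3
  have e4 : Dr z * b' = Dr b - z * Dr b' := by linear_combination e3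
  have e5 : v.1 (Dr z * b') ≤ 1 := by
    rw [e4]
    exact v.1.map_sub_le (der_adjoin Dr v.1.integer hc hG hb).2
      (vloc_mul_le hz (der_adjoin Dr v.1.integer hc hG hb').2)
  rwa [map_mul, e1, mul_one] at e5

end Pool.Agent.Lib.MP_07b2d0_nt.Kh
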