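import Pool.Agent.Lib.MP_07b2d0_nt.Kh.VBas
import Pool.Agent.Lib.MP_07b2d0_nt.Kh.GNf
import Pool.Agent.Lib.MP_07b2d0_nt.Kh.GDer
import Pool.Agent.Lib.MP_07b2d0_nt.Fh.Tate

/-!
Existence of places.
-/

set_option autoImplicit false

namespace Pool.Agent.Lib.MP_07b2d0_nt.Kh

open Polynomial WithZero Fh
open scoped IntermediateField

variable {L E : Type} [Field L] [Field E] [Algebra L E] {ℓ m r g : ℕ} {e : Fin m → Fin r → ℕ}
  {D : Dat L m r}
  [CharZero L]

open scoped IntermediateField.algebraAdjoinAdjoin in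
theorem exists_plc {t : E} (ht : Transcendental L t) (hf : FiniteDimensional L⟮t⟯ E)
    (A : Subalgebra L E) (htA : t ∈ A) (hA : ∀ a ∈ A, IsIntegral (Algebra.adjoin L {t}) a)
    (φ : A →ₐ[L] L) : ∃ v : Plc L E, ∀ a : A, Vl v a (φ a) := by
  let A₀ := Algebra.adjoin L ({t} : Set E)
  let e := Polynomial.algEquivOfTranscendental L t ht
  have hpid : IsPrincipalIdealRing A₀ := .of_surjective e.toRingHom e.surjective
  have hch : CharZero L⟮t⟯ := charZero_of_injective_algebraMap (algebraMap L _).injective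
  let R := integralClosure A₀ E
  have hded : IsDedekindDomain R := integralClosure.isDedekindDomain A₀ L⟮t⟯ E
  have hfr : IsFractionRing R E := integralClosure.isFractionRing_of_finite_extension L⟮t⟯ E
  let ι : A →+* R := (A.val.toRingHom).codRestrict R.toSubring fun a => hA a a.2
  let _ : Algebra A R := ι.toAlgebra
  have hA₀ : A₀ ≤ A := Algebra.adjoin_le (by simpa using htA)
  have hint : Algebra.IsIntegral A R := ⟨fun r => by
    obtain ⟨p, hp, hr⟩ := r.2
    refine ⟨p.map (Subalgebra.inclusion hA₀).toRingHom, hp.map _, Subtype.ext ?_⟩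
    rw [eval₂_map]
    exact (hom_eval₂ p ((algebraMap A R).comp (Subalgebra.inclusion hA₀).toRingHom)
      R.val.toRingHom r).trans hr⟩
  have hinj : Function.Injective (algebraMap A R) := fun a b h =>
    Subtype.ext (congrArg (fun r : R => (r : E)) h)
  have hP : (RingHom.ker φ).IsPrime := RingHom.ker_isPrime φ
  obtain ⟨Q, hQ, hQP⟩ := Ideal.exists_ideal_over_prime_of_isIntegral_of_isDomain (S := R)
    (RingHom.ker φ) (by rw [(RingHom.injective_iff_ker_eq_bot _).mp hinj]; exact bot_le)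
  have hmem : ∀ a : A, algebraMap A R (a - algebraMap L A (φ a)) ∈ Q := fun a => by
    rw [← Ideal.mem_comap, hQP, RingHom.mem_ker]
    simp
  have hQ0 : Q ≠ ⊥ := by
    rintro rfl
    have h2 : t - algebraMap L E (φ ⟨t, htA⟩) = 0 :=
      congrArg Subtype.val ((Ideal.mem_bot).mp (hmem ⟨t, htA⟩))
    exact ht (sub_eq_zero.mp h2 ▸ isAlgebraic_algebraMap _)
  let 𝔮 : IsDedekindDomain.HeightOneSpectrum R := ⟨Q, hQ, hQ0⟩
  exact ⟨⟨𝔮.valuation E, 𝔮.valuation_surjective E, fun c =>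
    𝔮.valuation_le_one (K := E) (algebraMap A R (algebraMap L A c))⟩,
    fun a => (𝔮.valuation_lt_one_iff_mem (K := E) _).mpr (hmem a)⟩

theorem exists_plc_lt {x t : E} (hx : Transcendental L x) (hf : FiniteDimensional L⟮x⟯ E)
    (ht : Transcendental L t) : ∃ v : Plc L E, v.1 t < 1 := by
  let e := Polynomial.algEquivOfTranscendental L t ht
  obtain ⟨v, h⟩ := exists_plc ht (fd_of_trans hx hf ht) (Algebra.adjoin L {t})
    (Algebra.self_mem_adjoin_singleton L t) (fun a ha => isIntegral_algebraMap (x := (⟨a, ha⟩ :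
      Algebra.adjoin L {t}))) ((aeval 0).comp e.symm.toAlgHom)
  have h₄ := h (e X)
  simp only [AlgHom.comp_apply, AlgEquiv.coe_toAlgHom, e.symm_apply_apply, aeval_X] at h₄
  exact ⟨v, by simpa [e] using vl_zero.1 h₄⟩

omit [CharZero L] in
theorem vplc_one (v : Plc L E) {x : E} (hx : v.1 x ≤ 1) {π P : L[X]} (h : v.1 (aeval x π) < 1)
    (hP : IsCoprime π P) : v.1 (aeval x P) = 1 := by
  obtain ⟨a, b, hab⟩ := hP
  refine (plc_aeval_le v hx P).eq_or_lt.resolve_right fun h' => ?_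
  have : v.1 (aeval x (a * π + b * P)) < 1 := by
    rw [map_add, map_mul, map_mul]
    refine v.1.map_add_lt ?_ ?_ <;> rw [map_mul]
    exacts [mul_lt_one_of_nonneg_of_lt_one_right (plc_aeval_le v hx a) zero_le h,
      mul_lt_one_of_nonneg_of_lt_one_right (plc_aeval_le v hx b) zero_le h']
  simp [hab] at this

theorem poly_of_val {x : E} (hx : Transcendental L x) (hf : FiniteDimensional L⟮x⟯ E) {G : L[X]}
    (hG : G.Separable) {n : ℕ} {h : E} (hh : h ∈ L⟮x⟯)
    (hv : ∀ v : Plc L E, v.1 x ≤ 1 → v.1 h ^ (n + 1) * v.1 (aeval x G) ^ n ≤ 1) :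
    ∃ N : L[X], aeval x N = h := by
  have hne : ∀ {P : L[X]}, P ≠ 0 → aeval x P ≠ 0 := fun hP h0 => hx ⟨_, hP, h0⟩
  obtain ⟨A₀, B₀, rfl⟩ := (IntermediateField.mem_adjoin_simple_iff L h).1 hh
  rcases eq_or_ne B₀ 0 with rfl | hB₀
  · exact ⟨0, by simp⟩
  obtain ⟨A, B, c, hAB, rfl, rfl⟩ := UniqueFactorizationMonoid.exists_reduced_factors' A₀ B₀ hB₀
  rw [map_mul, map_mul, mul_div_mul_left _ _ (hne (left_ne_zero_of_mul hB₀))] at hv ⊢
  have hB := right_ne_zero_of_mul hB₀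
  by_cases hu : IsUnit B
  · obtain ⟨B', hB'⟩ := hu.exists_right_inv
    refine ⟨A * B', ?_⟩
    rw [eq_div_iff (hne hB), ← map_mul, mul_assoc, mul_comm B', hB', mul_one]
  obtain ⟨π, hπ, B', rfl⟩ := WfDvdMonoid.exists_irreducible_factor hu hB
  obtain ⟨v, h1⟩ := exists_plc_lt hx hf (hx.aeval π hπ.natDegree_pos.ne'
    (mem_nonZeroDivisors_of_ne_zero (leadingCoeff_ne_zero.2 hπ.ne_zero)))
  have h2 : v.1 x ≤ 1 := le_of_not_gt fun h => by
    rw [plc_aeval_inf v h hπ.ne_zero] at h1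
    exact h1.not_ge (one_le_pow₀ h.le)
  have h3 : v.1 (aeval x π) ≤ v.1 (aeval x G) := by
    rcases hπ.isCoprime_or_dvd G with h | ⟨G', rfl⟩
    · exact (vplc_one v h2 h1 h).ge.trans' h1.le
    · rw [map_mul, map_mul, vplc_one v h2 h1 hG.isCoprime, mul_one]
  have h4 : v.1 (aeval x (π * B')) ≤ v.1 (aeval x π) := by
    rw [map_mul, map_mul]
    exact mul_le_of_le_one_right' (plc_aeval_le v h2 B')
  have h5 := hv v h2
  have h6 : 0 < v.1 (aeval x π) := zero_lt_iff.2 ((_root_.map_ne_zero _).2 (hne hπ.ne_zero))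
  rw [map_div₀, vplc_one v h2 h1 hAB.isCoprime.of_mul_right_left.symm, one_div, inv_pow,
    inv_mul_le_iff₀ (pow_pos (zero_lt_iff.2 ((_root_.map_ne_zero _).2 (hne hB))) _), mul_one] at h5
  exact absurd (((pow_le_pow_left' h3 n).trans h5).trans (pow_le_pow_left' h4 _))
    (pow_lt_pow_right_of_lt_one₀ h6 h1 n.lt_succ_self).not_ge

theorem K1.exists_cen {x : E} {w : Fin m → E} (h : K1 ℓ e D x w) {τ : L} {η : Fin m → L}
    (hη : ∀ j, η j ^ ℓ = (D.F e j).eval τ) : ∃ v : Plc L E, Cn v x w τ η := by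
  obtain ⟨φ, h1, h2⟩ := h.toKG0.lift_ring (B := L) (s := fun _ => τ) (t := fun _ => η)
    fun _ j => by rw [hη, coe_aeval_eq_eval]
  have hx := x_mem_RW (O := L) (fun _ : Unit => x) (fun _ => w) ()
  have hw := w_mem_RW (O := L) (fun _ : Unit => x) (fun _ => w) ()
  have hi : ∀ P : L[X], IsIntegral (Algebra.adjoin L {x}) (aeval x P) := fun P =>
    isIntegral_algebraMap (x := (⟨_, aeval_mem_adjoin_singleton L x⟩ : Algebra.adjoin L {x}))
  obtain ⟨v, hv⟩ := exists_plc (K0.trans h.toKG0) h.fd _ hx (fun a ha =>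
    Algebra.adjoin_le (S := (integralClosure (Algebra.adjoin L {x}) E).restrictScalars L) (by
      rintro _ (⟨_, rfl⟩ | ⟨⟨k, j⟩, rfl⟩)
      · have := hi X
        rwa [aeval_X] at this
      · exact IsIntegral.of_pow h.ok.pos ((h.eq k j).symm ▸ hi _)) ha) φ
  exact ⟨v, h1 () hx ▸ hv ⟨x, hx⟩, fun j => h2 () j (hw j) ▸ hv ⟨w j, hw j⟩⟩

theorem K1.exists_inf {x : E} {w : Fin m → E} (h : K1 ℓ e D x w) : ∃ v : Plc L E, 1 < v.1 x := by
  have hx := K0.trans h.toKG0
  obtain ⟨v, hv⟩ := exists_plc_lt (t := x⁻¹) hx h.fd fun h' => hx (IsAlgebraic.inv_iff.1 h')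
  rw [map_inv₀] at hv
  exact ⟨v, (inv_lt_one₀ (zero_lt_iff.2 ((_root_.map_ne_zero _).2 fun h0 : x = 0 =>
    hx (h0 ▸ isAlgebraic_zero)))).1 hv⟩

end Pool.Agent.Lib.MP_07b2d0_nt.Kh
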